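import Pool.Agent.Lib.B203.Defs

open Set Metric Topology
open scoped ContDiff Quaternion ComplexConjugate

noncomputable section

namespace Pool.B203

/-- Row G1a: a continuous function on a compact set which is constant on the fibres of `f` descends. -/
theorem descend {X Y Z : Type*} [TopologicalSpace X] [TopologicalSpace Y] [T2Space Y]
    [TopologicalSpace Z] [Nonempty Z] {K : Set X} (hK : IsCompact K) {f : X → Y} {g : X → Z}
    (hf : ContinuousOn f K) (hg : ContinuousOn g K)
    (h : ∀ x ∈ K, ∀ y ∈ K, f x = f y → g x = g y) :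
    ∃ G : Y → Z, ContinuousOn G (f '' K) ∧ ∀ x ∈ K, G (f x) = g x := by
  classical
  let G : Y → Z := fun y => if hy : ∃ x ∈ K, f x = y then g (Classical.choose hy) else
    Classical.arbitrary Z
  have hG : ∀ x ∈ K, G (f x) = g x := by
    intro x hx
    have hy : ∃ x' ∈ K, f x' = f x := ⟨x, hx, rfl⟩
    have e : G (f x) = g (Classical.choose hy) := dif_pos hy
    rw [e]
    exact h _ (Classical.choose_spec hy).1 _ hx (Classical.choose_spec hy).2
  have : CompactSpace K := isCompact_iff_compactSpace.1 hK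
  let F : K → f '' K := fun x => ⟨f x, mem_image_of_mem f x.2⟩
  have hF : Continuous F := Continuous.subtype_mk (continuousOn_iff_continuous_domRestrict.1 hf) _
  have hs : Function.Surjective F := by
    rintro ⟨y, x, hx, rfl⟩
    exact ⟨⟨x, hx⟩, rfl⟩
  have hq : IsQuotientMap F := hF.isClosedMap.isQuotientMap hF hs
  refine ⟨G, continuousOn_iff_continuous_domRestrict.2 (hq.continuous_iff.2 ?_), hG⟩
  have e : (f '' K).domRestrict G ∘ F = K.domRestrict g := by
    funext x
    exact hG x x.2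
  rw [e]
  exact continuousOn_iff_continuous_domRestrict.1 hg

theorem Descend_arg_neg {w : ℂ} (hw : w ≠ 0) :
    ∃ k : ℤ, Complex.arg w = Complex.arg (-w) + Real.pi + k * (2 * Real.pi) := by
  have h1 := Complex.arg_neg_coe_angle hw
  have h2 : ((Complex.arg (-w) + Real.pi : ℝ) : Real.Angle) = (Complex.arg w : Real.Angle) := by
    rw [Real.Angle.coe_add, h1, add_assoc, Real.Angle.coe_pi_add_coe_pi, add_zero]
  obtain ⟨k, hk⟩ := Real.Angle.angle_eq_iff_two_pi_dvd_sub.1 h2.symm
  exact ⟨k, by linarith⟩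

theorem Descend_per {V Z : Type*} {F : ℝ × V → Z}
    (hper : ∀ t v, F (t + 2 * Real.pi, v) = F (t, v)) {w : ℂ} (hw : w ≠ 0) (v : V) :
    F (Complex.arg w, v) = F (Complex.arg (-w) + Real.pi, v) := by
  obtain ⟨k, hk⟩ := Descend_arg_neg hw
  have h1 : Function.Periodic (fun t => F (t, v)) (2 * Real.pi) := fun t => hper t v
  rw [hk]
  exact h1.int_mul k _

theorem Descend_neg_mem {w : ℂ} (hw : w ≠ 0) (h : w ∉ Complex.slitPlane) :
    -w ∈ Complex.slitPlane ∧ Complex.arg w = Real.pi ∧ Complex.arg (-w) = 0 := by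
  rw [Complex.mem_slitPlane_iff, not_or, not_lt, not_not] at h
  have h1 : w.re < 0 := by
    refine lt_of_le_of_ne h.1 fun h0 => hw ?_
    exact Complex.ext h0 h.2
  have e : w = ((w.re : ℝ) : ℂ) := Complex.ext rfl (by simpa using h.2)
  refine ⟨?_, ?_, ?_⟩
  · rw [Complex.mem_slitPlane_iff]
    left
    rw [Complex.neg_re]
    linarith
  · rw [e]
    exact Complex.arg_ofReal_of_neg h1
  · rw [e, ← Complex.ofReal_neg]
    exact Complex.arg_ofReal_of_nonneg (by linarith)

/-- Row G1b -/
theorem periodic_arg_continuousAt {V Z : Type*} [TopologicalSpace V] [TopologicalSpace Z]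
    {F : ℝ × V → Z} (hF : Continuous F) (hper : ∀ t v, F (t + 2 * Real.pi, v) = F (t, v))
    {w : ℂ} (hw : w ≠ 0) (v : V) :
    ContinuousAt (fun p : ℂ × V => F (Complex.arg p.1, p.2)) (w, v) := by
  by_cases hs : w ∈ Complex.slitPlane
  · have h1 : ContinuousAt (fun p : ℂ × V => Complex.arg p.1) (w, v) :=
      ContinuousAt.comp (g := Complex.arg) (f := Prod.fst) (x := (w, v))
        (Complex.continuousAt_arg hs) continuousAt_fst
    exact hF.continuousAt.comp (h1.prodMk continuousAt_snd)
  · obtain ⟨h1, -, -⟩ := Descend_neg_mem hw hs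
    have h2 : ContinuousAt (fun p : ℂ × V => Complex.arg (-p.1) + Real.pi) (w, v) := by
      refine ContinuousAt.add ?_ continuousAt_const
      exact ContinuousAt.comp (g := Complex.arg) (f := fun p : ℂ × V => -p.1) (x := (w, v))
        (Complex.continuousAt_arg h1) continuousAt_fst.neg
    have h3 : ContinuousAt (fun p : ℂ × V => F (Complex.arg (-p.1) + Real.pi, p.2)) (w, v) :=
      hF.continuousAt.comp (h2.prodMk continuousAt_snd)
    refine h3.congr ?_
    have h4 : ∀ᶠ p : ℂ × V in 𝓝 (w, v), p.1 ≠ 0 :=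
      continuousAt_fst.eventually_ne hw
    filter_upwards [h4] with p hp
    exact (Descend_per hper hp p.2).symm

theorem Descend_contDiffAt_arg {w : ℂ} (hw : w ∈ Complex.slitPlane) :
    ContDiffAt ℝ ∞ Complex.arg w := by
  have h1 : ContDiffAt ℝ ∞ Complex.log w := (Complex.contDiffAt_log hw).restrict_scalars ℝ
  have h2 : Complex.arg = fun z => Complex.imCLM (Complex.log z) := by
    funext z
    simp [Complex.log_im]
  rw [h2]
  exact Complex.imCLM.contDiff.contDiffAt.comp w h1

/-- Row G1c -/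
theorem periodic_arg_contDiffAt {V Z : Type*} [NormedAddCommGroup V] [NormedSpace ℝ V]
    [NormedAddCommGroup Z] [NormedSpace ℝ Z]
    {F : ℝ × V → Z} (hper : ∀ t v, F (t + 2 * Real.pi, v) = F (t, v))
    {w : ℂ} (hw : w ≠ 0) (v : V) (hF : ContDiffAt ℝ ∞ F (Complex.arg w, v)) :
    ContDiffAt ℝ ∞ (fun p : ℂ × V => F (Complex.arg p.1, p.2)) (w, v) := by
  by_cases hs : w ∈ Complex.slitPlane
  · have h1 : ContDiffAt ℝ ∞ (fun p : ℂ × V => Complex.arg p.1) (w, v) :=
      ContDiffAt.comp (g := Complex.arg) (f := Prod.fst) (w, v)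
        (Descend_contDiffAt_arg hs) contDiffAt_fst
    exact ContDiffAt.comp (g := F) (f := fun p : ℂ × V => (Complex.arg p.1, p.2)) (w, v) hF
      (h1.prodMk contDiffAt_snd)
  · obtain ⟨h1, e1, e2⟩ := Descend_neg_mem hw hs
    have h2 : ContDiffAt ℝ ∞ (fun p : ℂ × V => Complex.arg (-p.1) + Real.pi) (w, v) := by
      refine ContDiffAt.add ?_ contDiffAt_const
      exact ContDiffAt.comp (g := Complex.arg) (f := fun p : ℂ × V => -p.1) (w, v)
        (Descend_contDiffAt_arg h1) contDiffAt_fst.neg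
    have hF' : ContDiffAt ℝ ∞ F (Complex.arg (-(w, v).1) + Real.pi, (w, v).2) := by
      simp only [e2, zero_add]
      rwa [e1] at hF
    have h3 : ContDiffAt ℝ ∞ (fun p : ℂ × V => F (Complex.arg (-p.1) + Real.pi, p.2)) (w, v) :=
      ContDiffAt.comp (g := F) (f := fun p : ℂ × V => (Complex.arg (-p.1) + Real.pi, p.2)) (w, v)
        hF' (h2.prodMk contDiffAt_snd)
    refine h3.congr_of_eventuallyEq ?_
    have h4 : ∀ᶠ p : ℂ × V in 𝓝 (w, v), p.1 ≠ 0 :=
      continuousAt_fst.eventually_ne hw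
    filter_upwards [h4] with p hp
    exact Descend_per hper hp p.2

end Pool.B203
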