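import Pool.Agent.Lib.B203.DegDefs
import Pool.Agent.Lib.B203.Descend

/-! Row Deg: existence and uniqueness of the degree. -/

open Set Metric Topology
open scoped ContDiff Quaternion ComplexConjugate

noncomputable section

namespace Pool.B203

/-- the radial retraction onto the closed unit ball -/
private def degRetr (x : E3) : E3 := (max 1 ‖x‖)⁻¹ • x

private theorem degRetr_cont : Continuous degRetr := by
  unfold degRetr
  refine Continuous.smul (Continuous.inv₀ (continuous_const.max continuous_norm) fun x => ?_)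
    continuous_id
  have : (1 : ℝ) ≤ max 1 ‖x‖ := le_max_left _ _
  linarith

private theorem degRetr_norm (x : E3) : ‖degRetr x‖ ≤ 1 := by
  have h1 : (1 : ℝ) ≤ max 1 ‖x‖ := le_max_left _ _
  have h2 : ‖x‖ ≤ max 1 ‖x‖ := le_max_right _ _
  rw [degRetr, norm_smul, norm_inv, Real.norm_of_nonneg (by linarith)]
  rw [inv_mul_le_iff₀ (by linarith), mul_one]
  exact h2

private theorem degRetr_eq {x : E3} (h : ‖x‖ ≤ 1) : degRetr x = x := by
  rw [degRetr, max_eq_left h, inv_one, one_smul]

theorem exists_deg {f : Amb → ℂ} (hf : ContinuousOn f W) (h1 : ∀ p ∈ W, ‖f p‖ = 1) :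
    ∃ d, IsDeg d f := by
  have hmem : ∀ q : ℝ × E3, (((Circle.exp q.1 : Circle) : ℂ), degRetr q.2) ∈ W := fun q =>
    ⟨Circle.norm_coe _, degRetr_norm _⟩
  have hc0 : Continuous fun q : ℝ × E3 => f (((Circle.exp q.1 : Circle) : ℂ), degRetr q.2) := by
    refine hf.comp_continuous ?_ hmem
    exact Continuous.prodMk (continuous_subtype_val.comp (Circle.exp.continuous.comp continuous_fst))
      (degRetr_cont.comp continuous_snd)
  let g : C(ℝ × E3, Circle) := ⟨fun q => ⟨f (((Circle.exp q.1 : Circle) : ℂ), degRetr q.2),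
    mem_sphere_zero_iff_norm.2 (h1 _ (hmem q))⟩, Continuous.subtype_mk hc0 _⟩
  have hg : ∀ q : ℝ × E3, ((g q : Circle) : ℂ) =
    f (((Circle.exp q.1 : Circle) : ℂ), degRetr q.2) := fun q => rfl
  have hsc : SimplyConnectedSpace (ℝ × E3) := inferInstance
  have hlp : LocallyPathConnectedSpace (ℝ × E3) := inferInstance
  obtain ⟨e₀, he₀⟩ : ∃ e₀ : ℝ, Circle.exp e₀ = g (0, 0) := ⟨_, Circle.exp_arg _⟩
  obtain ⟨θ, ⟨-, hθ⟩, -⟩ := Circle.isCoveringMap_exp.existsUnique_continuousMap_lifts g
    ((0 : ℝ), (0 : E3)) e₀ he₀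
  have hθ' : ∀ q, Circle.exp (θ q) = g q := fun q => congrFun hθ q
  have hgper : ∀ t x, g (t + 2 * Real.pi, x) = g (t, x) := by
    intro t x
    apply Circle.ext
    rw [hg, hg]
    simp only [Circle.exp_add_two_pi]
  obtain ⟨d, hd⟩ := Circle.exp_eq_exp.1 ((hθ' (0 + 2 * Real.pi, 0)).trans
    ((hgper 0 0).trans (hθ' (0, 0)).symm))
  have hper : ∀ t x, θ (t + 2 * Real.pi, x) = θ (t, x) + d * (2 * Real.pi) := by
    have h2 := Circle.isCoveringMap_exp.eq_of_comp_eq (A := ℝ × E3)
      (g₁ := fun q => θ (q.1 + 2 * Real.pi, q.2)) (g₂ := fun q => θ q + d * (2 * Real.pi))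
      (by fun_prop) (by fun_prop) (by
        funext q
        simp only [Function.comp_apply]
        rw [hθ', hgper, Circle.exp_add, Circle.exp_int_mul_two_pi, mul_one, hθ']) (0, 0) hd
    intro t x
    exact congrFun h2 (t, x)
  refine ⟨d, fun p => θ (Complex.arg p.1, p.2) - d * Complex.arg p.1, ?_, ?_⟩
  · intro p hp
    have hp0 : p.1 ≠ 0 := by
      intro h
      have := hp.1
      rw [h, norm_zero] at this
      exact zero_ne_one this
    have h3 := periodic_arg_continuousAt (V := E3) (Z := ℝ)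
      (F := fun q => θ q - d * q.1) (by fun_prop) (by
        intro t x
        simp only [hper]
        ring) hp0 p.2
    exact h3.continuousWithinAt
  · intro p hp
    have harg : ((Circle.exp (Complex.arg p.1) : Circle) : ℂ) = p.1 := by
      rw [Circle.coe_exp]
      have := Complex.norm_mul_exp_arg_mul_I p.1
      rwa [hp.1, Complex.ofReal_one, one_mul] at this
    have h4 : Complex.exp ((θ (Complex.arg p.1, p.2) : ℝ) * Complex.I) = f p := by
      have := congrArg (fun c : Circle => (c : ℂ)) (hθ' (Complex.arg p.1, p.2))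
      simp only [hg, Circle.coe_exp] at this
      rw [this]
      have h5 : Complex.exp ((Complex.arg p.1 : ℝ) * Complex.I) = p.1 := by
        rw [← Circle.coe_exp]; exact harg
      rw [h5, degRetr_eq hp.2]
    have h6 : p.1 ^ d = Complex.exp (((d : ℝ) * Complex.arg p.1 : ℝ) * Complex.I) := by
      have h7 : Complex.exp ((Complex.arg p.1 : ℝ) * Complex.I) = p.1 := by
        rw [← Circle.coe_exp]; exact harg
      conv_lhs => rw [← h7, ← Complex.exp_int_mul]
      congr 1
      push_cast
      ring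
    rw [h6, ← h4, ← Complex.exp_add]
    congr 1
    push_cast
    ring

theorem deg_unique {f : Amb → ℂ} {d d' : ℤ} (h : IsDeg d f) (h' : IsDeg d' f) : d = d' := by
  obtain ⟨lam, hl, hf⟩ := h
  obtain ⟨lam', hl', hf'⟩ := h'
  have hmem : ∀ t : ℝ, (((Circle.exp t : Circle) : ℂ), (0 : E3)) ∈ W := fun t =>
    ⟨Circle.norm_coe _, by simp⟩
  have hc : Continuous fun t : ℝ => (((Circle.exp t : Circle) : ℂ), (0 : E3)) :=
    Continuous.prodMk (continuous_subtype_val.comp Circle.exp.continuous) continuous_const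
  have c1 : Continuous fun t : ℝ => lam (((Circle.exp t : Circle) : ℂ), (0 : E3)) :=
    hl.comp_continuous hc hmem
  have c2 : Continuous fun t : ℝ => lam' (((Circle.exp t : Circle) : ℂ), (0 : E3)) :=
    hl'.comp_continuous hc hmem
  have key : ∀ t : ℝ, Circle.exp ((d : ℝ) * t + lam (((Circle.exp t : Circle) : ℂ), (0 : E3))) =
      Circle.exp ((d' : ℝ) * t + lam' (((Circle.exp t : Circle) : ℂ), (0 : E3))) := by
    intro t
    apply Circle.ext
    have e1 := (hf _ (hmem t)).symm.trans (hf' _ (hmem t))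
    have e2 : ∀ (k : ℤ) (s : ℝ), ((Circle.exp ((k : ℝ) * t + s) : Circle) : ℂ) =
        ((Circle.exp t : Circle) : ℂ) ^ k * Complex.exp (s * Complex.I) := by
      intro k s
      rw [Circle.coe_exp, Circle.coe_exp, ← Complex.exp_int_mul, ← Complex.exp_add]
      congr 1
      push_cast
      ring
    rw [e2, e2]
    exact e1
  obtain ⟨n, hn⟩ := Circle.exp_eq_exp.1 (key 0)
  have h2 := Circle.isCoveringMap_exp.eq_of_comp_eq (A := ℝ)
    (g₁ := fun t => (d : ℝ) * t + lam (((Circle.exp t : Circle) : ℂ), (0 : E3)))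
    (g₂ := fun t => (d' : ℝ) * t + lam' (((Circle.exp t : Circle) : ℂ), (0 : E3)) +
      n * (2 * Real.pi))
    ((continuous_const.mul continuous_id).add c1)
    (((continuous_const.mul continuous_id).add c2).add continuous_const) (by
      funext t
      simp only [Function.comp_apply]
      rw [key, Circle.exp_add _ ((n : ℝ) * (2 * Real.pi)), Circle.exp_int_mul_two_pi, mul_one])
    0 hn
  have h3 := congrFun h2 (2 * Real.pi)
  have h4 := congrFun h2 0
  simp only [Circle.exp_two_pi, Circle.exp_zero] at h3 h4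
  have h5 : ((d : ℝ) - d') * (2 * Real.pi) = 0 := by linarith
  have h6 : (d : ℝ) - d' = 0 := by
    rcases mul_eq_zero.1 h5 with h | h
    · exact h
    · have := Real.pi_pos
      linarith
  exact_mod_cast sub_eq_zero.1 h6

end Pool.B203
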