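import Pool.Agent.Lib.B203.Fab
import Pool.Agent.Lib.B203.Deg

/-! Row DegFab: the degree of `fab`. -/

open Set Metric Topology
open scoped ContDiff Quaternion ComplexConjugate

noncomputable section

namespace Pool.B203

namespace DegFabAux

/-- The parameter domain of a collar. -/
def KK : Set (E3 × ℝ) := closedBall (0 : E3) 1 ×ˢ Icc (-1 : ℝ) 1

theorem isCompact_KK : IsCompact KK := (isCompact_closedBall _ _).prod isCompact_Icc

/-- Inverse of an injective continuous map of a compact set. -/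
theorem continuousOn_leftInv {X Y : Type*} [TopologicalSpace X] [TopologicalSpace Y] [T2Space Y]
    {K : Set X} (hK : IsCompact K) {E : X → Y} (hc : ContinuousOn E K)
    {g : Y → X} (hg : ∀ q ∈ K, g (E q) = q) : ContinuousOn g (E '' K) := by
  rw [continuousOn_iff_isClosed]
  intro F hF
  refine ⟨E '' (K ∩ F), ?_, ?_⟩
  · exact ((hK.inter_right hF).image_of_continuousOn (hc.mono inter_subset_left)).isClosed
  · ext y
    constructor
    · rintro ⟨hy1, q, hq, rfl⟩
      have hy2 : g (E q) ∈ F := hy1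
      rw [hg q hq] at hy2
      exact ⟨⟨q, ⟨hq, hy2⟩, rfl⟩, ⟨q, hq, rfl⟩⟩
    · rintro ⟨⟨q, ⟨hq, hqF⟩, rfl⟩, _⟩
      refine ⟨?_, ⟨q, hq, rfl⟩⟩
      show g (E q) ∈ F
      rw [hg q hq]; exact hqF

open Classical in
/-- The inverse of the collar map. -/
def inv (E : E3 × ℝ → Amb) (p : Amb) : E3 × ℝ := if h : ∃ q ∈ KK, E q = p then h.choose else 0

section
variable {B : Set Amb} {E : E3 × ℝ → Amb} (hE : Collar B E)
include hE

theorem inv_apply {q : E3 × ℝ} (hq : q ∈ KK) : inv E (E q) = q := by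
  have h : ∃ q' ∈ KK, E q' = E q := ⟨q, hq, rfl⟩
  unfold inv
  rw [dif_pos h]
  exact hE.inj h.choose_spec.1 hq h.choose_spec.2

theorem continuousOn_inv : ContinuousOn (inv E) (E '' KK) :=
  continuousOn_leftInv isCompact_KK hE.cont (fun _ hq => inv_apply hE hq)

theorem isClosed_EKK : IsClosed (E '' KK) :=
  (isCompact_KK.image_of_continuousOn hE.cont).isClosed

omit hE in
theorem isClosed_W : IsClosed W := by
  have h : W = {p : Amb | ‖p.1‖ = 1} ∩ {p : Amb | ‖p.2‖ ≤ 1} := rfl
  rw [h]
  exact (isClosed_eq (by fun_prop) continuous_const).inter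
    (isClosed_le (by fun_prop) continuous_const)

/-- Pasting a function on the collar with zero. -/
theorem continuousOn_paste {φ : Amb → ℝ} (h1 : ContinuousOn φ (E '' KK))
    (h2 : ∀ p ∈ W, p ∉ E '' (closedBall (0 : E3) 1 ×ˢ Ioo (-1 : ℝ) 1) → φ p = 0) :
    ContinuousOn φ W := by
  obtain ⟨O, hO, hO2⟩ := hE.opn (-1) 1 le_rfl le_rfl
  have hz : ContinuousOn φ (W ∩ Oᶜ) := by
    refine (continuousOn_const (c := (0 : ℝ))).congr ?_
    rintro p ⟨hp, hpO⟩
    refine h2 p hp ?_
    rw [hO2]
    exact fun h => hpO h.1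
  have hu := ContinuousOn.union_of_isClosed h1 hz (isClosed_EKK hE) (isClosed_W.inter hO.isClosed_compl)
  refine hu.mono ?_
  intro p hp
  by_cases hpO : p ∈ O
  · left
    have : p ∈ E '' (closedBall (0 : E3) 1 ×ˢ Ioo (-1 : ℝ) 1) := by rw [hO2]; exact ⟨hpO, hp⟩
    obtain ⟨q, hq, rfl⟩ := this
    exact ⟨q, ⟨hq.1, Ioo_subset_Icc_self hq.2⟩, rfl⟩
  · right; exact ⟨hp, hpO⟩

/-- The points of the collar off `B`. -/
theorem E_mem_compl {x : E3} (hx : x ∈ closedBall (0 : E3) 1) {t : ℝ} (ht : t ∈ Icc (-1 : ℝ) 1)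
    (ht0 : t ≠ 0) : E (x, t) ∈ W \ B := by
  refine ⟨hE.maps ⟨hx, ht⟩, fun h => ?_⟩
  rw [← hE.zero] at h
  obtain ⟨y, hy, hyx⟩ := h
  have := hE.inj (show ((y, (0:ℝ)) : E3 × ℝ) ∈ closedBall (0 : E3) 1 ×ˢ Icc (-1) 1 from
    ⟨hy, by constructor <;> norm_num⟩) (show ((x, t) : E3 × ℝ) ∈ _ from ⟨hx, ht⟩) hyx
  exact ht0 (by simpa using (congrArg Prod.snd this).symm)

theorem E_zero_mem {x : E3} (hx : x ∈ closedBall (0 : E3) 1) : E (x, 0) ∈ B := by
  rw [← hE.zero]; exact ⟨x, hx, rfl⟩

/-- `W ∖ B` is dense in `W`. -/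
theorem dense_compl : W ⊆ closure (W \ B) := by
  intro p hp
  by_cases hpB : p ∈ B
  · rw [← hE.zero] at hpB
    obtain ⟨x, hx, rfl⟩ := hpB
    have hc : ContinuousOn (fun t : ℝ => E (x, t)) (Icc 0 1) := by
      refine hE.cont.comp (by fun_prop) ?_
      intro t ht
      exact ⟨hx, ⟨by linarith [ht.1], ht.2⟩⟩
    have h0 : (0 : ℝ) ∈ closure (Ioc (0 : ℝ) 1) := by
      rw [closure_Ioc (by norm_num)]; exact ⟨le_rfl, by norm_num⟩
    have hcl : ContinuousWithinAt (fun t : ℝ => E (x, t)) (Ioc 0 1) 0 :=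
      (hc 0 ⟨le_rfl, by norm_num⟩).mono Ioc_subset_Icc_self
    refine hcl.mem_closure h0 ?_
    intro t ht
    exact E_mem_compl hE hx ⟨by linarith [ht.1], ht.2⟩ ht.1.ne'
  · exact subset_closure ⟨hp, hpB⟩

end

theorem mem_slitPlane {z : ℂ} (h1 : ‖z‖ = 1) (h2 : z ≠ -1) : z ∈ Complex.slitPlane := by
  by_contra h
  rw [Complex.mem_slitPlane_iff, not_or, not_lt, not_not] at h
  obtain ⟨hr, hi⟩ := h
  apply h2
  have hz : z = (z.re : ℂ) := Complex.ext (by simp) (by simp [hi])
  rw [hz, Complex.norm_real, Real.norm_eq_abs, abs_of_nonpos hr] at h1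
  rw [hz]
  have : z.re = -1 := by linarith
  rw [this]; push_cast; rfl

/-- A continuous real function on a preconnected set whose exponential is a given constant is constant. -/
theorem const_of_exp {X : Type*} [TopologicalSpace X] {S : Set X} (hS : IsPreconnected S)
    {u : X → ℝ} (hu : ContinuousOn u S)
    (h : ∀ p ∈ S, Complex.exp (u p * Complex.I) = 1) {p q : X} (hp : p ∈ S) (hq : q ∈ S) : u p = u q := by
  have hk : ∀ p ∈ S, ∃ n : ℤ, u p / (2 * Real.pi) = n := by
    intro p hp
    obtain ⟨n, hn⟩ := Complex.exp_eq_one_iff.1 (h p hp)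
    refine ⟨n, ?_⟩
    have : (u p : ℂ) * Complex.I = ((n * (2 * Real.pi) : ℝ) : ℂ) * Complex.I := by
      rw [hn]; push_cast; ring
    have h2 := mul_right_cancel₀ Complex.I_ne_zero this
    have h3 : u p = n * (2 * Real.pi) := by exact_mod_cast h2
    rw [h3]; field_simp
  have hr : MapsTo (fun p => u p / (2 * Real.pi)) S (range ((↑) : ℤ → ℝ)) := by
    intro p hp
    obtain ⟨n, hn⟩ := hk p hp
    exact ⟨n, hn.symm⟩
  have hd : DiscreteTopology (range ((↑) : ℤ → ℝ)) :=
    (Int.isClosedEmbedding_coe_real.toIsEmbedding.toHomeomorph).symm.isEmbedding.discreteTopology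
  have h3 : u p / (2 * Real.pi) = u q / (2 * Real.pi) :=
    hS.constant_of_mapsTo ⟨hd⟩ (hu.div_const _) hr hp hq
  have hpi : (2 * Real.pi) ≠ 0 := by positivity
  exact (div_left_inj' hpi).1 h3

theorem clamp_of_mem {s : ℝ} (h0 : 0 ≤ s) (h1 : s ≤ 1) : clamp s = s := by
  unfold clamp; rw [min_eq_right h1, max_eq_right h0]

theorem clamp_of_nonpos {s : ℝ} (h0 : s ≤ 0) : clamp s = 0 := by
  unfold clamp; rw [max_eq_left]; exact (min_le_right _ _).trans h0

theorem clamp_of_one_le {s : ℝ} (h0 : 1 ≤ s) : clamp s = 1 := by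
  unfold clamp; rw [min_eq_left h0, max_eq_right zero_le_one]

theorem continuous_clamp : Continuous clamp := by
  unfold clamp; fun_prop

section
variable {B : Set Amb} {E : E3 × ℝ → Amb} (hE : Collar B E)
include hE

/-- The basic function `fab E (-1) 1`. -/
theorem f_apply {x : E3} (hx : x ∈ closedBall (0 : E3) 1) {t : ℝ} (ht : t ∈ Icc (-1 : ℝ) 1) :
    fab E (-1) 1 (E (x, t)) = Complex.exp ((Real.pi * (t + 1) : ℝ) * Complex.I) := by
  rw [fab_apply hE (by norm_num) hx ht, clamp_of_mem (by linarith [ht.1]) (by linarith [ht.2])]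
  congr 3; ring_nf

theorem f_ne {p : Amb} (hp : p ∈ W \ B) : fab E (-1) 1 p ≠ -1 := by
  intro h
  rw [fab_eq_neg_one_iff hE le_rfl (by norm_num) le_rfl] at h
  obtain ⟨x, hx, hxp⟩ := h
  apply hp.2
  rw [← hE.zero]
  refine ⟨x, hx, ?_⟩
  rw [← hxp]; norm_num

theorem f_slit {p : Amb} (hp : p ∈ W \ B) : fab E (-1) 1 p ∈ Complex.slitPlane :=
  mem_slitPlane (norm_fab hE p) (f_ne hE hp)

/-- The principal argument of the basic function is continuous off `B`. -/
theorem continuousOn_arg : ContinuousOn (fun p => Complex.arg (fab E (-1) 1 p)) (W \ B) := by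
  intro p hp
  have h1 : ContinuousWithinAt (fab E (-1) 1) (W \ B) p :=
    ((continuousOn_fab hE le_rfl (by norm_num) le_rfl).mono sdiff_subset) p hp
  exact (Complex.continuousAt_arg (f_slit hE hp)).comp_continuousWithinAt h1

theorem exp_arg (p : Amb) :
    fab E (-1) 1 p = Complex.exp ((Complex.arg (fab E (-1) 1 p) : ℝ) * Complex.I) := by
  have h := Complex.norm_mul_exp_arg_mul_I (fab E (-1) 1 p)
  rw [norm_fab hE p] at h
  simpa using h.symm

theorem arg_pos {x : E3} (hx : x ∈ closedBall (0 : E3) 1) {t : ℝ} (ht : 0 < t) (ht1 : t ≤ 1) :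
    Complex.arg (fab E (-1) 1 (E (x, t))) = Real.pi * (t - 1) := by
  rw [f_apply hE hx ⟨by linarith, ht1⟩]
  have : ((Real.pi * (t + 1) : ℝ) : ℂ) * Complex.I
      = ((Real.pi * (t - 1) : ℝ) : ℂ) * Complex.I + 2 * Real.pi * Complex.I := by
    push_cast; ring
  rw [this, Complex.exp_periodic]
  have hpi := Real.pi_pos
  rw [Complex.arg_exp_mul_I, toIocMod_eq_self]
  constructor
  · nlinarith
  · nlinarith

theorem arg_neg {x : E3} (hx : x ∈ closedBall (0 : E3) 1) {t : ℝ} (ht : t < 0) (ht1 : -1 ≤ t) :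
    Complex.arg (fab E (-1) 1 (E (x, t))) = Real.pi * (t + 1) := by
  rw [f_apply hE hx ⟨ht1, by linarith⟩]
  have hpi := Real.pi_pos
  rw [Complex.arg_exp_mul_I, toIocMod_eq_self]
  constructor
  · nlinarith
  · nlinarith

/-- All `fab` have the same degree as the basic one. -/
theorem isDeg_of_basic {d : ℤ} (hd : IsDeg d (fab E (-1) 1)) {a b : ℝ} (ha : -1 ≤ a) (hab : a < b)
    (hb : b ≤ 1) : IsDeg d (fab E a b) := by
  obtain ⟨lam, hlam, hl⟩ := hd
  classical
  set mu : Amb → ℝ := fun p => if p ∈ E '' KK then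
    2 * Real.pi * (clamp (((inv E p).2 - a) / (b - a)) - clamp (((inv E p).2 - (-1)) / (1 - (-1))))
    else 0 with hmu
  have hmuE : ∀ q ∈ KK, mu (E q) =
      2 * Real.pi * (clamp ((q.2 - a) / (b - a)) - clamp ((q.2 - (-1)) / (1 - (-1)))) := by
    intro q hq
    rw [hmu]
    simp only [if_pos (show E q ∈ E '' KK from ⟨q, hq, rfl⟩), inv_apply hE hq]
  have hmuc : ContinuousOn mu W := by
    refine continuousOn_paste hE ?_ ?_
    · have hi := continuousOn_inv hE
      have h2 : ContinuousOn (fun p => (inv E p).2) (E '' KK) := continuous_snd.comp_continuousOn hi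
      have : ContinuousOn (fun p => 2 * Real.pi * (clamp (((inv E p).2 - a) / (b - a))
          - clamp (((inv E p).2 - (-1)) / (1 - (-1))))) (E '' KK) := by
        refine continuousOn_const.mul (ContinuousOn.sub ?_ ?_)
        · exact continuous_clamp.comp_continuousOn ((h2.sub continuousOn_const).div_const _)
        · exact continuous_clamp.comp_continuousOn ((h2.sub continuousOn_const).div_const _)
      refine this.congr ?_
      intro p hp
      rw [hmu]; simp only [if_pos hp]
    · intro p hp hpn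
      by_cases hpE : p ∈ E '' KK
      · obtain ⟨⟨x, t⟩, hq, rfl⟩ := hpE
        rw [hmuE _ hq]
        have ht : t = -1 ∨ t = 1 := by
          by_contra hcon
          rw [not_or] at hcon
          exact hpn ⟨(x, t), ⟨hq.1, lt_of_le_of_ne hq.2.1 (Ne.symm hcon.1),
            lt_of_le_of_ne hq.2.2 hcon.2⟩, rfl⟩
        have hba : 0 < b - a := by linarith
        rcases ht with rfl | rfl
        · show 2 * Real.pi * (clamp ((-1 - a) / (b - a)) - clamp ((-1 - (-1)) / (1 - (-1)))) = 0
          rw [clamp_of_nonpos (div_nonpos_of_nonpos_of_nonneg (by linarith) hba.le),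
            clamp_of_nonpos (by norm_num)]
          ring
        · show 2 * Real.pi * (clamp ((1 - a) / (b - a)) - clamp ((1 - (-1)) / (1 - (-1)))) = 0
          rw [clamp_of_one_le (by rw [le_div_iff₀ hba]; linarith), clamp_of_one_le (by norm_num)]
          ring
      · rw [hmu]; simp only [if_neg hpE]
  refine ⟨fun p => lam p + mu p, hlam.add hmuc, fun p hp => ?_⟩
  have key : fab E a b p = fab E (-1) 1 p * Complex.exp (mu p * Complex.I) := by
    by_cases hpE : p ∈ E '' KK
    · obtain ⟨⟨x, t⟩, hq, rfl⟩ := hpE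
      rw [hmuE _ hq, fab_apply hE hab hq.1 hq.2, fab_apply hE (by norm_num) hq.1 hq.2, ← Complex.exp_add]
      congr 1; push_cast; ring
    · have h1 : p ∉ E '' (closedBall (0 : E3) 1 ×ˢ Icc a b) := by
        rintro ⟨q, hq, rfl⟩
        exact hpE ⟨q, ⟨hq.1, ha.trans hq.2.1, hq.2.2.trans hb⟩, rfl⟩
      rw [fab_of_not_mem hE ha hab hb h1, fab_of_not_mem hE le_rfl (by norm_num) le_rfl hpE]
      rw [hmu]; simp only [if_neg hpE]; simp
  rw [key, hl p hp]
  push_cast
  rw [add_mul, Complex.exp_add, mul_assoc]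

end

end DegFabAux

open DegFabAux

section
variable {B : Set Amb} {E : E3 × ℝ → Amb} (hE : Collar B E) {a b : ℝ}
include hE

theorem DegFabAux.ne_zero (hconn : IsConnected (W \ B)) {d : ℤ} (hd : IsDeg d (fab E (-1) 1)) : d ≠ 0 := by
  rintro rfl
  obtain ⟨lam, hlam, hl⟩ := hd
  have hx : (0 : E3) ∈ closedBall (0 : E3) 1 := by simp
  -- off `B`
  have h1 : lam (E (0, 1 / 2)) - Complex.arg (fab E (-1) 1 (E (0, 1 / 2)))
      = lam (E (0, -1 / 2)) - Complex.arg (fab E (-1) 1 (E (0, -1 / 2))) := by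
    refine const_of_exp (S := W \ B) (u := fun p => lam p - Complex.arg (fab E (-1) 1 p))
      hconn.isPreconnected ((hlam.mono sdiff_subset).sub (continuousOn_arg hE)) ?_
      (E_mem_compl hE hx (by constructor <;> norm_num) (by norm_num))
      (E_mem_compl hE hx (by constructor <;> norm_num) (by norm_num))
    intro p hp
    have e1 := hl p hp.1
    rw [zpow_zero, one_mul] at e1
    have e2 := exp_arg hE p
    push_cast
    rw [sub_mul, Complex.exp_sub, ← e1, div_eq_one_iff_eq (Complex.exp_ne_zero _)]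
    exact e2
  -- along the arc
  have h2 : lam (E (0, 1 / 2)) - Real.pi * (1 / 2 + 1) = lam (E (0, -1 / 2)) - Real.pi * (-1 / 2 + 1) := by
    refine const_of_exp (S := Icc (-1 : ℝ) 1) (u := fun t => lam (E (0, t)) - Real.pi * (t + 1))
      isPreconnected_Icc ?_ ?_ (p := 1 / 2) (q := -1 / 2) (by constructor <;> norm_num)
      (by constructor <;> norm_num)
    · refine ContinuousOn.sub ?_ (by fun_prop)
      refine hlam.comp (hE.cont.comp (by fun_prop) ?_) ?_
      · intro t ht; exact ⟨hx, ht⟩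
      · intro t ht; exact hE.maps ⟨hx, ht⟩
    · intro t ht
      have e1 := hl _ (hE.maps (show ((0, t) : E3 × ℝ) ∈ _ from ⟨hx, ht⟩))
      rw [zpow_zero, one_mul, f_apply hE hx ht] at e1
      push_cast at e1 ⊢
      rw [sub_mul, Complex.exp_sub, ← e1, div_self (Complex.exp_ne_zero _)]
  rw [arg_pos hE hx (by norm_num) (by norm_num), arg_neg hE hx (by norm_num) (by norm_num)] at h1
  have hpi := Real.pi_pos
  nlinarith

theorem DegFabAux.natAbs_le_one (hconn : IsConnected (W \ B)) {d : ℤ} (hd : IsDeg d (fab E (-1) 1)) :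
    d = 1 ∨ d = -1 := by
  have hd0 := DegFabAux.ne_zero hE hconn hd
  by_contra hcon
  have hd2 : 2 ≤ |d| := by
    rw [not_or] at hcon
    by_contra h
    rw [not_le] at h
    have : |d| = 1 := by
      have := abs_pos.2 hd0
      omega
    rcases abs_eq (show (0:ℤ) ≤ 1 by norm_num) |>.1 this with h | h
    · exact hcon.1 h
    · exact hcon.2 h
  obtain ⟨lam, hlam, hl⟩ := hd
  have hdR : (d : ℝ) ≠ 0 := by exact_mod_cast hd0
  have hdR2 : (2 : ℝ) ≤ |(d : ℝ)| := by exact_mod_cast hd2
  -- `g = ζ e^{iλ/d}`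
  set g : Amb → ℂ := fun p => p.1 * Complex.exp ((lam p / d : ℝ) * Complex.I) with hg
  have hgc : ContinuousOn g W := by
    refine continuousOn_fst.mul ?_
    refine Complex.continuous_exp.comp_continuousOn ?_
    refine ContinuousOn.mul ?_ continuousOn_const
    exact Complex.continuous_ofReal.comp_continuousOn (hlam.div_const _)
  have hg1 : ∀ p ∈ W, ‖g p‖ = 1 := by
    intro p hp
    rw [hg]; simp only [norm_mul]
    rw [hp.1, Complex.norm_exp_ofReal_mul_I, mul_one]
  have hgd : ∀ p ∈ W, g p ^ d = fab E (-1) 1 p := by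
    intro p hp
    rw [hl p hp, hg]
    simp only
    rw [mul_zpow, ← Complex.exp_int_mul]
    congr 2
    push_cast
    have : (d : ℂ) ≠ 0 := by exact_mod_cast hd0
    field_simp
  -- `g0 = e^{iA/d}`
  set g0 : Amb → ℂ := fun p => Complex.exp ((Complex.arg (fab E (-1) 1 p) / d : ℝ) * Complex.I) with hg0
  have hg0c : ContinuousOn g0 (W \ B) := by
    refine Complex.continuous_exp.comp_continuousOn ?_
    refine ContinuousOn.mul ?_ continuousOn_const
    exact Complex.continuous_ofReal.comp_continuousOn ((continuousOn_arg hE).div_const _)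
  have hg0ne : ∀ p, g0 p ≠ 0 := fun p => Complex.exp_ne_zero _
  have hg0d : ∀ p, g0 p ^ d = fab E (-1) 1 p := by
    intro p
    conv_rhs => rw [exp_arg hE p]
    rw [hg0]
    simp only
    rw [← Complex.exp_int_mul]
    congr 1
    push_cast
    have : (d : ℂ) ≠ 0 := by exact_mod_cast hd0
    field_simp
  obtain ⟨p0, hp0⟩ := hconn.nonempty
  -- the ratio is constant
  have hfin : ({w : ℂ | w ^ d = 1} : Set ℂ).Finite := by
    have hfin2 : ({w : ℂ | w ^ d.natAbs = 1} : Set ℂ).Finite := by
      have hn : 0 < d.natAbs := Int.natAbs_pos.2 hd0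
      refine (Polynomial.nthRootsFinset d.natAbs (1 : ℂ)).finite_toSet.subset ?_
      intro w hw
      rw [Finset.mem_coe, Polynomial.mem_nthRootsFinset hn]
      exact hw
    refine hfin2.subset ?_
    intro w hw
    have hw' : w ^ d = 1 := hw
    show w ^ d.natAbs = 1
    rcases Int.natAbs_eq d with h | h
    · rw [h, zpow_natCast] at hw'; exact hw'
    · rw [h, zpow_neg, zpow_natCast, inv_eq_one] at hw'; exact hw'
  have hconst : ∀ p ∈ W \ B, g p / g0 p = g p0 / g0 p0 := by
    intro p hp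
    refine hconn.isPreconnected.constant_of_mapsTo (T := {w : ℂ | w ^ d = 1}) hfin.isDiscrete
      (f := fun p => g p / g0 p) ?_ ?_ hp hp0
    · exact (hgc.mono sdiff_subset).div hg0c (fun p _ => hg0ne p)
    · intro p hp
      show (g p / g0 p) ^ d = 1
      rw [div_zpow, hgd p hp.1, hg0d p, div_self]
      intro h
      have := norm_fab hE (a := -1) (b := 1) p
      rw [h, norm_zero] at this
      exact zero_ne_one this
  set w := g p0 / g0 p0 with hw
  have hw1 : ‖w‖ = 1 := by
    rw [hw, norm_div, hg1 p0 hp0.1, hg0]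
    simp only
    rw [Complex.norm_exp_ofReal_mul_I, div_one]
  have hw0 : w ≠ 0 := by
    intro h; rw [h, norm_zero] at hw1; exact zero_ne_one hw1
  -- the real part is nonnegative on `W`
  have hre : ∀ p ∈ W, 0 ≤ (g p / w).re := by
    have hcl : IsClosed {z : ℂ | 0 ≤ z.re} := isClosed_le continuous_const Complex.continuous_re
    intro p hp
    have hp' := dense_compl hE hp
    have hcw : ContinuousWithinAt (fun p => g p / w) (W \ B) p :=
      ((hgc p hp).mono sdiff_subset).div_const w
    have hm := hcw.mem_closure (t := {z : ℂ | 0 ≤ z.re}) hp' (by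
      intro q hq
      show 0 ≤ (g q / w).re
      have e1 := hconst q hq
      have e2 : g q / w = g0 q := by
        rw [div_eq_iff hw0]
        rw [div_eq_iff (hg0ne q)] at e1
        rw [e1]; ring
      rw [e2, hg0]
      simp only
      rw [Complex.exp_ofReal_mul_I_re]
      apply Real.cos_nonneg_of_mem_Icc
      have habs := Complex.abs_arg_le_pi (fab E (-1) 1 q)
      have h3 : |Complex.arg (fab E (-1) 1 q) / d| ≤ Real.pi / 2 := by
        rw [abs_div]
        have hpi := Real.pi_pos
        rw [div_le_div_iff₀ (by linarith) (by norm_num)]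
        nlinarith [abs_nonneg (Complex.arg (fab E (-1) 1 q))]
      rw [abs_le] at h3
      exact ⟨by linarith [h3.1], h3.2⟩)
    rwa [hcl.closure_eq] at hm
  -- two degrees of `g / w`
  have hD0 : IsDeg 0 (fun p => g p / w) := by
    refine ⟨fun p => Complex.arg (g p / w), ?_, ?_⟩
    · intro p hp
      refine (Complex.continuousAt_arg ?_).comp_continuousWithinAt ((hgc p hp).div_const w)
      refine mem_slitPlane ?_ ?_
      · rw [norm_div, hw1, hg1 p hp, div_one]
      · intro h
        have := hre p hp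
        rw [h] at this
        norm_num at this
    · intro p hp
      have h := Complex.norm_mul_exp_arg_mul_I (g p / w)
      rw [norm_div, hw1, hg1 p hp, div_one] at h
      rw [zpow_zero, one_mul]
      simpa using h.symm
  have hD1 : IsDeg 1 (fun p => g p / w) := by
    refine ⟨fun p => lam p / d - Complex.arg w, (hlam.div_const _).sub continuousOn_const, ?_⟩
    intro p hp
    have h := Complex.norm_mul_exp_arg_mul_I w
    rw [hw1] at h
    have hwexp : w = Complex.exp ((Complex.arg w : ℝ) * Complex.I) := by simpa using h.symm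
    simp only [zpow_one]
    rw [div_eq_iff hw0, hg]
    simp only
    conv_rhs => rw [hwexp]
    rw [mul_assoc, ← Complex.exp_add]
    congr 2
    push_cast
    rw [← hwexp]
    ring
  have := deg_unique hD0 hD1
  norm_num at this

/-- Row D3: if `W ∖ B` is connected then all `fab E a b` have the same degree `±1`. -/
theorem deg_fab (hconn : IsConnected (W \ B)) :
    ∃ d : ℤ, (d = 1 ∨ d = -1) ∧ ∀ a b : ℝ, -1 ≤ a → a < b → b ≤ 1 → IsDeg d (fab E a b) := by
  obtain ⟨d, hd⟩ := exists_deg (continuousOn_fab hE (a := -1) (b := 1) le_rfl (by norm_num) le_rfl)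
    (fun p _ => norm_fab hE p)
  exact ⟨d, DegFabAux.natAbs_le_one hE hconn hd, fun a b ha hab hb => isDeg_of_basic hE hd ha hab hb⟩

end

end Pool.B203
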