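import Pool.Agent.Lib.B203.TauDefs
import Pool.Agent.Lib.B203.DegFab

/-! Row BConclOf: the invariant function. -/

open Set Metric Topology
open scoped ContDiff Quaternion ComplexConjugate

noncomputable section

namespace Pool.B203

private theorem bconcl_norm_zh {τ : Amb → Amb} {ζh : Amb → ℂ} {η : Amb → ℝ} (hτ : TauData τ ζh η)
    {p : Amb} (hp : p ∈ W) : ‖ζh p‖ = 1 := by
  rw [hτ.ζη p hp, norm_mul, Complex.norm_exp_ofReal_mul_I, mul_one]
  exact hp.1

private theorem bconcl_conj {z : ℂ} (h : ‖z‖ = 1) : conj z = z⁻¹ := by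
  rw [Complex.inv_def, Complex.normSq_eq_norm_sq, h]
  simp

private theorem bconcl_re_zero {z : ℂ} (h : ‖z‖ = 1) : z.re = 0 ↔ z ^ 2 = -1 := by
  have h1 : z.re ^ 2 + z.im ^ 2 = 1 := by
    have h2 := Complex.sq_norm z
    rw [h, Complex.normSq_apply] at h2
    nlinarith
  constructor
  · intro h0
    apply Complex.ext
    · simp only [sq, Complex.mul_re, Complex.neg_re, Complex.one_re]
      nlinarith
    · simp [sq, h0]
  · intro h0
    have h2 := congrArg Complex.re h0
    simp only [sq, Complex.mul_re, Complex.neg_re, Complex.one_re] at h2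
    nlinarith

/-- Row B10 -/
theorem bconcl_of_slab {τ : Amb → Amb} {ζh : Amb → ℂ} {η : Amb → ℝ} (hτ : TauData τ ζh η) {B : Set Amb}
    {E : E3 × ℝ → Amb} (hE : Collar B E) {d : ℤ} (hd : d = 1 ∨ d = -1) {a b : ℝ}
    (ha : -1 ≤ a) (hab : a < b) (hb : b ≤ 1) (hdeg : IsDeg d (fab E a b))
    (hdis : Disjoint (τ '' (E '' (closedBall 0 1 ×ˢ Icc a b))) (E '' (closedBall 0 1 ×ˢ Icc a b))) :
    BConcl τ ζh := by
  obtain ⟨lam, hlam, hf⟩ := hdeg
  set K : Set Amb := E '' (closedBall 0 1 ×ˢ Icc a b) with hK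
  have hm : (a + b) / 2 ∈ Icc a b := ⟨by linarith, by linarith⟩
  have hm' : (a + b) / 2 ∈ Icc (-1 : ℝ) 1 := ⟨by linarith, by linarith⟩
  have hbK : ∀ x ∈ closedBall (0 : E3) 1, E (x, (a + b) / 2) ∈ K := fun x hx =>
    ⟨(x, (a + b) / 2), ⟨hx, hm⟩, rfl⟩
  have hdis' : ∀ p, p ∈ K → τ p ∉ K := fun p hp hp' =>
    Set.disjoint_left.1 hdis (mem_image_of_mem τ hp) hp'
  set μ : Amb → ℝ := fun p => lam p - d * η p with hμ
  set G : Amb → ℂ := fun p => ζh p ^ d * Complex.exp (((μ p - μ (τ p)) / 2 : ℝ) * Complex.I) with hG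
  have hz1 : ∀ p ∈ W, ‖ζh p‖ = 1 := fun p hp => bconcl_norm_zh hτ hp
  have hz0 : ∀ p ∈ W, ζh p ≠ 0 := fun p hp h => by
    have := hz1 p hp
    rw [h, norm_zero] at this
    exact zero_ne_one this
  have hGn : ∀ p ∈ W, ‖G p‖ = 1 := by
    intro p hp
    rw [hG]
    dsimp only
    rw [norm_mul, norm_zpow, hz1 p hp, one_zpow, Complex.norm_exp_ofReal_mul_I, mul_one]
  -- the function `f`
  have hfz : ∀ p ∈ W, fab E a b p = ζh p ^ d * Complex.exp ((μ p : ℝ) * Complex.I) := by
    intro p hp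
    rw [hf p hp, hτ.ζη p hp, mul_zpow, ← Complex.exp_int_mul, mul_assoc, ← Complex.exp_add, hμ]
    congr 2
    push_cast
    ring
  have hfτ : ∀ p ∈ W, fab E a b (τ p) = (ζh p ^ d)⁻¹ * Complex.exp ((μ (τ p) : ℝ) * Complex.I) := by
    intro p hp
    rw [hfz (τ p) (hτ.maps hp), hτ.ζτ p hp, bconcl_conj (hz1 p hp), inv_zpow]
  have hG2 : ∀ p ∈ W, G p ^ 2 * fab E a b (τ p) = fab E a b p := by
    intro p hp
    have hne : ζh p ^ d ≠ 0 := zpow_ne_zero _ (hz0 p hp)
    rw [hfτ p hp, hfz p hp, hG]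
    dsimp only
    rw [mul_pow, ← Complex.exp_nat_mul]
    have e1 : Complex.exp (((2 : ℕ) : ℂ) * (((μ p - μ (τ p)) / 2 : ℝ) * Complex.I)) *
        Complex.exp ((μ (τ p) : ℝ) * Complex.I) = Complex.exp ((μ p : ℝ) * Complex.I) := by
      rw [← Complex.exp_add]
      congr 1
      push_cast
      ring
    calc (ζh p ^ d) ^ 2 * Complex.exp (((2 : ℕ) : ℂ) * (((μ p - μ (τ p)) / 2 : ℝ) * Complex.I)) *
        ((ζh p ^ d)⁻¹ * Complex.exp ((μ (τ p) : ℝ) * Complex.I))
        = ((ζh p ^ d) ^ 2 * (ζh p ^ d)⁻¹) *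
          (Complex.exp (((2 : ℕ) : ℂ) * (((μ p - μ (τ p)) / 2 : ℝ) * Complex.I)) *
            Complex.exp ((μ (τ p) : ℝ) * Complex.I)) := by ring
      _ = _ := by
          rw [e1]
          congr 1
          field_simp
  have hfb : ∀ p, fab E a b p = -1 ↔ p ∈ (fun x => E (x, (a + b) / 2)) '' closedBall 0 1 := by
    intro p
    rw [fab_eq_neg_one_iff hE ha hab hb]
    rfl
  have hzero : ∀ p ∈ W, (G p).re = 0 ↔ (fab E a b p = -1 ∨ fab E a b (τ p) = -1) := by
    intro p hp
    rw [bconcl_re_zero (hGn p hp)]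
    by_cases hpK : p ∈ K
    · have h1 : fab E a b (τ p) = 1 := fab_of_not_mem hE ha hab hb (hdis' p hpK)
      have h2 := hG2 p hp
      rw [h1, mul_one] at h2
      rw [h2, h1]
      constructor
      · exact Or.inl
      · rintro (h | h)
        · exact h
        · norm_num at h
    · have h1 : fab E a b p = 1 := fab_of_not_mem hE ha hab hb hpK
      have h2 := hG2 p hp
      rw [h1] at h2
      rw [h1]
      constructor
      · intro h
        rw [h] at h2
        right
        linear_combination -h2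
      · rintro (h | h)
        · norm_num at h
        · rw [h] at h2
          linear_combination -h2
  -- continuity
  have hzc : ContinuousOn ζh W := by
    have h1 : ContinuousOn (fun p : Amb => p.1 * Complex.exp (η p * Complex.I)) W := by
      refine continuousOn_fst.mul ?_
      exact Complex.continuous_exp.comp_continuousOn
        ((Complex.continuous_ofReal.comp_continuousOn hτ.ηc).mul continuousOn_const)
    exact h1.congr hτ.ζη
  have hμc : ContinuousOn μ W := hlam.sub (continuousOn_const.mul hτ.ηc)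
  have hμτ : ContinuousOn (fun p => μ (τ p)) W := hμc.comp hτ.cont hτ.maps
  have hGc : ContinuousOn G W := by
    refine ContinuousOn.mul (hzc.zpow₀ d fun p hp => Or.inl (hz0 p hp)) ?_
    exact Complex.continuous_exp.comp_continuousOn
      ((Complex.continuous_ofReal.comp_continuousOn ((hμc.sub hμτ).div_const 2)).mul
        continuousOn_const)
  have hmem : ∀ x ∈ closedBall (0 : E3) 1, ((x, (a + b) / 2) : E3 × ℝ) ∈
      closedBall (0 : E3) 1 ×ˢ Icc (-1 : ℝ) 1 := fun x hx => Set.mk_mem_prod hx hm'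
  refine ⟨fun x => E (x, (a + b) / 2), fun p => (G p).re, ?_, ?_, ?_, ?_, ?_, ?_, ?_, ?_, ?_, ?_⟩
  · exact hE.cont.comp (continuousOn_id.prodMk continuousOn_const) hmem
  · intro x hx y hy h
    have h3 := hE.inj (hmem x hx) (hmem y hy) h
    exact (Prod.mk.inj h3).1
  · exact fun x hx => hE.maps (hmem x hx)
  · exact fun x hx => hE.bd x hx _ hm'
  · intro x hx y hy h
    exact hdis' _ (hbK x hx) (by rw [h]; exact hbK y hy)
  · exact Complex.continuous_re.comp_continuousOn hGc
  · intro p hp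
    have h1 : G (τ p) = conj (G p) := by
      rw [hG]
      dsimp only
      rw [hτ.invol p hp, hτ.ζτ p hp, map_mul, map_zpow₀, ← Complex.exp_conj, map_mul,
        Complex.conj_I, Complex.conj_ofReal]
      congr 2
      push_cast
      ring
    dsimp only
    rw [h1, Complex.conj_re]
  · intro p hp
    rw [← hfb, ← hfb]
    exact hzero p hp
  · intro p hp hfix h1
    have h2 : G p = 1 := by
      rw [hG]
      dsimp only
      rw [hfix, h1, sub_self]
      simp
    dsimp only
    rw [h2]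
    exact one_pos
  · intro p hp hfix h1
    have h2 : G p = -1 := by
      rw [hG]
      dsimp only
      rw [hfix, h1, sub_self]
      rcases hd with rfl | rfl <;> simp
    dsimp only
    rw [h2]
    norm_num

end Pool.B203
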