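import Pool.Agent.Lib.B203.Defs

/-! Row BallRet: a closed ball in a compact set is a retract. -/

open Set Metric Topology
open scoped ContDiff Quaternion ComplexConjugate

noncomputable section

namespace Pool.B203

/-- a closed ball in a compact set is a retract -/
theorem ball_retract {K : Set Amb} (hK : IsCompact K) {β : E3 → Amb}
    (hβ : ContinuousOn β (closedBall 0 1)) (hi : InjOn β (closedBall 0 1))
    (hm : MapsTo β (closedBall 0 1) K) :
    ∃ r : Amb → Amb, ContinuousOn r K ∧ (∀ q ∈ K, r q ∈ β '' closedBall 0 1) ∧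
      ∀ q ∈ β '' closedBall 0 1, r q = q := by
  have _h1 := hK
  have _h2 := hm
  have hT : TietzeExtension (closedBall (0 : E3) 1) :=
    Metric.instTietzeExtensionClosedBall ℝ (0 : E3) one_pos
  have hb : Continuous fun x : closedBall (0 : E3) 1 => β x :=
    continuousOn_iff_continuous_domRestrict.1 hβ
  have hbi : Function.Injective fun x : closedBall (0 : E3) 1 => β x :=
    fun x y h => Subtype.ext (hi x.2 y.2 h)
  have : CompactSpace (closedBall (0 : E3) 1) :=
    isCompact_iff_compactSpace.1 (isCompact_closedBall _ _)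
  have he : IsClosedEmbedding fun x : closedBall (0 : E3) 1 => β x := hb.isClosedEmbedding hbi
  obtain ⟨g, hg⟩ := ContinuousMap.exists_extension' he
    (ContinuousMap.id (closedBall (0 : E3) 1))
  refine ⟨fun q => β (g q), (hb.comp g.continuous).continuousOn, fun q _ => ⟨g q, (g q).2, rfl⟩, ?_⟩
  rintro _ ⟨x, hx, rfl⟩
  have h := congrFun hg ⟨x, hx⟩
  have h' : g (β x) = ⟨x, hx⟩ := h
  simp only [h']

end Pool.B203
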