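import Pool.Agent.Lib.B203.FDefs

/-! Row CC: the curve `cc`. -/

open Set Metric Topology
open scoped ContDiff Quaternion ComplexConjugate

noncomputable section

namespace Pool.B203

private def mkq (a b c d : ℝ) : ℍ[ℝ] := ⟨a, b, c, d⟩

private theorem cc_normSq_rot {e : ℂ} (he : ‖e‖ = 1) (v : ℍ[ℝ]) :
    Quaternion.normSq (rot e v) = Quaternion.normSq v := by
  have h : e.re ^ 2 + e.im ^ 2 = 1 := by
    have := Complex.sq_norm e
    rw [he, Complex.normSq_apply] at this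
    linarith
  rw [Quaternion.normSq_def', Quaternion.normSq_def']
  simp only [rot]
  linear_combination (v.imI ^ 2 + v.imK ^ 2) * h

private theorem cc_norm_one {q : ℍ[ℝ]} (h : Quaternion.normSq q = 1) : ‖q‖ = 1 := by
  rw [Quaternion.normSq_eq_norm_mul_self] at h
  have h0 := norm_nonneg q
  nlinarith

private theorem cc_circle {ζ : ℂ} (h : ‖ζ‖ = 1) : ζ.re ^ 2 + ζ.im ^ 2 = 1 := by
  have := Complex.sq_norm ζ
  rw [h, Complex.normSq_apply] at this
  linarith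

private theorem cc_rad {ζ : ℂ} (h : ‖ζ‖ = 1) : 0 < 1 - (ζ.re * ζ.im) ^ 2 - (ζ.re / 2) ^ 2 := by
  have h1 := cc_circle h
  nlinarith [sq_nonneg (ζ.re ^ 2 - ζ.im ^ 2), sq_nonneg ζ.re, sq_nonneg ζ.im]

theorem norm_cc {ζ : ℂ} (h : ‖ζ‖ = 1) : ‖cc ζ‖ = 1 := by
  apply cc_norm_one
  have hcc : cc ζ = rot (ζ * Complex.exp ((2 * Real.pi * ζ.im : ℝ) * Complex.I))
    (mkq (ζ.re * ζ.im) (√(1 - (ζ.re * ζ.im) ^ 2 - (ζ.re / 2) ^ 2)) (ζ.re / 2) 0) := rfl
  rw [hcc, cc_normSq_rot]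
  · rw [Quaternion.normSq_def']
    simp only [mkq]
    rw [Real.sq_sqrt (cc_rad h).le]
    ring
  · rw [norm_mul, h, Complex.norm_exp_ofReal_mul_I, mul_one]

private theorem cc_quat {X : Type*} [NormedAddCommGroup X] [NormedSpace ℝ X] {a b c d : X → ℝ}
    {x : X} (ha : ContDiffAt ℝ ∞ a x) (hb : ContDiffAt ℝ ∞ b x) (hc : ContDiffAt ℝ ∞ c x)
    (hd : ContDiffAt ℝ ∞ d x) : ContDiffAt ℝ ∞ (fun y => mkq (a y) (b y) (c y) (d y)) x := by
  have h : (fun y => mkq (a y) (b y) (c y) (d y)) = fun y =>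
      a y • mkq 1 0 0 0 + b y • mkq 0 1 0 0 + c y • mkq 0 0 1 0 + d y • mkq 0 0 0 1 := by
    funext y
    ext
    all_goals
      simp only [Quaternion.re_add, Quaternion.imI_add, Quaternion.imJ_add, Quaternion.imK_add,
        Quaternion.re_smul, Quaternion.imI_smul, Quaternion.imJ_smul, Quaternion.imK_smul]
      simp [mkq]
  rw [h]
  exact (((ha.smul contDiffAt_const).add (hb.smul contDiffAt_const)).add
    (hc.smul contDiffAt_const)).add (hd.smul contDiffAt_const)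

theorem contDiffAt_cc {ζ : ℂ} (h : ‖ζ‖ = 1) : ContDiffAt ℝ ∞ cc ζ := by
  have hre : ContDiffAt ℝ ∞ (fun z : ℂ => z.re) ζ := Complex.reCLM.contDiff.contDiffAt
  have him : ContDiffAt ℝ ∞ (fun z : ℂ => z.im) ζ := Complex.imCLM.contDiff.contDiffAt
  have he : ContDiffAt ℝ ∞
      (fun z : ℂ => z * Complex.exp ((2 * Real.pi * z.im : ℝ) * Complex.I)) ζ := by
    refine contDiffAt_id.mul ?_
    have h1 : ContDiffAt ℝ ∞ (fun z : ℂ => (((2 * Real.pi * z.im : ℝ) : ℂ) * Complex.I)) ζ := by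
      refine ContDiffAt.mul ?_ contDiffAt_const
      exact ContDiffAt.comp (g := fun x : ℝ => (x : ℂ)) (f := fun z : ℂ => 2 * Real.pi * z.im) ζ
        Complex.ofRealCLM.contDiff.contDiffAt (contDiffAt_const.mul him)
    exact h1.cexp
  have h2 : ContDiffAt ℝ ∞ (fun z : ℂ => (z * Complex.exp ((2 * Real.pi * z.im : ℝ) * Complex.I)).re) ζ :=
    ContDiffAt.comp (g := fun z : ℂ => z.re) ζ Complex.reCLM.contDiff.contDiffAt he
  have h3 : ContDiffAt ℝ ∞ (fun z : ℂ => (z * Complex.exp ((2 * Real.pi * z.im : ℝ) * Complex.I)).im) ζ :=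
    ContDiffAt.comp (g := fun z : ℂ => z.im) ζ Complex.imCLM.contDiff.contDiffAt he
  have h4 : ContDiffAt ℝ ∞ (fun z : ℂ => √(1 - (z.re * z.im) ^ 2 - (z.re / 2) ^ 2)) ζ := by
    refine ContDiffAt.sqrt ?_ (cc_rad h).ne'
    exact (contDiffAt_const.sub ((hre.mul him).pow 2)).sub ((hre.div_const 2).pow 2)
  exact cc_quat (hre.mul him) ((h2.mul h4).sub (h3.mul contDiffAt_const)) (hre.div_const 2)
    ((h3.mul h4).add (h2.mul contDiffAt_const))

end Pool.B203
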