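import Pool.Agent.Lib.B203.Defs

/-! Row A1 (helper1): the four-sheeted covering of `ℂ ∖ {1, -1}` with monodromy `y = (0 1)` at `-1`
and `x = (1 2 3)` at `1`, as an explicit cut-and-paste covering. -/

open Set Metric Topology
open scoped ContDiff Quaternion ComplexConjugate

noncomputable section

namespace Pool.B203

/-- downward crossing of `(-∞, -1)`. -/
def sA : Equiv.Perm (Fin 4) := Equiv.swap 0 1

/-- upward crossing of `(1, ∞)`: `1 ↦ 2 ↦ 3 ↦ 1`. -/
def sX : Equiv.Perm (Fin 4) := c[1, 2, 3]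

/-- Crossing a segment downwards, from upper label `i` to lower label `j`, is allowed at the real point
with real part `x`. -/
def Allowed (i j : Fin 4) (x : ℝ) : Prop :=
  (x < -1 ∧ j = sA i) ∨ (-1 < x ∧ x < 1 ∧ j = i) ∨ (1 < x ∧ sX j = i)

/-- The domain of the section with labels `i` (above) and `j` (below). -/
def secDom (i j : Fin 4) : Set ℂ := {z | z.im ≠ 0 ∨ Allowed i j z.re}

/-- the twice punctured plane -/
abbrev Zs : Type := {z : ℂ // z ≠ 1 ∧ z ≠ -1}

/-- downward crossing of the three real segments -/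
def sgm : Fin 3 → Equiv.Perm (Fin 4) := ![sA, 1, sX⁻¹]

/-- the open set obtained by adding one of the three segments to the two half planes -/
def bas (s : Fin 3) : Set Zs :=
  {z | z.1.im ≠ 0 ∨ (s = 0 ∧ z.1.re < -1) ∨ (s = 1 ∧ -1 < z.1.re ∧ z.1.re < 1) ∨ (s = 2 ∧ 1 < z.1.re)}

/-- a chart around `z` -/
def idx (z : Zs) : Fin 3 := if z.1.re < -1 then 0 else if z.1.re < 1 then 1 else 2

theorem isOpen_bas (s : Fin 3) : IsOpen (bas s) := by
  have hre : Continuous (fun z : Zs => z.1.re) := Complex.continuous_re.comp continuous_subtype_val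
  have him : Continuous (fun z : Zs => z.1.im) := Complex.continuous_im.comp continuous_subtype_val
  have h1 : IsOpen {z : Zs | z.1.im ≠ 0} := isOpen_ne_fun him continuous_const
  have h2 : IsOpen {z : Zs | z.1.re < -1} := isOpen_lt hre continuous_const
  have h3 : IsOpen {z : Zs | -1 < z.1.re} := isOpen_lt continuous_const hre
  have h4 : IsOpen {z : Zs | z.1.re < 1} := isOpen_lt hre continuous_const
  have h5 : IsOpen {z : Zs | 1 < z.1.re} := isOpen_lt continuous_const hre
  have h6 : ∀ P : Prop, IsOpen {z : Zs | P} := fun P => by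
    by_cases h : P <;> simp [h]
  exact h1.union (((h6 _).inter h2).union (((h6 _).inter (h3.inter h4)).union ((h6 _).inter h5)))

theorem mem_bas_idx (z : Zs) : z ∈ bas (idx z) := by
  obtain ⟨z, hz1, hz2⟩ := z
  unfold bas idx
  simp only [ne_eq, mem_ofPred_eq]
  by_cases him : z.im = 0
  · have h1 : z.re ≠ 1 := fun h => hz1 (Complex.ext (by simp [h]) (by simp [him]))
    have h2 : z.re ≠ -1 := fun h => hz2 (Complex.ext (by simp [h]) (by simp [him]))
    right
    by_cases ha : z.re < -1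
    · left; simp [ha]
    · right
      have hb : -1 < z.re := lt_of_le_of_ne (not_lt.1 ha) (Ne.symm h2)
      by_cases hc : z.re < 1
      · left; simp [ha, hb, hc]
      · right
        have hd : 1 < z.re := lt_of_le_of_ne (not_lt.1 hc) (Ne.symm h1)
        simp [ha, hc, hd]
  · left; exact him

/-- near a point with nonzero imaginary part the sign of the imaginary part is locally constant -/
theorem eventually_im {X : Type*} [TopologicalSpace X] {f : X → ℂ} {x : X} {s : Set X}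
    (hf : ContinuousWithinAt f s x) (h : (f x).im ≠ 0) :
    ∀ᶠ y in 𝓝[s] x, ((f y).im < 0 ↔ (f x).im < 0) := by
  have hc : ContinuousWithinAt (fun y => (f y).im) s x :=
    Complex.continuous_im.continuousAt.comp_continuousWithinAt hf
  rcases lt_or_gt_of_ne h with h1 | h1
  · filter_upwards [hc.eventually (gt_mem_nhds h1)] with y hy
    exact ⟨fun _ => h1, fun _ => hy⟩
  · filter_upwards [hc.eventually (lt_mem_nhds h1)] with y hy
    exact ⟨fun h => absurd h (not_lt.2 hy.le), fun h => absurd h (not_lt.2 h1.le)⟩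

open Classical in
/-- the bundle core of the covering -/
def cvCore : FiberBundleCore (Fin 3) Zs (Fin 4) where
  baseSet := bas
  isOpen_baseSet := isOpen_bas
  indexAt := idx
  mem_baseSet_at := mem_bas_idx
  coordChange s t z v := if z.1.im < 0 then (sgm t)⁻¹ (sgm s v) else v
  coordChange_self s z _ v := by split_ifs <;> simp
  continuousOn_coordChange s t := by
    rintro ⟨z, v⟩ ⟨⟨hs, ht⟩, -⟩
    by_cases hst : s = t
    · subst hst
      have : (fun p : Zs × Fin 4 => if p.1.1.im < 0 then (sgm s)⁻¹ (sgm s p.2) else p.2) =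
          fun p => p.2 := by
        funext p; split_ifs <;> simp
      rw [this]
      exact continuous_snd.continuousWithinAt
    · have him : z.1.im ≠ 0 := by
        by_contra h0
        simp only [bas, ne_eq, mem_ofPred_eq, h0, not_true_eq_false, false_or] at hs ht
        rcases hs with ⟨h1, h2⟩ | ⟨h1, h2, h3⟩ | ⟨h1, h2⟩ <;>
          rcases ht with ⟨k1, k2⟩ | ⟨k1, k2, k3⟩ | ⟨k1, k2⟩ <;>
          first
            | exact hst (h1.trans k1.symm)
            | linarith
      have hc : ContinuousWithinAt (fun p : Zs × Fin 4 => p.1.1)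
          ((bas s ∩ bas t) ×ˢ univ) (z, v) :=
        (continuous_subtype_val.comp continuous_fst).continuousWithinAt
      have he := eventually_im hc (by exact him)
      by_cases hneg : z.1.im < 0
      · have : ContinuousWithinAt (fun p : Zs × Fin 4 => (sgm t)⁻¹ (sgm s p.2))
            ((bas s ∩ bas t) ×ˢ univ) (z, v) :=
          ((continuous_of_discreteTopology (f := fun v : Fin 4 => (sgm t)⁻¹ (sgm s v))).comp
            continuous_snd).continuousWithinAt
        refine this.congr_of_eventuallyEq ?_ (by simp [hneg])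
        filter_upwards [he] with p hp
        simp [hp.2 hneg]
      · have : ContinuousWithinAt (fun p : Zs × Fin 4 => p.2)
            ((bas s ∩ bas t) ×ˢ univ) (z, v) := continuous_snd.continuousWithinAt
        refine this.congr_of_eventuallyEq ?_ (by simp [hneg])
        filter_upwards [he] with p hp
        have h0 : ¬ p.1.1.im < 0 := fun h => hneg (hp.1 h)
        simp only [h0, if_false]
  coordChange_comp i j k z _ v := by split_ifs <;> simp

/-- total space -/
def Cov : Type := cvCore.TotalSpace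

instance : TopologicalSpace Cov := inferInstanceAs (TopologicalSpace cvCore.TotalSpace)

/-- projection to the twice punctured plane -/
def cpz (e : Cov) : Zs := cvCore.proj e

/-- projection -/
def cp (e : Cov) : ℂ := (cpz e).1

theorem cp_ne (e : Cov) : cp e ≠ 1 ∧ cp e ≠ -1 := (cpz e).2

theorem cpz_cov : IsCoveringMap cpz :=
  FiberBundle.isCoveringMap (F := Fin 4) (E := cvCore.Fiber)

theorem isOpen_Zs : IsOpen ({1, -1}ᶜ : Set ℂ) := by
  have : ({1, -1} : Set ℂ).Finite := by simp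
  exact this.isClosed.isOpen_compl

theorem cp_cov : IsCoveringMapOn cp {1, -1}ᶜ := by
  have h : ∀ e : Cov, cp e ∈ ({1, -1}ᶜ : Set ℂ) := fun e => by
    simpa using cp_ne e
  refine IsCoveringMapOn.of_isCoveringMap_subtype isOpen_Zs h ?_
  have hs : ∀ z : ℂ, (z ≠ 1 ∧ z ≠ -1) ↔ z ∈ ({1, -1}ᶜ : Set ℂ) := fun z => by simp
  exact cpz_cov.homeomorph_comp (Homeomorph.subtype (Homeomorph.refl ℂ) hs)

theorem cp_sep : IsSeparatedMap cp := by
  intro e₁ e₂ h hne
  exact cpz_cov.isSeparatedMap e₁ e₂ (Subtype.ext h) hne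

theorem continuous_cpz : Continuous cpz := cpz_cov.continuous

theorem cp_inj : IsLocallyInjective cp := by
  intro e
  obtain ⟨U, hU, he, hi⟩ := cpz_cov.isLocalHomeomorph.isLocallyInjective e
  exact ⟨U, hU, he, fun a ha b hb hab => hi ha hb (Subtype.ext hab)⟩

theorem continuous_cp : Continuous cp := continuous_subtype_val.comp continuous_cpz

/-- uniqueness of lifts -/
theorem cov_uniq {A : Type*} [TopologicalSpace A] {s : Set A} (hs : IsPreconnected s)
    {g₁ g₂ : A → Cov} (h₁ : ContinuousOn g₁ s) (h₂ : ContinuousOn g₂ s)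
    (he : ∀ a ∈ s, cp (g₁ a) = cp (g₂ a)) {a : A} (ha : a ∈ s) (hag : g₁ a = g₂ a) :
    EqOn g₁ g₂ s :=
  cp_sep.eqOn_of_comp_eqOn cp_inj hs h₁ h₂ he ha hag

/-- existence of lifts on `ℝ × ℝ³` -/
theorem cov_lift {h : ℝ × E3 → ℂ} (hc : Continuous h) (hne : ∀ a, h a ≠ 1 ∧ h a ≠ -1)
    (a₀ : ℝ × E3) (e₀ : Cov) (he : cp e₀ = h a₀) :
    ∃ F : ℝ × E3 → Cov, Continuous F ∧ F a₀ = e₀ ∧ ∀ a, cp (F a) = h a := by
  obtain ⟨F, ⟨hF1, hF2⟩, -⟩ := cp_cov.existsUnique_continuousMap_lifts (A := ℝ × E3)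
    ⟨h, hc⟩ (a₀ := a₀) (e₀ := e₀) he (fun a => by simpa using hne a)
  exact ⟨F, F.continuous, hF1, fun a => congrFun hF2 a⟩

/-- constructor -/
def mkC (z : Zs) (v : Fin 4) : Cov := (⟨z, v⟩ : cvCore.TotalSpace)

theorem cp_mkC (z : Zs) (v : Fin 4) : cp (mkC z v) = z.1 := rfl

theorem mkC_inj {z : Zs} {v w : Fin 4} (h : mkC z v = mkC z w) : v = w :=
  eq_of_heq (Bundle.TotalSpace.mk.inj h).2

theorem exists_mkC (e : Cov) : ∃ (z : Zs) (v : Fin 4), e = mkC z v := ⟨e.1, e.2, rfl⟩

/-- the value of the section in the bundle -/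
def secz (i j : Fin 4) (z : Zs) : Cov :=
  mkC z (if z.1.im < 0 then (sgm (idx z))⁻¹ j else i)

theorem secz_of_neg (i j : Fin 4) {z : Zs} (h : z.1.im < 0) : secz i j z = mkC z ((sgm (idx z))⁻¹ j) := by
  unfold secz; rw [if_pos h]

theorem secz_of_nonneg (i j : Fin 4) {z : Zs} (h : ¬ z.1.im < 0) : secz i j z = mkC z i := by
  unfold secz; rw [if_neg h]

open Classical in
/-- the section with labels `i` over the closed upper half plane and `j` over the lower half plane -/
def sec (i j : Fin 4) (z : ℂ) : Cov :=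
  if h : z ≠ 1 ∧ z ≠ -1 then secz i j ⟨z, h⟩ else secz i j ⟨0, by norm_num, by norm_num⟩

theorem sec_apply (i j : Fin 4) {z : ℂ} (h : z ≠ 1 ∧ z ≠ -1) : sec i j z = secz i j ⟨z, h⟩ := by
  simp [sec, h]

theorem cp_sec (i j : Fin 4) {z : ℂ} (h : z ≠ 1 ∧ z ≠ -1) : cp (sec i j z) = z := by
  rw [sec_apply i j h]; rfl

theorem ne_of_im {z : ℂ} (h : z.im ≠ 0) : z ≠ 1 ∧ z ≠ -1 :=
  ⟨fun h1 => h (by simp [h1]), fun h1 => h (by simp [h1])⟩

theorem sec_of_pos (i j j' : Fin 4) {z : ℂ} (h : 0 < z.im) : sec i j z = sec i j' z := by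
  have hz := ne_of_im h.ne'
  rw [sec_apply i j hz, sec_apply i j' hz, secz_of_nonneg _ _ (not_lt.2 h.le),
    secz_of_nonneg _ _ (not_lt.2 h.le)]

theorem sec_of_neg (i i' j : Fin 4) {z : ℂ} (h : z.im < 0) : sec i j z = sec i' j z := by
  have hz := ne_of_im h.ne
  rw [sec_apply i j hz, sec_apply i' j hz, secz_of_neg _ _ (by exact h), secz_of_neg _ _ (by exact h)]

theorem secDom_ne {i j : Fin 4} {z : ℂ} (h : z ∈ secDom i j) : z ≠ 1 ∧ z ≠ -1 := by
  rcases h with h | h
  · exact ne_of_im h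
  · constructor <;> rintro rfl <;> rcases h with h | h | h <;> norm_num at h

theorem isOpen_secDom (i j : Fin 4) : IsOpen (secDom i j) := by
  have h1 : IsOpen {z : ℂ | z.im ≠ 0} := isOpen_ne_fun Complex.continuous_im continuous_const
  have h2 : IsOpen {z : ℂ | z.re < -1} := isOpen_lt Complex.continuous_re continuous_const
  have h3 : IsOpen {z : ℂ | -1 < z.re} := isOpen_lt continuous_const Complex.continuous_re
  have h4 : IsOpen {z : ℂ | z.re < 1} := isOpen_lt Complex.continuous_re continuous_const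
  have h5 : IsOpen {z : ℂ | 1 < z.re} := isOpen_lt continuous_const Complex.continuous_re
  have h6 : ∀ P : Prop, IsOpen {z : ℂ | P} := fun P => by
    by_cases h : P <;> simp [h]
  exact h1.union ((h2.inter (h6 _)).union ((h3.inter (h4.inter (h6 _))).union (h5.inter (h6 _))))

/-- For a point of the domain of the section there is a chart in which the section has constant
coordinate. -/
theorem exists_chart {i j : Fin 4} {z : Zs} (h : z.1 ∈ secDom i j) :
    ∃ (s : Fin 3) (v : Fin 4), z ∈ bas s ∧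
      ∀ᶠ w in 𝓝 z, (if w.1.im < 0 then (sgm s)⁻¹ j else i) = v := by
  by_cases him : z.1.im = 0
  · rcases h with h | h
    · exact absurd him h
    · have : ∃ s : Fin 3, z ∈ bas s ∧ (sgm s)⁻¹ j = i := by
        rcases h with ⟨h1, h2⟩ | ⟨h1, h2, h3⟩ | ⟨h1, h2⟩
        · exact ⟨0, Or.inr (Or.inl ⟨rfl, h1⟩), by rw [h2]; simp [sgm]⟩
        · exact ⟨1, Or.inr (Or.inr (Or.inl ⟨rfl, h1, h2⟩)), by rw [h3]; simp [sgm]⟩
        · exact ⟨2, Or.inr (Or.inr (Or.inr ⟨rfl, h1⟩)), by rw [← h2]; simp [sgm]⟩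
      obtain ⟨s, hs, hj⟩ := this
      exact ⟨s, i, hs, Filter.Eventually.of_forall fun w => by rw [hj]; simp⟩
  · have hc : ContinuousWithinAt (fun w : Zs => w.1) univ z :=
      continuous_subtype_val.continuousWithinAt
    have he := eventually_im hc (by exact him)
    rw [nhdsWithin_univ] at he
    refine ⟨idx z, if z.1.im < 0 then (sgm (idx z))⁻¹ j else i, mem_bas_idx z, ?_⟩
    filter_upwards [he] with w hw
    by_cases hneg : z.1.im < 0
    · simp only [hw.2 hneg, hneg, if_true]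
    · have h0 : ¬ w.1.im < 0 := fun h => hneg (hw.1 h)
      simp only [h0, hneg, if_false]

theorem continuousOn_secz (i j : Fin 4) : ContinuousOn (secz i j) {z : Zs | z.1 ∈ secDom i j} := by
  intro z hz
  obtain ⟨s, v, hs, hv⟩ := exists_chart hz
  refine ContinuousAt.continuousWithinAt ?_
  have hc : ContinuousAt (fun w : Zs => (cvCore.localTriv s).toOpenPartialHomeomorph.symm (w, v)) z := by
    have h1 : ContinuousAt (cvCore.localTriv s).toOpenPartialHomeomorph.symm (z, v) :=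
      (cvCore.localTriv s).toOpenPartialHomeomorph.continuousAt_symm (by
        rw [(cvCore.localTriv s).target_eq]; exact ⟨hs, trivial⟩)
    exact h1.comp_of_eq (by fun_prop) rfl
  have hc' : ContinuousAt (fun w : Zs => mkC w (if w.1.im < 0 then (sgm (idx w))⁻¹ (sgm s v) else v)) z :=
    hc
  refine hc'.congr_of_eventuallyEq ?_
  filter_upwards [hv] with w hw
  by_cases hneg : w.1.im < 0
  · rw [secz_of_neg _ _ hneg, if_pos hneg, ← hw, if_pos hneg, (show sgm s ((sgm s)⁻¹ j) = j from (sgm s).apply_symm_apply j)]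
  · rw [secz_of_nonneg _ _ hneg, if_neg hneg, ← hw, if_neg hneg]

theorem continuousOn_sec (i j : Fin 4) : ContinuousOn (sec i j) (secDom i j) := by
  intro z hz
  have hz' := secDom_ne hz
  have h1 : ContinuousWithinAt (secz i j) {z : Zs | z.1 ∈ secDom i j} ⟨z, hz'⟩ :=
    continuousOn_secz i j _ hz
  have h2 : ContinuousAt (secz i j) ⟨z, hz'⟩ :=
    h1.continuousAt (((isOpen_secDom i j).preimage continuous_subtype_val).mem_nhds hz)
  have h3 : ContinuousAt (fun w : Zs => sec i j w.1) ⟨z, hz'⟩ :=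
    h2.congr_of_eventuallyEq (Filter.Eventually.of_forall fun w => sec_apply i j w.2)
  have hopen : IsOpen {z : ℂ | z ≠ 1 ∧ z ≠ -1} := by
    have := isOpen_Zs
    convert! this using 1
    ext w; simp
  have h4 : ContinuousAt (sec i j) z :=
    (IsOpenEmbedding.continuousAt_iff hopen.isOpenEmbedding_subtypeVal (g := sec i j)
      (x := (⟨z, hz'⟩ : {z : ℂ | z ≠ 1 ∧ z ≠ -1}))).1 h3
  exact h4.continuousWithinAt

theorem sec_inj_of_pos {i j i' j' : Fin 4} {z : ℂ} (h : 0 < z.im) (he : sec i j z = sec i' j' z) :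
    i = i' := by
  have hz := ne_of_im h.ne'
  rw [sec_apply i j hz, sec_apply i' j' hz, secz_of_nonneg _ _ (not_lt.2 h.le),
    secz_of_nonneg _ _ (not_lt.2 h.le)] at he
  exact mkC_inj he

theorem sec_inj_of_neg {i j i' j' : Fin 4} {z : ℂ} (h : z.im < 0) (he : sec i j z = sec i' j' z) :
    j = j' := by
  have hz := ne_of_im h.ne
  rw [sec_apply i j hz, sec_apply i' j' hz, secz_of_neg _ _ (by exact h),
    secz_of_neg _ _ (by exact h)] at he
  exact (sgm (idx ⟨z, hz⟩))⁻¹.injective (mkC_inj he)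

theorem exists_sec_eq (e : Cov) : ∃ i j, cp e ∈ secDom i j ∧ sec i j (cp e) = e := by
  obtain ⟨z, v, rfl⟩ := exists_mkC e
  rw [cp_mkC]
  by_cases hneg : z.1.im < 0
  · refine ⟨v, sgm (idx z) v, Or.inl hneg.ne, ?_⟩
    rw [sec_apply _ _ z.2, secz_of_neg _ _ hneg, (show (sgm (idx z))⁻¹ (sgm (idx z) v) = v from (sgm (idx z)).symm_apply_apply v)]
  · have key : ∀ j, sec v j z.1 = mkC z v := by
      intro j
      rw [sec_apply _ _ z.2, secz_of_nonneg _ _ hneg]
    by_cases him : z.1.im = 0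
    · have h1 : z.1.re ≠ 1 := fun h => z.2.1 (Complex.ext (by simp [h]) (by simp [him]))
      have h2 : z.1.re ≠ -1 := fun h => z.2.2 (Complex.ext (by simp [h]) (by simp [him]))
      rcases lt_or_gt_of_ne h2 with ha | ha
      · exact ⟨v, sA v, Or.inr (Or.inl ⟨ha, rfl⟩), key _⟩
      · rcases lt_or_gt_of_ne h1 with hb | hb
        · exact ⟨v, v, Or.inr (Or.inr (Or.inl ⟨ha, hb, rfl⟩)), key _⟩
        · exact ⟨v, sX⁻¹ v, Or.inr (Or.inr (Or.inr ⟨hb, (sX).apply_symm_apply v⟩)), key _⟩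
    · exact ⟨v, v, Or.inl him, key _⟩

theorem no_allowed (i j : Fin 4) (h1 : j = sA i) (h2 : j = i) (h3 : sX j = i) : False := by
  revert i j; decide

/-- there is no section over a neighbourhood of `[-1, 1]`. -/
theorem no_section : ¬ ∃ s : ℂ → Cov, ContinuousOn s ({z | sf z < √2} \ {1, -1}) ∧
    ∀ z ∈ ({z | sf z < √2} \ {1, -1} : Set ℂ), cp (s z) = z := by
  rintro ⟨s, hs, hcp⟩
  set D : Set ℂ := {z | sf z < √2} with hD
  have hsf : Continuous sf := by unfold sf; fun_prop
  have hDo : IsOpen D := isOpen_lt hsf continuous_const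
  have hsfc : ConvexOn ℝ univ sf := by
    have h1 : ConvexOn ℝ univ (fun z : ℂ => ‖z - 1‖) := by
      simpa [Function.comp_def, sub_eq_add_neg] using (convexOn_univ_norm (E := ℂ)).translate_left (-1)
    have h2 : ConvexOn ℝ univ (fun z : ℂ => ‖z + 1‖) := by
      simpa [Function.comp_def] using (convexOn_univ_norm (E := ℂ)).translate_left (1)
    have h3 := (h1.add h2).smul (show (0 : ℝ) ≤ 1 / 2 by norm_num)
    convert! h3 using 1
    funext z
    simp only [sf, Pi.add_apply, smul_eq_mul]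
    ring
  have hDc : Convex ℝ D := by
    have := hsfc.convex_lt (√2)
    simpa [hD] using this
  have hpos : Convex ℝ (D ∩ {z : ℂ | 0 < z.im}) :=
    hDc.inter (convex_halfSpace_im_gt 0)
  have hneg : Convex ℝ (D ∩ {z : ℂ | z.im < 0}) :=
    hDc.inter (convex_halfSpace_im_lt 0)
  have hsub : ∀ z ∈ D, z.im ≠ 0 → z ∈ D \ {1, -1} := fun z hz h =>
    ⟨hz, by simpa using ne_of_im h⟩
  have hs2 : ∀ x : ℝ, x ^ 2 < 1.41 ^ 2 → x < √2 := fun x hx => by
    by_contra hcon
    push Not at hcon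
    have h0 : (0 : ℝ) ≤ √2 := Real.sqrt_nonneg 2
    have := pow_le_pow_left₀ h0 hcon 2
    rw [Real.sq_sqrt (by norm_num)] at this
    norm_num at hx
    linarith
  have hIm : ∀ t : ℝ, t ^ 2 ≤ 1 / 4 → (⟨0, t⟩ : ℂ) ∈ D := by
    intro t ht
    have e1 : ‖(⟨0, t⟩ : ℂ) - 1‖ = √(1 + t ^ 2) := by
      rw [Complex.norm_def, Complex.normSq_apply]
      congr 1
      simp
      ring
    have e2 : ‖(⟨0, t⟩ : ℂ) + 1‖ = √(1 + t ^ 2) := by
      rw [Complex.norm_def, Complex.normSq_apply]
      congr 1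
      simp
      ring
    change sf _ < √2
    rw [sf, e1, e2]
    apply hs2
    have : ((√(1 + t ^ 2) + √(1 + t ^ 2)) / 2) ^ 2 = 1 + t ^ 2 := by
      rw [show (√(1 + t ^ 2) + √(1 + t ^ 2)) / 2 = √(1 + t ^ 2) by ring]
      exact Real.sq_sqrt (by positivity)
    rw [this]
    norm_num
    linarith
  have hRe : ∀ r : ℝ, |r| ≤ 11 / 10 → (⟨r, 0⟩ : ℂ) ∈ D := by
    intro r hr
    have e1 : ‖(⟨r, 0⟩ : ℂ) - 1‖ = |r - 1| := by
      have : (⟨r, 0⟩ : ℂ) - 1 = ((r - 1 : ℝ) : ℂ) := Complex.ext (by simp) (by simp)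
      rw [this, Complex.norm_real, Real.norm_eq_abs]
    have e2 : ‖(⟨r, 0⟩ : ℂ) + 1‖ = |r + 1| := by
      have : (⟨r, 0⟩ : ℂ) + 1 = ((r + 1 : ℝ) : ℂ) := Complex.ext (by simp) (by simp)
      rw [this, Complex.norm_real, Real.norm_eq_abs]
    change sf _ < √2
    rw [sf, e1, e2]
    have hr' := abs_le.1 hr
    have h1 : (|r - 1| + |r + 1|) / 2 ≤ 11 / 10 := by
      rcases abs_cases (r - 1) with h | h <;> rcases abs_cases (r + 1) with k | k <;> linarith
    refine lt_of_le_of_lt h1 (hs2 _ (by norm_num))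
  -- labels above and below
  have hp0 : (⟨0, 1 / 2⟩ : ℂ) ∈ D := hIm _ (by norm_num)
  have hn0 : (⟨0, -(1 / 2)⟩ : ℂ) ∈ D := hIm _ (by norm_num)
  obtain ⟨i, j0, -, hi⟩ := exists_sec_eq (s ⟨0, 1 / 2⟩)
  rw [hcp _ (hsub _ hp0 (by simp))] at hi
  obtain ⟨i0, j, -, hj⟩ := exists_sec_eq (s ⟨0, -(1 / 2)⟩)
  rw [hcp _ (hsub _ hn0 (by simp))] at hj
  have hup : EqOn (sec i j0) s (D ∩ {z : ℂ | 0 < z.im}) := by
    refine cov_uniq hpos.isPreconnected ((continuousOn_sec i j0).mono fun z hz => Or.inl (ne_of_gt hz.2))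
      (hs.mono fun z hz => hsub z hz.1 (ne_of_gt hz.2)) (fun z hz => ?_) (a := ⟨0, 1 / 2⟩)
      ⟨hp0, by simp⟩ hi
    rw [hcp z (hsub z hz.1 (ne_of_gt hz.2)), cp_sec _ _ (ne_of_im (ne_of_gt hz.2))]
  have hdn : EqOn (sec i0 j) s (D ∩ {z : ℂ | z.im < 0}) := by
    refine cov_uniq hneg.isPreconnected ((continuousOn_sec i0 j).mono fun z hz => Or.inl (ne_of_lt hz.2))
      (hs.mono fun z hz => hsub z hz.1 (ne_of_lt hz.2)) (fun z hz => ?_) (a := ⟨0, -(1 / 2)⟩)
      ⟨hn0, by simp⟩ hj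
    rw [hcp z (hsub z hz.1 (ne_of_lt hz.2)), cp_sec _ _ (ne_of_im (ne_of_lt hz.2))]
  have key : ∀ r : ℝ, |r| ≤ 11 / 10 → r ≠ 1 → r ≠ -1 → Allowed i j r := by
    intro r hr hr1 hr2
    have hrD := hRe r hr
    have hrne : (⟨r, 0⟩ : ℂ) ∈ D \ {1, -1} := by
      refine ⟨hrD, ?_⟩
      simp only [mem_insert_iff, mem_singleton_iff, not_or]
      exact ⟨fun h => hr1 (by simpa using congrArg Complex.re h),
        fun h => hr2 (by simpa using congrArg Complex.re h)⟩
    obtain ⟨i', j', hdom, heq⟩ := exists_sec_eq (s ⟨r, 0⟩)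
    rw [hcp _ hrne] at hdom heq
    have hall : Allowed i' j' r := by
      rcases hdom with h | h
      · exact absurd rfl h
      · exact h
    have hopen : IsOpen ((D \ {1, -1}) ∩ secDom i' j') := by
      refine IsOpen.inter ?_ (isOpen_secDom i' j')
      rw [sdiff_eq]
      exact hDo.inter isOpen_Zs
    obtain ⟨δ, hδ, hball⟩ := Metric.isOpen_iff.1 hopen ⟨r, 0⟩ ⟨hrne, hdom⟩
    have hEq : EqOn (sec i' j') s (ball (⟨r, 0⟩ : ℂ) δ) := by
      refine cov_uniq (convex_ball _ _).isPreconnected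
        ((continuousOn_sec i' j').mono fun z hz => (hball hz).2)
        (hs.mono fun z hz => (hball hz).1) (fun z hz => ?_) (mem_ball_self hδ) heq
      rw [hcp z (hball hz).1, cp_sec _ _ (secDom_ne (hball hz).2)]
    have hm1 : (⟨r, δ / 2⟩ : ℂ) ∈ ball (⟨r, 0⟩ : ℂ) δ := by
      rw [mem_ball, dist_eq_norm]
      have : (⟨r, δ / 2⟩ : ℂ) - ⟨r, 0⟩ = ((δ / 2 : ℝ) : ℂ) * Complex.I :=
        Complex.ext (by simp) (by simp)
      rw [this, norm_mul, Complex.norm_I, mul_one, Complex.norm_real, Real.norm_eq_abs,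
        abs_of_pos (by positivity)]
      linarith
    have hm2 : (⟨r, -(δ / 2)⟩ : ℂ) ∈ ball (⟨r, 0⟩ : ℂ) δ := by
      rw [mem_ball, dist_eq_norm]
      have : (⟨r, -(δ / 2)⟩ : ℂ) - ⟨r, 0⟩ = ((-(δ / 2) : ℝ) : ℂ) * Complex.I :=
        Complex.ext (by simp) (by simp)
      rw [this, norm_mul, Complex.norm_I, mul_one, Complex.norm_real, Real.norm_eq_abs,
        abs_neg, abs_of_pos (by positivity)]
      linarith
    have hi' : i' = i := by
      have e1 := hEq hm1
      have e2 := hup (x := ⟨r, δ / 2⟩) ⟨(hball hm1).1.1, by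
        change (0 : ℝ) < δ / 2; positivity⟩
      exact sec_inj_of_pos (show (0 : ℝ) < (⟨r, δ / 2⟩ : ℂ).im by change (0 : ℝ) < δ / 2; positivity)
        (e1.trans e2.symm)
    have hj' : j' = j := by
      have e1 := hEq hm2
      have hlt : (⟨r, -(δ / 2)⟩ : ℂ).im < 0 := by
        change -(δ / 2) < 0
        linarith
      have e2 := hdn (x := ⟨r, -(δ / 2)⟩) ⟨(hball hm2).1.1, hlt⟩
      exact sec_inj_of_neg hlt (e1.trans e2.symm)
    rw [← hi', ← hj']
    exact hall
  have k1 := key (-(11 / 10)) (by norm_num [abs_le]) (by norm_num) (by norm_num)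
  have k2 := key 0 (by norm_num) (by norm_num) (by norm_num)
  have k3 := key (11 / 10) (by norm_num [abs_le]) (by norm_num) (by norm_num)
  refine no_allowed i j ?_ ?_ ?_
  · rcases k1 with ⟨_, h⟩ | ⟨h, _⟩ | ⟨h, _⟩
    · exact h
    · norm_num at h
    · norm_num at h
  · rcases k2 with ⟨h, _⟩ | ⟨_, _, h⟩ | ⟨h, _⟩
    · norm_num at h
    · exact h
    · norm_num at h
  · rcases k3 with ⟨h, _⟩ | ⟨_, h, _⟩ | ⟨_, h⟩
    · norm_num at h
    · norm_num at h
    · exact h

end Pool.B203
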