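import Pool.Agent.Lib.B203.Labels
import Pool.Agent.Lib.B203.Cover

/-! Row C8b: the section over the boundary. -/

open Set Metric Topology
open scoped ContDiff Quaternion ComplexConjugate

noncomputable section

namespace Pool.B203

private theorem H1_glue {X Y : Type*} [TopologicalSpace X] [TopologicalSpace Y] {A : Set X}
    {x : X → ℝ} (hx : ContinuousOn x A) (c : ℝ) {f g : X → Y}
    (hf : ContinuousOn f (A ∩ {q | c ≤ x q})) (hg : ContinuousOn g (A ∩ {q | x q ≤ c}))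
    (hfg : ∀ q ∈ A, x q = c → f q = g q) :
    ContinuousOn (fun q => if c ≤ x q then f q else g q) A := by
  rw [continuousOn_iff_continuous_domRestrict]
  have h := continuous_if_le (f := fun _ : A => c) (g := fun q : A => x q)
    (f' := fun q : A => f q) (g' := fun q : A => g q) continuous_const
    (continuousOn_iff_continuous_domRestrict.mp hx)
    (hf.comp continuous_subtype_val.continuousOn (fun q hq => ⟨q.2, hq⟩))
    (hg.comp continuous_subtype_val.continuousOn (fun q hq => ⟨q.2, hq⟩))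
    (fun q hq => hfg q q.2 hq.symm)
  exact h

private theorem H1_mem {ε : ℝ} (hL : ∀ p ∈ tubC ε, Labels p.1.re (kap (J 1 p)).1) {x : Amb → ℝ}
    (hx : ∀ p ∈ tubC ε, x (kap (J 1 p)) = p.1.re) {q : Amb} (hq : q ∈ bdQ 1 ε) :
    Labels (x q) q.1 := by
  obtain ⟨_, ⟨p, hp, rfl⟩, rfl⟩ := hq
  have hp' : p ∈ tubC ε := ⟨hp.1, hp.2.le⟩
  rw [hx p hp']
  exact hL p hp'

theorem H1 : ∀ᶠ ε in 𝓝[>] (0 : ℝ), ∃ s : Amb → Cov, ContinuousOn s (bdQ 1 ε \ LL) ∧
    ∀ q ∈ bdQ 1 ε \ LL, cp (s q) = q.1 := by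
  filter_upwards [labels, eventually_good (σ := 1) (Or.inl rfl)] with ε hL hg
  obtain ⟨x, hxc, hx⟩ := exists_xhat hg
  have hlab : ∀ q ∈ bdQ 1 ε \ LL, Labels (x q) q.1 := fun q hq => H1_mem hL hx hq.1
  have hne : ∀ q ∈ bdQ 1 ε \ LL, q.1 ≠ 1 ∧ q.1 ≠ -1 := by
    intro q hq
    have := hq.2
    simp only [LL, mem_ofPred_eq, not_or] at this
    exact this
  have hre : ∀ q ∈ bdQ 1 ε \ LL, q.1.im = 0 → q.1.re ≠ 1 ∧ q.1.re ≠ -1 := by
    intro q hq h0
    constructor
    · intro h1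
      exact (hne q hq).1 (Complex.ext (by simpa using h1) (by simpa using h0))
    · intro h1
      exact (hne q hq).2 (Complex.ext (by simpa using h1) (by simpa using h0))
  have hxA : ContinuousOn x (bdQ 1 ε \ LL) := by
    refine hxc.mono ?_
    rintro _ ⟨⟨_, ⟨p, hp, rfl⟩, rfl⟩, -⟩
    exact ⟨_, ⟨p, ⟨hp.1, hp.2.le⟩, rfl⟩, rfl⟩
  have hfst : ∀ s : Set Amb, ContinuousOn (fun q : Amb => q.1) s := fun s =>
    continuous_fst.continuousOn
  have hsec : ∀ (i j : Fin 4) (s : Set Amb), (∀ q ∈ s, q.1 ∈ secDom i j) →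
      ContinuousOn (fun q : Amb => sec i j q.1) s := fun i j s hs =>
    (continuousOn_sec i j).comp (hfst s) hs
  have hc12 : √3 / 2 ≤ Real.cos (Real.pi / 12) := by
    rw [← Real.cos_pi_div_six]
    apply Real.cos_le_cos_of_nonneg_of_le_pi <;> linarith [Real.pi_pos]
  have h3 : (1 : ℝ) ≤ √3 := by
    rw [Real.one_le_sqrt]; norm_num
  -- the six pieces
  set A : Set Amb := bdQ 1 ε \ LL with hA
  let s6 : Amb → Cov := fun q => sec 3 3 q.1
  let s5 : Amb → Cov := fun q => if -(√3 / 2) ≤ x q then sec 3 2 q.1 else s6 q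
  let s4 : Amb → Cov := fun q => if -(1 / 2) ≤ x q then sec 2 2 q.1 else s5 q
  let s3 : Amb → Cov := fun q => if 1 / 2 ≤ x q then sec 2 1 q.1 else s4 q
  let s2 : Amb → Cov := fun q => if √3 / 2 ≤ x q then sec 0 1 q.1 else s3 q
  let s1 : Amb → Cov := fun q => if Real.cos (Real.pi / 12) ≤ x q then sec 0 0 q.1 else s2 q
  have c6 : ContinuousOn s6 (A ∩ {q | x q ≤ -(√3 / 2)}) := by
    refine hsec 3 3 _ ?_
    rintro q ⟨hq, hxq⟩
    by_cases h0 : q.1.im = 0
    · right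
      have h1 := (hlab q hq).i6 hxq h0
      have h2 := (hre q hq h0).2
      rcases lt_or_gt_of_ne h2 with h2 | h2
      · exact Or.inl ⟨h2, by decide⟩
      · exact Or.inr (Or.inl ⟨h2, h1, rfl⟩)
    · exact Or.inl h0
  have c5 : ContinuousOn s5 (A ∩ {q | x q ≤ -(1 / 2)}) := by
    refine H1_glue (hxA.mono inter_subset_left) _ ?_ ?_ ?_
    · refine hsec 3 2 _ ?_
      rintro q ⟨⟨hq, hxq⟩, hxq'⟩
      by_cases h0 : q.1.im = 0
      · right
        exact Or.inr (Or.inr ⟨(hlab q hq).i5 hxq' hxq h0, by decide⟩)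
      · exact Or.inl h0
    · refine c6.mono ?_
      rintro q ⟨⟨hq, -⟩, hxq⟩
      exact ⟨hq, hxq⟩
    · rintro q ⟨hq, -⟩ hxq
      exact sec_of_pos 3 2 3 ((hlab q hq).t5 hxq)
  have c4 : ContinuousOn s4 (A ∩ {q | x q ≤ 1 / 2}) := by
    refine H1_glue (hxA.mono inter_subset_left) _ ?_ ?_ ?_
    · refine hsec 2 2 _ ?_
      rintro q ⟨⟨hq, hxq⟩, hxq'⟩
      by_cases h0 : q.1.im = 0
      · right
        have h1 := (hlab q hq).i4 hxq' hxq h0
        exact Or.inr (Or.inl ⟨h1.1, h1.2, rfl⟩)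
      · exact Or.inl h0
    · refine c5.mono ?_
      rintro q ⟨⟨hq, -⟩, hxq⟩
      exact ⟨hq, hxq⟩
    · rintro q ⟨hq, -⟩ hxq
      have h1 : s5 q = sec 3 2 q.1 := by
        have : -(√3 / 2) ≤ x q := by rw [hxq]; linarith
        simp only [s5, if_pos this]
      change _ = s5 q
      rw [h1]
      exact sec_of_neg 2 3 2 ((hlab q hq).t4 hxq)
  have c3 : ContinuousOn s3 (A ∩ {q | x q ≤ √3 / 2}) := by
    refine H1_glue (hxA.mono inter_subset_left) _ ?_ ?_ ?_
    · refine hsec 2 1 _ ?_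
      rintro q ⟨⟨hq, hxq⟩, hxq'⟩
      by_cases h0 : q.1.im = 0
      · right
        exact Or.inr (Or.inr ⟨(hlab q hq).i3 hxq' hxq h0, by decide⟩)
      · exact Or.inl h0
    · refine c4.mono ?_
      rintro q ⟨⟨hq, -⟩, hxq⟩
      exact ⟨hq, hxq⟩
    · rintro q ⟨hq, -⟩ hxq
      have h1 : s4 q = sec 2 2 q.1 := by
        have : -(1 / 2) ≤ x q := by rw [hxq]; linarith
        simp only [s4, if_pos this]
      change _ = s4 q
      rw [h1]
      exact sec_of_pos 2 1 2 ((hlab q hq).t3 hxq)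
  have c2 : ContinuousOn s2 (A ∩ {q | x q ≤ Real.cos (Real.pi / 12)}) := by
    refine H1_glue (hxA.mono inter_subset_left) _ ?_ ?_ ?_
    · refine hsec 0 1 _ ?_
      rintro q ⟨⟨hq, hxq⟩, hxq'⟩
      by_cases h0 : q.1.im = 0
      · right
        exact Or.inl ⟨(hlab q hq).i2 hxq' hxq h0, by decide⟩
      · exact Or.inl h0
    · refine c3.mono ?_
      rintro q ⟨⟨hq, -⟩, hxq⟩
      exact ⟨hq, hxq⟩
    · rintro q ⟨hq, -⟩ hxq
      have h1 : s3 q = sec 2 1 q.1 := by
        have : 1 / 2 ≤ x q := by rw [hxq]; linarith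
        simp only [s3, if_pos this]
      change _ = s3 q
      rw [h1]
      exact sec_of_neg 0 2 1 ((hlab q hq).t2 hxq)
  have c1 : ContinuousOn s1 A := by
    refine H1_glue hxA _ ?_ c2 ?_
    · refine hsec 0 0 _ ?_
      rintro q ⟨hq, hxq⟩
      by_cases h0 : q.1.im = 0
      · right
        have h1 := (hlab q hq).i1 hxq h0
        have h2 := (hre q hq h0).1
        rcases lt_or_gt_of_ne h2 with h2 | h2
        · exact Or.inr (Or.inl ⟨h1, h2, rfl⟩)
        · exact Or.inr (Or.inr ⟨h2, by decide⟩)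
      · exact Or.inl h0
    · intro q hq hxq
      have h1 : s2 q = sec 0 1 q.1 := by
        have : √3 / 2 ≤ x q := by rw [hxq]; exact hc12
        simp only [s2, if_pos this]
      rw [h1]
      exact sec_of_pos 0 0 1 ((hlab q hq).t1 hxq)
  refine ⟨s1, c1, ?_⟩
  intro q hq
  have h := hne q hq
  simp only [s1, s2, s3, s4, s5, s6]
  split_ifs <;> exact cp_sec _ _ h

end Pool.B203
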