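import Pool.Agent.Lib.B203.QN
import Pool.Agent.Lib.B203.Cover

/-! Row C9: no section over `Q ∖ L`. -/

open Set Metric Topology
open scoped ContDiff Quaternion ComplexConjugate

noncomputable section

namespace Pool.B203

private def H2sl (z : ℂ) : Amb := (z, !₂[-√(2 - sf z ^ 2), 0, 0])

private lemma H2sl_cont : Continuous H2sl := by
  have h1 : Continuous fun z : ℂ => -√(2 - sf z ^ 2) :=
    ((continuous_const.sub (continuous_sf.pow 2)).sqrt).neg
  refine continuous_id.prodMk ?_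
  refine (PiLp.continuous_toLp 2 _).comp (continuous_pi fun i => ?_)
  fin_cases i
  · exact h1
  · exact continuous_const
  · exact continuous_const

private lemma H2sl_mem {ε : ℝ} (hg : Good 1 ε) {z : ℂ} (hz : sf z < √2) : H2sl z ∈ Q 1 ε := by
  have h0 : 0 ≤ sf z := zero_le_one.trans (one_le_sf z)
  have h1 : sf z ^ 2 ≤ 2 := by
    have := pow_le_pow_left₀ h0 hz.le 2
    rwa [Real.sq_sqrt (by norm_num)] at this
  have hS : H2sl z ∈ Sig := by
    change sf z ^ 2 + ‖(!₂[-√(2 - sf z ^ 2), 0, 0] : E3)‖ ^ 2 = 2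
    rw [EuclideanSpace.norm_eq, Real.sq_sqrt (Finset.sum_nonneg fun i _ => sq_nonneg _),
      Fin.sum_univ_three]
    simp [Real.sq_sqrt (show (0 : ℝ) ≤ 2 - sf z ^ 2 by linarith)]
  rcases Sig_subset hg hS with h | h
  · exact h
  · exfalso
    obtain ⟨_, ⟨p, hp, rfl⟩, h2⟩ := h
    have h3 := hg.imI_pos p hp
    have h4 : (kap (J 1 p)).2 0 = (H2sl z).2 0 := by rw [h2]
    have h5 : (kap (J 1 p)).2 0 = (J 1 p).2.imI := rfl
    have h6 : (H2sl z).2 0 = -√(2 - sf z ^ 2) := rfl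
    rw [h5, h6] at h4
    have h7 := Real.sqrt_nonneg (2 - sf z ^ 2)
    linarith

theorem H2 {ε : ℝ} (hg : Good 1 ε) : ¬ ∃ s : Amb → Cov, ContinuousOn s (Q 1 ε \ LL) ∧
    ∀ q ∈ Q 1 ε \ LL, cp (s q) = q.1 := by
  rintro ⟨s, hs, hsc⟩
  have hmaps : MapsTo H2sl ({z | sf z < √2} \ {1, -1}) (Q 1 ε \ LL) := by
    rintro z ⟨hz, hz2⟩
    refine ⟨H2sl_mem hg hz, fun h => hz2 ?_⟩
    rcases h with h | h
    · exact Or.inl h
    · exact Or.inr h
  exact no_section ⟨fun z => s (H2sl z), hs.comp H2sl_cont.continuousOn hmaps,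
    fun z hz => hsc _ (hmaps hz)⟩

end Pool.B203
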