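import Pool.Agent.Lib.B203.QN

/-! Row C10: the boundary minus the branch set is connected. -/

open Set Metric Topology
open scoped ContDiff Quaternion ComplexConjugate

noncomputable section

namespace Pool.B203

/-- the boundary of the tube minus the preimages of the branch points -/
def h4D (ε : ℝ) : Set Amb := {p | ‖p.1‖ = 1 ∧ ‖p.2‖ = ε ∧ (p.2 0 ≠ 0 ∨ (p.1 ≠ 1 ∧ p.1 ≠ -1))}

theorem h4_circle : IsPreconnected {z : ℂ | ‖z‖ = 1} := by
  have h := isPreconnected_sphere (E := ℂ) (by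
    rw [Complex.rank_real_complex]; exact Cardinal.one_lt_two) 0 1
  have e : {z : ℂ | ‖z‖ = 1} = sphere (0 : ℂ) 1 := by
    ext z
    simp
  rw [e]
  exact h

theorem h4_sphere (ε : ℝ) : IsPreconnected {u : E3 | ‖u‖ = ε} := by
  have h := isPreconnected_sphere (E := E3) (by
    rw [← Module.finrank_eq_rank, finrank_euclideanSpace_fin]
    norm_cast) 0 ε
  have e : {u : E3 | ‖u‖ = ε} = sphere (0 : E3) ε := by
    ext z
    simp
  rw [e]
  exact h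

theorem h4_one_ne_I : (Complex.I : ℂ) ≠ 1 ∧ (Complex.I : ℂ) ≠ -1 := by
  constructor <;> intro h <;> have := congrArg Complex.im h <;> simp at this

theorem h4_D {ε : ℝ} (hε : 0 < ε) : IsPreconnected (h4D ε) := by
  set b : E3 := EuclideanSpace.single 0 ε with hb
  have hb0 : b 0 = ε := by simp [hb]
  have hbn : ‖b‖ = ε := by
    rw [hb, EuclideanSpace.norm_single, Real.norm_eq_abs, abs_of_pos hε]
  -- circles
  have hC : ∀ u : E3, ‖u‖ = ε → u 0 ≠ 0 → IsPreconnected ((fun z : ℂ => (z, u)) '' {z : ℂ | ‖z‖ = 1}) ∧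
      (fun z : ℂ => ((z, u) : Amb)) '' {z : ℂ | ‖z‖ = 1} ⊆ h4D ε := by
    intro u hu hu0
    refine ⟨h4_circle.image _ (by fun_prop), ?_⟩
    rintro _ ⟨z, hz, rfl⟩
    exact ⟨hz, hu, Or.inl hu0⟩
  -- spheres
  have hS : ∀ z : ℂ, ‖z‖ = 1 → z ≠ 1 → z ≠ -1 →
      IsPreconnected ((fun u : E3 => (z, u)) '' {u : E3 | ‖u‖ = ε}) ∧
      (fun u : E3 => ((z, u) : Amb)) '' {u : E3 | ‖u‖ = ε} ⊆ h4D ε := by
    intro z hz h1 h2
    refine ⟨(h4_sphere ε).image _ (by fun_prop), ?_⟩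
    rintro _ ⟨u, hu, rfl⟩
    exact ⟨hz, hu, Or.inr ⟨h1, h2⟩⟩
  have hI : ‖Complex.I‖ = 1 := by simp
  refine isPreconnected_of_forall ((Complex.I, b) : Amb) fun p hp => ?_
  obtain ⟨z, u⟩ := p
  obtain ⟨hz, hu, hor⟩ := hp
  simp only at hz hu hor
  by_cases h1 : z ≠ 1 ∧ z ≠ -1
  · obtain ⟨c1, c2⟩ := hC b hbn (by rw [hb0]; exact hε.ne')
    obtain ⟨s1, s2⟩ := hS z hz h1.1 h1.2
    refine ⟨_, union_subset c2 s2, Or.inl ⟨Complex.I, hI, rfl⟩, Or.inr ⟨u, hu, rfl⟩,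
      c1.union (z, b) ⟨z, hz, rfl⟩ ⟨b, hbn, rfl⟩ s1⟩
  · have hu0 : u 0 ≠ 0 := hor.resolve_right h1
    obtain ⟨c1, c2⟩ := hC u hu hu0
    obtain ⟨s1, s2⟩ := hS Complex.I hI h4_one_ne_I.1 h4_one_ne_I.2
    refine ⟨_, union_subset c2 s2, Or.inr ⟨b, hbn, rfl⟩, Or.inl ⟨z, hz, rfl⟩,
      c1.union (Complex.I, u) ⟨Complex.I, hI, rfl⟩ ⟨u, hu, rfl⟩ s1⟩

theorem H4 {σ ε : ℝ} (hg : Good σ ε) : IsPreconnected (bdQ σ ε \ LL) := by
  have hsub : h4D ε ⊆ tubC ε := fun p hp => ⟨hp.1, hp.2.1.le⟩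
  have hcont : ContinuousOn (fun p => kap (J σ p)) (h4D ε) :=
    continuous_kap.comp_continuousOn (hg.cont.mono hsub)
  have himg := (h4_D hg.pos).image _ hcont
  have heq : (fun p => kap (J σ p)) '' h4D ε = bdQ σ ε \ LL := by
    ext q
    constructor
    · rintro ⟨p, hp, rfl⟩
      refine ⟨⟨_, ⟨p, ⟨hp.1, hp.2.1⟩, rfl⟩, rfl⟩, ?_⟩
      have hp' := hsub hp
      rintro (h | h)
      · rw [kapJ_fst_eq_one_iff hg hp'] at h
        have h2 := (ell_eq_one_iff hp.1).1 h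
        rcases hp.2.2 with h3 | h3
        · exact h3 h2.2
        · exact h3.1 h2.1
      · rw [kapJ_fst_eq_neg_one_iff hg hp'] at h
        have h2 := (ell_eq_neg_one_iff hp.1).1 h
        rcases hp.2.2 with h3 | h3
        · exact h3 h2.2
        · exact h3.2 h2.1
    · rintro ⟨⟨_, ⟨p, hp, rfl⟩, rfl⟩, hL⟩
      have hp' : p ∈ tubC ε := ⟨hp.1, hp.2.le⟩
      refine ⟨p, ⟨hp.1, hp.2, ?_⟩, rfl⟩
      by_contra hcon
      rw [not_or, not_and_or, not_not, not_not, not_not] at hcon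
      refine hL ?_
      rcases hcon.2 with h | h
      · left
        rw [kapJ_fst_eq_one_iff hg hp']
        exact (ell_eq_one_iff hp.1).2 ⟨h, hcon.1⟩
      · right
        rw [kapJ_fst_eq_neg_one_iff hg hp']
        exact (ell_eq_neg_one_iff hp.1).2 ⟨h, hcon.1⟩
  rw [← heq]
  exact himg

end Pool.B203
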