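import Pool.Agent.Lib.B203.Core
import Pool.Agent.Lib.B203.H1
import Pool.Agent.Lib.B203.H2
import Pool.Agent.Lib.B203.H3
import Pool.Agent.Lib.B203.H4
import Pool.Agent.Lib.B203.BallRet

/-! Row CFinal (helper1): assembly of the obstruction. -/

open Set Metric Topology
open scoped ContDiff Quaternion ComplexConjugate

noncomputable section

namespace Pool.B203

theorem C_final : ∀ᶠ ε in 𝓝[>] (0 : ℝ), ∀ (β : E3 → Amb) (g : Amb → ℝ),
    ContinuousOn β (closedBall 0 1) → InjOn β (closedBall 0 1) →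
    MapsTo β (closedBall 0 1) (Q 1 ε) →
    (∀ x ∈ closedBall (0 : E3) 1, β x ∈ bdQ 1 ε ↔ ‖x‖ = 1) →
    ContinuousOn g (Q 1 ε) → (∀ q ∈ Q 1 ε, g q = 0 ↔ q ∈ β '' closedBall 0 1) →
    (∀ q ∈ Q 1 ε, q.1 = 1 → 0 < g q) → (∀ q ∈ Q 1 ε, q.1 = -1 → g q < 0) → False := by
  filter_upwards [H1, eventually_good (σ := 1) (Or.inl rfl)] with ε hH1 hG
  intro β g hβ hβi hβm hβb hg hg0 hgx hgy
  have hbd : bdQ 1 ε ⊆ Q 1 ε := bdQ_subset_Q hG
  obtain ⟨r, hr, hrm, hri⟩ := ball_retract (isCompact_Q hG) hβ hβi hβm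
  have hβQ : β '' closedBall 0 1 ⊆ Q 1 ε := by
    rintro _ ⟨x, hx, rfl⟩; exact hβm hx
  have hLL : ({q : Amb | q.1 = 1} ∪ {q : Amb | q.1 = -1}) = LL := rfl
  -- the zero set is the ball
  have hB : Q 1 ε ∩ {q | g q = 0} = β '' closedBall 0 1 := by
    ext q
    constructor
    · exact fun h => (hg0 q h.1).1 h.2
    · exact fun h => ⟨hβQ h, (hg0 q (hβQ h)).2 h⟩
  have hBb : bdQ 1 ε ∩ {q | g q = 0} = β '' sphere 0 1 := by
    ext q
    constructor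
    · rintro ⟨hq, h0⟩
      obtain ⟨x, hx, rfl⟩ := (hg0 q (hbd hq)).1 h0
      exact ⟨x, by simpa using (hβb x hx).1 hq, rfl⟩
    · rintro ⟨x, hx, rfl⟩
      have hx' : x ∈ closedBall (0 : E3) 1 := sphere_subset_closedBall hx
      have hq : β x ∈ bdQ 1 ε := (hβb x hx').2 (by simpa using hx)
      exact ⟨hq, (hg0 _ (hbd hq)).2 ⟨x, hx', rfl⟩⟩
  -- open sets cut out by the sign of `g`
  have hopen : ∀ V : Set ℝ, IsOpen V → ∃ U : Set Amb, IsOpen U ∧ Q 1 ε ∩ g ⁻¹' V = Q 1 ε ∩ U := by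
    intro V hV
    obtain ⟨U, hU, hUe⟩ := (_root_.continuousOn_iff'.1 hg) V hV
    exact ⟨U, hU, by rw [inter_comm, hUe, inter_comm]⟩
  obtain ⟨Ux, hUx, hUxe⟩ := hopen (Ioi 0) isOpen_Ioi
  obtain ⟨Uy, hUy, hUye⟩ := hopen (Iio 0) isOpen_Iio
  have hmx : ∀ q ∈ Q 1 ε, (0 < g q ↔ q ∈ Ux) := fun q hq => by
    have := Set.ext_iff.1 hUxe q
    simp only [mem_inter_iff, hq, true_and, mem_preimage, mem_Ioi] at this
    exact this
  have hmy : ∀ q ∈ Q 1 ε, (g q < 0 ↔ q ∈ Uy) := fun q hq => by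
    have := Set.ext_iff.1 hUye q
    simp only [mem_inter_iff, hq, true_and, mem_preimage, mem_Iio] at this
    exact this
  have hex : (bdQ 1 ε ∩ Ux) \ LL = (bdQ 1 ε ∩ {q | 0 < g q}) \ ({q : Amb | q.1 = 1} ∪ {q : Amb | q.1 = -1}) := by
    rw [hLL]
    congr 1
    ext q
    constructor
    · exact fun h => ⟨h.1, (hmx q (hbd h.1)).2 h.2⟩
    · exact fun h => ⟨h.1, (hmx q (hbd h.1)).1 h.2⟩
  have hey : (bdQ 1 ε ∩ Uy) \ LL = (bdQ 1 ε ∩ {q | g q < 0}) \ ({q : Amb | q.1 = 1} ∪ {q : Amb | q.1 = -1}) := by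
    rw [hLL]
    congr 1
    ext q
    constructor
    · exact fun h => ⟨h.1, (hmy q (hbd h.1)).2 h.2⟩
    · exact fun h => ⟨h.1, (hmy q (hbd h.1)).1 h.2⟩
  have hsph : IsPreconnected (sphere (0 : E3) 1) :=
    isPreconnected_sphere (by
      rw [← Module.finrank_eq_rank, finrank_euclideanSpace_fin]
      norm_num) 0 1
  have hsne : (sphere (0 : E3) 1).Nonempty := by
    refine ⟨EuclideanSpace.single 0 1, ?_⟩
    simp
  refine core (X := Amb) (Q := Q 1 ε) (bd := bdQ 1 ε) (Dx := {q | q.1 = 1}) (Dy := {q | q.1 = -1})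
    (z := fun q => q.1) (g := g) (r := r) hbd continuous_fst.continuousOn
    (fun q _ => Iff.rfl) (fun q _ => Iff.rfl) hg (fun q hq h => hgx q hq h)
    (fun q hq h => hgy q hq h) hr
    (fun q hq => ⟨hβQ (hrm q hq), (hg0 _ (hβQ (hrm q hq))).2 (hrm q hq)⟩)
    (fun q hq h0 => hri q ((hg0 q hq).1 h0)) ?_ ?_ ?_ ?_ ?_ ?_ ?_ ?_
  · rw [hB]
    exact (convex_closedBall (0 : E3) 1).isPreconnected.image β hβ
  · rw [hBb]
    exact hsph.image β (hβ.mono sphere_subset_closedBall)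
  · rw [hBb]
    exact hsne.image β
  · rw [hLL]; exact hH1
  · rw [hLL]; exact H2 hG
  · intro h hc hne s₀ hs₀ hs
    rw [← hex] at hs₀ hs ⊢
    obtain ⟨s, h1, h2, h3⟩ := H3x (Or.inl rfl) hG hUx (fun q hq h1 => (hmx q hq).1 (hgx q hq h1))
      (h := h) hc (fun q hq h1 => hne q ⟨hq, h1⟩) hs₀ hs
    exact ⟨s, h1, fun q hq => h2 q hq.1 hq.2, h3⟩
  · intro h hc hne s₀ hs₀ hs
    rw [← hey] at hs₀ hs ⊢
    obtain ⟨s, h1, h2, h3⟩ := H3y hG hUy (fun q hq h1 => (hmy q hq).1 (hgy q hq h1))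
      (h := h) hc (fun q hq h1 => hne q ⟨hq, h1⟩) hs₀ hs
    exact ⟨s, h1, fun q hq => h2 q hq.1 hq.2, h3⟩
  · rw [hLL]; exact H4 hG

end Pool.B203
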