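import Pool.Agent.Lib.B203.TauDefs
import Pool.Agent.Lib.B203.DegFab

/-! Row Slab: a slab of the collar disjoint from its image. -/

open Set Metric Topology
open scoped ContDiff Quaternion ComplexConjugate

noncomputable section

namespace Pool.B203

namespace SlabAux

open DegFabAux

/-- A positive continuous function on a compact set has a positive lower bound (at most 1). -/
theorem exists_delta {X : Type*} [TopologicalSpace X] {S : Set X} (hS : IsCompact S) {u : X → ℝ}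
    (hu : ContinuousOn u S) (h0 : ∀ q ∈ S, 0 < u q) : ∃ δ : ℝ, 0 < δ ∧ δ ≤ 1 ∧ ∀ q ∈ S, δ < u q := by
  rcases S.eq_empty_or_nonempty with rfl | hne
  · exact ⟨1, one_pos, le_rfl, fun q hq => hq.elim⟩
  · obtain ⟨q0, hq0, hmin⟩ := hS.exists_isMinOn hne hu
    refine ⟨min 1 (u q0 / 2), lt_min one_pos (half_pos (h0 q0 hq0)), min_le_left _ _, fun q hq => ?_⟩
    have h1 : u q0 ≤ u q := hmin hq
    have h2 := h0 q0 hq0
    exact lt_of_le_of_lt (min_le_right _ _) (by linarith)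

theorem isClosed_KK : IsClosed KK := isCompact_KK.isClosed

variable {τ : Amb → Amb} {ζh : Amb → ℂ} {η : Amb → ℝ} (hτ : TauData τ ζh η) {B : Set Amb}
    {E : E3 × ℝ → Amb} (hE : Collar B E)

include hτ hE

theorem contTE : ContinuousOn (fun q => τ (E q)) KK := hτ.cont.comp hE.cont hE.maps

theorem slab_disjoint (hdis : Disjoint (τ '' B) B) :
    ∃ a b : ℝ, -1 ≤ a ∧ a < b ∧ b ≤ 1 ∧
      Disjoint (τ '' (E '' (closedBall 0 1 ×ˢ Icc a b))) (E '' (closedBall 0 1 ×ˢ Icc a b)) := by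
  have hc : ContinuousOn (fun x : (E3 × ℝ) × (E3 × ℝ) => (τ (E x.1), E x.2)) (KK ×ˢ KK) := by
    refine ContinuousOn.prodMk ?_ ?_
    · exact (contTE hτ hE).comp continuousOn_fst (fun x hx => hx.1)
    · exact hE.cont.comp continuousOn_snd (fun x hx => hx.2)
  have hS : IsCompact ((KK ×ˢ KK) ∩ (fun x : (E3 × ℝ) × (E3 × ℝ) => (τ (E x.1), E x.2)) ⁻¹' (diagonal Amb)) := by
    refine (isCompact_KK.prod isCompact_KK).of_isClosed_subset ?_ inter_subset_left
    exact hc.preimage_isClosed_of_isClosed (isClosed_KK.prod isClosed_KK) isClosed_diagonal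
  obtain ⟨δ, hδ, hδ1, hδ2⟩ := exists_delta hS (u := fun x => max |x.1.2| |x.2.2|) (by fun_prop) (by
    rintro ⟨⟨x, t⟩, ⟨y, s⟩⟩ ⟨⟨hq, hq'⟩, hd⟩
    by_contra hcon
    rw [not_lt] at hcon
    have h1 : t = 0 := by
      have := (le_max_left _ _).trans hcon
      exact abs_nonpos_iff.1 this
    have h2 : s = 0 := by
      have := (le_max_right _ _).trans hcon
      exact abs_nonpos_iff.1 this
    subst h1; subst h2
    have hd' : τ (E (x, 0)) = E (y, 0) := hd
    exact (Set.disjoint_left.1 hdis) ⟨E (x, 0), E_zero_mem hE hq.1, rfl⟩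
      (by rw [hd']; exact E_zero_mem hE hq'.1))
  refine ⟨-δ, δ, by linarith, by linarith, hδ1, ?_⟩
  rw [Set.disjoint_left]
  rintro p ⟨_, ⟨⟨x, t⟩, hq, rfl⟩, rfl⟩ ⟨⟨y, s⟩, hq', he⟩
  have hm : (((x, t), (y, s)) : (E3 × ℝ) × (E3 × ℝ)) ∈
      ((KK ×ˢ KK) ∩ (fun x : (E3 × ℝ) × (E3 × ℝ) => (τ (E x.1), E x.2)) ⁻¹' (diagonal Amb)) := by
    refine ⟨⟨⟨hq.1, ?_⟩, ⟨hq'.1, ?_⟩⟩, he.symm⟩
    · exact ⟨by linarith [hq.2.1], by linarith [hq.2.2]⟩
    · exact ⟨by linarith [hq'.2.1], by linarith [hq'.2.2]⟩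
  have h3 := hδ2 _ hm
  have h1 : |t| ≤ δ := abs_le.2 ⟨hq.2.1, hq.2.2⟩
  have h2 : |s| ≤ δ := abs_le.2 ⟨hq'.2.1, hq'.2.2⟩
  exact absurd (max_le h1 h2) (not_le.2 h3)

omit hτ in
theorem B_subset : B ⊆ W := by
  rw [← hE.zero]
  rintro _ ⟨x, hx, rfl⟩
  exact hE.maps ⟨hx, by constructor <;> norm_num⟩

omit hτ in
theorem isClosed_B : IsClosed B := by
  rw [← hE.zero]
  refine ((isCompact_closedBall (0 : E3) 1).image_of_continuousOn ?_).isClosed
  refine hE.cont.comp (by fun_prop) ?_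
  intro x hx
  exact ⟨hx, by constructor <;> norm_num⟩

omit hτ in
theorem f_B {p : Amb} (hp : p ∈ B) : fab E (-1) 1 p = -1 := by
  rw [← hE.zero] at hp
  obtain ⟨x, hx, rfl⟩ := hp
  rw [fab_eq_neg_one_iff hE le_rfl (by norm_num) le_rfl]
  exact ⟨x, hx, by norm_num⟩

theorem maps_compl (heq : τ '' B = B) {p : Amb} (hp : p ∈ W \ B) : τ p ∈ W \ B := by
  refine ⟨hτ.maps hp.1, fun h => hp.2 ?_⟩
  rw [← heq] at h
  obtain ⟨b, hb, hbp⟩ := h
  have h1 := hτ.invol p hp.1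
  have h2 := hτ.invol b (B_subset hE hb)
  rw [← h1, ← hbp, h2]
  exact hb

/-- The involution near `B`. -/
theorem exists_t2 (heq : τ '' B = B) : ∃ t₂ : ℝ, 0 < t₂ ∧ t₂ ≤ 1 ∧ ∀ x ∈ closedBall (0 : E3) 1,
    ∀ t : ℝ, |t| ≤ t₂ → τ (E (x, t)) ∈ E '' (closedBall (0 : E3) 1 ×ˢ Ioo (-1 : ℝ) 1) := by
  obtain ⟨O, hO, hO2⟩ := hE.opn (-1) 1 le_rfl le_rfl
  have hS : IsCompact (KK ∩ (fun q => τ (E q)) ⁻¹' Oᶜ) :=
    isCompact_KK.of_isClosed_subset
      ((contTE hτ hE).preimage_isClosed_of_isClosed isClosed_KK hO.isClosed_compl) inter_subset_left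
  obtain ⟨δ, hδ, hδ1, hδ2⟩ := exists_delta hS (u := fun q => |q.2|) (by fun_prop) (by
    rintro ⟨x, t⟩ ⟨hq, hqO⟩
    by_contra hcon
    rw [not_lt] at hcon
    have ht : t = 0 := abs_nonpos_iff.1 hcon
    subst ht
    have h1 : τ (E (x, 0)) ∈ B := by rw [← heq]; exact ⟨_, E_zero_mem hE hq.1, rfl⟩
    rw [← hE.zero] at h1
    obtain ⟨y, hy, hy2⟩ := h1
    have h2 : τ (E (x, 0)) ∈ E '' (closedBall (0 : E3) 1 ×ˢ Ioo (-1 : ℝ) 1) :=
      ⟨(y, 0), ⟨hy, by constructor <;> norm_num⟩, hy2⟩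
    rw [hO2] at h2
    exact hqO h2.1)
  refine ⟨δ, hδ, hδ1, fun x hx t ht => ?_⟩
  have hq : ((x, t) : E3 × ℝ) ∈ KK := ⟨hx, by
    rw [abs_le] at ht; exact ⟨by linarith [ht.1], by linarith [ht.2]⟩⟩
  rw [hO2]
  refine ⟨?_, hτ.maps (hE.maps hq)⟩
  by_contra hn
  exact absurd ht (not_le.2 (hδ2 (x, t) ⟨hq, hn⟩))

omit hτ hE in
/-- The new `t`-coordinate. -/
def TT (τ : Amb → Amb) (E : E3 × ℝ → Amb) (q : E3 × ℝ) : ℝ := (inv E (τ (E q))).2

theorem slab_inv (hconn : IsConnected (W \ B)) (heq : τ '' B = B) :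
    ∃ a b : ℝ, -1 ≤ a ∧ a < b ∧ b ≤ 1 ∧
      Disjoint (τ '' (E '' (closedBall 0 1 ×ˢ Icc a b))) (E '' (closedBall 0 1 ×ˢ Icc a b)) := by
  obtain ⟨t₂, ht0, ht1, ht2⟩ := exists_t2 hτ hE heq
  -- basic facts on `TT`
  have hspec : ∀ x ∈ closedBall (0 : E3) 1, ∀ t : ℝ, |t| ≤ t₂ → ∃ y ∈ closedBall (0 : E3) 1,
      TT τ E (x, t) ∈ Ioo (-1 : ℝ) 1 ∧ τ (E (x, t)) = E (y, TT τ E (x, t)) := by
    intro x hx t ht
    obtain ⟨⟨y, s⟩, hq, he⟩ := ht2 x hx t ht
    have h1 : TT τ E (x, t) = s := by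
      unfold TT
      rw [← he, inv_apply hE (show ((y, s) : E3 × ℝ) ∈ KK from ⟨hq.1, Ioo_subset_Icc_self hq.2⟩)]
    refine ⟨y, hq.1, ?_, ?_⟩
    · rw [h1]; exact hq.2
    · rw [h1]; exact he.symm
  have hKt : ∀ x ∈ closedBall (0 : E3) 1, ∀ t : ℝ, |t| ≤ t₂ → ((x, t) : E3 × ℝ) ∈ KK := by
    intro x hx t ht
    rw [abs_le] at ht
    exact ⟨hx, by linarith [ht.1], by linarith [ht.2]⟩
  have hTc : ContinuousOn (TT τ E) (closedBall (0 : E3) 1 ×ˢ Icc (-t₂) t₂) := by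
    refine continuous_snd.comp_continuousOn ?_
    refine (continuousOn_inv hE).comp ((contTE hτ hE).mono ?_) ?_
    · rintro ⟨x, t⟩ hq
      exact hKt x hq.1 t (abs_le.2 hq.2)
    · rintro ⟨x, t⟩ hq
      obtain ⟨q, hq1, hq2⟩ := ht2 x hq.1 t (abs_le.2 hq.2)
      exact ⟨q, ⟨hq1.1, Ioo_subset_Icc_self hq1.2⟩, hq2⟩
  have hT0 : ∀ x ∈ closedBall (0 : E3) 1, TT τ E (x, 0) = 0 := by
    intro x hx
    obtain ⟨y, hy, hT, he⟩ := hspec x hx 0 (by simp [ht0.le])
    have h1 : τ (E (x, 0)) ∈ B := by rw [← heq]; exact ⟨_, E_zero_mem hE hx, rfl⟩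
    by_contra hne
    rw [he] at h1
    exact (E_mem_compl hE hy (Ioo_subset_Icc_self hT) hne).2 h1
  have hTne : ∀ x ∈ closedBall (0 : E3) 1, ∀ t : ℝ, |t| ≤ t₂ → t ≠ 0 → TT τ E (x, t) ≠ 0 := by
    intro x hx t ht htne h
    obtain ⟨y, hy, hT, he⟩ := hspec x hx t ht
    have h1 := maps_compl hτ hE heq (E_mem_compl hE hx (hKt x hx t ht).2 htne)
    rw [he, h] at h1
    exact h1.2 (E_zero_mem hE hy)
  have h00 : (0 : E3) ∈ closedBall (0 : E3) 1 := by simp
  -- signs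
  have hsign : ∀ I : Set ℝ, Convex ℝ I → (∀ t ∈ I, |t| ≤ t₂ ∧ t ≠ 0) →
      (∀ x ∈ closedBall (0 : E3) 1, ∀ t ∈ I, 0 < TT τ E (x, t)) ∨
      (∀ x ∈ closedBall (0 : E3) 1, ∀ t ∈ I, TT τ E (x, t) < 0) := by
    intro I hI hI2
    have hpre : IsPreconnected (closedBall (0 : E3) 1 ×ˢ I) :=
      ((convex_closedBall (0 : E3) 1).prod hI).isPreconnected
    by_contra hcon
    rw [not_or] at hcon
    obtain ⟨hc1, hc2⟩ := hcon
    push Not at hc1 hc2
    obtain ⟨x, hx, t, ht, h1⟩ := hc1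
    obtain ⟨y, hy, s, hs, h2⟩ := hc2
    have hc : ContinuousOn (TT τ E) (closedBall (0 : E3) 1 ×ˢ I) :=
      hTc.mono (prod_mono le_rfl (fun t ht => abs_le.1 (hI2 t ht).1))
    obtain ⟨⟨z, r⟩, hz, hz0⟩ := hpre.intermediate_value (a := (x, t)) (b := (y, s)) ⟨hx, ht⟩ ⟨hy, hs⟩ hc
      (show (0 : ℝ) ∈ Icc _ _ from ⟨h1, h2⟩)
    exact hTne z hz.1 r (hI2 r hz.2).1 (hI2 r hz.2).2 hz0
  rcases hsign (Ioc 0 t₂) (convex_Ioc _ _) (fun t ht => ⟨abs_le.2 ⟨by linarith [ht.1], ht.2⟩, ht.1.ne'⟩)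
    with hpos | hneg
  swap
  · -- the sides are exchanged
    refine ⟨t₂ / 2, t₂, by linarith, by linarith, ht1, ?_⟩
    rw [Set.disjoint_left]
    rintro p ⟨_, ⟨⟨x, t⟩, hq, rfl⟩, rfl⟩ ⟨⟨y, s⟩, hq', he⟩
    have htI : t ∈ Ioc 0 t₂ := ⟨by linarith [hq.2.1], hq.2.2⟩
    have h1 := hneg x hq.1 t htI
    have h2 : TT τ E (x, t) = s := by
      unfold TT
      rw [← he, inv_apply hE (hKt y hq'.1 s (abs_le.2 ⟨by linarith [hq'.2.1], hq'.2.2⟩))]
    rw [h2] at h1
    linarith [hq'.2.1]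
  · exfalso
    have hneg : ∀ x ∈ closedBall (0 : E3) 1, ∀ t ∈ Ico (-t₂) 0, TT τ E (x, t) < 0 := by
      rcases hsign (Ico (-t₂) 0) (convex_Ico _ _)
        (fun t ht => ⟨abs_le.2 ⟨ht.1, by linarith [ht.2]⟩, ht.2.ne⟩) with h | h
      swap
      · exact h
      exfalso
      -- choose a small negative time
      have hc : ContinuousOn (fun s : ℝ => TT τ E (0, -s)) (Icc 0 t₂) := by
        refine hTc.comp (by fun_prop) ?_
        intro s hs
        exact ⟨h00, by linarith [hs.2], by linarith [hs.1]⟩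
      have hcw := hc 0 ⟨le_rfl, ht0.le⟩
      have hlim : ∀ᶠ s in 𝓝[Icc 0 t₂] (0 : ℝ), TT τ E (0, -s) < t₂ := by
        refine hcw.eventually (gt_mem_nhds ?_)
        show TT τ E (0, -0) < t₂
        rw [neg_zero, hT0 0 h00]; exact ht0
      have hlim2 : ∀ᶠ s in 𝓝[>] (0 : ℝ), TT τ E (0, -s) < t₂ ∧ s ∈ Ioc 0 t₂ := by
        have h3 : Ioc (0 : ℝ) t₂ ∈ 𝓝[>] (0 : ℝ) := Ioc_mem_nhdsGT ht0
        have h4 : ∀ᶠ s in 𝓝[Ioc 0 t₂] (0 : ℝ), TT τ E (0, -s) < t₂ :=
          hlim.filter_mono (nhdsWithin_mono _ Ioc_subset_Icc_self)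
        rw [nhdsWithin_Ioc_eq_nhdsGT ht0] at h4
        filter_upwards [h4, h3] with s h5 h6
        exact ⟨h5, h6⟩
      obtain ⟨s, hs1, hs2⟩ := hlim2.exists
      have hs3 : |(-s)| ≤ t₂ := by rw [abs_neg, abs_of_pos hs2.1]; exact hs2.2
      obtain ⟨y, hy, hT, he⟩ := hspec 0 h00 (-s) hs3
      have hTp := h 0 h00 (-s) ⟨by linarith [hs2.2], by linarith [hs2.1]⟩
      have h5 := hpos y hy _ ⟨hTp, hs1.le⟩
      have h6 : τ (E (y, TT τ E (0, -s))) = E (0, -s) := by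
        rw [← he]; exact hτ.invol _ (hE.maps (hKt 0 h00 _ hs3))
      have h7 : TT τ E (y, TT τ E (0, -s)) = -s := by
        have : TT τ E (y, TT τ E (0, -s)) = (inv E (τ (E (y, TT τ E (0, -s))))).2 := rfl
        rw [this, h6, inv_apply hE (hKt 0 h00 _ hs3)]
      rw [h7] at h5
      linarith [hs2.1]
    -- the function `δ`
    classical
    set dl : Amb → ℝ := fun p => if p ∈ B then 0 else
      Complex.arg (fab E (-1) 1 (τ p)) - Complex.arg (fab E (-1) 1 p) with hdl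
    have hdlE : ∀ x ∈ closedBall (0 : E3) 1, ∀ t : ℝ, |t| ≤ t₂ →
        dl (E (x, t)) = Real.pi * (TT τ E (x, t) - t) := by
      intro x hx t ht
      obtain ⟨y, hy, hT, he⟩ := hspec x hx t ht
      have htI := hKt x hx t ht
      rcases lt_trichotomy t 0 with h | h | h
      · have h1 := (E_mem_compl hE hx htI.2 h.ne).2
        rw [hdl]; simp only [if_neg h1]
        rw [he, arg_neg hE hy (hneg x hx t ⟨(abs_le.1 ht).1, h⟩) hT.1.le, arg_neg hE hx h htI.2.1]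
        ring
      · subst h
        rw [hdl]; simp only [if_pos (E_zero_mem hE hx)]
        rw [hT0 x hx]; ring
      · have h1 := (E_mem_compl hE hx htI.2 h.ne').2
        rw [hdl]; simp only [if_neg h1]
        rw [he, arg_pos hE hy (hpos x hx t ⟨h, (abs_le.1 ht).2⟩) hT.2.le, arg_pos hE hx h htI.2.2]
        ring
    have hdlc : ContinuousOn dl W := by
      intro p hp
      by_cases hpB : p ∈ B
      · obtain ⟨O, hO, hO2⟩ := hE.opn (-t₂) t₂ (by linarith) ht1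
        have hpO : p ∈ O := by
          rw [← hE.zero] at hpB
          obtain ⟨x, hx, rfl⟩ := hpB
          have : E (x, 0) ∈ E '' (closedBall (0 : E3) 1 ×ˢ Ioo (-t₂) t₂) :=
            ⟨(x, 0), ⟨hx, by constructor <;> linarith⟩, rfl⟩
          rw [hO2] at this
          exact this.1
        rw [← continuousWithinAt_inter (hO.mem_nhds hpO), inter_comm, ← hO2]
        have hsub : E '' (closedBall (0 : E3) 1 ×ˢ Ioo (-t₂) t₂) ⊆ E '' KK := by
          rintro _ ⟨⟨x, t⟩, hq, rfl⟩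
          exact ⟨(x, t), hKt x hq.1 t (abs_le.2 ⟨hq.2.1.le, hq.2.2.le⟩), rfl⟩
        have hci : ContinuousOn (fun p => Real.pi * (TT τ E (inv E p) - (inv E p).2))
            (E '' (closedBall (0 : E3) 1 ×ˢ Ioo (-t₂) t₂)) := by
          have hi := (continuousOn_inv hE).mono hsub
          refine continuousOn_const.mul (ContinuousOn.sub ?_ (continuous_snd.comp_continuousOn hi))
          refine hTc.comp hi ?_
          rintro _ ⟨⟨x, t⟩, hq, rfl⟩
          rw [inv_apply hE (hKt x hq.1 t (abs_le.2 ⟨hq.2.1.le, hq.2.2.le⟩))]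
          exact ⟨hq.1, hq.2.1.le, hq.2.2.le⟩
        have hci2 : ContinuousOn dl (E '' (closedBall (0 : E3) 1 ×ˢ Ioo (-t₂) t₂)) := by
          refine hci.congr ?_
          rintro _ ⟨⟨x, t⟩, hq, rfl⟩
          have ht' : |t| ≤ t₂ := abs_le.2 ⟨hq.2.1.le, hq.2.2.le⟩
          simp only
          rw [inv_apply hE (hKt x hq.1 t ht'), hdlE x hq.1 t ht']
        refine hci2 p ?_
        rw [hO2]; exact ⟨hpO, hp⟩
      · rw [← continuousWithinAt_inter ((isClosed_B hE).isOpen_compl.mem_nhds hpB), ← sdiff_eq]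
        have h1 : ContinuousOn (fun p => Complex.arg (fab E (-1) 1 (τ p)) - Complex.arg (fab E (-1) 1 p))
            (W \ B) := by
          refine ContinuousOn.sub ?_ (continuousOn_arg hE)
          exact (continuousOn_arg hE).comp (hτ.cont.mono sdiff_subset)
            (fun q hq => maps_compl hτ hE heq hq)
        refine (h1.congr ?_) p ⟨hp, hpB⟩
        intro q hq
        rw [hdl]; simp only [if_neg hq.2]
    -- the two degrees
    obtain ⟨d, hd, hdeg⟩ := deg_fab hE hconn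
    obtain ⟨lam, hlam, hl⟩ := hdeg (-1) 1 le_rfl (by norm_num) le_rfl
    have hD1 : IsDeg d (fun p => fab E (-1) 1 (τ p)) := by
      refine ⟨fun p => lam p + dl p, hlam.add hdlc, fun p hp => ?_⟩
      have key : fab E (-1) 1 (τ p) = fab E (-1) 1 p * Complex.exp (dl p * Complex.I) := by
        by_cases hpB : p ∈ B
        · have h1 : τ p ∈ B := by rw [← heq]; exact ⟨p, hpB, rfl⟩
          rw [f_B hE h1, f_B hE hpB, hdl]
          simp only [if_pos hpB]
          simp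
        · rw [hdl]; simp only [if_neg hpB]
          push_cast
          rw [sub_mul, Complex.exp_sub]
          have e1 := exp_arg hE p
          have e2 := exp_arg hE (τ p)
          rw [← e1, ← e2]
          have hne : fab E (-1) 1 p ≠ 0 := by
            intro h
            have := norm_fab hE (a := -1) (b := 1) p
            rw [h, norm_zero] at this
            exact zero_ne_one this
          field_simp
      simp only
      rw [key, hl p hp]
      push_cast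
      rw [add_mul, Complex.exp_add, mul_assoc]
    have hD2 : IsDeg (-d) (fun p => fab E (-1) 1 (τ p)) := by
      refine ⟨fun p => lam (τ p) - d * (η p + η (τ p)), ?_, fun p hp => ?_⟩
      · refine (hlam.comp hτ.cont hτ.maps).sub (continuousOn_const.mul ?_)
        exact hτ.ηc.add (hτ.ηc.comp hτ.cont hτ.maps)
      · simp only
        rw [hl (τ p) (hτ.maps hp)]
        have hz : (τ p).1 = p.1⁻¹ * Complex.exp (((-(η p + η (τ p)) : ℝ) : ℂ) * Complex.I) := by
          have h1 := hτ.ζη (τ p) (hτ.maps hp)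
          have h2 := hτ.ζτ p hp
          have h3 := hτ.ζη p hp
          rw [h2, h3, map_mul, ← Complex.exp_conj, map_mul, Complex.conj_ofReal, Complex.conj_I] at h1
          have h4 : conj p.1 = p.1⁻¹ := by
            rw [Complex.inv_def, Complex.normSq_eq_norm_sq, hp.1]; simp
          rw [h4] at h1
          have h5 : (τ p).1 = (p.1⁻¹ * Complex.exp (↑(η p) * -Complex.I)) *
              Complex.exp (-(↑(η (τ p)) * Complex.I)) := by
            rw [h1, mul_assoc, ← Complex.exp_add]; simp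
          rw [h5, mul_assoc, ← Complex.exp_add]
          congr 2
          push_cast; ring
        rw [hz, mul_zpow, inv_zpow', ← Complex.exp_int_mul, mul_assoc, ← Complex.exp_add]
        congr 2
        push_cast; ring
    have := deg_unique hD1 hD2
    rcases hd with rfl | rfl <;> omega

end SlabAux

open SlabAux

/-- Row B9: a slab of the collar disjoint from its image. -/
theorem exists_slab {τ : Amb → Amb} {ζh : Amb → ℂ} {η : Amb → ℝ} (hτ : TauData τ ζh η) {B : Set Amb}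
    {E : E3 × ℝ → Amb} (hE : Collar B E) (hconn : IsConnected (W \ B))
    (heq : τ '' B = B ∨ Disjoint (τ '' B) B) :
    ∃ a b : ℝ, -1 ≤ a ∧ a < b ∧ b ≤ 1 ∧
      Disjoint (τ '' (E '' (closedBall 0 1 ×ˢ Icc a b))) (E '' (closedBall 0 1 ×ˢ Icc a b)) := by
  rcases heq with heq | hdis
  · exact slab_inv hτ hE hconn heq
  · exact slab_disjoint hτ hE hdis

end Pool.B203
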