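import Pool.Agent.Lib.B203.Collar
import Pool.Agent.Lib.B203.Slab
import Pool.Agent.Lib.B203.BConclOf

/-! The B part (assembled). -/

open Set Metric Topology
open scoped ContDiff Quaternion ComplexConjugate

noncomputable section

namespace Pool.B203

theorem B_final {τ : Amb → Amb} {ζh : Amb → ℂ} {η : Amb → ℝ} (hτ : TauData τ ζh η) {B : Set Amb}
    (hB : IsNeatBall B) (hconn : IsConnected (W \ B)) (heq : τ '' B = B ∨ Disjoint (τ '' B) B) :
    BConcl τ ζh := by
  obtain ⟨E, hE⟩ := exists_collar hB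
  obtain ⟨d, hd, hdeg⟩ := deg_fab hE hconn
  obtain ⟨a, b, ha, hab, hb, hdis⟩ := exists_slab hτ hE hconn heq
  exact bconcl_of_slab hτ hE hd ha hab hb (hdeg a b ha hab hb) hdis

end Pool.B203
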