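import Pool.Agent.Lib.B203.CollarDefs

/-! Row CollarOf: from the thickened map to the collar. -/

open Set Metric Topology
open scoped ContDiff Quaternion ComplexConjugate

noncomputable section

namespace Pool.B203

/-- the map `(s, y) ↦ (e^{is}, y)` -/
private def colP (q : ℝ × E3) : Amb := (Complex.exp (q.1 * Complex.I), q.2)

private theorem colP_cont : Continuous colP := by
  unfold colP
  fun_prop

private theorem colP_loc (q : ℝ × E3) : ∃ u ∈ 𝓝 q, InjOn colP u := by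
  refine ⟨{p | |p.1 - q.1| < 1}, ?_, ?_⟩
  · have hc : Continuous (fun p : ℝ × E3 => |p.1 - q.1|) := by fun_prop
    refine (isOpen_lt hc continuous_const).mem_nhds ?_
    simp
  · intro a ha b hb hab
    simp only [mem_ofPred_eq] at ha hb
    simp only [colP, Prod.mk.injEq] at hab
    obtain ⟨h1, h2⟩ := hab
    rw [Complex.exp_eq_exp_iff_exists_int] at h1
    obtain ⟨n, hn⟩ := h1
    have hn2 : a.1 = b.1 + n * (2 * Real.pi) := by
      have h3 : ((a.1 : ℝ) : ℂ) * Complex.I = ((b.1 + n * (2 * Real.pi) : ℝ) : ℂ) * Complex.I := by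
        rw [hn]
        push_cast
        ring
      have h4 := mul_right_cancel₀ Complex.I_ne_zero h3
      exact_mod_cast h4
    have hlt : |a.1 - b.1| < 2 := by
      have := abs_sub_abs_le_abs_sub (a.1 - q.1) (b.1 - q.1)
      have h5 : a.1 - b.1 = (a.1 - q.1) - (b.1 - q.1) := by ring
      rw [h5]
      have h6 := abs_sub (a.1 - q.1) (b.1 - q.1)
      linarith
    have hn0 : n = 0 := by
      by_contra hne
      have h7 : (1 : ℝ) ≤ |(n : ℝ)| := by
        have := Int.one_le_abs hne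
        exact_mod_cast this
      have h8 : |a.1 - b.1| = |(n : ℝ)| * (2 * Real.pi) := by
        rw [hn2]
        have : b.1 + n * (2 * Real.pi) - b.1 = n * (2 * Real.pi) := by ring
        rw [this, abs_mul, abs_of_pos (by positivity : (0 : ℝ) < 2 * Real.pi)]
      have h9 : (3 : ℝ) < Real.pi := Real.pi_gt_three
      nlinarith
    subst hn0
    refine Prod.ext ?_ h2
    simpa using hn2

/-- images of open sets under `colP` are relatively open -/
private theorem colP_open {V : Set (ℝ × E3)} (hV : IsOpen V) :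
    ∃ O : Set Amb, IsOpen O ∧ ∀ p : Amb, ‖p.1‖ = 1 → (p ∈ O ↔ ∃ q ∈ V, colP q = p) := by
  refine ⟨{p | p.1 ≠ 0 ∧ ∃ s : ℝ, (‖p.1‖ : ℂ) * Complex.exp (s * Complex.I) = p.1 ∧ (s, p.2) ∈ V},
    ?_, ?_⟩
  · rw [isOpen_iff_mem_nhds]
    rintro p ⟨hp0, s, hs, hsV⟩
    have hc1 : ContinuousAt (fun p' : Amb => p'.1 * Complex.exp (-(s * Complex.I))) p := by fun_prop
    have hval : p.1 * Complex.exp (-(s * Complex.I)) = (‖p.1‖ : ℂ) := by
      rw [← hs]
      simp only [norm_mul, Complex.norm_real, norm_norm, Complex.norm_exp_ofReal_mul_I, mul_one]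
      rw [mul_assoc, ← Complex.exp_add]
      simp
    have hpos : 0 < ‖p.1‖ := norm_pos_iff.2 hp0
    have hslit : p.1 * Complex.exp (-(s * Complex.I)) ∈ Complex.slitPlane := by
      rw [hval]
      exact Complex.ofReal_mem_slitPlane.2 hpos
    have hc2 : ContinuousAt (fun p' : Amb =>
        (s + Complex.arg (p'.1 * Complex.exp (-(s * Complex.I))), p'.2)) p := by
      have h1 : ContinuousAt (fun p' : Amb =>
          Complex.arg (p'.1 * Complex.exp (-(s * Complex.I)))) p :=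
        ContinuousAt.comp (f := fun p' : Amb => p'.1 * Complex.exp (-(s * Complex.I))) (x := p)
          (Complex.continuousAt_arg hslit) hc1
      exact (continuousAt_const.add h1).prodMk continuousAt_snd
    have hVn : V ∈ 𝓝 (s + Complex.arg (p.1 * Complex.exp (-(s * Complex.I))), p.2) := by
      apply hV.mem_nhds
      rw [hval, Complex.arg_ofReal_of_nonneg hpos.le, add_zero]
      exact hsV
    have hne : ∀ᶠ p' : Amb in 𝓝 p, p'.1 ≠ 0 :=
      (continuousAt_fst (p := p)).eventually_ne hp0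
    filter_upwards [hc2.preimage_mem_nhds hVn, hne] with p' hp' hp'0
    refine ⟨hp'0, _, ?_, hp'⟩
    set w := p'.1 * Complex.exp (-(s * Complex.I)) with hw
    have hnw : ‖w‖ = ‖p'.1‖ := by
      rw [hw, norm_mul]
      have : ‖Complex.exp (-(s * Complex.I))‖ = 1 := by
        have h2 : -((s : ℂ) * Complex.I) = ((-s : ℝ) : ℂ) * Complex.I := by push_cast; ring
        rw [h2, Complex.norm_exp_ofReal_mul_I]
      rw [this, mul_one]
    have h3 := Complex.norm_mul_exp_arg_mul_I w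
    rw [← hnw]
    push_cast
    rw [add_mul, Complex.exp_add]
    calc (‖w‖ : ℂ) * (Complex.exp (s * Complex.I) * Complex.exp (Complex.arg w * Complex.I))
        = Complex.exp (s * Complex.I) * ((‖w‖ : ℂ) * Complex.exp (Complex.arg w * Complex.I)) := by
          ring
      _ = Complex.exp (s * Complex.I) * w := by rw [h3]
      _ = p'.1 := by
          rw [hw, mul_comm, mul_assoc, ← Complex.exp_add]
          simp
  · intro p hp
    have hp0 : p.1 ≠ 0 := by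
      intro h
      rw [h] at hp
      simp at hp
    constructor
    · rintro ⟨-, s, hs, hsV⟩
      refine ⟨_, hsV, ?_⟩
      simp only [colP]
      rw [hp] at hs
      simp only [Complex.ofReal_one, one_mul] at hs
      exact Prod.ext hs rfl
    · rintro ⟨q, hq, rfl⟩
      refine ⟨hp0, q.1, ?_, hq⟩
      rw [hp]
      simp [colP]

/-- Row B4b: from the thickened map to the collar. -/
theorem collar_of_thick {B : Set Amb} {f : E3 → ℝ × E3} (hf : NeatR B f) {F : E3 × ℝ → ℝ × E3}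
    (h1 : ∀ x ∈ closedBall (0 : E3) 1, ContDiffAt ℝ ∞ F (x, 0)) (h2 : ∀ x, F (x, 0) = f x)
    (h3 : ∀ x ∈ closedBall (0 : E3) 1, Function.Injective (fderiv ℝ F (x, 0)))
    (h4 : ∀ x ∈ closedBall (0 : E3) 1, ∀ᶠ q in 𝓝 ((x, 0) : E3 × ℝ),
      (‖(F q).2‖ ≤ 1 ↔ ‖q.1‖ ≤ 1) ∧ (‖(F q).2‖ = 1 ↔ ‖q.1‖ = 1)) :
    ∃ E, Collar B E := by
  -- local structure of `F`
  have hloc : ∀ x ∈ closedBall (0 : E3) 1, ∃ e : OpenPartialHomeomorph (E3 × ℝ) (ℝ × E3),
      (e : E3 × ℝ → ℝ × E3) = F ∧ (x, 0) ∈ e.source := by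
    intro x hx
    have hdiff : HasFDerivAt F (fderiv ℝ F (x, 0)) (x, 0) :=
      ((h1 x hx).differentiableAt (by simp)).hasFDerivAt
    have hfin : Module.finrank ℝ (E3 × ℝ) = Module.finrank ℝ (ℝ × E3) := by
      simp
    let L0 : (E3 × ℝ) →ₗ[ℝ] (ℝ × E3) := (fderiv ℝ F (x, 0)).toLinearMap
    let L1 : (E3 × ℝ) ≃ₗ[ℝ] (ℝ × E3) := LinearEquiv.ofInjectiveOfFinrankEq L0 (h3 x hx) hfin
    let L : (E3 × ℝ) ≃L[ℝ] (ℝ × E3) := L1.toContinuousLinearEquiv
    have hL : (L : (E3 × ℝ) →L[ℝ] (ℝ × E3)) = fderiv ℝ F (x, 0) := by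
      ext v <;> rfl
    have hs : HasStrictFDerivAt F (L : (E3 × ℝ) →L[ℝ] (ℝ × E3)) (x, 0) := by
      refine (h1 x hx).hasStrictFDerivAt' ?_ (by simp)
      rw [hL]
      exact hdiff
    exact ⟨hs.toOpenPartialHomeomorph F, hs.toOpenPartialHomeomorph_coe,
      hs.mem_toOpenPartialHomeomorph_source⟩
  set G : E3 × ℝ → Amb := fun q => colP (F q) with hG
  have hK : IsCompact (closedBall (0 : E3) 1 ×ˢ ({0} : Set ℝ)) :=
    (isCompact_closedBall _ _).prod isCompact_singleton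
  have hmemK : ∀ q ∈ closedBall (0 : E3) 1 ×ˢ ({0} : Set ℝ),
      q.1 ∈ closedBall (0 : E3) 1 ∧ q = (q.1, 0) := by
    rintro ⟨x, t⟩ ⟨hx, ht⟩
    simp only [mem_singleton_iff] at ht
    exact ⟨hx, by rw [ht]⟩
  obtain ⟨U1, hU1o, hKU1, hU1inj⟩ : ∃ t, IsOpen t ∧ closedBall (0 : E3) 1 ×ˢ ({0} : Set ℝ) ⊆ t ∧
      InjOn G t := by
    refine InjOn.exists_isOpen_superset ?_ hK ?_ ?_
    · intro p hp q hq hpq
      obtain ⟨hp1, hp2⟩ := hmemK p hp
      obtain ⟨hq1, hq2⟩ := hmemK q hq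
      have h5 : colP (f p.1) = colP (f q.1) := by
        rw [← h2, ← h2, ← hp2, ← hq2]
        exact hpq
      have h6 := hf.inj hp1 hq1 h5
      rw [hp2, hq2, h6]
    · intro q hq
      obtain ⟨hq1, hq2⟩ := hmemK q hq
      rw [hq2]
      exact colP_cont.continuousAt.comp (h1 q.1 hq1).continuousAt
    · intro q hq
      obtain ⟨hq1, hq2⟩ := hmemK q hq
      rw [hq2]
      obtain ⟨e, heF, hes⟩ := hloc q.1 hq1
      obtain ⟨u, hu, hui⟩ := colP_loc (F (q.1, 0))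
      refine ⟨e.source ∩ F ⁻¹' u, Filter.inter_mem (e.open_source.mem_nhds hes)
        ((h1 q.1 hq1).continuousAt.preimage_mem_nhds hu), ?_⟩
      rintro a ⟨ha, ha'⟩ b ⟨hb, hb'⟩ hab
      have h5 := hui ha' hb' hab
      rw [← heF] at h5
      exact e.injOn ha hb h5
  -- the good open set
  have hgood : ∀ᶠ q in 𝓝ˢ (closedBall (0 : E3) 1 ×ˢ ({0} : Set ℝ)),
      Filter.map F (𝓝 q) = 𝓝 (F q) ∧
      (‖(F q).2‖ ≤ 1 ↔ ‖q.1‖ ≤ 1) ∧ (‖(F q).2‖ = 1 ↔ ‖q.1‖ = 1) := by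
    rw [eventually_nhdsSet_iff_forall]
    intro q hq
    obtain ⟨hq1, hq2⟩ := hmemK q hq
    rw [hq2]
    obtain ⟨e, heF, hes⟩ := hloc q.1 hq1
    filter_upwards [h4 q.1 hq1, e.open_source.mem_nhds hes] with p hp hp'
    refine ⟨?_, hp⟩
    rw [← heF]
    exact e.map_nhds_eq hp'
  obtain ⟨U2, hU2o, hKU2, hU2⟩ := mem_nhdsSet_iff_exists.1 hgood
  obtain ⟨u, v, huo, hvo, hsu, htv, huv⟩ := generalized_tube_lemma (isCompact_closedBall (0 : E3) 1)
    (isCompact_singleton (x := (0 : ℝ))) (hU1o.inter hU2o) (subset_inter hKU1 hKU2)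
  obtain ⟨t1, ht1, hball⟩ := Metric.isOpen_iff.1 hvo 0 (htv rfl)
  set t0 : ℝ := t1 / 2 with ht0
  have ht0p : 0 < t0 := by positivity
  have hv : ∀ t : ℝ, |t| ≤ t0 → t ∈ v := by
    intro t ht
    apply hball
    rw [mem_ball_zero_iff, Real.norm_eq_abs]
    linarith
  have hgd : ∀ x ∈ u, ∀ t ∈ v, Filter.map F (𝓝 (x, t)) = 𝓝 (F (x, t)) ∧
      (‖(F (x, t)).2‖ ≤ 1 ↔ ‖x‖ ≤ 1) ∧ (‖(F (x, t)).2‖ = 1 ↔ ‖x‖ = 1) := by
    intro x hx t ht
    exact hU2 (huv ⟨hx, ht⟩).2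
  have hinj : InjOn G (u ×ˢ v) := hU1inj.mono (fun q hq => (huv hq).1)
  have hcont : ∀ x ∈ u, ∀ t ∈ v, ContinuousAt F (x, t) := by
    intro x hx t ht
    exact (hgd x hx t ht).1.le
  have hsc : ∀ t ∈ Icc (-1 : ℝ) 1, t0 * t ∈ v := by
    intro t ht
    apply hv
    rw [abs_mul, abs_of_pos ht0p]
    have := abs_le.2 ht
    nlinarith
  refine ⟨fun p => G (p.1, t0 * p.2), ?_, ?_, ?_, ?_, ?_, ?_⟩
  · rintro ⟨x, t⟩ ⟨hx, ht⟩
    apply ContinuousAt.continuousWithinAt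
    have hc : ContinuousAt (fun p : E3 × ℝ => (p.1, t0 * p.2)) (x, t) := by fun_prop
    have hF : ContinuousAt F (x, t0 * t) := hcont x (hsu hx) _ (hsc t ht)
    exact colP_cont.continuousAt.comp (ContinuousAt.comp (f := fun p : E3 × ℝ => (p.1, t0 * p.2))
      (x := (x, t)) hF hc)
  · rintro ⟨x, t⟩ ⟨hx, ht⟩ ⟨y, s⟩ ⟨hy, hs⟩ hxy
    have h5 := hinj (x₁ := (x, t0 * t)) (x₂ := (y, t0 * s)) ⟨hsu hx, hsc t ht⟩ ⟨hsu hy, hsc s hs⟩ hxy
    simp only [Prod.mk.injEq] at h5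
    obtain ⟨h6, h7⟩ := h5
    rw [h6, mul_left_cancel₀ ht0p.ne' h7]
  · rintro ⟨x, t⟩ ⟨hx, ht⟩
    refine ⟨?_, ?_⟩
    · simp only [hG, colP]
      exact Complex.norm_exp_ofReal_mul_I _
    · exact (hgd x (hsu hx) _ (hsc t ht)).2.1.2 (mem_closedBall_zero_iff.1 hx)
  · intro x hx t ht
    exact (hgd x (hsu hx) _ (hsc t ht)).2.2
  · rw [← hf.image]
    apply image_congr
    intro x hx
    simp only [hG, mul_zero, h2, colP]
  · intro a b ha hb
    have hsub : ∀ t ∈ Ioo (t0 * a) (t0 * b), t ∈ v := by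
      intro t ht
      apply hv
      rw [abs_le]
      constructor <;> nlinarith [ht.1, ht.2]
    have hVo : IsOpen (F '' (u ×ˢ Ioo (t0 * a) (t0 * b))) := by
      rw [isOpen_iff_mem_nhds]
      rintro _ ⟨⟨x, t⟩, ⟨hx, ht⟩, rfl⟩
      rw [← (hgd x hx t (hsub t ht)).1]
      exact Filter.image_mem_map ((huo.prod isOpen_Ioo).mem_nhds ⟨hx, ht⟩)
    obtain ⟨O, hOo, hO⟩ := colP_open hVo
    refine ⟨O, hOo, ?_⟩
    ext p
    constructor
    · rintro ⟨⟨x, t⟩, ⟨hx, ht⟩, rfl⟩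
      have ht1 : t ∈ Icc (-1 : ℝ) 1 := ⟨by linarith [ht.1], by linarith [ht.2]⟩
      have hn1 : ‖(G (x, t0 * t)).1‖ = 1 := by
        simp only [hG, colP]
        exact Complex.norm_exp_ofReal_mul_I _
      refine ⟨(hO _ hn1).2 ⟨F (x, t0 * t), ⟨(x, t0 * t), ⟨hsu hx, ?_, ?_⟩, rfl⟩, rfl⟩, hn1, ?_⟩
      · exact mul_lt_mul_of_pos_left ht.1 ht0p
      · exact mul_lt_mul_of_pos_left ht.2 ht0p
      · exact (hgd x (hsu hx) _ (hsc t ht1)).2.1.2 (mem_closedBall_zero_iff.1 hx)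
    · rintro ⟨hpO, hpW⟩
      obtain ⟨q, ⟨⟨x, t⟩, ⟨hx, ht⟩, rfl⟩, hq⟩ := (hO p hpW.1).1 hpO
      have hxle : ‖x‖ ≤ 1 := by
        apply (hgd x hx t (hsub t ht)).2.1.1
        have h5 : (F (x, t)).2 = p.2 := by
          rw [← hq]
          rfl
        rw [h5]
        exact hpW.2
      refine ⟨(x, t / t0), ⟨mem_closedBall_zero_iff.2 hxle, ?_, ?_⟩, ?_⟩
      · rw [lt_div_iff₀ ht0p, mul_comm]
        exact ht.1
      · rw [div_lt_iff₀ ht0p, mul_comm]
        exact ht.2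
      · simp only [hG]
        rw [mul_div_cancel₀ _ ht0p.ne']
        exact hq

end Pool.B203
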