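import Pool.Agent.Lib.B203.CollarDefs

/-! Row LocalBd: behaviour near the boundary sphere. -/

open Set Metric Topology
open scoped ContDiff Quaternion ComplexConjugate

noncomputable section

namespace Pool.B203

/-- Row B4a: near the boundary sphere, `‖(f y).2‖ ≤ 1` iff `‖y‖ ≤ 1`. -/
theorem neatR_local {B : Set Amb} {f : E3 → ℝ × E3} (hf : NeatR B f) {x : E3} (hx : ‖x‖ = 1) :
    ∀ᶠ y in 𝓝 x, (‖(f y).2‖ ≤ 1 ↔ ‖y‖ ≤ 1) ∧ (‖(f y).2‖ = 1 ↔ ‖y‖ = 1) := by
  have hxb : x ∈ closedBall (0 : E3) 1 := by simp [hx]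
  set ψ : E3 → ℝ := fun y => ‖(f y).2‖ ^ 2 with hψ
  have hψs : ContDiffAt ℝ ∞ ψ x := (hf.smooth x hxb).snd.norm_sq ℝ
  have hst : HasStrictFDerivAt ψ (fderiv ℝ ψ x) x := hψs.hasStrictFDerivAt (by simp)
  set ψ' := fderiv ℝ ψ x with hψ'
  have hfd : HasFDerivAt f (fderiv ℝ f x) x :=
    ((hf.smooth x hxb).differentiableAt (by simp)).hasFDerivAt
  have hval : ∀ v, ψ' v = 2 * inner ℝ (f x).2 (fderiv ℝ f x v).2 := by
    intro v
    have h1 : HasFDerivAt (fun y => (f y).2) ((ContinuousLinearMap.snd ℝ ℝ E3).comp (fderiv ℝ f x))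
        x := HasFDerivAt.comp x hasFDerivAt_snd hfd
    have h2 := h1.norm_sq
    rw [hψ', h2.fderiv]
    simp
  have hle1 : ∀ y ∈ closedBall (0 : E3) 1, ψ y ≤ 1 := fun y hy =>
    pow_le_one₀ (norm_nonneg _) (hf.le y hy)
  have hx1 : ψ x = 1 := by
    show ‖(f x).2‖ ^ 2 = 1
    rw [(hf.bd x hxb).2 hx, one_pow]
  have hmax : ∀ y ∈ closedBall (0 : E3) 1, ψ' (y - x) ≤ 0 := by
    intro y hy
    have h1 : IsLocalMaxOn ψ (closedBall (0 : E3) 1) x := by
      filter_upwards [self_mem_nhdsWithin] with z hz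
      rw [hx1]
      exact hle1 z hz
    refine h1.hasFDerivWithinAt_nonpos hst.hasFDerivAt.hasFDerivWithinAt ?_
    refine sub_mem_posTangentConeAt_of_segment_subset ?_
    exact (convex_closedBall (0 : E3) 1).segment_subset hxb hy
  obtain ⟨v, hv⟩ := hf.trans x hx
  have hv' : ψ' v ≠ 0 := by
    rw [hval]
    exact mul_ne_zero two_ne_zero hv
  have hpos : 0 < ψ' x := by
    have hv0 : v ≠ 0 := by
      rintro rfl
      exact hv' (map_zero _)
    have hn : 0 < ‖v‖ := norm_pos_iff.mpr hv0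
    have key : ∀ w : E3, ‖w‖ = ‖v‖ → ‖v‖⁻¹ * ψ' w ≤ ψ' x := by
      intro w hw
      have h1 : ‖v‖⁻¹ • w ∈ closedBall (0 : E3) 1 := by
        rw [mem_closedBall, dist_zero_right, norm_smul, norm_inv, norm_norm, hw,
          inv_mul_cancel₀ hn.ne']
      have h2 := hmax _ h1
      rw [map_sub, map_smul, smul_eq_mul] at h2
      linarith
    have h1 := key v rfl
    have h2 := key (-v) (norm_neg v)
    rw [map_neg] at h2
    have h3 : 0 < ‖v‖⁻¹ := inv_pos.mpr hn
    rcases lt_or_gt_of_ne hv' with h | h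
    · have : 0 < ‖v‖⁻¹ * -ψ' v := mul_pos h3 (by linarith)
      linarith
    · have : 0 < ‖v‖⁻¹ * ψ' v := mul_pos h3 h
      linarith
  set c := ψ' x with hc
  have ho := hst.isLittleO
  have hev := ho.def (show 0 < c / 4 by positivity)
  have hxne : ‖x‖ ≠ 0 := by
    rw [hx]
    exact one_ne_zero
  have hu : ContinuousAt (fun y : E3 => ‖y‖⁻¹ • y) x :=
    (continuous_norm.continuousAt.inv₀ hxne).smul continuousAt_id
  have hux : ‖x‖⁻¹ • x = x := by
    rw [hx, inv_one, one_smul]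
  have htend : Filter.Tendsto (fun y : E3 => (y, ‖y‖⁻¹ • y)) (𝓝 x) (𝓝 (x, x)) := by
    have h1 : ContinuousAt (fun y : E3 => (y, ‖y‖⁻¹ • y)) x := continuousAt_id.prodMk hu
    have h2 := h1.tendsto
    simp only [hux] at h2
    exact h2
  have e1 := htend.eventually hev
  have e2 : ∀ᶠ y in 𝓝 x, c / 2 < ψ' (‖y‖⁻¹ • y) := by
    have h1 : ContinuousAt (fun y : E3 => ψ' (‖y‖⁻¹ • y)) x := ψ'.continuous.continuousAt.comp hu
    refine h1.eventually (lt_mem_nhds ?_)
    show c / 2 < ψ' (‖x‖⁻¹ • x)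
    rw [hux]
    linarith
  filter_upwards [e1, e2] with y hy1 hy2
  have hout : 1 < ‖y‖ → 1 < ‖(f y).2‖ := by
    intro hy
    have hy0 : ‖y‖ ≠ 0 := by linarith
    set u : E3 := ‖y‖⁻¹ • y with hu'
    have hun : ‖u‖ = 1 := by
      rw [hu', norm_smul, norm_inv, norm_norm, inv_mul_cancel₀ hy0]
    have hub : u ∈ closedBall (0 : E3) 1 := by simp [hun]
    have hψu : ψ u = 1 := by
      show ‖(f u).2‖ ^ 2 = 1
      rw [(hf.bd u hub).2 hun, one_pow]
    have hyu : y - u = (‖y‖ - 1) • u := by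
      rw [sub_smul, one_smul, hu', smul_smul, mul_inv_cancel₀ hy0, one_smul]
    have hnyu : ‖y - u‖ = ‖y‖ - 1 := by
      rw [hyu, norm_smul, hun, mul_one, Real.norm_eq_abs, abs_of_pos (by linarith)]
    rw [hψu, hnyu, hyu, map_smul, smul_eq_mul, Real.norm_eq_abs] at hy1
    have h1 := (abs_le.mp hy1).1
    have h2 : (‖y‖ - 1) * (c / 2) < (‖y‖ - 1) * ψ' u := mul_lt_mul_of_pos_left hy2 (by linarith)
    have h3 : 0 < (‖y‖ - 1) * c := mul_pos (by linarith) hpos
    have h4 : 1 < ψ y := by nlinarith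
    by_contra hcon
    push Not at hcon
    have h5 : ψ y ≤ 1 := pow_le_one₀ (norm_nonneg _) hcon
    linarith
  constructor
  · constructor
    · intro h
      by_contra hcon
      push Not at hcon
      linarith [hout hcon]
    · intro h
      exact hf.le y (by simpa using h)
  · constructor
    · intro h
      rcases lt_or_ge 1 ‖y‖ with h1 | h1
      · linarith [hout h1]
      · exact (hf.bd y (by simpa using h1)).1 h
    · intro h
      exact (hf.bd y (by simp [h])).2 h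

end Pool.B203
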