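import Pool.Agent.Lib.B203.Tangential

/-! Row Thick: the thickened map. -/

open Set Metric Topology
open scoped ContDiff Quaternion ComplexConjugate

noncomputable section

namespace Pool.B203

/-- a smooth function which is `1 / r` for `r ≥ 1 / 2` and vanishes near zero -/
private def thickEta (r : ℝ) : ℝ := Real.smoothTransition (4 * r - 1) / r

private lemma thickEta_smooth : ContDiff ℝ ∞ thickEta := by
  rw [contDiff_iff_contDiffAt]
  intro r
  rcases lt_or_ge r (1 / 4) with h | h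
  · refine (contDiffAt_const (c := (0 : ℝ))).congr_of_eventuallyEq ?_
    filter_upwards [gt_mem_nhds h] with s hs
    unfold thickEta
    rw [Real.smoothTransition.zero_of_nonpos (by linarith), zero_div]
  · unfold thickEta
    refine ContDiffAt.div ?_ contDiffAt_id (by
      have : 0 < r := by linarith
      exact this.ne')
    exact (Real.smoothTransition.contDiff.comp
      ((contDiff_const.mul contDiff_id).sub contDiff_const)).contDiffAt

private lemma thickEta_eq {r : ℝ} (h : 1 / 2 ≤ r) : thickEta r = 1 / r := by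
  unfold thickEta
  rw [Real.smoothTransition.one_of_one_le (by linarith)]

/-- Row B3: the thickened map, preserving the norm of the second coordinate near the boundary. -/
theorem exists_thick {B : Set Amb} {f : E3 → ℝ × E3} (hf : NeatR B f) :
    ∃ F : E3 × ℝ → ℝ × E3, (∀ x ∈ closedBall (0 : E3) 1, ContDiffAt ℝ ∞ F (x, 0)) ∧
      (∀ x, F (x, 0) = f x) ∧
      (∀ x ∈ closedBall (0 : E3) 1, Function.Injective (fderiv ℝ F (x, 0))) ∧
      (∀ x : E3, ‖x‖ = 1 → ∀ᶠ q in 𝓝 ((x, 0) : E3 × ℝ), ‖(F q).2‖ = ‖(f q.1).2‖) := by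
  obtain ⟨n, hn, hnf, hnt⟩ := exists_tangential hf
  set P : E3 × ℝ → ℝ × E3 := fun q => f q.1 + q.2 • n q.1 with hP
  set k : E3 × ℝ → ℝ := fun q => thickEta (‖(f q.1).2‖ ^ 2) * ‖(n q.1).2‖ ^ 2 with hk
  set g : E3 × ℝ → ℝ := fun q => (√(1 + q.2 ^ 2 * k q))⁻¹ with hg
  have hfs : ∀ x ∈ closedBall (0 : E3) 1, ContDiffAt ℝ ∞ (fun q : E3 × ℝ => f q.1) (x, 0) :=
    fun x hx => (hf.smooth x hx).comp (x, (0 : ℝ)) contDiffAt_fst
  have hns : ∀ x ∈ closedBall (0 : E3) 1, ContDiffAt ℝ ∞ (fun q : E3 × ℝ => n q.1) (x, 0) :=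
    fun x hx => (hn x hx).comp (x, (0 : ℝ)) contDiffAt_fst
  have hPs : ∀ x ∈ closedBall (0 : E3) 1, ContDiffAt ℝ ∞ P (x, 0) :=
    fun x hx => (hfs x hx).add (contDiffAt_snd.smul (hns x hx))
  have hks : ∀ x ∈ closedBall (0 : E3) 1, ContDiffAt ℝ ∞ k (x, 0) := by
    intro x hx
    refine ContDiffAt.mul ?_ ((hns x hx).snd.norm_sq ℝ)
    exact thickEta_smooth.contDiffAt.comp (x, (0 : ℝ)) ((hfs x hx).snd.norm_sq ℝ)
  have hgs : ∀ x ∈ closedBall (0 : E3) 1, ContDiffAt ℝ ∞ g (x, 0) := by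
    intro x hx
    have h1 : ContDiffAt ℝ ∞ (fun q : E3 × ℝ => 1 + q.2 ^ 2 * k q) (x, 0) :=
      contDiffAt_const.add ((contDiffAt_snd.pow 2).mul (hks x hx))
    refine (h1.sqrt ?_).inv ?_
    · simp
    · simp
  have hF0 : ∀ x, g (x, 0) = 1 := by
    intro x
    simp [hg]
  refine ⟨fun q => ((P q).1, g q • (P q).2), ?_, ?_, ?_, ?_⟩
  · intro x hx
    exact (hPs x hx).fst.prodMk ((hgs x hx).smul (hPs x hx).snd)
  · intro x
    show ((P (x, 0)).1, g (x, 0) • (P (x, 0)).2) = f x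
    rw [hF0, one_smul]
    simp [hP]
  · intro x hx
    -- the derivative of `P`
    have hfd : HasFDerivAt f (fderiv ℝ f x) x :=
      ((hf.smooth x hx).differentiableAt (by simp)).hasFDerivAt
    have hnd : HasFDerivAt n (fderiv ℝ n x) x :=
      ((hn x hx).differentiableAt (by simp)).hasFDerivAt
    have hPd : HasFDerivAt P ((fderiv ℝ f x).comp (ContinuousLinearMap.fst ℝ E3 ℝ) +
        (((0 : ℝ) • ((fderiv ℝ n x).comp (ContinuousLinearMap.fst ℝ E3 ℝ))) +
          (ContinuousLinearMap.snd ℝ E3 ℝ).smulRight (n x))) (x, 0) := by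
      have h1 : HasFDerivAt (fun q : E3 × ℝ => f q.1)
          ((fderiv ℝ f x).comp (ContinuousLinearMap.fst ℝ E3 ℝ)) (x, 0) :=
        HasFDerivAt.comp (x, (0 : ℝ)) hfd hasFDerivAt_fst
      have h2 : HasFDerivAt (fun q : E3 × ℝ => n q.1)
          ((fderiv ℝ n x).comp (ContinuousLinearMap.fst ℝ E3 ℝ)) (x, 0) :=
        HasFDerivAt.comp (x, (0 : ℝ)) hnd hasFDerivAt_fst
      have h3 : HasFDerivAt (fun q : E3 × ℝ => q.2) (ContinuousLinearMap.snd ℝ E3 ℝ) (x, (0 : ℝ)) :=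
        hasFDerivAt_snd
      exact h1.add (h3.smul h2)
    set LP : E3 × ℝ →L[ℝ] ℝ × E3 := ((fderiv ℝ f x).comp (ContinuousLinearMap.fst ℝ E3 ℝ) +
        (((0 : ℝ) • ((fderiv ℝ n x).comp (ContinuousLinearMap.fst ℝ E3 ℝ))) +
          (ContinuousLinearMap.snd ℝ E3 ℝ).smulRight (n x))) with hLP
    have hLPv : ∀ (v : E3) (s : ℝ), LP (v, s) = fderiv ℝ f x v + s • n x := by
      intro v s
      rw [hLP]
      simp
    have hgd : HasFDerivAt g (0 : E3 × ℝ →L[ℝ] ℝ) (x, 0) := by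
      have hkd := ((hks x hx).differentiableAt (by simp)).hasFDerivAt
      have h3 : HasFDerivAt (fun q : E3 × ℝ => q.2) (ContinuousLinearMap.snd ℝ E3 ℝ) (x, (0 : ℝ)) :=
        hasFDerivAt_snd
      have hu : HasFDerivAt (fun q : E3 × ℝ => q.2 ^ 2 * k q) (0 : E3 × ℝ →L[ℝ] ℝ) (x, 0) := by
        have h4 := (h3.pow 2).mul hkd
        have e : ((x, (0 : ℝ)).2 ^ 2 • fderiv ℝ k (x, 0) + k (x, 0) •
            (2 • (x, (0 : ℝ)).2 ^ (2 - 1)) • ContinuousLinearMap.snd ℝ E3 ℝ) = 0 := by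
          simp
        rw [e] at h4
        exact h4
      have hh : DifferentiableAt ℝ (fun r : ℝ => (√(1 + r))⁻¹) 0 := by
        refine DifferentiableAt.inv ?_ (by simp)
        exact DifferentiableAt.sqrt (by fun_prop) (by simp)
      have h5 := hh.hasDerivAt
      have h6 : HasDerivAt (fun r : ℝ => (√(1 + r))⁻¹)
          (deriv (fun r : ℝ => (√(1 + r))⁻¹) 0) ((fun q : E3 × ℝ => q.2 ^ 2 * k q) (x, 0)) := by
        simpa using h5
      have h7 := h6.comp_hasFDerivAt (x, (0 : ℝ)) hu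
      rw [smul_zero] at h7
      exact h7
    have hFd : HasFDerivAt (fun q : E3 × ℝ => ((P q).1, g q • (P q).2))
        (((ContinuousLinearMap.fst ℝ ℝ E3).comp LP).prod
          (g (x, 0) • ((ContinuousLinearMap.snd ℝ ℝ E3).comp LP) +
            (0 : E3 × ℝ →L[ℝ] ℝ).smulRight (P (x, 0)).2)) (x, 0) := by
      have h1 : HasFDerivAt (fun q : E3 × ℝ => (P q).1)
          ((ContinuousLinearMap.fst ℝ ℝ E3).comp LP) (x, 0) :=
        HasFDerivAt.comp (x, (0 : ℝ)) hasFDerivAt_fst hPd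
      have h2 : HasFDerivAt (fun q : E3 × ℝ => (P q).2)
          ((ContinuousLinearMap.snd ℝ ℝ E3).comp LP) (x, 0) :=
        HasFDerivAt.comp (x, (0 : ℝ)) hasFDerivAt_snd hPd
      exact h1.prodMk (hgd.smul h2)
    rw [hFd.fderiv]
    have hker : ∀ w : E3 × ℝ, LP w = 0 → w = 0 := by
      rintro ⟨v, s⟩ h
      rw [hLPv] at h
      by_cases hs : s = 0
      · rw [hs, zero_smul, add_zero] at h
        have hv : v = 0 := hf.imm x hx (by rw [h, map_zero])
        rw [hs, hv]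
        rfl
      · exfalso
        apply hnf x hx (-(s⁻¹ • v))
        rw [map_neg, map_smul]
        have h1 : s • n x = -(fderiv ℝ f x v) := by
          rw [eq_neg_iff_add_eq_zero, add_comm]
          exact h
        rw [← smul_neg, ← h1, smul_smul, inv_mul_cancel₀ hs, one_smul]
    intro w w' hww
    have h1 : LP w = LP w' := by
      have e1 := congrArg Prod.fst hww
      have e2 := congrArg Prod.snd hww
      simp only [ContinuousLinearMap.prod_apply, ContinuousLinearMap.comp_apply,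
        ContinuousLinearMap.coe_fst', ContinuousLinearMap.coe_snd', hF0, one_smul,
        add_apply, ContinuousLinearMap.smulRight_apply,
        zero_apply, zero_smul, add_zero] at e1 e2
      exact Prod.ext e1 e2
    have h2 := hker (w - w') (by rw [map_sub, h1, sub_self])
    exact sub_eq_zero.mp h2
  · intro x hx
    have hxb : x ∈ closedBall (0 : E3) 1 := by simp [hx]
    have hc : ContinuousAt (Prod.fst : E3 × ℝ → E3) (x, 0) := continuousAt_fst
    have h1 : ∀ᶠ q in 𝓝 ((x, 0) : E3 × ℝ), inner ℝ (f q.1).2 (n q.1).2 = 0 :=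
      hc.eventually (hnt x hx)
    have h2 : ∀ᶠ q in 𝓝 ((x, 0) : E3 × ℝ), 1 / 2 < ‖(f q.1).2‖ ^ 2 := by
      have hc2 : ContinuousAt (fun q : E3 × ℝ => ‖(f q.1).2‖ ^ 2) (x, 0) :=
        (((hfs x hxb).continuousAt.snd).norm).pow 2
      refine hc2.eventually (lt_mem_nhds ?_)
      show 1 / 2 < ‖(f x).2‖ ^ 2
      rw [(hf.bd x hxb).2 hx]
      norm_num
    filter_upwards [h1, h2] with q hq1 hq2
    have hr : 0 < ‖(f q.1).2‖ ^ 2 := by linarith
    show ‖g q • (P q).2‖ = ‖(f q.1).2‖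
    have h3 : ‖(P q).2‖ ^ 2 = ‖(f q.1).2‖ ^ 2 + q.2 ^ 2 * ‖(n q.1).2‖ ^ 2 := by
      show ‖(f q.1).2 + q.2 • (n q.1).2‖ ^ 2 = _
      rw [norm_add_sq_real, inner_smul_right, hq1, norm_smul, Real.norm_eq_abs, mul_pow, sq_abs]
      ring
    have h4 : 1 + q.2 ^ 2 * k q =
        (‖(f q.1).2‖ ^ 2 + q.2 ^ 2 * ‖(n q.1).2‖ ^ 2) / ‖(f q.1).2‖ ^ 2 := by
      show 1 + q.2 ^ 2 * (thickEta (‖(f q.1).2‖ ^ 2) * ‖(n q.1).2‖ ^ 2) = _
      rw [thickEta_eq hq2.le, add_div, div_self hr.ne']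
      ring
    have h5 : 0 < ‖(f q.1).2‖ ^ 2 + q.2 ^ 2 * ‖(n q.1).2‖ ^ 2 := by positivity
    have h6 : (g q) ^ 2 * ‖(P q).2‖ ^ 2 = ‖(f q.1).2‖ ^ 2 := by
      show ((√(1 + q.2 ^ 2 * k q))⁻¹) ^ 2 * ‖(P q).2‖ ^ 2 = _
      rw [inv_pow, Real.sq_sqrt (by rw [h4]; positivity), h3, h4]
      field_simp
    rw [norm_smul, ← Real.sqrt_sq (norm_nonneg ((f q.1).2)), ← h6, ← mul_pow, Real.sqrt_sq_eq_abs,
      abs_mul, abs_norm, Real.norm_eq_abs]

end Pool.B203
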