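import Pool.Agent.Lib.B203.Neat
import Pool.Agent.Lib.B203.Thick
import Pool.Agent.Lib.B203.LocalBd
import Pool.Agent.Lib.B203.CollarOf

/-! Existence of collars (assembled). -/

open Set Metric Topology
open scoped ContDiff Quaternion ComplexConjugate

noncomputable section

namespace Pool.B203

theorem exists_collar {B : Set Amb} (hB : IsNeatBall B) : ∃ E, Collar B E := by
  obtain ⟨f, hf⟩ := exists_neatR hB
  obtain ⟨F, h1, h2, h3, h4⟩ := exists_thick hf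
  refine collar_of_thick hf h1 h2 h3 fun x hx => ?_
  rcases eq_or_ne ‖x‖ 1 with hx1 | hx1
  · have e1 : ∀ᶠ q in 𝓝 ((x, 0) : E3 × ℝ), (‖(f q.1).2‖ ≤ 1 ↔ ‖q.1‖ ≤ 1) ∧
        (‖(f q.1).2‖ = 1 ↔ ‖q.1‖ = 1) :=
      (continuousAt_fst (p := ((x, 0) : E3 × ℝ))).eventually (neatR_local hf hx1)
    filter_upwards [e1, h4 x hx1] with q hq1 hq2
    rw [hq2]; exact hq1
  · have hlt : ‖x‖ < 1 := lt_of_le_of_ne (by simpa using hx) hx1
    have hF : ‖(F (x, 0)).2‖ < 1 := by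
      rw [h2]
      exact lt_of_le_of_ne (hf.le x hx) (fun h => hx1 ((hf.bd x hx).1 h))
    have hc : ContinuousAt (fun q => ‖(F q).2‖) (x, 0) := ((h1 x hx).continuousAt.snd).norm
    have e1 : ∀ᶠ q in 𝓝 ((x, 0) : E3 × ℝ), ‖(F q).2‖ < 1 := hc.eventually (gt_mem_nhds hF)
    have e2 : ∀ᶠ q in 𝓝 ((x, 0) : E3 × ℝ), ‖q.1‖ < 1 :=
      (continuousAt_fst (p := ((x, 0) : E3 × ℝ))).norm.eventually (gt_mem_nhds hlt)
    filter_upwards [e1, e2] with q hq1 hq2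
    exact ⟨⟨fun _ => hq2.le, fun _ => hq1.le⟩, ⟨fun h => absurd h hq1.ne, fun h => absurd h hq2.ne⟩⟩

end Pool.B203
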