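import Pool.Agent.Lib.B203.Defs

/-! Bicollars and parametrised neat balls. -/

open Set Metric Topology
open scoped ContDiff Quaternion ComplexConjugate

noncomputable section

namespace Pool.B203

/-- A bicollar of `B` in `W`, parametrised by `B³ × [-1, 1]`. -/
structure Collar (B : Set Amb) (E : E3 × ℝ → Amb) : Prop where
  cont : ContinuousOn E (closedBall 0 1 ×ˢ Icc (-1) 1)
  inj : InjOn E (closedBall 0 1 ×ˢ Icc (-1) 1)
  maps : MapsTo E (closedBall 0 1 ×ˢ Icc (-1) 1) W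
  bd : ∀ x ∈ closedBall (0 : E3) 1, ∀ t ∈ Icc (-1 : ℝ) 1, ‖(E (x, t)).2‖ = 1 ↔ ‖x‖ = 1
  zero : (fun x => E (x, 0)) '' closedBall 0 1 = B
  opn : ∀ a b : ℝ, -1 ≤ a → b ≤ 1 → ∃ O : Set Amb, IsOpen O ∧
    E '' (closedBall 0 1 ×ˢ Ioo a b) = O ∩ W

/-- A parametrised neat ball in `ℝ × B³` (the first coordinate lifted to `ℝ`). -/
structure NeatR (B : Set Amb) (f : E3 → ℝ × E3) : Prop where
  smooth : ∀ x ∈ closedBall (0 : E3) 1, ContDiffAt ℝ ∞ f x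
  image : (fun x => ((Complex.exp ((f x).1 * Complex.I), (f x).2) : Amb)) '' closedBall 0 1 = B
  inj : InjOn (fun x => ((Complex.exp ((f x).1 * Complex.I), (f x).2) : Amb)) (closedBall 0 1)
  imm : ∀ x ∈ closedBall (0 : E3) 1, Function.Injective (fderiv ℝ f x)
  le : ∀ x ∈ closedBall (0 : E3) 1, ‖(f x).2‖ ≤ 1
  bd : ∀ x ∈ closedBall (0 : E3) 1, ‖(f x).2‖ = 1 ↔ ‖x‖ = 1
  trans : ∀ x : E3, ‖x‖ = 1 → ∃ v : E3, inner ℝ (f x).2 (fderiv ℝ f x v).2 ≠ 0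

end Pool.B203
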