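import Pool.Agent.Lib.B203.Cover

/-! Row A2 (helper1): the abstract covering argument (Theorem A). -/

open Set Metric Topology
open scoped ContDiff Quaternion ComplexConjugate

noncomputable section

namespace Pool.B203

open Classical in
/-- Pasting along the zero set of a function. -/
theorem paste {X Y : Type*} [TopologicalSpace X] [TopologicalSpace Y] {S : Set X} {g : X → ℝ}
    (hg : ContinuousOn g S) {f₁ f₂ : X → Y} (h1 : ContinuousOn f₁ (S ∩ {q | 0 ≤ g q}))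
    (h2 : ContinuousOn f₂ (S ∩ {q | g q ≤ 0})) (h : ∀ x ∈ S, g x = 0 → f₁ x = f₂ x) :
    ContinuousOn (fun x => if 0 ≤ g x then f₁ x else f₂ x) S := by
  rw [continuousOn_iff_continuous_domRestrict]
  have hg' : Continuous (fun x : S => g x.1) := continuousOn_iff_continuous_domRestrict.1 hg
  refine continuous_if_le (f := fun _ : S => (0 : ℝ)) (g := fun x : S => g x.1)
    (f' := fun x : S => f₁ x.1) (g' := fun x : S => f₂ x.1) continuous_const hg' ?_ ?_ ?_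
  · exact h1.comp continuous_subtype_val.continuousOn fun x hx => ⟨x.2, hx⟩
  · exact h2.comp continuous_subtype_val.continuousOn fun x hx => ⟨x.2, hx⟩
  · intro x hx
    exact h x.1 x.2 hx.symm

/-- If a preconnected set is the union of the two closed halves `g ≥ 0`, `g ≤ 0` and `{g = 0}` is
preconnected, then the first half is preconnected. -/
theorem preconnected_half {X : Type*} [TopologicalSpace X] {S : Set X} {g : X → ℝ}
    (hg : ContinuousOn g S) (hS : IsPreconnected S)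
    (hi : IsPreconnected (S ∩ {q | g q = 0})) (hne : (S ∩ {q | g q = 0}).Nonempty) :
    IsPreconnected (S ∩ {q | 0 ≤ g q}) := by
  refine isPreconnected_of_forall_constant fun f hf => ?_
  obtain ⟨x₀, hx₀S, hx₀⟩ := hne
  have hc : ∀ x ∈ S, g x = 0 → f x = f x₀ := fun x hx hgx =>
    hi.constant (hf.mono fun y hy => ⟨hy.1, le_of_eq (Eq.symm hy.2)⟩) ⟨hx, hgx⟩ ⟨hx₀S, hx₀⟩
  have hF : ContinuousOn (fun x => if 0 ≤ g x then f x else f x₀) S :=
    paste hg hf continuousOn_const hc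
  have key : ∀ x ∈ S ∩ {q | 0 ≤ g q}, f x = f x₀ := by
    intro x hx
    have := hS.constant hF hx.1 hx₀S
    simp only [show 0 ≤ g x from hx.2, show 0 ≤ g x₀ from le_of_eq (Eq.symm hx₀), if_true] at this
    exact this
  intro x hx y hy
  rw [key x hx, key y hy]

theorem core {X : Type*} [TopologicalSpace X] {Q bd Dx Dy : Set X} {z : X → ℂ} {g : X → ℝ} {r : X → X}
    (hbd : bd ⊆ Q) (hz : ContinuousOn z Q) (hzx : ∀ q ∈ Q, z q = 1 ↔ q ∈ Dx)
    (hzy : ∀ q ∈ Q, z q = -1 ↔ q ∈ Dy)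
    (hg : ContinuousOn g Q) (hgx : ∀ q ∈ Q, q ∈ Dx → 0 < g q) (hgy : ∀ q ∈ Q, q ∈ Dy → g q < 0)
    (hr : ContinuousOn r Q) (hrm : ∀ q ∈ Q, r q ∈ Q ∧ g (r q) = 0) (hri : ∀ q ∈ Q, g q = 0 → r q = q)
    (hB : IsPreconnected (Q ∩ {q | g q = 0})) (hBb : IsPreconnected (bd ∩ {q | g q = 0}))
    (hBn : (bd ∩ {q | g q = 0}).Nonempty)
    (H1 : ∃ s : X → Cov, ContinuousOn s (bd \ (Dx ∪ Dy)) ∧ ∀ q ∈ bd \ (Dx ∪ Dy), cp (s q) = z q)
    (H2 : ¬ ∃ s : X → Cov, ContinuousOn s (Q \ (Dx ∪ Dy)) ∧ ∀ q ∈ Q \ (Dx ∪ Dy), cp (s q) = z q)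
    (H3x : ∀ h : X → ℂ, ContinuousOn h (Q \ Dx) → (∀ q ∈ Q \ Dx, h q ≠ 1 ∧ h q ≠ -1) →
      ∀ s₀ : X → Cov, ContinuousOn s₀ ((bd ∩ {q | 0 < g q}) \ (Dx ∪ Dy)) →
      (∀ q ∈ (bd ∩ {q | 0 < g q}) \ (Dx ∪ Dy), cp (s₀ q) = h q) →
      ∃ s : X → Cov, ContinuousOn s (Q \ Dx) ∧ (∀ q ∈ Q \ Dx, cp (s q) = h q) ∧
        ∃ q ∈ (bd ∩ {q | 0 < g q}) \ (Dx ∪ Dy), s q = s₀ q)
    (H3y : ∀ h : X → ℂ, ContinuousOn h (Q \ Dy) → (∀ q ∈ Q \ Dy, h q ≠ 1 ∧ h q ≠ -1) →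
      ∀ s₀ : X → Cov, ContinuousOn s₀ ((bd ∩ {q | g q < 0}) \ (Dx ∪ Dy)) →
      (∀ q ∈ (bd ∩ {q | g q < 0}) \ (Dx ∪ Dy), cp (s₀ q) = h q) →
      ∃ s : X → Cov, ContinuousOn s (Q \ Dy) ∧ (∀ q ∈ Q \ Dy, cp (s q) = h q) ∧
        ∃ q ∈ (bd ∩ {q | g q < 0}) \ (Dx ∪ Dy), s q = s₀ q)
    (H4 : IsPreconnected (bd \ (Dx ∪ Dy))) : False := by
  classical
  -- the zero set avoids the branch set
  have hzero : ∀ q ∈ Q, g q = 0 → q ∉ Dx ∪ Dy := fun q hq h0 hL => by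
    rcases hL with h | h
    · exact absurd h0 (hgx q hq h).ne'
    · exact absurd h0 (hgy q hq h).ne
  have hzne : ∀ q ∈ Q, q ∉ Dx ∪ Dy → z q ≠ 1 ∧ z q ≠ -1 := fun q hq hL =>
    ⟨fun h => hL (Or.inl ((hzx q hq).1 h)), fun h => hL (Or.inr ((hzy q hq).1 h))⟩
  have hzr : ContinuousOn (fun q => z (r q)) Q := hz.comp hr fun q hq => (hrm q hq).1
  have hzrne : ∀ q ∈ Q, z (r q) ≠ 1 ∧ z (r q) ≠ -1 := fun q hq =>
    hzne _ (hrm q hq).1 (hzero _ (hrm q hq).1 (hrm q hq).2)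
  have hng : ContinuousOn (fun q => -g q) Q := hg.neg
  obtain ⟨sb, hsb, hsbz⟩ := H1
  -- the two modified maps
  let zx : X → ℂ := fun q => if 0 ≤ g q then z q else z (r q)
  let zy : X → ℂ := fun q => if 0 ≤ -g q then z q else z (r q)
  have hzxc : ContinuousOn zx Q :=
    paste hg (hz.mono inter_subset_left) (hzr.mono inter_subset_left)
      fun q hq h0 => by rw [hri q hq h0]
  have hzyc : ContinuousOn zy Q :=
    paste hng (hz.mono inter_subset_left) (hzr.mono inter_subset_left)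
      fun q hq h0 => by rw [hri q hq (by linarith)]
  have hzxne : ∀ q ∈ Q \ Dx, zx q ≠ 1 ∧ zx q ≠ -1 := by
    rintro q ⟨hq, hqx⟩
    by_cases h : 0 ≤ g q
    · simp only [zx, h, if_true]
      exact hzne q hq fun hL => hL.elim hqx fun hy => absurd (hgy q hq hy) (not_lt.2 h)
    · simp only [zx, h, if_false]
      exact hzrne q hq
  have hzyne : ∀ q ∈ Q \ Dy, zy q ≠ 1 ∧ zy q ≠ -1 := by
    rintro q ⟨hq, hqy⟩
    by_cases h : 0 ≤ -g q
    · simp only [zy, h, if_true]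
      exact hzne q hq fun hL => hL.elim (fun hx => absurd (hgx q hq hx) (not_lt.2 (by linarith))) hqy
    · simp only [zy, h, if_false]
      exact hzrne q hq
  obtain ⟨sx, hsx, hsxz, qx, hqx, hqxe⟩ := H3x zx (hzxc.mono sdiff_subset) hzxne sb
    (hsb.mono fun q hq => ⟨hq.1.1, hq.2⟩) (fun q hq => by
      rw [hsbz q ⟨hq.1.1, hq.2⟩]
      simp only [zx, show 0 ≤ g q from (show 0 < g q from hq.1.2).le, if_true])
  obtain ⟨sy, hsy, hsyz, qy, hqy, hqye⟩ := H3y zy (hzyc.mono sdiff_subset) hzyne sb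
    (hsb.mono fun q hq => ⟨hq.1.1, hq.2⟩) (fun q hq => by
      rw [hsbz q ⟨hq.1.1, hq.2⟩]
      have : 0 ≤ -g q := by have := (show g q < 0 from hq.1.2); linarith
      simp only [zy, this, if_true])
  -- connectedness of the two halves of the boundary
  have hgL : ContinuousOn g (bd \ (Dx ∪ Dy)) := hg.mono fun q hq => hbd hq.1
  have hset : (bd \ (Dx ∪ Dy)) ∩ {q | g q = 0} = bd ∩ {q | g q = 0} := by
    ext q
    constructor
    · exact fun h => ⟨h.1.1, h.2⟩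
    · exact fun h => ⟨⟨h.1, hzero q (hbd h.1) h.2⟩, h.2⟩
  have hX1 : IsPreconnected ((bd \ (Dx ∪ Dy)) ∩ {q | 0 ≤ g q}) :=
    preconnected_half hgL H4 (by rw [hset]; exact hBb) (by rw [hset]; exact hBn)
  have hset' : (bd \ (Dx ∪ Dy)) ∩ {q | -g q = 0} = bd ∩ {q | g q = 0} := by
    rw [← hset]
    ext q
    simp
  have hX2 : IsPreconnected ((bd \ (Dx ∪ Dy)) ∩ {q | 0 ≤ -g q}) :=
    preconnected_half (g := fun q => -g q) hgL.neg H4 (by rw [hset']; exact hBb)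
      (by rw [hset']; exact hBn)
  -- the lifts agree with `sb` on the two halves
  have hEx : EqOn sx sb ((bd \ (Dx ∪ Dy)) ∩ {q | 0 ≤ g q}) := by
    refine cov_uniq hX1 (hsx.mono fun q hq => ⟨hbd hq.1.1, fun h => hq.1.2 (Or.inl h)⟩)
      (hsb.mono inter_subset_left) (fun q hq => ?_) (a := qx)
      ⟨⟨hqx.1.1, hqx.2⟩, (show 0 < g qx from hqx.1.2).le⟩ hqxe
    rw [hsxz q ⟨hbd hq.1.1, fun h => hq.1.2 (Or.inl h)⟩, hsbz q hq.1]
    simp only [zx, show 0 ≤ g q from hq.2, if_true]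
  have hEy : EqOn sy sb ((bd \ (Dx ∪ Dy)) ∩ {q | 0 ≤ -g q}) := by
    refine cov_uniq hX2 (hsy.mono fun q hq => ⟨hbd hq.1.1, fun h => hq.1.2 (Or.inr h)⟩)
      (hsb.mono inter_subset_left) (fun q hq => ?_) (a := qy)
      ⟨⟨hqy.1.1, hqy.2⟩, by have := (show g qy < 0 from hqy.1.2); change 0 ≤ -g qy; linarith⟩ hqye
    rw [hsyz q ⟨hbd hq.1.1, fun h => hq.1.2 (Or.inr h)⟩, hsbz q hq.1]
    simp only [zy, show 0 ≤ -g q from hq.2, if_true]
  -- hence they agree on the zero set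
  obtain ⟨q₀, hq₀, hq₀0⟩ := hBn
  have hq₀0' : g q₀ = 0 := hq₀0
  have hEB : EqOn sx sy (Q ∩ {q | g q = 0}) := by
    refine cov_uniq hB (hsx.mono fun q hq => ⟨hq.1, fun h => hzero q hq.1 hq.2 (Or.inl h)⟩)
      (hsy.mono fun q hq => ⟨hq.1, fun h => hzero q hq.1 hq.2 (Or.inr h)⟩) (fun q hq => ?_)
      (a := q₀) ⟨hbd hq₀, hq₀0⟩ ?_
    · have h0 : g q = 0 := hq.2
      rw [hsxz q ⟨hq.1, fun h => hzero q hq.1 hq.2 (Or.inl h)⟩,
        hsyz q ⟨hq.1, fun h => hzero q hq.1 hq.2 (Or.inr h)⟩]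
      simp [zx, zy, h0]
    · have hL := hzero q₀ (hbd hq₀) hq₀0
      rw [hEx ⟨⟨hq₀, hL⟩, by simp [hq₀0']⟩, hEy ⟨⟨hq₀, hL⟩, by simp [hq₀0']⟩]
  -- glue
  refine H2 ⟨fun q => if 0 ≤ g q then sx q else sy q, ?_, ?_⟩
  · refine paste (hg.mono sdiff_subset) (hsx.mono fun q hq => ?_) (hsy.mono fun q hq => ?_) ?_
    · exact ⟨hq.1.1, fun h => hq.1.2 (Or.inl h)⟩
    · exact ⟨hq.1.1, fun h => hq.1.2 (Or.inr h)⟩
    · intro q hq h0
      exact hEB ⟨hq.1, h0⟩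
  · rintro q ⟨hq, hL⟩
    by_cases h : 0 ≤ g q
    · simp only [h, if_true]
      rw [hsxz q ⟨hq, fun h => hL (Or.inl h)⟩]
      simp only [zx, h, if_true]
    · simp only [h, if_false]
      rw [hsyz q ⟨hq, fun h => hL (Or.inr h)⟩]
      have : 0 ≤ -g q := by linarith [not_le.1 h]
      simp only [zy, this, if_true]

end Pool.B203
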