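import Mathlib

/-!
# MP_b20371_gt: definitions

`S¹ × B³` is realised as `W ⊆ ℂ × ℝ³`, and `S¹ × S³` as `M ⊆ ℂ × ℍ`.
-/

open Set Metric Topology
open scoped ContDiff Quaternion ComplexConjugate

noncomputable section

namespace Pool.B203

/-- Euclidean 3-space. -/
abbrev E3 : Type := EuclideanSpace ℝ (Fin 3)

/-- Euclidean 2-space. -/
abbrev E2 : Type := EuclideanSpace ℝ (Fin 2)

/-- The ambient space `ℂ × ℝ³` of `S¹ × B³`. -/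
abbrev Amb : Type := ℂ × E3

/-- The ambient space `ℂ × ℍ` of `S¹ × S³`. -/
abbrev MAmb : Type := ℂ × ℍ[ℝ]

/-- `S¹ × B³`. -/
def W : Set Amb := {p | ‖p.1‖ = 1 ∧ ‖p.2‖ ≤ 1}

/-- A smooth neatly embedded closed 3-ball in `W = S¹ × B³`: the image of the closed unit ball of `ℝ³`
under a map `e` which is smooth on (a neighbourhood of every point of) the closed ball, injective,
immersive, with `e⁻¹(∂W) = ∂B³`, and transverse to `∂W = S¹ × S²` along the boundary sphere. -/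
def IsNeatBall (B : Set Amb) : Prop :=
  ∃ e : E3 → Amb,
    (∀ x ∈ closedBall (0 : E3) 1, ContDiffAt ℝ ∞ e x) ∧
    InjOn e (closedBall 0 1) ∧
    (∀ x ∈ closedBall (0 : E3) 1, Function.Injective (fderiv ℝ e x)) ∧
    e '' closedBall 0 1 = B ∧ B ⊆ W ∧
    (∀ x ∈ closedBall (0 : E3) 1, ‖(e x).2‖ = 1 ↔ ‖x‖ = 1) ∧
    (∀ x : E3, ‖x‖ = 1 → ∃ v : E3, inner ℝ (e x).2 (fderiv ℝ e x v).2 ≠ 0)

/-! ## The manifold `S¹ × S³` and its involution -/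

/-- `S¹ × S³`. -/
def M : Set MAmb := {p | ‖p.1‖ = 1 ∧ ‖p.2‖ = 1}

/-- The involution `ρ(ζ, v₀, v') = (ζ̄, -v₀, v')`. -/
def rho (p : MAmb) : MAmb := (conj p.1, ⟨-p.2.re, p.2.imI, p.2.imJ, p.2.imK⟩)

/-- `ell ζ a = √(1 + a²) Re ζ + i a Im ζ`. -/
def ell (ζ : ℂ) (a : ℝ) : ℂ := ⟨√(1 + a ^ 2) * ζ.re, a * ζ.im⟩

/-- half the sum of the distances to `1` and `-1`. -/
def sf (z : ℂ) : ℝ := (‖z - 1‖ + ‖z + 1‖) / 2

/-- The quotient map `M → M / ρ ⊆ ℂ × ℝ³`. -/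
def kap (p : MAmb) : Amb := (ell p.1 p.2.re, !₂[p.2.imI, p.2.imJ, p.2.imK])

/-- The image of `kap`. -/
def Sig : Set Amb := {q | sf q.1 ^ 2 + ‖q.2‖ ^ 2 = 2}

/-! ## The equivariant tube; `σ = ±1` is a parameter (only `σ = 1` is the example) -/

/-- The tube in the chart `(θ, (v₀, v₂, v₃))`. -/
def jc (σ : ℝ) (q : ℝ × E3) : ℝ × E3 :=
  (q.1 + 2 * Real.pi * σ * Real.sin q.1 - Real.cos (2 * q.1) * q.2 0,
    !₂[Real.sin q.1 * Real.cos q.1 + (1 + 2 * Real.pi * σ * Real.cos q.1) * q.2 0,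
      σ * Real.cos q.1 / 2 + q.2 1, q.2 2])

/-- The chart of `M`: `(θ, (v₀, v₂, v₃)) ↦ (e^{iθ}, (v₀, √(1-v₀²-v₂²-v₃²), v₂, v₃))`. -/
def ch (q : ℝ × E3) : MAmb :=
  (Complex.exp (q.1 * Complex.I), ⟨q.2 0, √(1 - q.2 0 ^ 2 - q.2 1 ^ 2 - q.2 2 ^ 2), q.2 1, q.2 2⟩)

/-- The tube `S¹ × ℝ³ ⊇ S¹ × (small ball) → M`. -/
def J (σ : ℝ) (p : Amb) : MAmb :=
  (p.1 * Complex.exp (((2 * Real.pi * σ * p.1.im - (p.1.re ^ 2 - p.1.im ^ 2) * p.2 0 : ℝ) : ℂ) * Complex.I),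
    ⟨p.1.re * p.1.im + (1 + 2 * Real.pi * σ * p.1.re) * p.2 0,
      √(1 - (p.1.re * p.1.im + (1 + 2 * Real.pi * σ * p.1.re) * p.2 0) ^ 2
          - (σ * p.1.re / 2 + p.2 1) ^ 2 - (p.2 2) ^ 2),
      σ * p.1.re / 2 + p.2 1, p.2 2⟩)

/-- the closed solid torus -/
def tubC (ε : ℝ) : Set Amb := {p | ‖p.1‖ = 1 ∧ ‖p.2‖ ≤ ε}

/-- the open solid torus -/
def tubO (ε : ℝ) : Set Amb := {p | ‖p.1‖ = 1 ∧ ‖p.2‖ < ε}

/-- the boundary of the solid torus -/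
def tubB (ε : ℝ) : Set Amb := {p | ‖p.1‖ = 1 ∧ ‖p.2‖ = ε}

/-- the exterior of the tube -/
def WM (σ ε : ℝ) : Set MAmb := M \ (J σ '' tubO ε)

/-- the boundary of the exterior -/
def bdM (σ ε : ℝ) : Set MAmb := J σ '' tubB ε

/-- `W / τ` -/
def Q (σ ε : ℝ) : Set Amb := kap '' WM σ ε

/-- `∂W / τ` -/
def bdQ (σ ε : ℝ) : Set Amb := kap '' bdM σ ε

/-- the two branch discs (as a subset of the ambient space) -/
def LL : Set Amb := {q | q.1 = 1 ∨ q.1 = -1}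

/-- the reflection `ι(u) = (-u₀, u₁, u₂)` of the fibre of the tube -/
def iot (u : E3) : E3 := !₂[-u 0, u 1, u 2]

/-- The quotient of the tube: `(ζ, u) ↦ (ell ζ u₀, (u₁, u₂))`. -/
def kapN (p : Amb) : ℂ × E2 := (ell p.1 (p.2 0), !₂[p.2 1, p.2 2])

/-- The convex body `N̄ / ρ`. -/
def KN (ε : ℝ) : Set (ℂ × E2) := {q | sf q.1 ^ 2 + ‖q.2‖ ^ 2 ≤ 1 + ε ^ 2}

end Pool.B203
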