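import Pool.Agent.Lib.B203.CollarDefs

/-! Degrees of maps `W → S¹` and the circle valued function of a collar. -/

open Set Metric Topology
open scoped ContDiff Quaternion ComplexConjugate

noncomputable section

namespace Pool.B203

/-- `f = ζ^d e^{iλ}` on `W` with `λ` real and continuous. -/
def IsDeg (d : ℤ) (f : Amb → ℂ) : Prop :=
  ∃ lam : Amb → ℝ, ContinuousOn lam W ∧ ∀ p ∈ W, f p = p.1 ^ d * Complex.exp (lam p * Complex.I)

/-- Clamp to `[0,1]`. -/
def clamp (s : ℝ) : ℝ := max 0 (min 1 s)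

open Classical in
/-- The circle valued function of a collar: `exp(2πi clamp((t-a)/(b-a)))` on the collar, `1` elsewhere. -/
def fab (E : E3 × ℝ → Amb) (a b : ℝ) (p : Amb) : ℂ :=
  if h : ∃ q ∈ closedBall (0 : E3) 1 ×ˢ Icc (-1 : ℝ) 1, E q = p then
    Complex.exp ((2 * Real.pi * clamp ((h.choose.2 - a) / (b - a)) : ℝ) * Complex.I)
  else 1

end Pool.B203
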