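import Pool.Agent.Lib.B203.EllA

/-! Row EllB: the convex function defining `Sig` and `KN`. -/

open Set Metric Topology
open scoped ContDiff Quaternion ComplexConjugate

noncomputable section

namespace Pool.B203

private theorem ellB_sf_nonneg (z : ℂ) : 0 ≤ sf z := by
  unfold sf; positivity

private theorem ellB_convexOn_sf : ConvexOn ℝ univ sf := by
  have h1 := convexOn_dist (1 : ℂ) (convex_univ (𝕜 := ℝ) (E := ℂ))
  have h2 := convexOn_dist (-1 : ℂ) (convex_univ (𝕜 := ℝ) (E := ℂ))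
  have h3 := (h1.add h2).smul (c := (1 / 2 : ℝ)) (by norm_num)
  refine h3.congr ?_
  intro z _
  simp only [sf, Pi.add_apply, smul_eq_mul, dist_eq_norm, sub_neg_eq_add]
  ring

private theorem ellB_norm_le_sf (z : ℂ) : ‖z‖ ≤ sf z := by
  have h : ‖(z - 1) + (z + 1)‖ ≤ ‖z - 1‖ + ‖z + 1‖ := norm_add_le _ _
  have h2 : (z - 1) + (z + 1) = (2 : ℂ) * z := by ring
  rw [h2, norm_mul] at h
  have h3 : ‖(2 : ℂ)‖ = 2 := by simp
  rw [h3] at h
  unfold sf
  linarith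

theorem convexOn_body {V : Type*} [NormedAddCommGroup V] [NormedSpace ℝ V] :
    ConvexOn ℝ univ (fun q : ℂ × V => sf q.1 ^ 2 + ‖q.2‖ ^ 2) := by
  have h1 : ConvexOn ℝ univ (fun q : ℂ × V => sf q.1) :=
    ellB_convexOn_sf.comp_linearMap (LinearMap.fst ℝ ℂ V)
  have h2 : ConvexOn ℝ univ (fun q : ℂ × V => ‖q.2‖) :=
    (convexOn_univ_norm (E := V)).comp_linearMap (LinearMap.snd ℝ ℂ V)
  have h3 := h1.pow (fun q _ => ellB_sf_nonneg q.1) 2
  have h4 := h2.pow (fun q _ => norm_nonneg q.2) 2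
  exact h3.add h4

theorem isBounded_body {V : Type*} [NormedAddCommGroup V] [NormedSpace ℝ V] (m : ℝ) :
    Bornology.IsBounded {q : ℂ × V | sf q.1 ^ 2 + ‖q.2‖ ^ 2 ≤ m} := by
  rw [isBounded_iff_forall_norm_le]
  refine ⟨√m, fun q hq => ?_⟩
  have hq' : sf q.1 ^ 2 + ‖q.2‖ ^ 2 ≤ m := hq
  rw [Prod.norm_def]
  refine max_le ?_ ?_
  · refine (ellB_norm_le_sf q.1).trans (Real.le_sqrt_of_sq_le ?_)
    nlinarith [sq_nonneg ‖q.2‖]
  · refine Real.le_sqrt_of_sq_le ?_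
    nlinarith [sq_nonneg (sf q.1)]

end Pool.B203
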