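import Pool.Agent.Lib.B203.EllA

/-! Row EllC: `kap` and `rho`. -/

open Set Metric Topology
open scoped ContDiff Quaternion ComplexConjugate

noncomputable section

namespace Pool.B203

/-- the real linear coordinate maps of `ℍ` -/
private def ellCre : ℍ[ℝ] →L[ℝ] ℝ := LinearMap.toContinuousLinearMap
  { toFun := fun v => v.re, map_add' := fun _ _ => rfl, map_smul' := fun _ _ => rfl }

private def ellCimI : ℍ[ℝ] →L[ℝ] ℝ := LinearMap.toContinuousLinearMap
  { toFun := fun v => v.imI, map_add' := fun _ _ => rfl, map_smul' := fun _ _ => rfl }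

private def ellCimJ : ℍ[ℝ] →L[ℝ] ℝ := LinearMap.toContinuousLinearMap
  { toFun := fun v => v.imJ, map_add' := fun _ _ => rfl, map_smul' := fun _ _ => rfl }

private def ellCimK : ℍ[ℝ] →L[ℝ] ℝ := LinearMap.toContinuousLinearMap
  { toFun := fun v => v.imK, map_add' := fun _ _ => rfl, map_smul' := fun _ _ => rfl }

private def ellCflip : ℍ[ℝ] →L[ℝ] ℍ[ℝ] := LinearMap.toContinuousLinearMap
  { toFun := fun v => ⟨-v.re, v.imI, v.imJ, v.imK⟩
    map_add' := by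
      intro x y
      ext <;> simp
      ring
    map_smul' := by
      intro c x
      ext <;> simp }

private theorem ellC_normSq (v : ℍ[ℝ]) : ‖v‖ ^ 2 = v.re ^ 2 + v.imI ^ 2 + v.imJ ^ 2 + v.imK ^ 2 := by
  have h : ‖v‖ ^ 2 = Quaternion.normSq v := by
    rw [sq, ← Quaternion.normSq_eq_norm_mul_self]
  rw [h, Quaternion.normSq_def']

private theorem ellC_norm3 (a b c : ℝ) : ‖(!₂[a, b, c] : E3)‖ ^ 2 = a ^ 2 + b ^ 2 + c ^ 2 := by
  rw [EuclideanSpace.norm_sq_eq, Fin.sum_univ_three]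
  simp

theorem continuous_kap : Continuous kap := by
  have h1 : Continuous (fun p : MAmb => ell p.1 p.2.re) :=
    continuous_ell.comp (continuous_fst.prodMk (ellCre.continuous.comp continuous_snd))
  refine h1.prodMk ?_
  have h : Continuous (fun p : MAmb => (![p.2.imI, p.2.imJ, p.2.imK] : Fin 3 → ℝ)) := by
    refine continuous_pi fun i => ?_
    fin_cases i
    · exact ellCimI.continuous.comp continuous_snd
    · exact ellCimJ.continuous.comp continuous_snd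
    · exact ellCimK.continuous.comp continuous_snd
  exact (PiLp.continuous_toLp 2 (fun _ : Fin 3 => ℝ)).comp h

theorem contDiff_rho : ContDiff ℝ ∞ rho := by
  have h1 : ContDiff ℝ ∞ (fun p : MAmb => conj p.1) :=
    Complex.conjCLE.contDiff.comp contDiff_fst
  have h2 : ContDiff ℝ ∞ (fun p : MAmb => ellCflip p.2) := ellCflip.contDiff.comp contDiff_snd
  exact h1.prodMk h2

theorem rho_rho (p : MAmb) : rho (rho p) = p := by
  refine Prod.ext ?_ ?_
  · simp [rho]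
  · simp only [rho, neg_neg]
    rfl

theorem rho_mem_M {p : MAmb} (hp : p ∈ M) : rho p ∈ M := by
  obtain ⟨h1, h2⟩ := hp
  refine ⟨?_, ?_⟩
  · simpa [rho] using h1
  · have h3 : ‖(rho p).2‖ ^ 2 = ‖p.2‖ ^ 2 := by
      rw [ellC_normSq, ellC_normSq]; simp [rho]
    rw [h2] at h3
    have h4 := norm_nonneg (rho p).2
    nlinarith [sq_nonneg (‖(rho p).2‖ - 1)]

theorem kap_rho (p : MAmb) : kap (rho p) = kap p := by
  refine Prod.ext ?_ rfl
  show ell (conj p.1) (-p.2.re) = ell p.1 p.2.re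
  simp [ell]

theorem kap_mem_Sig {p : MAmb} (hp : p ∈ M) : kap p ∈ Sig := by
  obtain ⟨h1, h2⟩ := hp
  show sf (kap p).1 ^ 2 + ‖(kap p).2‖ ^ 2 = 2
  have e1 : sf (kap p).1 = √(1 + p.2.re ^ 2) := sf_ell h1 _
  have e2 : ‖(kap p).2‖ ^ 2 = p.2.imI ^ 2 + p.2.imJ ^ 2 + p.2.imK ^ 2 := ellC_norm3 _ _ _
  have e3 := ellC_normSq p.2
  rw [h2] at e3
  rw [e1, e2, Real.sq_sqrt (by positivity)]
  linarith

theorem exists_kap {q : Amb} (hq : q ∈ Sig) : ∃ p ∈ M, kap p = q := by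
  obtain ⟨ζ, a, h1, h2, h3⟩ := exists_ell q.1
  have hq' : sf q.1 ^ 2 + ‖q.2‖ ^ 2 = 2 := hq
  rw [← h3, sf_ell h1, Real.sq_sqrt (by positivity)] at hq'
  have e : q.2 = !₂[q.2 0, q.2 1, q.2 2] := by
    ext i; fin_cases i <;> rfl
  obtain ⟨w, hw⟩ : ∃ w : ℍ[ℝ], w = (⟨a, q.2 0, q.2 1, q.2 2⟩ : ℍ[ℝ]) := ⟨_, rfl⟩
  have w0 : w.re = a := by rw [hw]
  have w1 : w.imI = q.2 0 := by rw [hw]
  have w2 : w.imJ = q.2 1 := by rw [hw]
  have w3 : w.imK = q.2 2 := by rw [hw]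
  refine ⟨(ζ, w), ⟨h1, ?_⟩, ?_⟩
  · have e3 := ellC_normSq w
    rw [w0, w1, w2, w3] at e3
    rw [e, ellC_norm3] at hq'
    have h4 := norm_nonneg w
    have h5 : ‖w‖ ^ 2 = 1 := by rw [e3]; linarith
    show ‖w‖ = 1
    nlinarith [sq_nonneg (‖w‖ - 1)]
  · refine Prod.ext ?_ ?_
    · show ell ζ w.re = q.1
      rw [w0, h3]
    · show (!₂[w.imI, w.imJ, w.imK] : E3) = q.2
      rw [w1, w2, w3, ← e]

theorem kap_eq_iff {p p' : MAmb} (hp : p ∈ M) (hp' : p' ∈ M) :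
    kap p = kap p' ↔ p' = p ∨ p' = rho p := by
  constructor
  · intro h
    have h1 : ell p.1 p.2.re = ell p'.1 p'.2.re := congrArg Prod.fst h
    have h2 : (!₂[p.2.imI, p.2.imJ, p.2.imK] : E3) = !₂[p'.2.imI, p'.2.imJ, p'.2.imK] :=
      congrArg Prod.snd h
    have i0 : p.2.imI = p'.2.imI := congrArg (fun v : E3 => v 0) h2
    have i1 : p.2.imJ = p'.2.imJ := congrArg (fun v : E3 => v 1) h2
    have i2 : p.2.imK = p'.2.imK := congrArg (fun v : E3 => v 2) h2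
    rcases (ell_eq_iff hp.1 hp'.1).1 h1 with ⟨a, b⟩ | ⟨a, b⟩
    · left
      refine Prod.ext a ?_
      exact QuaternionAlgebra.ext b i0.symm i1.symm i2.symm
    · right
      refine Prod.ext a ?_
      exact QuaternionAlgebra.ext b i0.symm i1.symm i2.symm
  · rintro (h | h)
    · rw [h]
    · rw [h, kap_rho]

theorem kap_fst_eq_one_iff {p : MAmb} (hp : p ∈ M) : (kap p).1 = 1 ↔ p.1 = 1 ∧ p.2.re = 0 :=
  ell_eq_one_iff hp.1

theorem kap_fst_eq_neg_one_iff {p : MAmb} (hp : p ∈ M) :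
    (kap p).1 = -1 ↔ p.1 = -1 ∧ p.2.re = 0 :=
  ell_eq_neg_one_iff hp.1

theorem isCompact_M : IsCompact M := by
  have : ProperSpace ℍ[ℝ] := FiniteDimensional.proper ℝ ℍ[ℝ]
  have h : M = sphere (0 : ℂ) 1 ×ˢ sphere (0 : ℍ[ℝ]) 1 := by
    ext p
    simp [M, mem_prod]
  rw [h]
  exact (isCompact_sphere _ _).prod (isCompact_sphere _ _)

end Pool.B203
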