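import Pool.Agent.Lib.B203.EllA

/-! Row EllD: `kapN`. -/

open Set Metric Topology
open scoped ContDiff Quaternion ComplexConjugate

noncomputable section

namespace Pool.B203

private theorem ellD_norm3 (u : E3) : ‖u‖ ^ 2 = u 0 ^ 2 + u 1 ^ 2 + u 2 ^ 2 := by
  rw [EuclideanSpace.norm_sq_eq, Fin.sum_univ_three]
  simp

private theorem ellD_norm2 (a b : ℝ) : ‖(!₂[a, b] : E2)‖ ^ 2 = a ^ 2 + b ^ 2 := by
  rw [EuclideanSpace.norm_sq_eq, Fin.sum_univ_two]
  simp

private theorem ellD_coord (i : Fin 3) : Continuous (fun u : E3 => u i) := by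
  fun_prop

theorem continuous_kapN : Continuous kapN := by
  have h1 : Continuous (fun p : Amb => ell p.1 (p.2 0)) :=
    continuous_ell.comp (continuous_fst.prodMk ((ellD_coord 0).comp continuous_snd))
  refine h1.prodMk ?_
  have h : Continuous (fun p : Amb => (![p.2 1, p.2 2] : Fin 2 → ℝ)) := by
    refine continuous_pi fun i => ?_
    fin_cases i
    · exact (ellD_coord 1).comp continuous_snd
    · exact (ellD_coord 2).comp continuous_snd
  exact (PiLp.continuous_toLp 2 (fun _ : Fin 2 => ℝ)).comp h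

theorem kapN_body {p : Amb} (hp : ‖p.1‖ = 1) :
    sf (kapN p).1 ^ 2 + ‖(kapN p).2‖ ^ 2 = 1 + ‖p.2‖ ^ 2 := by
  have e1 : sf (kapN p).1 = √(1 + p.2 0 ^ 2) := sf_ell hp _
  have e2 : ‖(kapN p).2‖ ^ 2 = p.2 1 ^ 2 + p.2 2 ^ 2 := ellD_norm2 _ _
  rw [e1, e2, ellD_norm3, Real.sq_sqrt (by positivity)]
  ring

theorem kapN_eq_iff {p p' : Amb} (hp : ‖p.1‖ = 1) (hp' : ‖p'.1‖ = 1) :
    kapN p = kapN p' ↔ p' = p ∨ p' = (conj p.1, iot p.2) := by
  constructor
  · intro h
    have h1 : ell p.1 (p.2 0) = ell p'.1 (p'.2 0) := congrArg Prod.fst h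
    have h2 : (!₂[p.2 1, p.2 2] : E2) = !₂[p'.2 1, p'.2 2] := congrArg Prod.snd h
    have i0 : p.2 1 = p'.2 1 := congrArg (fun v : E2 => v 0) h2
    have i1 : p.2 2 = p'.2 2 := congrArg (fun v : E2 => v 1) h2
    rcases (ell_eq_iff hp hp').1 h1 with ⟨a, b⟩ | ⟨a, b⟩
    · left
      refine Prod.ext a ?_
      ext i
      fin_cases i
      · exact b
      · exact i0.symm
      · exact i1.symm
    · right
      refine Prod.ext a ?_
      ext i
      fin_cases i
      · exact b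
      · exact i0.symm
      · exact i1.symm
  · rintro (h | h)
    · rw [h]
    · rw [h]
      refine Prod.ext ?_ rfl
      show ell p.1 (p.2 0) = ell (conj p.1) (-p.2 0)
      simp [ell]

theorem exists_kapN (q : ℂ × E2) : ∃ p : Amb, ‖p.1‖ = 1 ∧ kapN p = q := by
  obtain ⟨ζ, a, h1, h2, h3⟩ := exists_ell q.1
  refine ⟨(ζ, !₂[a, q.2 0, q.2 1]), h1, Prod.ext h3 ?_⟩
  show (!₂[q.2 0, q.2 1] : E2) = q.2
  ext i; fin_cases i <;> rfl

theorem norm_iot (u : E3) : ‖iot u‖ = ‖u‖ := by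
  have h : ‖iot u‖ ^ 2 = ‖u‖ ^ 2 := by
    rw [ellD_norm3, ellD_norm3]
    simp [iot]
  exact (sq_eq_sq₀ (norm_nonneg _) (norm_nonneg _)).1 h

theorem isCompact_tubC (ε : ℝ) : IsCompact (tubC ε) := by
  have h : tubC ε = sphere (0 : ℂ) 1 ×ˢ closedBall (0 : E3) ε := by
    ext p
    simp [tubC, mem_prod]
  rw [h]
  exact (isCompact_sphere _ _).prod (isCompact_closedBall _ _)

theorem isCompact_tubB (ε : ℝ) : IsCompact (tubB ε) := by
  have h : tubB ε = sphere (0 : ℂ) 1 ×ˢ sphere (0 : E3) ε := by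
    ext p
    simp [tubB, mem_prod]
  rw [h]
  exact (isCompact_sphere _ _).prod (isCompact_sphere _ _)

end Pool.B203
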