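import Pool.Agent.Lib.B203.Defs

/-! Row EllA: the planar map `ell` and the function `sf`. -/

open Set Metric Topology
open scoped ContDiff Quaternion ComplexConjugate

noncomputable section

namespace Pool.B203

private lemma ella_re_im {ζ : ℂ} (h : ‖ζ‖ = 1) : ζ.re ^ 2 + ζ.im ^ 2 = 1 := by
  have h1 := Complex.sq_norm ζ
  rw [h, Complex.normSq_apply] at h1
  linarith

private lemma ella_re_le {ζ : ℂ} (h : ‖ζ‖ = 1) : ζ.re ≤ 1 := by
  have := ella_re_im h
  nlinarith [sq_nonneg ζ.im, sq_nonneg (ζ.re - 1)]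

private lemma ella_neg_le_re {ζ : ℂ} (h : ‖ζ‖ = 1) : -1 ≤ ζ.re := by
  have := ella_re_im h
  nlinarith [sq_nonneg ζ.im, sq_nonneg (ζ.re + 1)]

private lemma ella_one_le (a : ℝ) : 1 ≤ √(1 + a ^ 2) := by
  rw [Real.one_le_sqrt]
  nlinarith [sq_nonneg a]

private lemma ella_sq (a : ℝ) : √(1 + a ^ 2) ^ 2 = 1 + a ^ 2 := Real.sq_sqrt (by positivity)

theorem norm_ell_sub_one {ζ : ℂ} (h : ‖ζ‖ = 1) (a : ℝ) : ‖ell ζ a - 1‖ = √(1 + a ^ 2) - ζ.re := by
  have h1 := ella_re_im h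
  have h2 := ella_re_le h
  have h3 := ella_one_le a
  have h4 := ella_sq a
  rw [Complex.norm_eq_sqrt_sq_add_sq]
  have h5 : (ell ζ a - 1).re ^ 2 + (ell ζ a - 1).im ^ 2 = (√(1 + a ^ 2) - ζ.re) ^ 2 := by
    simp only [ell, Complex.sub_re, Complex.sub_im, Complex.one_re, Complex.one_im, sub_zero]
    have h6 : ζ.im ^ 2 = 1 - ζ.re ^ 2 := by linarith
    have h7 : a ^ 2 = √(1 + a ^ 2) ^ 2 - 1 := by linarith
    have h8 : (a * ζ.im) ^ 2 = (√(1 + a ^ 2) ^ 2 - 1) * (1 - ζ.re ^ 2) := by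
      rw [mul_pow, h6, ← h7]
    rw [h8]
    ring
  rw [h5, Real.sqrt_sq (by linarith)]

theorem norm_ell_add_one {ζ : ℂ} (h : ‖ζ‖ = 1) (a : ℝ) : ‖ell ζ a + 1‖ = √(1 + a ^ 2) + ζ.re := by
  have h1 := ella_re_im h
  have h2 := ella_neg_le_re h
  have h3 := ella_one_le a
  have h4 := ella_sq a
  rw [Complex.norm_eq_sqrt_sq_add_sq]
  have h5 : (ell ζ a + 1).re ^ 2 + (ell ζ a + 1).im ^ 2 = (√(1 + a ^ 2) + ζ.re) ^ 2 := by
    simp only [ell, Complex.add_re, Complex.add_im, Complex.one_re, Complex.one_im, add_zero]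
    have h6 : ζ.im ^ 2 = 1 - ζ.re ^ 2 := by linarith
    have h7 : a ^ 2 = √(1 + a ^ 2) ^ 2 - 1 := by linarith
    have h8 : (a * ζ.im) ^ 2 = (√(1 + a ^ 2) ^ 2 - 1) * (1 - ζ.re ^ 2) := by
      rw [mul_pow, h6, ← h7]
    rw [h8]
    ring
  rw [h5, Real.sqrt_sq (by linarith)]

theorem sf_ell {ζ : ℂ} (h : ‖ζ‖ = 1) (a : ℝ) : sf (ell ζ a) = √(1 + a ^ 2) := by
  unfold sf
  rw [norm_ell_sub_one h, norm_ell_add_one h]
  ring

theorem ell_eq_iff {ζ ζ' : ℂ} (h : ‖ζ‖ = 1) (h' : ‖ζ'‖ = 1) {a a' : ℝ} :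
    ell ζ a = ell ζ' a' ↔ (ζ' = ζ ∧ a' = a) ∨ (ζ' = conj ζ ∧ a' = -a) := by
  constructor
  · intro he
    have e1 := norm_ell_sub_one h a
    have e2 := norm_ell_add_one h a
    rw [he, norm_ell_sub_one h' a'] at e1
    rw [he, norm_ell_add_one h' a'] at e2
    have hx : ζ'.re = ζ.re := by linarith
    have hr : √(1 + a' ^ 2) = √(1 + a ^ 2) := by linarith
    have ha : a' ^ 2 = a ^ 2 := by
      have h3 := ella_sq a
      have h4 := ella_sq a'
      rw [hr, h3] at h4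
      linarith
    have hy : a * ζ.im = a' * ζ'.im := by
      have := congrArg Complex.im he
      simpa only [ell] using this
    have hy2 : ζ'.im ^ 2 = ζ.im ^ 2 := by
      have h3 := ella_re_im h
      have h4 := ella_re_im h'
      rw [hx] at h4
      linarith
    by_cases ha0 : a = 0
    · subst ha0
      have ha' : a' = 0 := by
        rw [zero_pow (by norm_num)] at ha
        exact pow_eq_zero_iff (by norm_num) |>.mp ha
      rcases sq_eq_sq_iff_eq_or_eq_neg.mp hy2 with h5 | h5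
      · left
        exact ⟨Complex.ext hx h5, ha'⟩
      · right
        refine ⟨Complex.ext ?_ ?_, by rw [ha', neg_zero]⟩
        · rw [Complex.conj_re, hx]
        · rw [Complex.conj_im, h5]
    · rcases sq_eq_sq_iff_eq_or_eq_neg.mp ha with h5 | h5
      · left
        rw [h5] at hy
        have h6 := mul_left_cancel₀ ha0 hy
        exact ⟨Complex.ext hx h6.symm, h5⟩
      · right
        rw [h5, neg_mul, ← mul_neg] at hy
        have h6 := mul_left_cancel₀ ha0 hy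
        refine ⟨Complex.ext ?_ ?_, h5⟩
        · rw [Complex.conj_re, hx]
        · rw [Complex.conj_im, h6, neg_neg]
  · rintro (⟨rfl, rfl⟩ | ⟨rfl, rfl⟩)
    · rfl
    · apply Complex.ext
      · simp only [ell, Complex.conj_re, neg_sq]
      · simp only [ell, Complex.conj_im, neg_mul_neg]

theorem one_le_sf (z : ℂ) : 1 ≤ sf z := by
  unfold sf
  have h1 : ‖(z + 1) - (z - 1)‖ ≤ ‖z + 1‖ + ‖z - 1‖ := norm_sub_le _ _
  have h2 : (z + 1) - (z - 1) = 2 := by ring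
  rw [h2] at h1
  have h3 : ‖(2 : ℂ)‖ = 2 := by norm_num
  rw [h3] at h1
  linarith

theorem exists_ell (z : ℂ) : ∃ (ζ : ℂ) (a : ℝ), ‖ζ‖ = 1 ∧ 0 ≤ a ∧ ell ζ a = z := by
  set p := ‖z + 1‖ with hp
  set q := ‖z - 1‖ with hq
  have hp2 : p ^ 2 = (z.re + 1) ^ 2 + z.im ^ 2 := by
    rw [hp, Complex.sq_norm, Complex.normSq_apply, Complex.add_re, Complex.add_im,
      Complex.one_re, Complex.one_im]
    ring
  have hq2 : q ^ 2 = (z.re - 1) ^ 2 + z.im ^ 2 := by
    rw [hq, Complex.sq_norm, Complex.normSq_apply, Complex.sub_re, Complex.sub_im,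
      Complex.one_re, Complex.one_im]
    ring
  set s := sf z with hs
  have hs' : s = (q + p) / 2 := rfl
  have hs1 : 1 ≤ s := one_le_sf z
  set x := (p - q) / 2 with hx
  have hsx : s * x = z.re := by
    rw [hs', hx]
    linarith
  have hy : z.im ^ 2 = (s ^ 2 - 1) * (1 - x ^ 2) := by
    rw [hs', hx]
    have h1 : z.im ^ 2 = (p ^ 2 + q ^ 2) / 2 - 1 - z.re ^ 2 := by
      rw [hp2, hq2]; ring
    have h2 : z.re = (p ^ 2 - q ^ 2) / 4 := by
      rw [hp2, hq2]; ring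
    rw [h1, h2]
    ring
  have hx1 : x ^ 2 ≤ 1 := by
    have h2 : ‖(2 : ℂ)‖ = 2 := by norm_num
    have h3 : p ≤ q + 2 := by
      have : ‖(z - 1) + 2‖ ≤ ‖z - 1‖ + ‖(2 : ℂ)‖ := norm_add_le _ _
      have h4 : (z - 1) + 2 = z + 1 := by ring
      rw [h4, h2] at this
      exact this
    have h5 : q ≤ p + 2 := by
      have : ‖(z + 1) - 2‖ ≤ ‖z + 1‖ + ‖(2 : ℂ)‖ := norm_sub_le _ _
      have h4 : (z + 1) - 2 = z - 1 := by ring
      rw [h4, h2] at this
      exact this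
    rw [sq_le_one_iff_abs_le_one, abs_le]
    constructor <;> rw [hx] <;> linarith
  set a := √(s ^ 2 - 1) with ha
  have hs2 : 0 ≤ s ^ 2 - 1 := by nlinarith
  have ha2 : a ^ 2 = s ^ 2 - 1 := Real.sq_sqrt hs2
  have hr : √(1 + a ^ 2) = s := by
    rw [ha2, show 1 + (s ^ 2 - 1) = s ^ 2 by ring, Real.sqrt_sq (by linarith)]
  have key : ∀ y : ℝ, x ^ 2 + y ^ 2 = 1 → a * y = z.im →
      ∃ (ζ : ℂ) (a : ℝ), ‖ζ‖ = 1 ∧ 0 ≤ a ∧ ell ζ a = z := by
    intro y h1 h2
    refine ⟨⟨x, y⟩, a, ?_, Real.sqrt_nonneg _, ?_⟩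
    · rw [Complex.norm_eq_sqrt_sq_add_sq]
      simp only
      rw [h1, Real.sqrt_one]
    · apply Complex.ext
      · simp only [ell]
        rw [hr, hsx]
      · simp only [ell]
        exact h2
  by_cases ha0 : a = 0
  · rw [ha0, zero_pow (by norm_num)] at ha2
    have hz : z.im = 0 := by
      rw [← ha2, zero_mul] at hy
      exact pow_eq_zero_iff (by norm_num) |>.mp hy
    refine key (√(1 - x ^ 2)) ?_ ?_
    · rw [Real.sq_sqrt (by linarith)]
      ring
    · rw [ha0, zero_mul, hz]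
  · refine key (z.im / a) ?_ ?_
    · have h6 : (z.im / a) ^ 2 = 1 - x ^ 2 := by
        rw [div_pow z.im a, hy, ← ha2, mul_comm, mul_div_assoc, div_self (pow_ne_zero 2 ha0),
          mul_one]
      rw [h6]
      ring
    · field_simp

private lemma ella_one : ell 1 0 = 1 := by
  apply Complex.ext <;> simp [ell]

private lemma ella_neg_one : ell (-1) 0 = -1 := by
  apply Complex.ext <;> simp [ell]

theorem ell_eq_one_iff {ζ : ℂ} (h : ‖ζ‖ = 1) {a : ℝ} : ell ζ a = 1 ↔ ζ = 1 ∧ a = 0 := by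
  have h1 := ell_eq_iff h (ζ' := 1) (by norm_num) (a := a) (a' := 0)
  rw [ella_one] at h1
  rw [h1]
  constructor
  · rintro (⟨h2, h3⟩ | ⟨h2, h3⟩)
    · exact ⟨h2.symm, h3.symm⟩
    · refine ⟨?_, by linarith⟩
      have := congrArg conj h2
      rw [Complex.conj_conj, map_one] at this
      exact this.symm
  · rintro ⟨h2, h3⟩
    exact Or.inl ⟨h2.symm, h3.symm⟩

theorem ell_eq_neg_one_iff {ζ : ℂ} (h : ‖ζ‖ = 1) {a : ℝ} : ell ζ a = -1 ↔ ζ = -1 ∧ a = 0 := by
  have h1 := ell_eq_iff h (ζ' := -1) (by norm_num) (a := a) (a' := 0)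
  rw [ella_neg_one] at h1
  rw [h1]
  constructor
  · rintro (⟨h2, h3⟩ | ⟨h2, h3⟩)
    · exact ⟨h2.symm, h3.symm⟩
    · refine ⟨?_, by linarith⟩
      have := congrArg conj h2
      rw [Complex.conj_conj, map_neg, map_one] at this
      exact this.symm
  · rintro ⟨h2, h3⟩
    exact Or.inl ⟨h2.symm, h3.symm⟩

theorem continuous_ell : Continuous (fun p : ℂ × ℝ => ell p.1 p.2) := by
  have h1 : Continuous fun p : ℂ × ℝ => ((√(1 + p.2 ^ 2) * p.1.re, p.2 * p.1.im) : ℝ × ℝ) := by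
    fun_prop
  have h2 := Complex.equivRealProdCLM.symm.continuous.comp h1
  refine h2.congr fun p => ?_
  apply Complex.ext
  · simp [ell]
  · simp [ell]

theorem continuous_sf : Continuous sf := by
  unfold sf
  fun_prop

end Pool.B203
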