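import Pool.Agent.Lib.B203.FDefs

/-! Row F1: the function `η`. -/

open Set Metric Topology
open scoped ContDiff Quaternion ComplexConjugate

noncomputable section

namespace Pool.B203

private def etaS (x : ℝ) : ℝ := √(1 - x ^ 2)

private def etaV (x : ℝ) : ℝ := √(1 - x ^ 2 * (1 - x ^ 2) - (x / 2) ^ 2)

private def etaK (x : ℝ) : ℝ :=
  etaV x * (Real.cos (2 * Real.pi * etaS x) + x * Real.sin (2 * Real.pi * etaS x) / etaS x)

private theorem etaS_pos {x : ℝ} (h : |x| < 1) : 0 < 1 - x ^ 2 := by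
  have := (sq_lt_one_iff_abs_lt_one x).2 h
  linarith

private theorem etaV_pos {x : ℝ} (h : |x| < 1) : 0 < 1 - x ^ 2 * (1 - x ^ 2) - (x / 2) ^ 2 := by
  have := etaS_pos h
  nlinarith [sq_nonneg x, sq_nonneg (x ^ 2 - 1), sq_nonneg (x ^ 2)]

private theorem etaK_contDiffAt {x : ℝ} (h : |x| < 1) : ContDiffAt ℝ ∞ etaK x := by
  have h1 := etaS_pos h
  have h2 := etaV_pos h
  have hS : ContDiffAt ℝ ∞ etaS x := by
    unfold etaS
    exact ContDiffAt.sqrt (by fun_prop) h1.ne'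
  have hV : ContDiffAt ℝ ∞ etaV x := by
    unfold etaV
    exact ContDiffAt.sqrt (by fun_prop) h2.ne'
  have hS0 : etaS x ≠ 0 := (Real.sqrt_pos.2 h1).ne'
  unfold etaK
  refine hV.mul (ContDiffAt.add ?_ (ContDiffAt.div ?_ hS hS0))
  · exact Real.contDiff_cos.contDiffAt.comp x (contDiffAt_const.mul hS)
  · exact contDiffAt_id.mul (Real.contDiff_sin.contDiffAt.comp x (contDiffAt_const.mul hS))

private theorem etaK_zero : etaK 0 = 1 := by
  simp [etaK, etaV, etaS]

private theorem eta_re : ContDiff ℝ ∞ (fun v : ℍ[ℝ] => v.re) :=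
  (LinearMap.toContinuousLinearMap
    ({ toFun := fun v => v.re, map_add' := fun _ _ => rfl, map_smul' := fun _ _ => rfl } :
      ℍ[ℝ] →ₗ[ℝ] ℝ)).contDiff

private theorem eta_imJ : ContDiff ℝ ∞ (fun v : ℍ[ℝ] => v.imJ) :=
  (LinearMap.toContinuousLinearMap
    ({ toFun := fun v => v.imJ, map_add' := fun _ _ => rfl, map_smul' := fun _ _ => rfl } :
      ℍ[ℝ] →ₗ[ℝ] ℝ)).contDiff

private theorem eta_imK : ContDiff ℝ ∞ (fun v : ℍ[ℝ] => v.imK) :=
  (LinearMap.toContinuousLinearMap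
    ({ toFun := fun v => v.imK, map_add' := fun _ _ => rfl, map_smul' := fun _ _ => rfl } :
      ℍ[ℝ] →ₗ[ℝ] ℝ)).contDiff

private theorem etaK_eq {x y : ℝ} (h : x ^ 2 + y ^ 2 = 1) (hy : y ≠ 0) :
    y * etaK x = √(1 - (x * y) ^ 2 - (x / 2) ^ 2) *
      (x * Real.sin (2 * Real.pi * y) + y * Real.cos (2 * Real.pi * y)) := by
  have hs : etaS x = |y| := by
    rw [etaS, show 1 - x ^ 2 = y ^ 2 by linarith, Real.sqrt_sq_eq_abs]
  have hv : etaV x = √(1 - (x * y) ^ 2 - (x / 2) ^ 2) := by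
    rw [etaV]
    congr 1
    have : 1 - x ^ 2 = y ^ 2 := by linarith
    rw [this]
    ring
  rw [etaK, hs, hv]
  rcases lt_or_gt_of_ne hy with hy0 | hy0
  · rw [abs_of_neg hy0, mul_neg, Real.cos_neg, Real.sin_neg]
    field_simp
    ring
  · rw [abs_of_pos hy0]
    field_simp
    ring

theorem exists_eta : ∃ η : ℍ[ℝ] → ℝ, HEta η := by
  -- a neighbourhood of `0` where `etaK` is positive
  have hc : ContinuousAt etaK 0 := (etaK_contDiffAt (by simp)).continuousAt
  have hev : ∀ᶠ x in 𝓝 (0 : ℝ), 0 < etaK x :=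
    hc.eventually (lt_mem_nhds (by rw [etaK_zero]; exact one_pos))
  obtain ⟨δ, hδ, hδK⟩ := Metric.eventually_nhds_iff.1 hev
  set r : ℝ := min (δ / 2) (1 / 2) with hr
  have hr0 : 0 < r := by positivity
  have hrδ : r < δ := lt_of_le_of_lt (min_le_left _ _) (by linarith)
  have hr1 : r < 1 := lt_of_le_of_lt (min_le_right _ _) (by norm_num)
  let χ : ContDiffBump (0 : ℝ) := ⟨r / 2, r, by positivity, by linarith⟩
  have hχs : ContDiff ℝ ∞ χ := χ.contDiff
  have hχ0 : ∀ x, 0 ≤ χ x := fun x => χ.nonneg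
  have hχz : ∀ x, r ≤ |x| → χ x = 0 := fun x hx =>
    χ.zero_of_le_dist (by simpa [Real.dist_eq] using hx)
  have hχ1 : 0 < χ 0 := by
    have h : χ 0 = 1 := χ.one_of_mem_closedBall (by simp; positivity)
    rw [h]
    exact one_pos
  have hK : ∀ x, |x| < δ → 0 < etaK x := fun x hx => hδK (by simpa [Real.dist_eq] using hx)
  -- the quotient
  have hq : ContDiff ℝ ∞ (fun x => χ x / etaK x) := by
    rw [contDiff_iff_contDiffAt]
    intro x
    by_cases hx : |x| < min δ 1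
    · have h1 : |x| < δ := lt_of_lt_of_le hx (min_le_left _ _)
      have h2 : |x| < 1 := lt_of_lt_of_le hx (min_le_right _ _)
      exact hχs.contDiffAt.div (etaK_contDiffAt h2) (hK x h1).ne'
    · have hx' : r < |x| := lt_of_lt_of_le (lt_min hrδ hr1) (not_lt.1 hx)
      have h1 : ∀ᶠ z in 𝓝 x, r < |z| := continuous_abs.continuousAt.eventually (lt_mem_nhds hx')
      have h2 : (fun z => χ z / etaK z) =ᶠ[𝓝 x] fun _ => 0 := by
        filter_upwards [h1] with z hz
        rw [hχz z hz.le, zero_div]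
      exact contDiffAt_const.congr_of_eventuallyEq h2
  have hden : ∀ x : ℝ, 0 < x ^ 2 + χ x := by
    intro x
    rcases eq_or_ne x 0 with rfl | hx
    · simpa using hχ1
    · have := hχ0 x
      positivity
  refine ⟨fun v => 2 * Real.pi * (2 * v.imJ * v.re + χ (2 * v.imJ) / etaK (2 * v.imJ) * v.imK) /
    ((2 * v.imJ) ^ 2 + χ (2 * v.imJ)), ?_, ?_⟩
  · have hJ : ContDiff ℝ ∞ (fun v : ℍ[ℝ] => 2 * v.imJ) := contDiff_const.mul eta_imJ
    have h1 : ContDiff ℝ ∞ (fun v : ℍ[ℝ] => χ (2 * v.imJ) / etaK (2 * v.imJ)) := hq.comp hJ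
    have h2 : ContDiff ℝ ∞ (fun v : ℍ[ℝ] => χ (2 * v.imJ)) := hχs.comp hJ
    exact (contDiff_const.mul ((hJ.mul eta_re).add (h1.mul eta_imK))).div
      ((hJ.pow 2).add h2) fun v => (hden _).ne'
  · intro ζ hζ
    obtain ⟨x, y⟩ := ζ
    have hxy : x ^ 2 + y ^ 2 = 1 := by
      have h1 := Complex.sq_norm (⟨x, y⟩ : ℂ)
      rw [hζ, Complex.normSq_mk] at h1
      nlinarith
    have e1 : (cc ⟨x, y⟩).imJ = x / 2 := rfl
    have e2 : (cc ⟨x, y⟩).re = x * y := rfl
    have e3 : (cc ⟨x, y⟩).imK = √(1 - (x * y) ^ 2 - (x / 2) ^ 2) *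
        (x * Real.sin (2 * Real.pi * y) + y * Real.cos (2 * Real.pi * y)) := by
      simp only [cc, rot, Complex.mul_im, Complex.exp_ofReal_mul_I_re, Complex.exp_ofReal_mul_I_im]
      ring
    dsimp only
    rw [e1, e2, e3, mul_div_cancel₀ x (two_ne_zero)]
    rw [div_eq_iff (hden x).ne']
    by_cases hx : |x| < r
    · have hy : y ≠ 0 := by
        rintro rfl
        have := (sq_lt_one_iff_abs_lt_one x).2 (hx.trans hr1)
        nlinarith
      have hKx := hK x (hx.trans hrδ)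
      rw [← etaK_eq hxy hy]
      field_simp
    · rw [hχz x (not_lt.1 hx)]
      ring

end Pool.B203
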