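import Pool.Agent.Lib.B203.Tube

/-! The conclusion of the F part. -/

open Set Metric Topology
open scoped ContDiff Quaternion ComplexConjugate

noncomputable section

namespace Pool.B203

/-- A diffeomorphism `Θ : W → WM 1 ε`, compatible with the circle coordinates up to a real function. -/
def FConcl (ε : ℝ) : Prop :=
  ∃ (Th : Amb → MAmb) (Xi : MAmb → Amb) (η : Amb → ℝ),
    MapsTo Th W (WM 1 ε) ∧ MapsTo Xi (WM 1 ε) W ∧ (∀ p ∈ W, Xi (Th p) = p) ∧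
    (∀ m ∈ WM 1 ε, Th (Xi m) = m) ∧ (∀ p ∈ W, ContDiffAt ℝ ∞ Th p) ∧
    (∀ m ∈ WM 1 ε, ContDiffAt ℝ ∞ Xi m) ∧ (∀ p ∈ W, ‖p.2‖ = 1 ↔ Th p ∈ bdM 1 ε) ∧
    ContinuousOn η W ∧ (∀ p ∈ W, (Th p).1 = p.1 * Complex.exp (η p * Complex.I))

end Pool.B203
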