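import Pool.Agent.Lib.B203.Tube
import Pool.Agent.Lib.B203.Descend

/-! Definitions for the diffeomorphism of the exterior with `S¹ × B³`. -/

open Set Metric Topology
open scoped ContDiff Quaternion ComplexConjugate

noncomputable section

namespace Pool.B203

/-- rotation of the `(v₁, v₃)`-plane (multiplication of `v₁ + i v₃` by `e`). -/
def rot (e : ℂ) (v : ℍ[ℝ]) : ℍ[ℝ] :=
  ⟨v.re, e.re * v.imI - e.im * v.imK, v.imJ, e.im * v.imI + e.re * v.imK⟩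

/-- the second coordinate of the core circle after the first diffeomorphism -/
def cc (ζ : ℂ) : ℍ[ℝ] :=
  rot (ζ * Complex.exp ((2 * Real.pi * ζ.im : ℝ) * Complex.I))
    ⟨ζ.re * ζ.im, √(1 - (ζ.re * ζ.im) ^ 2 - (ζ.re / 2) ^ 2), ζ.re / 2, 0⟩

/-- the correction function `η` -/
structure HEta (η : ℍ[ℝ] → ℝ) : Prop where
  smooth : ContDiff ℝ ∞ η
  eq : ∀ ζ : ℂ, ‖ζ‖ = 1 → η (cc ζ) = 2 * Real.pi * ζ.im

/-- the diffeomorphism `Φ = Φ₃ Φ₂ Φ₁` of `S¹ × S³` -/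
def PhiF (η : ℍ[ℝ] → ℝ) (p : MAmb) : MAmb :=
  (p.1 * Complex.exp ((-(η (rot p.1 p.2)) : ℝ) * Complex.I),
    star (cc (p.1 * Complex.exp ((-(η (rot p.1 p.2)) : ℝ) * Complex.I))) * rot p.1 p.2)

/-- its inverse -/
def PhiG (η : ℍ[ℝ] → ℝ) (p : MAmb) : MAmb :=
  (p.1 * Complex.exp ((η (cc p.1 * p.2) : ℝ) * Complex.I),
    rot (conj (p.1 * Complex.exp ((η (cc p.1 * p.2) : ℝ) * Complex.I))) (cc p.1 * p.2))

/-- stereographic projection from `1`, as a map `S³ ∖ {1} → ℝ³` -/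
def st (w : ℍ[ℝ]) : E3 := (1 - w.re)⁻¹ • !₂[w.imI, w.imJ, w.imK]

/-- inverse stereographic projection: `x ↦ ((|x|²-1) + 2x) / (|x|²+1)` -/
def stI (x : E3) : ℍ[ℝ] :=
  ⟨(‖x‖ ^ 2 - 1) / (‖x‖ ^ 2 + 1), 2 * x 0 / (‖x‖ ^ 2 + 1), 2 * x 1 / (‖x‖ ^ 2 + 1), 2 * x 2 / (‖x‖ ^ 2 + 1)⟩

/-- the chart around `1`: `y ↦ ((1-|y|²) + 2y) / (1+|y|²)` -/
def sy (y : E3) : ℍ[ℝ] :=
  ⟨(1 - ‖y‖ ^ 2) / (1 + ‖y‖ ^ 2), 2 * y 0 / (1 + ‖y‖ ^ 2), 2 * y 1 / (1 + ‖y‖ ^ 2), 2 * y 2 / (1 + ‖y‖ ^ 2)⟩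

end Pool.B203
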