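import Pool.Agent.Lib.B203.RadDefs

/-! Row MFun: the radial factor. -/

open Set Metric Topology
open scoped ContDiff Quaternion ComplexConjugate

noncomputable section

namespace Pool.B203

/-- the cut-off -/
private def mFun_c (a b : ℝ) (x : E3) : ℝ := Real.smoothTransition ((‖x‖ ^ 2 - a) / (b - a))

private def mFun_N (U : ℝ × E3 → E3) (q : ℝ × E3) : ℝ := ‖U (q.1, (‖q.2‖ ^ 2)⁻¹ • q.2)‖

private def mFun_m (a b K : ℝ) (U : ℝ × E3 → E3) (q : ℝ × E3) : ℝ :=
  (1 - mFun_c a b q.2) + mFun_c a b q.2 * (K / (‖q.2‖ * mFun_N U q))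

private theorem mFun_c_smooth (a b : ℝ) : ContDiff ℝ ∞ (mFun_c a b) := by
  unfold mFun_c
  exact Real.smoothTransition.contDiff.comp
    (((contDiff_norm_sq ℝ).sub contDiff_const).div_const _)

private theorem mFun_inv_norm {x : E3} (hx : x ≠ 0) : ‖(‖x‖ ^ 2)⁻¹ • x‖ = ‖x‖⁻¹ := by
  have h : 0 < ‖x‖ := norm_pos_iff.2 hx
  rw [norm_smul, norm_inv, norm_pow, norm_norm]
  field_simp

theorem exists_m {r₁ K : ℝ} {U : ℝ × E3 → E3} (hr : 0 < r₁) (hK : 0 < K)
    (hs : ∀ t y, ‖y‖ ≤ r₁ → ContDiffAt ℝ ∞ U (t, y))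
    (hper : ∀ t y, U (t + 2 * Real.pi, y) = U (t, y))
    (hle : ∀ t y, ‖y‖ ≤ r₁ → ‖U (t, y)‖ ≤ K * ‖y‖)
    (hst : ∀ t y, y ≠ 0 → ‖y‖ ≤ r₁ → U (t, y) ≠ 0 ∧
        0 < inner ℝ (U (t, y)) (fderiv ℝ U (t, y) (0, y))) :
    ∃ (m : ℝ × E3 → ℝ) (R K' : ℝ), RadData m ∧ 0 < K' ∧ r₁⁻¹ < R ∧
      ∀ t x, R ≤ ‖x‖ → m (t, x) * ‖x‖ * ‖U (t, (‖x‖ ^ 2)⁻¹ • x)‖ = K' := by
  set a : ℝ := (2 / r₁) ^ 2 with ha
  set b : ℝ := (3 / r₁) ^ 2 with hb
  have hab : a < b := by
    rw [ha, hb]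
    have : 2 / r₁ < 3 / r₁ := by
      gcongr
      norm_num
    gcongr
  have hba : 0 < b - a := sub_pos.2 hab
  -- far points
  have hfar : ∀ x : E3, a ≤ ‖x‖ ^ 2 → x ≠ 0 ∧ ‖(‖x‖ ^ 2)⁻¹ • x‖ ≤ r₁ / 2 := by
    intro x hx
    have h1 : 2 / r₁ ≤ ‖x‖ := by
      rw [ha] at hx
      exact le_of_sq_le_sq hx (norm_nonneg _) |> fun h => h
    have h2 : 0 < ‖x‖ := lt_of_lt_of_le (by positivity) h1
    refine ⟨norm_pos_iff.1 h2, ?_⟩
    rw [mFun_inv_norm (norm_pos_iff.1 h2)]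
    calc ‖x‖⁻¹ ≤ (2 / r₁)⁻¹ := inv_anti₀ (by positivity) h1
      _ = r₁ / 2 := by rw [inv_div]
  have hy0 : ∀ x : E3, x ≠ 0 → (‖x‖ ^ 2)⁻¹ • x ≠ 0 := by
    intro x hx
    have : 0 < ‖x‖ := norm_pos_iff.2 hx
    exact smul_ne_zero (by positivity) hx
  have hNpos : ∀ t x, a ≤ ‖x‖ ^ 2 → 0 < mFun_N U (t, x) := by
    intro t x hx
    obtain ⟨h1, h2⟩ := hfar x hx
    exact norm_pos_iff.2 (hst t _ (hy0 x h1) (by linarith)).1
  have hNle : ∀ t x, a ≤ ‖x‖ ^ 2 → mFun_N U (t, x) * ‖x‖ ≤ K := by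
    intro t x hx
    obtain ⟨h1, h2⟩ := hfar x hx
    have h3 := hle t ((‖x‖ ^ 2)⁻¹ • x) (by linarith)
    rw [mFun_inv_norm h1] at h3
    have h4 : 0 < ‖x‖ := norm_pos_iff.2 h1
    calc mFun_N U (t, x) * ‖x‖ ≤ (K * ‖x‖⁻¹) * ‖x‖ := by
          gcongr
          exact h3
      _ = K := by field_simp
  have hc0 : ∀ x : E3, ‖x‖ ^ 2 ≤ a → mFun_c a b x = 0 := by
    intro x hx
    exact Real.smoothTransition.zero_of_nonpos (div_nonpos_of_nonpos_of_nonneg (by linarith) hba.le)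
  have hc1 : ∀ x : E3, b ≤ ‖x‖ ^ 2 → mFun_c a b x = 1 := by
    intro x hx
    exact Real.smoothTransition.one_of_one_le ((one_le_div hba).2 (by linarith))
  have hcn : ∀ x : E3, 0 ≤ mFun_c a b x := fun x => Real.smoothTransition.nonneg _
  have hcl : ∀ x : E3, mFun_c a b x ≤ 1 := fun x => Real.smoothTransition.le_one _
  -- smoothness
  have hsm : ContDiff ℝ ∞ (mFun_m a b K U) := by
    rw [contDiff_iff_contDiffAt]
    rintro ⟨t, x⟩
    rcases lt_or_ge (‖x‖ ^ 2) a with hx | hx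
    · have h1 : mFun_m a b K U =ᶠ[𝓝 (t, x)] fun _ => 1 := by
        have h2 : ∀ᶠ q : ℝ × E3 in 𝓝 (t, x), ‖q.2‖ ^ 2 < a :=
          (continuous_snd.norm.pow 2).continuousAt.eventually_lt_const hx
        filter_upwards [h2] with q hq
        unfold mFun_m
        rw [hc0 q.2 hq.le]
        ring
      exact contDiffAt_const.congr_of_eventuallyEq h1
    · obtain ⟨h1, h2⟩ := hfar x hx
      have h3 : ContDiffAt ℝ ∞ (fun q : ℝ × E3 => (q.1, (‖q.2‖ ^ 2)⁻¹ • q.2)) (t, x) := by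
        have h30 : ContDiffAt ℝ ∞ (fun q : ℝ × E3 => (‖q.2‖ ^ 2)⁻¹) (t, x) := by
          refine ContDiffAt.inv ((contDiff_norm_sq ℝ).comp contDiff_snd).contDiffAt ?_
          have : 0 < ‖x‖ := norm_pos_iff.2 h1
          change ‖x‖ ^ 2 ≠ 0
          positivity
        exact contDiffAt_fst.prodMk (h30.smul contDiffAt_snd)
      have h4 : ContDiffAt ℝ ∞ (fun q : ℝ × E3 => U (q.1, (‖q.2‖ ^ 2)⁻¹ • q.2)) (t, x) :=
        ContDiffAt.comp (t, x) (g := U) (hs t _ (by linarith)) h3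
      have h5 : ContDiffAt ℝ ∞ (mFun_N U) (t, x) :=
        ContDiffAt.norm ℝ h4 (norm_pos_iff.1 (hNpos t x hx))
      have h6 : ContDiffAt ℝ ∞ (fun q : ℝ × E3 => ‖q.2‖) (t, x) :=
        ContDiffAt.norm ℝ contDiffAt_snd h1
      have h7 : ContDiffAt ℝ ∞ (fun q : ℝ × E3 => mFun_c a b q.2) (t, x) :=
        ((mFun_c_smooth a b).comp contDiff_snd).contDiffAt
      have h8 : ‖x‖ * mFun_N U (t, x) ≠ 0 :=
        mul_ne_zero (norm_ne_zero_iff.2 h1) (hNpos t x hx).ne'
      exact (contDiffAt_const.sub h7).add (h7.mul (contDiffAt_const.div (h6.mul h5) h8))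
  have hposm : ∀ t x, 0 < mFun_m a b K U (t, x) := by
    intro t x
    unfold mFun_m
    rcases lt_or_ge (‖x‖ ^ 2) a with hx | hx
    · simp only [hc0 x hx.le]
      norm_num
    · have h1 := hNpos t x hx
      have h2 : 0 < ‖x‖ := norm_pos_iff.2 (hfar x hx).1
      have h3 : 0 < K / (‖x‖ * mFun_N U (t, x)) := by positivity
      rcases (hcn x).eq_or_lt with h4 | h4
      · simp only [← h4]
        norm_num
      · have h5 := hcl x
        have h6 : 0 < mFun_c a b x * (K / (‖x‖ * mFun_N U (t, x))) := mul_pos h4 h3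
        dsimp only
        linarith
  refine ⟨mFun_m a b K U, 3 / r₁, K, ⟨hsm, ?_, hposm, ?_, ?_⟩, hK, ?_, ?_⟩
  · intro t x
    unfold mFun_m mFun_N
    simp only [hper]
  · -- monotonicity
    intro t x
    have hdiff : HasFDerivAt (mFun_m a b K U) (fderiv ℝ (mFun_m a b K U) (t, x)) (t, x) :=
      (hsm.differentiable (by simp)).differentiableAt.hasFDerivAt
    rcases lt_or_ge (‖x‖ ^ 2) a with hx | hx
    · have h1 : mFun_m a b K U =ᶠ[𝓝 (t, x)] fun _ => 1 := by
        have h2 : ∀ᶠ q : ℝ × E3 in 𝓝 (t, x), ‖q.2‖ ^ 2 < a :=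
          (continuous_snd.norm.pow 2).continuousAt.eventually_lt_const hx
        filter_upwards [h2] with q hq
        unfold mFun_m
        rw [hc0 q.2 hq.le]
        ring
      rw [h1.fderiv_eq, h1.eq_of_nhds, fderiv_fun_const]
      simp
    · obtain ⟨hx0, hy⟩ := hfar x hx
      have hxp : 0 < ‖x‖ := norm_pos_iff.2 hx0
      set y : E3 := (‖x‖ ^ 2)⁻¹ • x with hydef
      have hyn : y ≠ 0 := hy0 x hx0
      obtain ⟨hU0, hUin⟩ := hst t y hyn (by linarith)
      -- the derivative along the ray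
      have d1 : HasDerivAt (fun s : ℝ => s * mFun_m a b K U (t, s • x))
          (mFun_m a b K U (t, x) + fderiv ℝ (mFun_m a b K U) (t, x) (0, x)) 1 := by
        have h2 : HasDerivAt (fun r : ℝ => ((t, r • x) : ℝ × E3)) (0, x) 1 := by
          have h3 : HasDerivAt (fun r : ℝ => r • x) ((1 : ℝ) • x) 1 := (hasDerivAt_id 1).smul_const x
          rw [one_smul] at h3
          exact (hasDerivAt_const 1 t).prodMk h3
        have hdiff' : HasFDerivAt (mFun_m a b K U) (fderiv ℝ (mFun_m a b K U) (t, x))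
            ((fun r : ℝ => ((t, r • x) : ℝ × E3)) 1) := by
          simpa using hdiff
        have h4 := hdiff'.comp_hasDerivAt (1 : ℝ) h2
        have h5 := (hasDerivAt_id (1 : ℝ)).mul h4
        have h6 : HasDerivAt (fun s : ℝ => s * mFun_m a b K U (t, s • x))
          (1 * mFun_m a b K U (t, (1 : ℝ) • x)
            + 1 * fderiv ℝ (mFun_m a b K U) (t, x) (0, x)) 1 := h5
        rwa [one_smul, one_mul, one_mul] at h6
      -- the pieces
      have dc : HasDerivAt (fun s : ℝ => mFun_c a b (s • x))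
          (deriv Real.smoothTransition ((‖x‖ ^ 2 - a) / (b - a)) * (2 * ‖x‖ ^ 2 / (b - a))) 1 := by
        have h1 : HasDerivAt (fun s : ℝ => (s ^ 2 * ‖x‖ ^ 2 - a) / (b - a))
            (2 * ‖x‖ ^ 2 / (b - a)) 1 := by
          have h2 := (((hasDerivAt_pow 2 (1 : ℝ)).mul_const (‖x‖ ^ 2)).sub_const a).div_const (b - a)
          simpa using h2
        have h3 : HasDerivAt Real.smoothTransition
            (deriv Real.smoothTransition ((‖x‖ ^ 2 - a) / (b - a)))
            ((1 ^ 2 * ‖x‖ ^ 2 - a) / (b - a)) := by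
          rw [one_pow, one_mul]
          exact ((Real.smoothTransition.contDiff (n := 1)).differentiable (by simp)).differentiableAt.hasDerivAt
        have h4 := h3.comp (1 : ℝ) h1
        refine h4.congr_of_eventuallyEq (Filter.Eventually.of_forall fun s => ?_)
        change Real.smoothTransition ((‖s • x‖ ^ 2 - a) / (b - a))
          = Real.smoothTransition ((s ^ 2 * ‖x‖ ^ 2 - a) / (b - a))
        rw [norm_smul, mul_pow, Real.norm_eq_abs, sq_abs]
      have du : HasDerivAt (fun s : ℝ => U (t, s⁻¹ • y)) (-(fderiv ℝ U (t, y) (0, y))) 1 := by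
        have h1 : HasFDerivAt U (fderiv ℝ U (t, y)) (t, y) :=
          ((hs t y (by linarith)).differentiableAt (by simp)).hasFDerivAt
        have h2 : HasDerivAt (fun s : ℝ => ((t, s⁻¹ • y) : ℝ × E3)) (0, -y) 1 := by
          have h3 : HasDerivAt (fun s : ℝ => s⁻¹) (-1) 1 := by
            have := hasDerivAt_inv (one_ne_zero (α := ℝ))
            simpa using this
          have h4 : HasDerivAt (fun s : ℝ => s⁻¹ • y) ((-1 : ℝ) • y) 1 := h3.smul_const y
          rw [neg_one_smul] at h4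
          exact (hasDerivAt_const 1 t).prodMk h4
        have h1' : HasFDerivAt U (fderiv ℝ U (t, y)) ((fun s : ℝ => ((t, s⁻¹ • y) : ℝ × E3)) 1) := by
          simpa using h1
        have h5 := h1'.comp_hasDerivAt (1 : ℝ) h2
        have h6 : ((0, -y) : ℝ × E3) = -((0, y) : ℝ × E3) := by
          rw [Prod.neg_mk, neg_zero]
        rw [h6, map_neg] at h5
        exact h5
      set u : E3 := U (t, y) with hu
      set I : ℝ := inner ℝ u (fderiv ℝ U (t, y) (0, y)) with hI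
      have hun : 0 < ‖u‖ := norm_pos_iff.2 hU0
      have dn : HasDerivAt (fun s : ℝ => ‖U (t, s⁻¹ • y)‖) (-(I / ‖u‖)) 1 := by
        have h1 := du.norm_sq
        have h2 : HasDerivAt (fun s : ℝ => ‖U (t, s⁻¹ • y)‖ ^ 2) (2 * -I) 1 := by
          convert h1 using 1
          rw [inner_neg_right, inv_one, one_smul]
        have h3 : ‖U (t, (1 : ℝ)⁻¹ • y)‖ ^ 2 ≠ 0 := by
          rw [inv_one, one_smul]
          positivity
        have h4 := h2.sqrt h3
        rw [inv_one, one_smul, Real.sqrt_sq (norm_nonneg _)] at h4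
        have h5 : 2 * -I / (2 * ‖U (t, y)‖) = -(I / ‖u‖) := by
          rw [← hu]
          field_simp
        rw [h5] at h4
        refine h4.congr_of_eventuallyEq (Filter.Eventually.of_forall fun s => ?_)
        change ‖U (t, s⁻¹ • y)‖ = Real.sqrt (‖U (t, s⁻¹ • y)‖ ^ 2)
        rw [Real.sqrt_sq (norm_nonneg _)]
      have hN1 : mFun_N U (t, x) = ‖u‖ := rfl
      have dpsi : HasDerivAt (fun s : ℝ => K / (‖x‖ * ‖U (t, s⁻¹ • y)‖))
          (K / ‖x‖ * (I / ‖u‖ ^ 3)) 1 := by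
        have h1 : ‖x‖ * ‖U (t, (1 : ℝ)⁻¹ • y)‖ ≠ 0 := by
          rw [inv_one, one_smul]
          exact mul_ne_zero hxp.ne' hun.ne'
        have h2 := (hasDerivAt_const (1 : ℝ) K).div (dn.const_mul ‖x‖) h1
        rw [inv_one, one_smul, ← hu] at h2
        have h3 : (0 * (‖x‖ * ‖u‖) - K * (‖x‖ * -(I / ‖u‖))) / (‖x‖ * ‖u‖) ^ 2
            = K / ‖x‖ * (I / ‖u‖ ^ 3) := by
          field_simp
          ring
        rw [h3] at h2
        exact h2
      have d2 : HasDerivAt (fun s : ℝ => s * (1 - mFun_c a b (s • x))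
            + mFun_c a b (s • x) * (K / (‖x‖ * ‖U (t, s⁻¹ • y)‖)))
          ((1 - mFun_c a b x) + deriv Real.smoothTransition ((‖x‖ ^ 2 - a) / (b - a))
              * (2 * ‖x‖ ^ 2 / (b - a)) * (K / (‖x‖ * ‖u‖) - 1)
            + mFun_c a b x * (K / ‖x‖ * (I / ‖u‖ ^ 3))) 1 := by
        have h1 := ((hasDerivAt_id (1 : ℝ)).mul (dc.const_sub 1)).add (dc.mul dpsi)
        have h2 : HasDerivAt (fun s : ℝ => s * (1 - mFun_c a b (s • x))
            + mFun_c a b (s • x) * (K / (‖x‖ * ‖U (t, s⁻¹ • y)‖)))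
          (1 * (1 - mFun_c a b ((1 : ℝ) • x)) + 1 *
              (-(deriv Real.smoothTransition ((‖x‖ ^ 2 - a) / (b - a)) * (2 * ‖x‖ ^ 2 / (b - a))))
            + (deriv Real.smoothTransition ((‖x‖ ^ 2 - a) / (b - a)) * (2 * ‖x‖ ^ 2 / (b - a))
                * (K / (‖x‖ * ‖U (t, (1 : ℝ)⁻¹ • y)‖))
              + mFun_c a b ((1 : ℝ) • x) * (K / ‖x‖ * (I / ‖u‖ ^ 3)))) 1 := h1
        rw [inv_one, one_smul, one_smul, ← hu] at h2
        convert h2 using 1
        ring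
      have heq : (fun s : ℝ => s * mFun_m a b K U (t, s • x)) =ᶠ[𝓝 1]
          (fun s : ℝ => s * (1 - mFun_c a b (s • x))
            + mFun_c a b (s • x) * (K / (‖x‖ * ‖U (t, s⁻¹ • y)‖))) := by
        filter_upwards [lt_mem_nhds (zero_lt_one (α := ℝ))] with s hs0
        have h1 : mFun_N U (t, s • x) = ‖U (t, s⁻¹ • y)‖ := by
          unfold mFun_N
          have h2 : (‖s • x‖ ^ 2)⁻¹ • (s • x) = s⁻¹ • y := by
            rw [hydef, norm_smul, mul_pow, Real.norm_eq_abs, sq_abs, smul_smul, smul_smul]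
            congr 1
            field_simp
          rw [show ((t, s • x) : ℝ × E3).1 = t from rfl, show ((t, s • x) : ℝ × E3).2 = s • x from rfl,
            h2]
        unfold mFun_m
        rw [h1]
        rw [show ((t, s • x) : ℝ × E3).2 = s • x from rfl, norm_smul, Real.norm_of_nonneg hs0.le]
        by_cases hz : ‖U (t, s⁻¹ • y)‖ = 0
        · rw [hz]
          simp
        · field_simp
      have d3 := d2.congr_of_eventuallyEq heq
      rw [d1.unique d3]
      have e1 : 0 ≤ deriv Real.smoothTransition ((‖x‖ ^ 2 - a) / (b - a)) :=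
        Real.smoothTransition.monotone.deriv_nonneg
      have e2 : 0 ≤ K / (‖x‖ * ‖u‖) - 1 := by
        rw [sub_nonneg, one_le_div (by positivity), mul_comm]
        exact hNle t x hx
      have e3 : 0 < K / ‖x‖ * (I / ‖u‖ ^ 3) := by positivity
      have e4 : 0 ≤ deriv Real.smoothTransition ((‖x‖ ^ 2 - a) / (b - a))
              * (2 * ‖x‖ ^ 2 / (b - a)) * (K / (‖x‖ * ‖u‖) - 1) := by positivity
      rcases (hcn x).eq_or_lt with h4 | h4
      · rw [← h4] at *
        linarith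
      · have h5 := hcl x
        have h6 : 0 < mFun_c a b x * (K / ‖x‖ * (I / ‖u‖ ^ 3)) := mul_pos h4 e3
        linarith
  · -- properness
    intro t o ho
    refine Filter.tendsto_atTop_mono' Filter.atTop ?_ Filter.tendsto_id
    filter_upwards [Filter.eventually_ge_atTop (3 / r₁)] with r hr3
    have hr0 : 0 < r := lt_of_lt_of_le (by positivity) hr3
    have hn : ‖r • o‖ = r := by rw [norm_smul, ho, mul_one, Real.norm_of_nonneg hr0.le]
    have h1 : b ≤ ‖r • o‖ ^ 2 := by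
      rw [hn, hb]
      gcongr
    unfold mFun_m
    simp only [hc1 _ h1, hn]
    have h2 := hNpos t (r • o) (by linarith)
    have h3 := hNle t (r • o) (by linarith)
    rw [hn] at h3
    have h4 : r * (1 - 1 + 1 * (K / (r * mFun_N U (t, r • o)))) = K / mFun_N U (t, r • o) := by
      field_simp
      ring
    rw [h4, id, le_div_iff₀ h2, mul_comm]
    exact h3
  · rw [inv_eq_one_div]
    gcongr
    norm_num
  · intro t x hx
    have h1 : b ≤ ‖x‖ ^ 2 := by
      rw [hb]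
      gcongr
    have h2 := hNpos t x (by linarith)
    have h3 : 0 < ‖x‖ := norm_pos_iff.2 (hfar x (by linarith)).1
    unfold mFun_m
    simp only [hc1 _ h1]
    have h4 : mFun_N U (t, x) = ‖U (t, (‖x‖ ^ 2)⁻¹ • x)‖ := rfl
    rw [← h4]
    field_simp
    ring

end Pool.B203
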