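import Pool.Agent.Lib.B203.RadDefs

/-! Row RadDiff: radial diffeomorphisms of `S¹ × ℝ³`. -/

open Set Metric Topology
open scoped ContDiff Quaternion ComplexConjugate

noncomputable section

namespace Pool.B203

theorem contDiffAt_radMap {m : ℝ × E3 → ℝ} (hm : RadData m) {p : Amb} (hp : ‖p.1‖ = 1) :
    ContDiffAt ℝ ∞ (radMap m) p := by
  have h0 : p.1 ≠ 0 := by
    intro h
    rw [h, norm_zero] at hp
    exact zero_ne_one hp
  have h1 : ContDiffAt ℝ ∞ (fun q : ℂ × E3 => m (Complex.arg q.1, q.2)) (p.1, p.2) :=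
    periodic_arg_contDiffAt hm.per h0 p.2 hm.smooth.contDiffAt
  exact contDiffAt_fst.prodMk (h1.smul contDiffAt_snd)

private theorem radDiff_hasDeriv {m : ℝ × E3 → ℝ} (hm : RadData m) (t : ℝ) (o : E3) (r : ℝ) :
    HasDerivAt (fun r : ℝ => r * m (t, r • o))
      (m (t, r • o) + fderiv ℝ m (t, r • o) (0, r • o)) r := by
  have h1 : HasFDerivAt m (fderiv ℝ m (t, r • o)) (t, r • o) :=
    (hm.smooth.differentiable (by simp)).differentiableAt.hasFDerivAt
  have h2 : HasDerivAt (fun r : ℝ => ((t, r • o) : ℝ × E3)) (0, o) r := by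
    have h3 : HasDerivAt (fun r : ℝ => r • o) ((1 : ℝ) • o) r := (hasDerivAt_id r).smul_const o
    rw [one_smul] at h3
    exact (hasDerivAt_const r t).prodMk h3
  have h4 := h1.comp_hasDerivAt r h2
  have h5 : HasDerivAt (fun r : ℝ => r * m (t, r • o))
      (1 * m (t, r • o) + r * fderiv ℝ m (t, r • o) (0, o)) r := (hasDerivAt_id r).mul h4
  have h6 : ((0, r • o) : ℝ × E3) = r • ((0, o) : ℝ × E3) := by
    rw [Prod.smul_mk, smul_zero]
  rw [h6, map_smul, smul_eq_mul]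
  rwa [one_mul] at h5

private theorem radDiff_strictMono {m : ℝ × E3 → ℝ} (hm : RadData m) (t : ℝ) (o : E3) :
    StrictMono (fun r : ℝ => r * m (t, r • o)) := by
  refine strictMono_of_deriv_pos fun r => ?_
  rw [(radDiff_hasDeriv hm t o r).deriv]
  exact hm.mono t (r • o)

private theorem radDiff_inj {m : ℝ × E3 → ℝ} (hm : RadData m) (t : ℝ) {x x' : E3}
    (h : m (t, x) • x = m (t, x') • x') : x = x' := by
  set y := m (t, x) • x with hy
  have hp := hm.pos t x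
  have hp' := hm.pos t x'
  have hx : x = (m (t, x))⁻¹ • y := by
    rw [hy, smul_smul, inv_mul_cancel₀ hp.ne', one_smul]
  have hx' : x' = (m (t, x'))⁻¹ • y := by
    rw [h, smul_smul, inv_mul_cancel₀ hp'.ne', one_smul]
  have h1 : (m (t, x))⁻¹ = (m (t, x'))⁻¹ := by
    refine (radDiff_strictMono hm t y).injective ?_
    rw [← hx, ← hx', inv_mul_cancel₀ hp.ne', inv_mul_cancel₀ hp'.ne']
  rw [hx, hx', h1]

private theorem radDiff_surj {m : ℝ × E3 → ℝ} (hm : RadData m) (t : ℝ) (y : E3) :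
    ∃ x : E3, m (t, x) • x = y := by
  by_cases hy : y = 0
  · exact ⟨0, by rw [smul_zero, hy]⟩
  have hn : 0 < ‖y‖ := norm_pos_iff.2 hy
  set o : E3 := ‖y‖⁻¹ • y with ho
  have ho1 : ‖o‖ = 1 := by
    rw [ho, norm_smul, norm_inv, norm_norm, inv_mul_cancel₀ hn.ne']
  have hyo : y = ‖y‖ • o := by
    rw [ho, smul_smul, mul_inv_cancel₀ hn.ne', one_smul]
  have hcont : Continuous (fun r : ℝ => r * m (t, r • o)) := by
    have := hm.smooth.continuous
    fun_prop
  obtain ⟨R, hR⟩ := ((hm.proper t o ho1).eventually_ge_atTop ‖y‖).exists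
  have h0 : (0 : ℝ) * m (t, (0 : ℝ) • o) ≤ ‖y‖ := by
    rw [zero_mul]
    exact hn.le
  have hR0 : 0 ≤ R := by
    by_contra hcon
    push Not at hcon
    have h1 := radDiff_strictMono hm t o hcon
    simp only [zero_mul] at h1
    linarith
  obtain ⟨r, _, hr⟩ := intermediate_value_Icc hR0 hcont.continuousOn ⟨h0, hR⟩
  refine ⟨r • o, ?_⟩
  rw [smul_smul, mul_comm, hyo]
  congr 1

/-- the map `(t, x) ↦ (t, m(t,x) x)` -/
private def radDiff_Phi (m : ℝ × E3 → ℝ) (q : ℝ × E3) : ℝ × E3 := (q.1, m q • q.2)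

private theorem radDiff_smooth {m : ℝ × E3 → ℝ} (hm : RadData m) :
    ContDiff ℝ ∞ (radDiff_Phi m) :=
  contDiff_fst.prodMk (hm.smooth.smul contDiff_snd)

private theorem radDiff_fderiv {m : ℝ × E3 → ℝ} (hm : RadData m) (q u : ℝ × E3) :
    fderiv ℝ (radDiff_Phi m) q u = (u.1, m q • u.2 + fderiv ℝ m q u • q.2) := by
  have h1 : HasFDerivAt m (fderiv ℝ m q) q :=
    (hm.smooth.differentiable (by simp)).differentiableAt.hasFDerivAt
  have h2 : HasFDerivAt (fun q : ℝ × E3 => q.2) (ContinuousLinearMap.snd ℝ ℝ E3) q := hasFDerivAt_snd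
  have h3 : HasFDerivAt (fun q : ℝ × E3 => q.1) (ContinuousLinearMap.fst ℝ ℝ E3) q := hasFDerivAt_fst
  have h4 := (h3.prodMk (h1.smul h2)).fderiv
  have h5 : fderiv ℝ (radDiff_Phi m) q = _ := h4
  rw [h5]
  rfl

private theorem radDiff_fderiv_inj {m : ℝ × E3 → ℝ} (hm : RadData m) (q : ℝ × E3) :
    Function.Injective (fderiv ℝ (radDiff_Phi m) q) := by
  rw [injective_iff_map_eq_zero]
  rintro ⟨a, v⟩ h
  rw [radDiff_fderiv hm] at h
  have ha : a = 0 := congrArg Prod.fst h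
  subst ha
  have hv : m q • v + fderiv ℝ m q (0, v) • q.2 = 0 := congrArg Prod.snd h
  have hp := hm.pos q.1 q.2
  have hp' : 0 < m q := hp
  set c : ℝ := -((m q)⁻¹ * fderiv ℝ m q (0, v)) with hc
  have hvc : v = c • q.2 := by
    have h1 : m q • v = -(fderiv ℝ m q (0, v) • q.2) := eq_neg_of_add_eq_zero_left hv
    have h2 : v = (m q)⁻¹ • (m q • v) := by
      rw [smul_smul, inv_mul_cancel₀ hp'.ne', one_smul]
    rw [h2, h1, hc, smul_neg, neg_smul, smul_smul]
  have h3 : ((0, v) : ℝ × E3) = c • ((0, q.2) : ℝ × E3) := by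
    rw [Prod.smul_mk, smul_zero, ← hvc]
  have hmono : 0 < m q + fderiv ℝ m q (0, q.2) := hm.mono q.1 q.2
  have h4 : (c * (m q + fderiv ℝ m q (0, q.2))) • q.2 = 0 := by
    rw [h3, map_smul, smul_eq_mul, hvc, smul_smul, ← add_smul] at hv
    rw [← hv]
    congr 1
    ring
  rcases smul_eq_zero.1 h4 with h5 | h5
  · rcases mul_eq_zero.1 h5 with h6 | h6
    · rw [h3, h6, zero_smul]
    · exact absurd h6 hmono.ne'
  · rw [hvc, h5, smul_zero]
    rfl

theorem exists_radInv {m : ℝ × E3 → ℝ} (hm : RadData m) : ∃ G : Amb → Amb,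
    (∀ p : Amb, ‖p.1‖ = 1 → ContDiffAt ℝ ∞ G p) ∧ (∀ p : Amb, (G p).1 = p.1) ∧
    (∀ p : Amb, ‖p.1‖ = 1 → radMap m (G p) = p) ∧ (∀ p : Amb, ‖p.1‖ = 1 → G (radMap m p) = p) := by
  choose X hX using fun q : ℝ × E3 => radDiff_surj hm q.1 q.2
  have huniq : ∀ t x, X (t, m (t, x) • x) = x := fun t x => radDiff_inj hm t (hX (t, m (t, x) • x))
  have hper : ∀ t v, X (t + 2 * Real.pi, v) = X (t, v) := by
    intro t v
    apply radDiff_inj hm t
    have h1 := hX (t + 2 * Real.pi, v)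
    simp only [hm.per] at h1
    rw [h1, hX (t, v)]
  have hPhi : ∀ q : ℝ × E3, radDiff_Phi m (q.1, X q) = q := by
    intro q
    exact Prod.ext rfl (hX q)
  have hsm : ∀ q : ℝ × E3, ContDiffAt ℝ ∞ X q := by
    intro q
    set a : ℝ × E3 := (q.1, X q) with ha
    have h1 : ContDiffAt ℝ ∞ (radDiff_Phi m) a := (radDiff_smooth hm).contDiffAt
    have hbij : Function.Bijective (fderiv ℝ (radDiff_Phi m) a) :=
      ⟨radDiff_fderiv_inj hm a, LinearMap.injective_iff_surjective.1 (radDiff_fderiv_inj hm a)⟩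
    let e : (ℝ × E3) ≃L[ℝ] (ℝ × E3) :=
      (LinearEquiv.ofBijective (fderiv ℝ (radDiff_Phi m) a).toLinearMap hbij).toContinuousLinearEquiv
    have he : (e : (ℝ × E3) →L[ℝ] (ℝ × E3)) = fderiv ℝ (radDiff_Phi m) a := by
      ext u <;> rfl
    have h2 : HasFDerivAt (radDiff_Phi m) (e : (ℝ × E3) →L[ℝ] (ℝ × E3)) a := by
      rw [he]
      exact (h1.differentiableAt (by simp)).hasFDerivAt
    have hstrict : HasStrictFDerivAt (radDiff_Phi m) (e : (ℝ × E3) →L[ℝ] (ℝ × E3)) a :=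
      h1.hasStrictFDerivAt' h2 (by simp)
    obtain ⟨Li, h3, h4⟩ : ∃ Li : ℝ × E3 → ℝ × E3, ContDiffAt ℝ ∞ Li (radDiff_Phi m a) ∧
        ∀ᶠ y in 𝓝 (radDiff_Phi m a), radDiff_Phi m (Li y) = y :=
      ⟨_, h1.to_localInverse h2 (by simp), hstrict.eventually_right_inverse⟩
    rw [ha, hPhi q] at h3 h4
    have h5 : (fun y => (Li y).2) =ᶠ[𝓝 q] X := by
      filter_upwards [h4] with y h6
      have h7 : (radDiff_Phi m (Li y)).1 = y.1 := congrArg Prod.fst h6
      have h8 : (radDiff_Phi m (Li y)).2 = y.2 := congrArg Prod.snd h6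
      change (Li y).1 = y.1 at h7
      change m (Li y) • (Li y).2 = y.2 at h8
      apply radDiff_inj hm y.1
      rw [hX y, ← h7]
      exact h8
    exact (contDiffAt_snd.comp q h3).congr_of_eventuallyEq h5.symm
  refine ⟨fun p => (p.1, X (Complex.arg p.1, p.2)), ?_, fun p => rfl, ?_, ?_⟩
  · intro p hp
    have h0 : p.1 ≠ 0 := by
      intro h
      rw [h, norm_zero] at hp
      exact zero_ne_one hp
    have h1 : ContDiffAt ℝ ∞ (fun q : ℂ × E3 => X (Complex.arg q.1, q.2)) (p.1, p.2) :=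
      periodic_arg_contDiffAt hper h0 p.2 (hsm _)
    exact contDiffAt_fst.prodMk h1
  · intro p _
    exact Prod.ext rfl (hX (Complex.arg p.1, p.2))
  · intro p _
    exact Prod.ext rfl (huniq (Complex.arg p.1) p.2)

end Pool.B203
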