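import Pool.Agent.Lib.B203.Defs

/-! Row Star: the tube is star-shaped in the `y` coordinate. -/

open Set Metric Topology
open scoped ContDiff Quaternion ComplexConjugate

noncomputable section

namespace Pool.B203

private lemma star_local {U : ℝ × E3 → E3} (t₀ : ℝ) (hs : ContDiffAt ℝ ∞ U (t₀, 0))
    (h0 : ∀ t, U (t, 0) = 0)
    (himm : ∀ y : E3, fderiv ℝ U (t₀, 0) (0, y) = 0 → y = 0) :
    ∃ r K : ℝ, 0 < r ∧ 0 < K ∧ ∀ᶠ t in 𝓝 t₀, ∀ y : E3, ‖y‖ ≤ r → ‖U (t, y)‖ ≤ K * ‖y‖ ∧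
      (y ≠ 0 → U (t, y) ≠ 0 ∧ 0 < inner ℝ (U (t, y)) (fderiv ℝ U (t, y) (0, y))) := by
  set L := fderiv ℝ U (t₀, 0) with hL
  have h1 : HasStrictFDerivAt U L (t₀, 0) := hs.hasStrictFDerivAt (by simp)
  have h2 : ContinuousAt (fderiv ℝ U) (t₀, 0) :=
    (hs.fderiv_right (m := 0) (by simp)).continuousAt
  -- lower bound
  let Ly : E3 →L[ℝ] E3 := L.comp (ContinuousLinearMap.inr ℝ ℝ E3)
  have hLy : ∀ y, Ly y = L (0, y) := fun y => rfl
  obtain ⟨C, hC, hanti⟩ := Ly.exists_antilipschitzWith (by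
    rw [LinearMap.ker_eq_bot']
    intro y hy
    exact himm y hy)
  have hlow : ∀ y, ‖y‖ ≤ C * ‖L (0, y)‖ := by
    intro y
    have := hanti.le_mul_dist y 0
    rw [map_zero, dist_zero_right, dist_zero_right] at this
    exact this
  have hCr : (0 : ℝ) < C := by exact_mod_cast hC
  set c : ℝ := (4 * C)⁻¹ with hc
  have hcpos : 0 < c := by positivity
  have h3 : ∀ᶠ p in 𝓝 ((t₀, (0 : E3)), (t₀, (0 : E3))), ‖U p.1 - U p.2 - L (p.1 - p.2)‖
      ≤ c * ‖p.1 - p.2‖ := h1.isLittleO.def hcpos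
  have h4 : ∀ᶠ p in 𝓝 (t₀, (0 : E3)), ‖fderiv ℝ U p - L‖ < c := by
    have := h2.eventually (Metric.ball_mem_nhds _ hcpos)
    filter_upwards [this] with p hp
    rw [dist_eq_norm] at hp
    exact hp
  have h3' : ∀ᶠ p in 𝓝 (t₀, (0 : E3)), ‖U p - U (p.1, 0) - L (p - (p.1, 0))‖
      ≤ c * ‖p - (p.1, 0)‖ := by
    have hcont : ContinuousAt (fun p : ℝ × E3 => (p, ((p.1, 0) : ℝ × E3))) (t₀, 0) := by
      fun_prop
    exact hcont.eventually h3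
  obtain ⟨δ, hδ, hball⟩ := Metric.eventually_nhds_iff.mp (h3'.and h4)
  refine ⟨δ / 2, ‖L‖ + c, by positivity, by positivity, ?_⟩
  filter_upwards [Metric.ball_mem_nhds t₀ hδ] with t ht y hy
  have hmem : dist ((t, y) : ℝ × E3) (t₀, 0) < δ := by
    rw [Prod.dist_eq, max_lt_iff]
    refine ⟨ht, ?_⟩
    rw [dist_zero_right]
    linarith
  obtain ⟨hA, hB⟩ := hball hmem
  have hsub : ((t, y) : ℝ × E3) - (t, 0) = (0, y) := by simp
  have hnorm : ‖((0, y) : ℝ × E3)‖ = ‖y‖ := by simp [Prod.norm_def]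
  simp only [h0, sub_zero] at hA
  rw [hsub, hnorm] at hA
  have hB' : ‖fderiv ℝ U (t, y) (0, y) - L (0, y)‖ ≤ c * ‖y‖ := by
    rw [← sub_apply]
    calc _ ≤ ‖fderiv ℝ U (t, y) - L‖ * ‖((0, y) : ℝ × E3)‖ := ContinuousLinearMap.le_opNorm _ _
      _ ≤ c * ‖y‖ := by rw [hnorm]; gcongr
  have hLup : ‖L (0, y)‖ ≤ ‖L‖ * ‖y‖ := by
    have := L.le_opNorm (0, y)
    rwa [hnorm] at this
  have hlowy := hlow y
  have hcy : c * ‖y‖ ≤ ‖L (0, y)‖ / 4 := by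
    calc c * ‖y‖ ≤ c * (C * ‖L (0, y)‖) := by gcongr
      _ = ‖L (0, y)‖ / 4 := by rw [hc]; field_simp
  refine ⟨?_, ?_⟩
  · calc ‖U (t, y)‖ = ‖(U (t, y) - L (0, y)) + L (0, y)‖ := by rw [sub_add_cancel]
      _ ≤ ‖U (t, y) - L (0, y)‖ + ‖L (0, y)‖ := norm_add_le _ _
      _ ≤ c * ‖y‖ + ‖L‖ * ‖y‖ := add_le_add hA hLup
      _ = (‖L‖ + c) * ‖y‖ := by ring
  · intro hy0
    have hLpos : 0 < ‖L (0, y)‖ := by
      have hyp : 0 < ‖y‖ := norm_pos_iff.mpr hy0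
      by_contra hcon
      have : ‖L (0, y)‖ = 0 := le_antisymm (not_lt.mp hcon) (norm_nonneg _)
      rw [this, mul_zero] at hlowy
      linarith
    set l := L (0, y) with hl
    set u := U (t, y) with hu
    set w := fderiv ℝ U (t, y) (0, y) with hw
    have hul : ‖u - l‖ ≤ ‖l‖ / 4 := hA.trans hcy
    have hwl : ‖w - l‖ ≤ ‖l‖ / 4 := hB'.trans hcy
    constructor
    · intro hu0
      rw [hu0, zero_sub, norm_neg] at hul
      linarith
    · have e1 : inner ℝ u w = ‖l‖ ^ 2 + inner ℝ l (w - l) + inner ℝ (u - l) l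
          + inner ℝ (u - l) (w - l) := by
        have : u = l + (u - l) := by abel
        have h' : w = l + (w - l) := by abel
        conv_lhs => rw [this, h']
        rw [inner_add_left, inner_add_right, inner_add_right, real_inner_self_eq_norm_sq]
        ring
      have i1 := abs_real_inner_le_norm l (w - l)
      have i2 := abs_real_inner_le_norm (u - l) l
      have i3 := abs_real_inner_le_norm (u - l) (w - l)
      have j1 : ‖l‖ * ‖w - l‖ ≤ ‖l‖ * (‖l‖ / 4) := by gcongr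
      have j2 : ‖u - l‖ * ‖l‖ ≤ (‖l‖ / 4) * ‖l‖ := by gcongr
      have j3 : ‖u - l‖ * ‖w - l‖ ≤ (‖l‖ / 4) * (‖l‖ / 4) := by gcongr
      have k1 := neg_le_of_abs_le (i1.trans j1)
      have k2 := neg_le_of_abs_le (i2.trans j2)
      have k3 := neg_le_of_abs_le (i3.trans j3)
      rw [e1]
      nlinarith

theorem exists_star {U : ℝ × E3 → E3} (hs : ∀ t, ContDiffAt ℝ ∞ U (t, 0))
    (hper : ∀ t y, U (t + 2 * Real.pi, y) = U (t, y)) (h0 : ∀ t, U (t, 0) = 0)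
    (himm : ∀ t, ∀ y : E3, fderiv ℝ U (t, 0) (0, y) = 0 → y = 0) :
    ∃ r₁ K : ℝ, 0 < r₁ ∧ 0 < K ∧ (∀ t y, ‖y‖ ≤ r₁ → ‖U (t, y)‖ ≤ K * ‖y‖) ∧
      (∀ t y, y ≠ 0 → ‖y‖ ≤ r₁ → U (t, y) ≠ 0 ∧
        0 < inner ℝ (U (t, y)) (fderiv ℝ U (t, y) (0, y))) := by
  have key : ∃ r K : ℝ, 0 < r ∧ 0 < K ∧ ∀ t ∈ Icc (0 : ℝ) (2 * Real.pi), ∀ y : E3, ‖y‖ ≤ r →
      ‖U (t, y)‖ ≤ K * ‖y‖ ∧
      (y ≠ 0 → U (t, y) ≠ 0 ∧ 0 < inner ℝ (U (t, y)) (fderiv ℝ U (t, y) (0, y))) := by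
    refine isCompact_Icc.induction_on (p := fun S => ∃ r K : ℝ, 0 < r ∧ 0 < K ∧ ∀ t ∈ S,
      ∀ y : E3, ‖y‖ ≤ r → ‖U (t, y)‖ ≤ K * ‖y‖ ∧
      (y ≠ 0 → U (t, y) ≠ 0 ∧ 0 < inner ℝ (U (t, y)) (fderiv ℝ U (t, y) (0, y)))) ?_ ?_ ?_ ?_
    · exact ⟨1, 1, one_pos, one_pos, fun t ht => absurd ht (Set.notMem_empty t)⟩
    · rintro S T hST ⟨r, K, hr, hK, h⟩
      exact ⟨r, K, hr, hK, fun t ht => h t (hST ht)⟩
    · rintro S T ⟨r, K, hr, hK, h⟩ ⟨r', K', hr', hK', h'⟩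
      refine ⟨min r r', max K K', lt_min hr hr', lt_max_of_lt_left hK, ?_⟩
      rintro t (ht | ht) y hy
      · obtain ⟨a, b⟩ := h t ht y (hy.trans (min_le_left _ _))
        exact ⟨a.trans (by gcongr; exact le_max_left _ _), b⟩
      · obtain ⟨a, b⟩ := h' t ht y (hy.trans (min_le_right _ _))
        exact ⟨a.trans (by gcongr; exact le_max_right _ _), b⟩
    · intro t _
      obtain ⟨r, K, hr, hK, h⟩ := star_local t (hs t) h0 (himm t)
      exact ⟨{s | ∀ y : E3, ‖y‖ ≤ r → ‖U (s, y)‖ ≤ K * ‖y‖ ∧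
        (y ≠ 0 → U (s, y) ≠ 0 ∧ 0 < inner ℝ (U (s, y)) (fderiv ℝ U (s, y) (0, y)))},
        mem_nhdsWithin_of_mem_nhds h, r, K, hr, hK, fun t ht => ht⟩
  obtain ⟨r, K, hr, hK, h⟩ := key
  have hper' : ∀ (t : ℝ) (y : E3) (n : ℤ), U (t + n * (2 * Real.pi), y) = U (t, y) := by
    intro t y n
    have hp : Function.Periodic (fun t => U (t, y)) (2 * Real.pi) := fun t => hper t y
    have := hp.int_mul n t
    exact this
  have hfd : ∀ (t : ℝ) (y : E3) (n : ℤ), fderiv ℝ U (t + n * (2 * Real.pi), y)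
      = fderiv ℝ U (t, y) := by
    intro t y n
    have e : (fun p : ℝ × E3 => U (p + ((n * (2 * Real.pi), 0) : ℝ × E3))) = U := by
      funext p
      obtain ⟨s, z⟩ := p
      show U (s + n * (2 * Real.pi), z + 0) = U (s, z)
      rw [add_zero, hper']
    have e2 := fderiv_comp_add_right (𝕜 := ℝ) (f := U) (x := (t, y))
      ((n * (2 * Real.pi), 0) : ℝ × E3)
    rw [e] at e2
    rw [e2]
    congr 1
    show ((t + n * (2 * Real.pi), y) : ℝ × E3) = (t + n * (2 * Real.pi), y + 0)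
    rw [add_zero]
  have hall : ∀ t y, ‖y‖ ≤ r → ‖U (t, y)‖ ≤ K * ‖y‖ ∧
      (y ≠ 0 → U (t, y) ≠ 0 ∧ 0 < inner ℝ (U (t, y)) (fderiv ℝ U (t, y) (0, y))) := by
    intro t y hy
    have hpi : 0 < 2 * Real.pi := by positivity
    set n : ℤ := toIcoDiv hpi 0 t with hn
    have ht : toIcoMod hpi 0 t ∈ Icc (0 : ℝ) (2 * Real.pi) := by
      have := toIcoMod_mem_Ico hpi 0 t
      rw [zero_add] at this
      exact ⟨this.1, this.2.le⟩
    have hte : t = toIcoMod hpi 0 t + n * (2 * Real.pi) := by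
      have := toIcoMod_add_toIcoDiv_zsmul hpi 0 t
      rw [zsmul_eq_mul] at this
      exact this.symm
    have h' := h _ ht y hy
    rw [hte, hper', hfd]
    exact h'
  exact ⟨r, K, hr, hK, fun t y hy => (hall t y hy).1, fun t y hy0 hy => (hall t y hy).2 hy0⟩

end Pool.B203
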