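import Pool.Agent.Lib.B203.CC

/-! Row Phi: `Φ` is a diffeomorphism of `S¹ × S³`. -/

open Set Metric Topology
open scoped ContDiff Quaternion ComplexConjugate

noncomputable section

namespace Pool.B203

section phiAux

theorem phi_contDiff_re : ContDiff ℝ ∞ (fun v : ℍ[ℝ] => v.re) :=
  (LinearMap.toContinuousLinearMap
    ({ toFun := fun v => v.re, map_add' := fun _ _ => rfl, map_smul' := fun r v => by simp } :
      ℍ[ℝ] →ₗ[ℝ] ℝ)).contDiff

theorem phi_contDiff_imI : ContDiff ℝ ∞ (fun v : ℍ[ℝ] => v.imI) :=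
  (LinearMap.toContinuousLinearMap
    ({ toFun := fun v => v.imI, map_add' := fun _ _ => rfl, map_smul' := fun r v => by simp } :
      ℍ[ℝ] →ₗ[ℝ] ℝ)).contDiff

theorem phi_contDiff_imJ : ContDiff ℝ ∞ (fun v : ℍ[ℝ] => v.imJ) :=
  (LinearMap.toContinuousLinearMap
    ({ toFun := fun v => v.imJ, map_add' := fun _ _ => rfl, map_smul' := fun r v => by simp } :
      ℍ[ℝ] →ₗ[ℝ] ℝ)).contDiff

theorem phi_contDiff_imK : ContDiff ℝ ∞ (fun v : ℍ[ℝ] => v.imK) :=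
  (LinearMap.toContinuousLinearMap
    ({ toFun := fun v => v.imK, map_add' := fun _ _ => rfl, map_smul' := fun r v => by simp } :
      ℍ[ℝ] →ₗ[ℝ] ℝ)).contDiff

/-- the quaternion with given coordinates -/
def phi_q (a b c d : ℝ) : ℍ[ℝ] := ⟨a, b, c, d⟩

theorem phi_mk {E : Type*} [NormedAddCommGroup E] [NormedSpace ℝ E] {a b c d : E → ℝ} {x : E}
    (ha : ContDiffAt ℝ ∞ a x) (hb : ContDiffAt ℝ ∞ b x) (hc : ContDiffAt ℝ ∞ c x)
    (hd : ContDiffAt ℝ ∞ d x) : ContDiffAt ℝ ∞ (fun y => phi_q (a y) (b y) (c y) (d y)) x := by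
  have h : (fun y => phi_q (a y) (b y) (c y) (d y)) = fun y => a y • phi_q 1 0 0 0 +
      b y • phi_q 0 1 0 0 + c y • phi_q 0 0 1 0 + d y • phi_q 0 0 0 1 := by
    funext y
    ext <;> simp <;> simp [phi_q]
  rw [h]
  exact (((ha.smul contDiffAt_const).add (hb.smul contDiffAt_const)).add
    (hc.smul contDiffAt_const)).add (hd.smul contDiffAt_const)

theorem phi_star {E : Type*} [NormedAddCommGroup E] [NormedSpace ℝ E] {f : E → ℍ[ℝ]} {x : E}
    (hf : ContDiffAt ℝ ∞ f x) : ContDiffAt ℝ ∞ (fun y => star (f y)) x := by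
  have h : (fun y => star (f y)) =
      fun y => phi_q (f y).re (-(f y).imI) (-(f y).imJ) (-(f y).imK) := by
    funext y
    ext <;> simp [phi_q]
  rw [h]
  exact phi_mk (phi_contDiff_re.contDiffAt.comp x hf) (phi_contDiff_imI.contDiffAt.comp x hf).neg
    (phi_contDiff_imJ.contDiffAt.comp x hf).neg (phi_contDiff_imK.contDiffAt.comp x hf).neg

theorem phi_cre : ContDiff ℝ ∞ (fun z : ℂ => z.re) := Complex.reCLM.contDiff

theorem phi_cim : ContDiff ℝ ∞ (fun z : ℂ => z.im) := Complex.imCLM.contDiff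

theorem phi_rot {E : Type*} [NormedAddCommGroup E] [NormedSpace ℝ E] {e : E → ℂ} {f : E → ℍ[ℝ]}
    {x : E} (he : ContDiffAt ℝ ∞ e x) (hf : ContDiffAt ℝ ∞ f x) :
    ContDiffAt ℝ ∞ (fun y => rot (e y) (f y)) x := by
  have h1 := phi_cre.contDiffAt.comp x he
  have h2 := phi_cim.contDiffAt.comp x he
  have h3 := phi_contDiff_re.contDiffAt.comp x hf
  have h4 := phi_contDiff_imI.contDiffAt.comp x hf
  have h5 := phi_contDiff_imJ.contDiffAt.comp x hf
  have h6 := phi_contDiff_imK.contDiffAt.comp x hf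
  exact phi_mk h3 ((h1.mul h4).sub (h2.mul h6)) h5 ((h2.mul h4).add (h1.mul h6))

theorem phi_normSq_rot {e : ℂ} (he : ‖e‖ = 1) (v : ℍ[ℝ]) : ‖rot e v‖ = ‖v‖ := by
  have h1 : e.re ^ 2 + e.im ^ 2 = 1 := by
    have := Complex.normSq_eq_norm_sq e
    rw [he, Complex.normSq_apply] at this
    nlinarith
  have h2 : Quaternion.normSq (rot e v) = Quaternion.normSq v := by
    rw [Quaternion.normSq_def', Quaternion.normSq_def']
    simp only [rot]
    linear_combination (v.imI ^ 2 + v.imK ^ 2) * h1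
  rw [Quaternion.normSq_eq_norm_mul_self, Quaternion.normSq_eq_norm_mul_self] at h2
  nlinarith [norm_nonneg (rot e v), norm_nonneg v]

theorem phi_rot_rot (e f : ℂ) (v : ℍ[ℝ]) : rot e (rot f v) = rot (e * f) v := by
  ext <;> simp [rot] <;> ring

theorem phi_rot_one (v : ℍ[ℝ]) : rot 1 v = v := by
  ext <;> simp [rot]

theorem phi_conj_mul {e : ℂ} (he : ‖e‖ = 1) : conj e * e = 1 := by
  rw [mul_comm, Complex.mul_conj, Complex.normSq_eq_norm_sq, he]
  simp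

theorem phi_mul_conj {e : ℂ} (he : ‖e‖ = 1) : e * conj e = 1 := by
  rw [mul_comm]
  exact phi_conj_mul he

theorem phi_rot_conj {e : ℂ} (he : ‖e‖ = 1) (v : ℍ[ℝ]) : rot (conj e) (rot e v) = v := by
  rw [phi_rot_rot, phi_conj_mul he, phi_rot_one]

theorem phi_conj_rot {e : ℂ} (he : ‖e‖ = 1) (v : ℍ[ℝ]) : rot e (rot (conj e) v) = v := by
  rw [phi_rot_rot, phi_mul_conj he, phi_rot_one]

theorem phi_norm_exp {z : ℂ} (hz : ‖z‖ = 1) (t : ℝ) : ‖z * Complex.exp ((t : ℂ) * Complex.I)‖ = 1 := by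
  rw [norm_mul, hz, Complex.norm_exp_ofReal_mul_I, one_mul]

theorem phi_exp_cancel (z : ℂ) (t : ℝ) :
    z * Complex.exp (((-t : ℝ) : ℂ) * Complex.I) * Complex.exp ((t : ℂ) * Complex.I) = z := by
  rw [mul_assoc, ← Complex.exp_add]
  have : (((-t : ℝ) : ℂ) * Complex.I) + ((t : ℂ) * Complex.I) = 0 := by
    push_cast
    ring
  rw [this, Complex.exp_zero, mul_one]

theorem phi_exp_cancel' (z : ℂ) (t : ℝ) :
    z * Complex.exp ((t : ℂ) * Complex.I) * Complex.exp (((-t : ℝ) : ℂ) * Complex.I) = z := by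
  have := phi_exp_cancel z (-t)
  rwa [neg_neg] at this

theorem phi_self_mul_star {v : ℍ[ℝ]} (hv : ‖v‖ = 1) : v * star v = 1 := by
  rw [Quaternion.self_mul_star, Quaternion.normSq_eq_norm_mul_self, hv]
  simp

theorem phi_star_mul_self {v : ℍ[ℝ]} (hv : ‖v‖ = 1) : star v * v = 1 := by
  rw [Quaternion.star_mul_self, Quaternion.normSq_eq_norm_mul_self, hv]
  simp

theorem phi_norm_star (v : ℍ[ℝ]) : ‖star v‖ = ‖v‖ := by
  have h := Quaternion.normSq_star (a := v)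
  rw [Quaternion.normSq_eq_norm_mul_self, Quaternion.normSq_eq_norm_mul_self] at h
  nlinarith [norm_nonneg (star v), norm_nonneg v]

end phiAux

variable {η : ℍ[ℝ] → ℝ} (hη : HEta η)
include hη

theorem PhiF_mem {p : MAmb} (hp : p ∈ M) : PhiF η p ∈ M := by
  refine ⟨phi_norm_exp hp.1 _, ?_⟩
  simp only [PhiF]
  rw [norm_mul, phi_norm_star, norm_cc (phi_norm_exp hp.1 _), phi_normSq_rot hp.1, hp.2, one_mul]

theorem PhiG_mem {p : MAmb} (hp : p ∈ M) : PhiG η p ∈ M := by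
  refine ⟨phi_norm_exp hp.1 _, ?_⟩
  simp only [PhiG]
  rw [phi_normSq_rot (by rw [RCLike.norm_conj]; exact phi_norm_exp hp.1 _), norm_mul, norm_cc hp.1,
    hp.2, one_mul]

theorem PhiG_PhiF {p : MAmb} (hp : p ∈ M) : PhiG η (PhiF η p) = p := by
  have h1 : cc (PhiF η p).1 * (PhiF η p).2 = rot p.1 p.2 := by
    simp only [PhiF]
    rw [← mul_assoc, phi_self_mul_star (norm_cc (phi_norm_exp hp.1 _)), one_mul]
  have h2 : (PhiF η p).1 * Complex.exp ((η (rot p.1 p.2) : ℝ) * Complex.I) = p.1 := by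
    simp only [PhiF]
    exact phi_exp_cancel _ _
  unfold PhiG
  rw [h1, h2, phi_rot_conj hp.1]

theorem PhiF_PhiG {p : MAmb} (hp : p ∈ M) : PhiF η (PhiG η p) = p := by
  have h1 : rot (PhiG η p).1 (PhiG η p).2 = cc p.1 * p.2 := by
    simp only [PhiG]
    exact phi_conj_rot (phi_norm_exp hp.1 _) _
  have h2 : (PhiG η p).1 * Complex.exp ((-(η (cc p.1 * p.2)) : ℝ) * Complex.I) = p.1 := by
    simp only [PhiG]
    exact phi_exp_cancel' _ _
  unfold PhiF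
  rw [h1, h2, ← mul_assoc, phi_star_mul_self (norm_cc hp.1), one_mul]

theorem contDiffAt_PhiF {p : MAmb} (hp : p ∈ M) : ContDiffAt ℝ ∞ (PhiF η) p := by
  have e1 : ContDiffAt ℝ ∞ (fun q : MAmb => q.1) p := contDiffAt_fst
  have e2 : ContDiffAt ℝ ∞ (fun q : MAmb => q.2) p := contDiffAt_snd
  have e3 : ContDiffAt ℝ ∞ (fun q : MAmb => rot q.1 q.2) p := phi_rot e1 e2
  have e4 : ContDiffAt ℝ ∞ (fun q : MAmb => η (rot q.1 q.2)) p :=
    hη.smooth.contDiffAt.comp p e3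
  have e5 : ContDiffAt ℝ ∞ (fun q : MAmb => ((-(η (rot q.1 q.2)) : ℝ) : ℂ)) p :=
    Complex.ofRealCLM.contDiff.contDiffAt.comp p e4.neg
  have e6 : ContDiffAt ℝ ∞ (fun q : MAmb =>
      q.1 * Complex.exp ((-(η (rot q.1 q.2)) : ℝ) * Complex.I)) p :=
    e1.mul (e5.mul contDiffAt_const).cexp
  have e7 : ContDiffAt ℝ ∞ (fun q : MAmb =>
      cc (q.1 * Complex.exp ((-(η (rot q.1 q.2)) : ℝ) * Complex.I))) p :=
    ContDiffAt.comp p (contDiffAt_cc (phi_norm_exp hp.1 _)) e6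
  exact e6.prodMk ((phi_star e7).mul e3)

theorem contDiffAt_PhiG {p : MAmb} (hp : p ∈ M) : ContDiffAt ℝ ∞ (PhiG η) p := by
  have e1 : ContDiffAt ℝ ∞ (fun q : MAmb => q.1) p := contDiffAt_fst
  have e2 : ContDiffAt ℝ ∞ (fun q : MAmb => q.2) p := contDiffAt_snd
  have e3 : ContDiffAt ℝ ∞ (fun q : MAmb => cc q.1 * q.2) p :=
    (ContDiffAt.comp p (contDiffAt_cc hp.1) e1).mul e2
  have e4 : ContDiffAt ℝ ∞ (fun q : MAmb => η (cc q.1 * q.2)) p :=
    hη.smooth.contDiffAt.comp p e3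
  have e5 : ContDiffAt ℝ ∞ (fun q : MAmb => ((η (cc q.1 * q.2) : ℝ) : ℂ)) p :=
    Complex.ofRealCLM.contDiff.contDiffAt.comp p e4
  have e6 : ContDiffAt ℝ ∞ (fun q : MAmb =>
      q.1 * Complex.exp ((η (cc q.1 * q.2) : ℝ) * Complex.I)) p :=
    e1.mul (e5.mul contDiffAt_const).cexp
  have e7 : ContDiffAt ℝ ∞ (fun q : MAmb =>
      conj (q.1 * Complex.exp ((η (cc q.1 * q.2) : ℝ) * Complex.I))) p :=
    Complex.conjCLE.contDiff.contDiffAt.comp p e6
  exact e6.prodMk (phi_rot e7 e3)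

theorem PhiF_core {ζ : ℂ} (h : ‖ζ‖ = 1) : PhiF η (J 1 (ζ, 0)) = (ζ, 1) := by
  have h1 : rot (J 1 (ζ, 0)).1 (J 1 (ζ, 0)).2 = cc ζ := by
    unfold cc J
    congr 1 <;> simp
  have h2 : (J 1 (ζ, 0)).1 = ζ * Complex.exp ((η (cc ζ) : ℝ) * Complex.I) := by
    rw [hη.eq ζ h]
    simp [J]
  unfold PhiF
  rw [h1, h2, phi_exp_cancel', phi_star_mul_self (norm_cc h)]

end Pool.B203
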