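import Pool.Agent.Lib.B203.UDefs
import Pool.Agent.Lib.B203.Phi
import Pool.Agent.Lib.B203.Ster

/-! Row UChart: the tube coordinate `u` as a smooth function of `(t, y)`. -/

open Set Metric Topology
open scoped ContDiff Quaternion ComplexConjugate

noncomputable section

namespace Pool.B203

private lemma uc_abstract {T : ℝ × E3 → ℝ × E3} {ε : ℝ} (hε : 0 < ε)
    (hsm : ∀ φ u, ‖u‖ < ε → ContDiffAt ℝ ∞ T (φ, u))
    (him : ∀ φ u, ‖u‖ < ε → Function.Injective (fderiv ℝ T (φ, u)))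
    (hinj : ∀ φ u φ' u', ‖u‖ < ε → ‖u'‖ < ε → T (φ, u) = T (φ', u') → (φ, u) = (φ', u'))
    (hper : ∀ φ u, T (φ + 2 * Real.pi, u) = T (φ, u) + (2 * Real.pi, 0))
    (h0 : ∀ φ, T (φ, 0) = (φ, 0)) :
    ∃ (r₀ : ℝ) (G : ℝ × E3 → ℝ × E3), 0 < r₀ ∧
      (∀ t y, ‖y‖ ≤ r₀ → ContDiffAt ℝ ∞ G (t, y)) ∧
      (∀ t y, ‖y‖ ≤ r₀ → ‖(G (t, y)).2‖ < ε ∧ T (G (t, y)) = (t, y)) ∧
      (∀ t y, (G (t + 2 * Real.pi, y)).2 = (G (t, y)).2) ∧
      (∀ t, G (t, 0) = (t, 0)) ∧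
      (∀ t, ∀ y : E3, fderiv ℝ (fun q => (G q).2) (t, 0) (0, y) = 0 → y = 0) := by
  classical
  set S : Set (ℝ × E3) := {p | ‖p.2‖ < ε} with hS
  have hSo : IsOpen S := isOpen_lt (by fun_prop) continuous_const
  have hinj' : ∀ p ∈ S, ∀ p' ∈ S, T p = T p' → p = p' := by
    rintro ⟨φ, u⟩ hp ⟨φ', u'⟩ hp' h
    exact hinj φ u φ' u' hp hp' h
  -- the inverse function theorem
  have hder : ∀ p ∈ S, ∃ A : (ℝ × E3) ≃L[ℝ] (ℝ × E3), HasFDerivAt T (A : ℝ × E3 →L[ℝ] ℝ × E3) p := by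
    rintro ⟨φ, u⟩ hp
    let A : (ℝ × E3) ≃L[ℝ] (ℝ × E3) := (LinearEquiv.ofInjectiveEndo
      (fderiv ℝ T (φ, u)).toLinearMap (him φ u hp)).toContinuousLinearEquiv
    refine ⟨A, ?_⟩
    have h1 : (A : ℝ × E3 →L[ℝ] ℝ × E3) = fderiv ℝ T (φ, u) := by
      ext x <;> rfl
    rw [h1]
    exact ((hsm φ u hp).differentiableAt (by simp)).hasFDerivAt
  let G : ℝ × E3 → ℝ × E3 := fun q => if h : ∃ p, p ∈ S ∧ T p = q then h.choose else 0
  have hG : ∀ p ∈ S, G (T p) = p := by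
    intro p hp
    have h : ∃ p', p' ∈ S ∧ T p' = T p := ⟨p, hp, rfl⟩
    have h1 : G (T p) = h.choose := dif_pos h
    rw [h1]
    exact hinj' _ h.choose_spec.1 _ hp h.choose_spec.2
  have hGn : ∀ q, (¬ ∃ p, p ∈ S ∧ T p = q) → G q = 0 := by
    intro q hq
    exact dif_neg hq
  have hGsm : ∀ p ∈ S, ContDiffAt ℝ ∞ G (T p) := by
    rintro ⟨φ, u⟩ hp
    obtain ⟨A, hA⟩ := hder _ hp
    have hT := hsm φ u hp
    have hne : (∞ : WithTop ℕ∞) ≠ 0 := by simp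
    have h1 := hT.to_localInverse hA hne
    refine h1.congr_of_eventuallyEq ?_
    have h2 := (hT.hasStrictFDerivAt' hA hne).eventually_right_inverse
    have h3 : Filter.Tendsto (hT.localInverse hA hne) (𝓝 (T (φ, u))) (𝓝 (φ, u)) :=
      (hT.hasStrictFDerivAt' hA hne).localInverse_tendsto
    have h4 := h3.eventually (hSo.mem_nhds hp)
    filter_upwards [h2, h4] with q hq1 hq2
    have h5 := hG _ hq2
    rw [show T (hT.localInverse hA hne q) = q from hq1] at h5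
    exact h5
  have hper' : ∀ (n : ℤ) (φ : ℝ) (u : E3), T (φ + n * (2 * Real.pi), u)
      = T (φ, u) + (n * (2 * Real.pi), 0) := by
    intro n φ u
    have hp : Function.Periodic (fun φ => T (φ, u) - (φ, 0)) (2 * Real.pi) := by
      intro φ
      show T (φ + 2 * Real.pi, u) - (φ + 2 * Real.pi, 0) = T (φ, u) - (φ, 0)
      rw [hper]
      have : ((φ + 2 * Real.pi, 0) : ℝ × E3) = (φ, 0) + (2 * Real.pi, 0) := by simp
      rw [this]
      abel
    have h1 : T (φ + n * (2 * Real.pi), u) - (φ + n * (2 * Real.pi), 0) = T (φ, u) - (φ, 0) :=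
      hp.int_mul n φ
    have h2 : ((φ + n * (2 * Real.pi), 0) : ℝ × E3) = (φ, 0) + (n * (2 * Real.pi), 0) := by simp
    rw [h2, sub_eq_iff_eq_add] at h1
    rw [h1]
    abel
  have hVper : ∀ (n : ℤ) (t : ℝ) (y : E3), (∃ p, p ∈ S ∧ T p = (t, y)) →
      ∃ p, p ∈ S ∧ T p = (t + n * (2 * Real.pi), y) := by
    rintro n t y ⟨⟨φ, u⟩, hp, hT⟩
    refine ⟨(φ + n * (2 * Real.pi), u), hp, ?_⟩
    rw [hper', hT]
    simp
  have hkey : ∃ r : ℝ, 0 < r ∧ ∀ t ∈ Icc (0 : ℝ) (2 * Real.pi), ∀ y : E3, ‖y‖ ≤ r →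
      ∃ p, p ∈ S ∧ T p = (t, y) := by
    refine isCompact_Icc.induction_on (p := fun K => ∃ r : ℝ, 0 < r ∧ ∀ t ∈ K, ∀ y : E3, ‖y‖ ≤ r →
      ∃ p, p ∈ S ∧ T p = (t, y)) ?_ ?_ ?_ ?_
    · exact ⟨1, one_pos, fun t ht => absurd ht (Set.notMem_empty t)⟩
    · rintro K K' hK ⟨r, hr, h⟩
      exact ⟨r, hr, fun t ht => h t (hK ht)⟩
    · rintro K K' ⟨r, hr, h⟩ ⟨r', hr', h'⟩
      refine ⟨min r r', lt_min hr hr', ?_⟩
      rintro t (ht | ht) y hy
      · exact h t ht y (hy.trans (min_le_left _ _))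
      · exact h' t ht y (hy.trans (min_le_right _ _))
    · intro t _
      have hp : ((t, 0) : ℝ × E3) ∈ S := by
        show ‖(0 : E3)‖ < ε
        rw [norm_zero]
        exact hε
      obtain ⟨A, hA⟩ := hder _ hp
      have hT := hsm t 0 hp
      have hne : (∞ : WithTop ℕ∞) ≠ 0 := by simp
      have h1 := (hT.hasStrictFDerivAt' hA hne).map_nhds_eq_of_equiv
      have h2 : T '' S ∈ 𝓝 (T (t, 0)) := by
        rw [← h1]
        exact Filter.image_mem_map (hSo.mem_nhds hp)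
      rw [h0] at h2
      obtain ⟨δ, hδ, hball⟩ := Metric.mem_nhds_iff.mp h2
      refine ⟨ball t δ, mem_nhdsWithin_of_mem_nhds (ball_mem_nhds _ hδ), δ / 2, by positivity, ?_⟩
      intro s hs y hy
      have : ((s, y) : ℝ × E3) ∈ ball (t, (0 : E3)) δ := by
        rw [mem_ball, Prod.dist_eq, max_lt_iff]
        refine ⟨hs, ?_⟩
        rw [dist_zero_right]
        linarith
      exact hball this
  obtain ⟨r, hr, hkey⟩ := hkey
  have hV : ∀ (t : ℝ) (y : E3), ‖y‖ ≤ r → ∃ p, p ∈ S ∧ T p = (t, y) := by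
    intro t y hy
    have hpi : 0 < 2 * Real.pi := by positivity
    have ht : toIcoMod hpi 0 t ∈ Icc (0 : ℝ) (2 * Real.pi) := by
      have := toIcoMod_mem_Ico hpi 0 t
      rw [zero_add] at this
      exact ⟨this.1, this.2.le⟩
    have hte : t = toIcoMod hpi 0 t + (toIcoDiv hpi 0 t : ℤ) * (2 * Real.pi) := by
      have := toIcoMod_add_toIcoDiv_zsmul hpi 0 t
      rw [zsmul_eq_mul] at this
      exact this.symm
    have h' := hVper (toIcoDiv hpi 0 t) _ _ (hkey _ ht y hy)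
    rw [← hte] at h'
    exact h'
  have hG0 : ∀ t, G (t, 0) = (t, 0) := by
    intro t
    have hp : ((t, 0) : ℝ × E3) ∈ S := by
      show ‖(0 : E3)‖ < ε
      rw [norm_zero]
      exact hε
    have := hG _ hp
    rwa [h0] at this
  refine ⟨r, G, hr, ?_, ?_, ?_, hG0, ?_⟩
  · intro t y hy
    obtain ⟨p, hp, hT⟩ := hV t y hy
    rw [← hT]
    exact hGsm p hp
  · intro t y hy
    obtain ⟨p, hp, hT⟩ := hV t y hy
    rw [← hT, hG p hp]
    exact ⟨hp, rfl⟩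
  · intro t y
    by_cases h : ∃ p, p ∈ S ∧ T p = (t, y)
    · obtain ⟨⟨φ, u⟩, hp, hT⟩ := h
      have h1 : T (φ + 2 * Real.pi, u) = (t + 2 * Real.pi, y) := by
        rw [hper, hT]
        simp
      rw [← h1, ← hT, hG _ hp, hG (φ + 2 * Real.pi, u) hp]
    · have h' : ¬ ∃ p, p ∈ S ∧ T p = (t + 2 * Real.pi, y) := by
        intro h'
        apply h
        have := hVper (-1) _ _ h'
        simpa using this
      rw [hGn _ h, hGn _ h']
  · intro t y hy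
    have hp : ((t, 0) : ℝ × E3) ∈ S := by
      show ‖(0 : E3)‖ < ε
      rw [norm_zero]
      exact hε
    have hGs : HasFDerivAt G (fderiv ℝ G (t, 0)) (t, 0) := by
      have := hGsm _ hp
      rw [h0] at this
      exact (this.differentiableAt (by simp)).hasFDerivAt
    have hTs : HasFDerivAt T (fderiv ℝ T (t, 0)) (t, 0) :=
      ((hsm t 0 hp).differentiableAt (by simp)).hasFDerivAt
    have e1 : fderiv ℝ (fun q => (G q).2) (t, 0) (0, y) = (fderiv ℝ G (t, 0) (0, y)).2 := by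
      rw [hGs.snd.fderiv]
      rfl
    rw [e1] at hy
    have hTG : HasFDerivAt (T ∘ G) ((fderiv ℝ T (t, 0)).comp (fderiv ℝ G (t, 0))) (t, 0) := by
      have h2 : HasFDerivAt T (fderiv ℝ T (t, 0)) (G (t, 0)) := by
        rw [hG0]
        exact hTs
      exact h2.comp _ hGs
    have hid : HasFDerivAt (T ∘ G) (ContinuousLinearMap.id ℝ (ℝ × E3)) (t, 0) := by
      refine (hasFDerivAt_id (t, (0 : E3))).congr_of_eventuallyEq ?_
      have hn : {q : ℝ × E3 | ‖q.2‖ < r} ∈ 𝓝 (t, (0 : E3)) := by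
        refine (isOpen_lt (by fun_prop) continuous_const).mem_nhds ?_
        show ‖(0 : E3)‖ < r
        rw [norm_zero]
        exact hr
      filter_upwards [hn] with q hq
      obtain ⟨s, z⟩ := q
      obtain ⟨p, hp', hT⟩ := hV s z (le_of_lt hq)
      show T (G (s, z)) = (s, z)
      rw [← hT, hG p hp']
    have e2 := hTG.unique hid
    have hTi : HasFDerivAt (T ∘ (ContinuousLinearMap.inl ℝ ℝ E3))
        ((fderiv ℝ T (t, 0)).comp (ContinuousLinearMap.inl ℝ ℝ E3)) t := by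
      have h2 : HasFDerivAt T (fderiv ℝ T (t, 0)) (ContinuousLinearMap.inl ℝ ℝ E3 t) := hTs
      exact h2.comp _ (ContinuousLinearMap.inl ℝ ℝ E3).hasFDerivAt
    have hi : HasFDerivAt (T ∘ (ContinuousLinearMap.inl ℝ ℝ E3)) (ContinuousLinearMap.inl ℝ ℝ E3) t := by
      have h3 : T ∘ (ContinuousLinearMap.inl ℝ ℝ E3) = (ContinuousLinearMap.inl ℝ ℝ E3) := by
        funext φ
        exact h0 φ
      rw [h3]
      exact (ContinuousLinearMap.inl ℝ ℝ E3).hasFDerivAt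
    have e3 := hTi.unique hi
    have e4 : fderiv ℝ T (t, 0) (fderiv ℝ G (t, 0) (0, y)) = (0, y) := by
      have := congrArg (fun L : ℝ × E3 →L[ℝ] ℝ × E3 => L (0, y)) e2
      exact this
    set a := (fderiv ℝ G (t, 0) (0, y)).1 with ha
    have e5 : fderiv ℝ G (t, 0) (0, y) = (a, 0) := Prod.ext rfl hy
    have e6 : fderiv ℝ T (t, 0) (a, 0) = (a, 0) := by
      have := congrArg (fun L : ℝ →L[ℝ] ℝ × E3 => L a) e3
      exact this
    rw [e5, e6] at e4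
    exact (congrArg Prod.snd e4).symm


private lemma uc_tube {P : Amb → Prop} (h : ∀ ζ : ℂ, ‖ζ‖ = 1 → ∀ᶠ p in 𝓝 ((ζ, 0) : Amb), P p) :
    ∀ᶠ ε in 𝓝[>] (0 : ℝ), ∀ p ∈ tubC ε, P p := by
  have h1 : ∀ᶠ ε in 𝓝[>] (0 : ℝ), ∀ p : Amb, p.1 ∈ sphere (0 : ℂ) 1 → ‖p.2‖ ≤ ε → P p := by
    refine (isCompact_sphere (0 : ℂ) 1).induction_on (p := fun S => ∀ᶠ ε in 𝓝[>] (0 : ℝ),
      ∀ p : Amb, p.1 ∈ S → ‖p.2‖ ≤ ε → P p) ?_ ?_ ?_ ?_
    · exact Filter.Eventually.of_forall fun ε p hp => absurd hp (Set.notMem_empty _)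
    · intro S T hST hT
      filter_upwards [hT] with ε hε p hp
      exact hε p (hST hp)
    · intro S T hS hT
      filter_upwards [hS, hT] with ε hε hε' p hp hle
      rcases hp with hp | hp
      · exact hε p hp hle
      · exact hε' p hp hle
    · intro ζ hζ
      have hζ' : ‖ζ‖ = 1 := by simpa using hζ
      obtain ⟨δ, hδ, hball⟩ := Metric.eventually_nhds_iff.mp (h ζ hζ')
      refine ⟨ball ζ δ, mem_nhdsWithin_of_mem_nhds (ball_mem_nhds _ hδ), ?_⟩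
      filter_upwards [Ioo_mem_nhdsGT hδ] with ε hε p hp hle
      apply hball
      rw [Prod.dist_eq, max_lt_iff]
      refine ⟨hp, ?_⟩
      rw [dist_zero_right]
      exact hle.trans_lt hε.2
  filter_upwards [h1] with ε hε p hp
  exact hε p (by simpa using hp.1) hp.2

private lemma uc_mk {E : Type} [NormedAddCommGroup E] [NormedSpace ℝ E] {n : WithTop ℕ∞}
    {a b c d : E → ℝ} {x : E} (ha : ContDiffAt ℝ n a x) (hb : ContDiffAt ℝ n b x)
    (hc : ContDiffAt ℝ n c x) (hd : ContDiffAt ℝ n d x) :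
    ContDiffAt (F := ℍ[ℝ]) ℝ n (fun z => ⟨a z, b z, c z, d z⟩) x := by
  let e0 : ℍ[ℝ] := ⟨1, 0, 0, 0⟩
  let e1 : ℍ[ℝ] := ⟨0, 1, 0, 0⟩
  let e2 : ℍ[ℝ] := ⟨0, 0, 1, 0⟩
  let e3 : ℍ[ℝ] := ⟨0, 0, 0, 1⟩
  have h : ∀ z, (⟨a z, b z, c z, d z⟩ : ℍ[ℝ]) = a z • e0 + b z • e1 + c z • e2 + d z • e3 := by
    intro z
    ext
    · show a z = a z * 1 + b z * 0 + c z * 0 + d z * 0
      ring
    · show b z = a z * 0 + b z * 1 + c z * 0 + d z * 0
      ring
    · show c z = a z * 0 + b z * 0 + c z * 1 + d z * 0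
      ring
    · show d z = a z * 0 + b z * 0 + c z * 0 + d z * 1
      ring
  have h' : ContDiffAt ℝ n (fun z => a z • e0 + b z • e1 + c z • e2 + d z • e3) x :=
    (((ha.smul contDiffAt_const).add (hb.smul contDiffAt_const)).add
      (hc.smul contDiffAt_const)).add (hd.smul contDiffAt_const)
  refine h'.congr_of_eventuallyEq (Filter.Eventually.of_forall fun z => h z)

private lemma uc_lin (f : ℍ[ℝ] →ₗ[ℝ] ℝ) {n : WithTop ℕ∞} : ContDiff ℝ n f :=
  (LinearMap.toContinuousLinearMap f).contDiff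

private def uc_re : ℍ[ℝ] →ₗ[ℝ] ℝ where
  toFun v := v.re
  map_add' v w := by simp
  map_smul' a v := by simp

private def uc_imI : ℍ[ℝ] →ₗ[ℝ] ℝ where
  toFun v := v.imI
  map_add' v w := by simp
  map_smul' a v := by simp

private def uc_imJ : ℍ[ℝ] →ₗ[ℝ] ℝ where
  toFun v := v.imJ
  map_add' v w := by simp
  map_smul' a v := by simp

private def uc_imK : ℍ[ℝ] →ₗ[ℝ] ℝ where
  toFun v := v.imK
  map_add' v w := by simp
  map_smul' a v := by simp

private lemma uc_cre {n : WithTop ℕ∞} : ContDiff ℝ n (fun v : ℍ[ℝ] => v.re) := uc_lin uc_re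
private lemma uc_cI {n : WithTop ℕ∞} : ContDiff ℝ n (fun v : ℍ[ℝ] => v.imI) := uc_lin uc_imI
private lemma uc_cJ {n : WithTop ℕ∞} : ContDiff ℝ n (fun v : ℍ[ℝ] => v.imJ) := uc_lin uc_imJ
private lemma uc_cK {n : WithTop ℕ∞} : ContDiff ℝ n (fun v : ℍ[ℝ] => v.imK) := uc_lin uc_imK

private lemma uc_rot {n : WithTop ℕ∞} : ContDiff ℝ n (fun p : MAmb => rot p.1 p.2) := by
  rw [contDiff_iff_contDiffAt]
  intro p
  have e1 : ContDiffAt ℝ n (fun p : MAmb => p.1.re) p :=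
    (Complex.reCLM.contDiff.comp contDiff_fst).contDiffAt
  have e2 : ContDiffAt ℝ n (fun p : MAmb => p.1.im) p :=
    (Complex.imCLM.contDiff.comp contDiff_fst).contDiffAt
  have q0 : ContDiffAt ℝ n (fun p : MAmb => p.2.re) p := (uc_cre.comp contDiff_snd).contDiffAt
  have q1 : ContDiffAt ℝ n (fun p : MAmb => p.2.imI) p := (uc_cI.comp contDiff_snd).contDiffAt
  have q2 : ContDiffAt ℝ n (fun p : MAmb => p.2.imJ) p := (uc_cJ.comp contDiff_snd).contDiffAt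
  have q3 : ContDiffAt ℝ n (fun p : MAmb => p.2.imK) p := (uc_cK.comp contDiff_snd).contDiffAt
  exact uc_mk q0 ((e1.mul q1).sub (e2.mul q3)) q2 ((e2.mul q1).add (e1.mul q3))

private lemma uc_vec {E : Type} [NormedAddCommGroup E] [NormedSpace ℝ E] {n : WithTop ℕ∞}
    {a b c : E → ℝ} {x : E} (ha : ContDiffAt ℝ n a x) (hb : ContDiffAt ℝ n b x)
    (hc : ContDiffAt ℝ n c x) :
    ContDiffAt ℝ n (fun z => (!₂[a z, b z, c z] : E3)) x := by
  rw [contDiffAt_euclidean]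
  intro i
  fin_cases i
  · exact ha
  · exact hb
  · exact hc

private lemma uc_coord {n : WithTop ℕ∞} (i : Fin 3) : ContDiff ℝ n (fun q : ℝ × E3 => q.2 i) :=
  (EuclideanSpace.proj (𝕜 := ℝ) i).contDiff.comp contDiff_snd

private lemma uc_exp {n : WithTop ℕ∞} : ContDiff ℝ n
    (fun q : ℝ × E3 => Complex.exp (q.1 * Complex.I)) := by
  have h1 : ContDiff ℝ n (fun q : ℝ × E3 => ((q.1 : ℝ) : ℂ)) :=
    Complex.ofRealCLM.contDiff.comp contDiff_fst
  exact (h1.mul contDiff_const).cexp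

private lemma uc_jc {σ : ℝ} {n : WithTop ℕ∞} : ContDiff ℝ n (jc σ) := by
  rw [contDiff_iff_contDiffAt]
  intro q
  have e1 : ContDiffAt ℝ n (fun q : ℝ × E3 => q.1) q := contDiffAt_fst
  have u0 : ContDiffAt ℝ n (fun q : ℝ × E3 => q.2 0) q := (uc_coord 0).contDiffAt
  have u1 : ContDiffAt ℝ n (fun q : ℝ × E3 => q.2 1) q := (uc_coord 1).contDiffAt
  have u2 : ContDiffAt ℝ n (fun q : ℝ × E3 => q.2 2) q := (uc_coord 2).contDiffAt
  have s1 : ContDiffAt ℝ n (fun q : ℝ × E3 => Real.sin q.1) q := e1.sin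
  have c1 : ContDiffAt ℝ n (fun q : ℝ × E3 => Real.cos q.1) q := e1.cos
  have c2 : ContDiffAt ℝ n (fun q : ℝ × E3 => Real.cos (2 * q.1)) q := (contDiffAt_const.mul e1).cos
  refine ContDiffAt.prodMk ((e1.add (contDiffAt_const.mul s1)).sub (c2.mul u0)) ?_
  exact uc_vec ((s1.mul c1).add ((contDiffAt_const.add (contDiffAt_const.mul c1)).mul u0))
    (((contDiffAt_const.mul c1).div_const 2).add u1) u2

/-- the radicand -/
private def uc_rad (q : ℝ × E3) : ℝ := 1 - q.2 0 ^ 2 - q.2 1 ^ 2 - q.2 2 ^ 2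

private lemma uc_rad_cd {n : WithTop ℕ∞} : ContDiff ℝ n uc_rad :=
  ((contDiff_const.sub ((uc_coord 0).pow 2)).sub ((uc_coord 1).pow 2)).sub ((uc_coord 2).pow 2)

private lemma uc_ch {n : WithTop ℕ∞} {q : ℝ × E3} (hq : 0 < uc_rad q) : ContDiffAt ℝ n ch q := by
  refine ContDiffAt.prodMk uc_exp.contDiffAt ?_
  exact uc_mk (uc_coord 0).contDiffAt ((uc_rad_cd.contDiffAt).sqrt hq.ne')
    (uc_coord 1).contDiffAt (uc_coord 2).contDiffAt

private lemma uc_norm_exp (t : ℝ) : ‖Complex.exp (t * Complex.I)‖ = 1 :=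
  Complex.norm_exp_ofReal_mul_I t

private lemma uc_chM {q : ℝ × E3} (hq : 0 < uc_rad q) : ch q ∈ M := by
  refine ⟨uc_norm_exp q.1, ?_⟩
  have h1 : ‖(ch q).2‖ * ‖(ch q).2‖ = 1 := by
    rw [← Quaternion.normSq_eq_norm_mul_self, Quaternion.normSq_def']
    show q.2 0 ^ 2 + √(uc_rad q) ^ 2 + q.2 1 ^ 2 + q.2 2 ^ 2 = 1
    rw [Real.sq_sqrt hq.le]
    unfold uc_rad
    ring
  nlinarith [norm_nonneg (ch q).2]

/-- the transition from the chart of the tube -/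
private def uc_R (η : ℍ[ℝ] → ℝ) (s : ℍ[ℝ] → E3) (q : ℝ × E3) : ℝ × E3 :=
  (q.1 - η (rot (ch q).1 (ch q).2), s (PhiF η (ch q)).2)

/-- its inverse -/
private def uc_X (η : ℍ[ℝ] → ℝ) (q : ℝ × E3) : ℝ × E3 :=
  (q.1 + η (cc (Complex.exp (q.1 * Complex.I)) * sy q.2),
    !₂[(PhiG η (Complex.exp (q.1 * Complex.I), sy q.2)).2.re,
      (PhiG η (Complex.exp (q.1 * Complex.I), sy q.2)).2.imJ,
      (PhiG η (Complex.exp (q.1 * Complex.I), sy q.2)).2.imK])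

/-- the properties of the inverse of `sy` -/
private structure UcS (s : ℍ[ℝ] → E3) : Prop where
  sm : ∀ w : ℍ[ℝ], w.re ≠ -1 → ContDiffAt ℝ ∞ s w
  left : ∀ y, s (sy y) = y
  right : ∀ w : ℍ[ℝ], ‖w‖ = 1 → w.re ≠ -1 → sy (s w) = w

private lemma uc_R_cd {η : ℍ[ℝ] → ℝ} (hη : HEta η) {s : ℍ[ℝ] → E3} (hs : UcS s) {q : ℝ × E3}
    (hq : 0 < uc_rad q) (hw : (PhiF η (ch q)).2.re ≠ -1) : ContDiffAt ℝ ∞ (uc_R η s) q := by
  have h1 : ContDiffAt ℝ ∞ ch q := uc_ch hq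
  have h2 : ContDiffAt ℝ ∞ (fun q => rot (ch q).1 (ch q).2) q :=
    ContDiffAt.comp (g := fun p : MAmb => rot p.1 p.2) q uc_rot.contDiffAt h1
  have h3 : ContDiffAt ℝ ∞ (fun q => η (rot (ch q).1 (ch q).2)) q :=
    ContDiffAt.comp q hη.smooth.contDiffAt h2
  have h4 : ContDiffAt ℝ ∞ (fun q => PhiF η (ch q)) q :=
    ContDiffAt.comp q (contDiffAt_PhiF hη (uc_chM hq)) h1
  have h5 : ContDiffAt ℝ ∞ (fun q => s (PhiF η (ch q)).2) q :=
    ContDiffAt.comp (g := s) q (hs.sm _ hw) h4.snd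
  exact (contDiffAt_fst.sub h3).prodMk h5

private lemma uc_X_cd {η : ℍ[ℝ] → ℝ} (hη : HEta η) (q : ℝ × E3) : ContDiffAt ℝ ∞ (uc_X η) q := by
  have h1 : ContDiffAt ℝ ∞ (fun q : ℝ × E3 => Complex.exp (q.1 * Complex.I)) q :=
    uc_exp.contDiffAt
  have h2 : ContDiffAt ℝ ∞ (fun q : ℝ × E3 => sy q.2) q :=
    (contDiff_sy.comp contDiff_snd).contDiffAt
  have h3 : ContDiffAt ℝ ∞ (fun q : ℝ × E3 => cc (Complex.exp (q.1 * Complex.I))) q :=
    ContDiffAt.comp (g := cc) q (contDiffAt_cc (uc_norm_exp q.1)) h1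
  have h4 : ContDiffAt ℝ ∞ (fun q : ℝ × E3 => η (cc (Complex.exp (q.1 * Complex.I)) * sy q.2)) q :=
    ContDiffAt.comp (g := η) q hη.smooth.contDiffAt (h3.mul h2)
  have h5 : ContDiffAt ℝ ∞ (fun q : ℝ × E3 => PhiG η (Complex.exp (q.1 * Complex.I), sy q.2)) q :=
    ContDiffAt.comp (g := PhiG η) q
      (contDiffAt_PhiG hη ⟨uc_norm_exp q.1, norm_sy q.2⟩) (h1.prodMk h2)
  have h6 := h5.snd
  exact (contDiffAt_fst.add h4).prodMk (uc_vec (ContDiffAt.comp q uc_cre.contDiffAt h6)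
    (ContDiffAt.comp q uc_cJ.contDiffAt h6) (ContDiffAt.comp q uc_cK.contDiffAt h6))

private lemma uc_R_exp {η : ℍ[ℝ] → ℝ} {s : ℍ[ℝ] → E3} (q : ℝ × E3) :
    Complex.exp ((uc_R η s q).1 * Complex.I) = (PhiF η (ch q)).1 := by
  show Complex.exp (((q.1 - η (rot (ch q).1 (ch q).2) : ℝ) : ℂ) * Complex.I)
    = Complex.exp (q.1 * Complex.I) * Complex.exp ((-(η (rot (ch q).1 (ch q).2)) : ℝ) * Complex.I)
  rw [← Complex.exp_add]
  congr 1
  push_cast
  ring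

private lemma uc_cc_mul {z : ℂ} (hz : ‖z‖ = 1) (w : ℍ[ℝ]) : cc z * (star (cc z) * w) = w := by
  rw [← mul_assoc, Quaternion.self_mul_star, Quaternion.normSq_eq_norm_mul_self, norm_cc hz]
  simp

private lemma uc_XR {η : ℍ[ℝ] → ℝ} (hη : HEta η) {s : ℍ[ℝ] → E3} (hs : UcS s) {q : ℝ × E3}
    (hq : 0 < uc_rad q) (hw : (PhiF η (ch q)).2.re ≠ -1) : uc_X η (uc_R η s q) = q := by
  have hM := uc_chM hq
  have hP := PhiF_mem hη hM
  have h1 : sy (uc_R η s q).2 = (PhiF η (ch q)).2 := hs.right _ hP.2 hw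
  have h2 := uc_R_exp (η := η) (s := s) q
  unfold uc_X
  rw [h1, h2]
  have h3 : PhiG η ((PhiF η (ch q)).1, (PhiF η (ch q)).2) = ch q := PhiG_PhiF hη hM
  rw [h3]
  have h4 : cc (PhiF η (ch q)).1 * (PhiF η (ch q)).2 = rot (ch q).1 (ch q).2 :=
    uc_cc_mul hP.1 _
  rw [h4]
  refine Prod.ext ?_ ?_
  · show q.1 - η (rot (ch q).1 (ch q).2) + η (rot (ch q).1 (ch q).2) = q.1
    ring
  · ext i
    fin_cases i <;> rfl

private lemma uc_nhds {η : ℍ[ℝ] → ℝ} (hη : HEta η) {q : ℝ × E3}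
    (hq : 0 < uc_rad q) (hw : (PhiF η (ch q)).2.re ≠ -1) :
    ∀ᶠ q' in 𝓝 q, 0 < uc_rad q' ∧ (PhiF η (ch q')).2.re ≠ -1 := by
  have h0 : ContinuousAt uc_rad q := (uc_rad_cd (n := 0)).continuous.continuousAt
  have h1 : ContinuousAt (fun q => PhiF η (ch q)) q :=
    ((contDiffAt_PhiF hη (uc_chM hq)).comp q (uc_ch hq)).continuousAt
  have h2 : ContinuousAt (fun q => (PhiF η (ch q)).2.re) q :=
    ContinuousAt.comp (g := fun v : ℍ[ℝ] => v.re) (uc_cre (n := 0)).continuous.continuousAt h1.snd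
  exact (h0.eventually (lt_mem_nhds hq)).and (h2.eventually (isOpen_ne.mem_nhds hw))

private lemma uc_R_inj {η : ℍ[ℝ] → ℝ} (hη : HEta η) {s : ℍ[ℝ] → E3} (hs : UcS s) {q : ℝ × E3}
    (hq : 0 < uc_rad q) (hw : (PhiF η (ch q)).2.re ≠ -1) :
    Function.Injective (fderiv ℝ (uc_R η s) q) := by
  have h1 : HasFDerivAt (uc_R η s) (fderiv ℝ (uc_R η s) q) q :=
    ((uc_R_cd hη hs hq hw).differentiableAt (by simp)).hasFDerivAt
  have h2 : HasFDerivAt (uc_X η) (fderiv ℝ (uc_X η) (uc_R η s q)) (uc_R η s q) :=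
    ((uc_X_cd hη _).differentiableAt (by simp)).hasFDerivAt
  have h3 := h2.comp q h1
  have h4 : HasFDerivAt (uc_X η ∘ uc_R η s) (ContinuousLinearMap.id ℝ (ℝ × E3)) q := by
    refine (hasFDerivAt_id q).congr_of_eventuallyEq ?_
    filter_upwards [uc_nhds hη hq hw] with q' hq'
    exact uc_XR hη hs hq'.1 hq'.2
  have h5 := h3.unique h4
  intro a b hab
  have h6 : ∀ a, fderiv ℝ (uc_X η) (uc_R η s q) (fderiv ℝ (uc_R η s) q a) = a := by
    intro a
    have := congrArg (fun L : ℝ × E3 →L[ℝ] ℝ × E3 => L a) h5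
    exact this
  rw [← h6 a, ← h6 b, hab]

private lemma uc_rot_core {ζ : ℂ} : rot (J 1 (ζ, 0)).1 (J 1 (ζ, 0)).2 = cc ζ := by
  unfold J cc
  simp

private lemma uc_near {η : ℍ[ℝ] → ℝ} (hη : HEta η) {s : ℍ[ℝ] → E3} (hs : UcS s) {r : ℝ}
    (hr : 0 < r) : ∀ᶠ ε in 𝓝[>] (0 : ℝ), ∀ p ∈ tubC ε,
      (PhiF η (J 1 p)).2.re ≠ -1 ∧ ‖s (PhiF η (J 1 p)).2‖ ≤ r := by
  obtain ⟨ε₀, hg⟩ := (eventually_good (σ := 1) (Or.inl rfl)).exists
  have h1 : ∀ ζ : ℂ, ‖ζ‖ = 1 → ∀ᶠ p in 𝓝 ((ζ, 0) : Amb), p ∈ tubC ε₀ →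
      (PhiF η (J 1 p)).2.re ≠ -1 ∧ ‖s (PhiF η (J 1 p)).2‖ ≤ r := by
    intro ζ hζ
    have hmem : ((ζ, 0) : Amb) ∈ tubC ε₀ := ⟨hζ, by
      show ‖(0 : E3)‖ ≤ ε₀
      rw [norm_zero]
      exact hg.pos.le⟩
    have hJ : ContinuousWithinAt (J 1) (tubC ε₀) (ζ, 0) := hg.cont _ hmem
    have hF : ContinuousAt (PhiF η) (J 1 (ζ, 0)) :=
      (contDiffAt_PhiF hη (hg.mem _ hmem)).continuousAt
    have hFJ : ContinuousWithinAt (fun p => PhiF η (J 1 p)) (tubC ε₀) (ζ, 0) :=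
      ContinuousAt.comp_continuousWithinAt (g := PhiF η) hF hJ
    have hval : PhiF η (J 1 (ζ, 0)) = (ζ, 1) := PhiF_core hη hζ
    have h2 : ContinuousWithinAt (fun p => (PhiF η (J 1 p)).2.re) (tubC ε₀) (ζ, 0) :=
      ContinuousAt.comp_continuousWithinAt (g := fun v : ℍ[ℝ] => v.re)
        (uc_cre (n := 0)).continuous.continuousAt hFJ.snd
    have h3 : ContinuousWithinAt (fun p => s (PhiF η (J 1 p)).2) (tubC ε₀) (ζ, 0) := by
      refine ContinuousAt.comp_continuousWithinAt (g := s) ?_ hFJ.snd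
      rw [hval]
      refine (hs.sm 1 ?_).continuousAt
      show (1 : ℝ) ≠ -1
      norm_num
    have hs1 : s (1 : ℍ[ℝ]) = 0 := by
      rw [← sy_zero]
      exact hs.left 0
    have h4 : ∀ᶠ p in 𝓝[tubC ε₀] ((ζ, 0) : Amb), (PhiF η (J 1 p)).2.re ≠ -1 := by
      refine h2.eventually (isOpen_ne.mem_nhds ?_)
      show (PhiF η (J 1 (ζ, 0))).2.re ≠ -1
      rw [hval]
      show (1 : ℝ) ≠ -1
      norm_num
    have h5 : ∀ᶠ p in 𝓝[tubC ε₀] ((ζ, 0) : Amb), s (PhiF η (J 1 p)).2 ∈ ball (0 : E3) r := by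
      refine h3.eventually (isOpen_ball.mem_nhds ?_)
      show s (PhiF η (J 1 (ζ, 0))).2 ∈ ball (0 : E3) r
      rw [hval]
      show s (1 : ℍ[ℝ]) ∈ ball (0 : E3) r
      rw [hs1]
      exact mem_ball_self hr
    have h6 := h4.and h5
    rw [eventually_nhdsWithin_iff] at h6
    filter_upwards [h6] with p hp hpt
    refine ⟨(hp hpt).1, ?_⟩
    have := (hp hpt).2
    rw [mem_ball, dist_zero_right] at this
    exact this.le
  filter_upwards [uc_tube h1, Ioo_mem_nhdsGT hg.pos] with ε hε hε' p hp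
  exact hε p hp ⟨hp.1, hp.2.trans hε'.2.le⟩

private lemma uc_PhiF_eq {η : ℍ[ℝ] → ℝ} (hη : HEta η) {s : ℍ[ℝ] → E3} (hs : UcS s) {q : ℝ × E3}
    (hq : 0 < uc_rad q) (hw : (PhiF η (ch q)).2.re ≠ -1) :
    PhiF η (ch q) = (Complex.exp ((uc_R η s q).1 * Complex.I), sy (uc_R η s q).2) := by
  rw [uc_R_exp]
  refine Prod.ext rfl ?_
  exact (hs.right _ (PhiF_mem hη (uc_chM hq)).2 hw).symm

theorem exists_U {η : ℍ[ℝ] → ℝ} (hη : HEta η) : ∃ (r₀ : ℝ) (U : ℝ × E3 → E3), UData η r₀ U := by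
  obtain ⟨s, hs1, hs2, hs3, _⟩ := exists_sy_inv
  have hs : UcS s := ⟨hs1, hs2, hs3⟩
  obtain ⟨ε₁, ⟨hg, hj⟩, hn⟩ := (((eventually_good (σ := 1) (Or.inl rfl)).and
    (jc_deriv (σ := 1) (Or.inl rfl))).and (uc_near hη hs one_pos)).exists
  have hmem : ∀ (φ : ℝ) (u : E3), ‖u‖ ≤ ε₁ →
      ((Complex.exp (φ * Complex.I), u) : Amb) ∈ tubC ε₁ :=
    fun φ u hu => ⟨uc_norm_exp φ, hu⟩
  have hrad : ∀ (φ : ℝ) (u : E3), ‖u‖ ≤ ε₁ → 0 < uc_rad (jc 1 (φ, u)) := by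
    intro φ u hu
    have h1 := hg.imI_pos _ (hmem φ u hu)
    rw [J_exp] at h1
    exact Real.sqrt_pos.mp h1
  have hre : ∀ (φ : ℝ) (u : E3), ‖u‖ ≤ ε₁ → (PhiF η (ch (jc 1 (φ, u)))).2.re ≠ -1 := by
    intro φ u hu
    have h1 := (hn _ (hmem φ u hu)).1
    rwa [J_exp] at h1
  have hch : ∀ q : ℝ × E3, ch (q + (2 * Real.pi, 0)) = ch q := by
    intro q
    unfold ch
    have e1 : (q + (2 * Real.pi, 0)).2 = q.2 := by simp
    have e2 : Complex.exp (((q + ((2 * Real.pi, 0) : ℝ × E3)).1 : ℝ) * Complex.I)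
        = Complex.exp (q.1 * Complex.I) := by
      have : (((q + ((2 * Real.pi, 0) : ℝ × E3)).1 : ℝ) : ℂ) * Complex.I
          = q.1 * Complex.I + 2 * Real.pi * Complex.I := by
        show (((q.1 + 2 * Real.pi : ℝ)) : ℂ) * Complex.I = _
        push_cast
        ring
      rw [this, Complex.exp_periodic]
    rw [e1, e2]
  have hR : ∀ q : ℝ × E3, uc_R η s (q + (2 * Real.pi, 0)) = uc_R η s q + (2 * Real.pi, 0) := by
    intro q
    unfold uc_R
    rw [hch]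
    refine Prod.ext ?_ ?_
    · show q.1 + 2 * Real.pi - _ = q.1 - _ + 2 * Real.pi
      ring
    · show _ = _ + (0 : E3)
      rw [add_zero]
  have hjper : ∀ (φ : ℝ) (u : E3), jc 1 (φ + 2 * Real.pi, u) = jc 1 (φ, u) + (2 * Real.pi, 0) := by
    intro φ u
    unfold jc
    have h2 : 2 * (φ + 2 * Real.pi) = 2 * φ + 2 * Real.pi + 2 * Real.pi := by ring
    refine Prod.ext ?_ ?_
    · show φ + 2 * Real.pi + 2 * Real.pi * 1 * Real.sin (φ + 2 * Real.pi)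
        - Real.cos (2 * (φ + 2 * Real.pi)) * u 0
        = φ + 2 * Real.pi * 1 * Real.sin φ - Real.cos (2 * φ) * u 0 + 2 * Real.pi
      rw [h2, Real.sin_add_two_pi, Real.cos_add_two_pi, Real.cos_add_two_pi]
      ring
    · simp only [Real.sin_add_two_pi, Real.cos_add_two_pi, Prod.snd_add, add_zero]
  obtain ⟨r₀, G, hr₀, hGs, hGT, hGp, hG0, hGi⟩ := uc_abstract (T := fun q => uc_R η s (jc 1 q))
    (ε := ε₁) hg.pos
    (by
      intro φ u hu
      exact ContDiffAt.comp (g := uc_R η s) (f := jc 1) (φ, u)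
        (uc_R_cd hη hs (hrad φ u hu.le) (hre φ u hu.le)) uc_jc.contDiffAt)
    (by
      intro φ u hu
      have h1 : HasFDerivAt (uc_R η s) (fderiv ℝ (uc_R η s) (jc 1 (φ, u))) (jc 1 (φ, u)) :=
        ((uc_R_cd hη hs (hrad φ u hu.le) (hre φ u hu.le)).differentiableAt (by simp)).hasFDerivAt
      have h2 : HasFDerivAt (jc 1) (fderiv ℝ (jc 1) (φ, u)) (φ, u) :=
        ((uc_jc (n := 1)).contDiffAt.differentiableAt (by simp)).hasFDerivAt
      have h3 := h1.comp (φ, u) h2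
      have h4 : fderiv ℝ (fun q => uc_R η s (jc 1 q)) (φ, u) = _ := h3.fderiv
      rw [h4]
      exact (uc_R_inj hη hs (hrad φ u hu.le) (hre φ u hu.le)).comp (hj φ u hu.le))
    (by
      intro φ u φ' u' hu hu' h
      have h1 : jc 1 (φ, u) = jc 1 (φ', u') := by
        rw [← uc_XR hη hs (hrad φ u hu.le) (hre φ u hu.le),
          ← uc_XR hη hs (hrad φ' u' hu'.le) (hre φ' u' hu'.le)]
        exact congrArg _ h
      have h2 : J 1 (Complex.exp (φ * Complex.I), u) = J 1 (Complex.exp (φ' * Complex.I), u') := by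
        rw [J_exp, J_exp, h1]
      have h3 := hg.inj (hmem φ u hu.le) (hmem φ' u' hu'.le) h2
      have h4 : Complex.exp (φ * Complex.I) = Complex.exp (φ' * Complex.I) := congrArg Prod.fst h3
      have h5 : u = u' := congrArg Prod.snd h3
      have hsin : Real.sin φ = Real.sin φ' := by
        have := congrArg Complex.im h4
        rwa [Complex.exp_ofReal_mul_I_im, Complex.exp_ofReal_mul_I_im] at this
      have hcos : Real.cos φ = Real.cos φ' := by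
        have := congrArg Complex.re h4
        rwa [Complex.exp_ofReal_mul_I_re, Complex.exp_ofReal_mul_I_re] at this
      have h6 : φ + 2 * Real.pi * 1 * Real.sin φ - Real.cos (2 * φ) * u 0
          = φ' + 2 * Real.pi * 1 * Real.sin φ' - Real.cos (2 * φ') * u' 0 := congrArg Prod.fst h1
      rw [Real.cos_two_mul, Real.cos_two_mul, hsin, hcos, h5] at h6
      have h7 : φ = φ' := by linarith
      rw [h7, h5])
    (by
      intro φ u
      show uc_R η s (jc 1 (φ + 2 * Real.pi, u)) = uc_R η s (jc 1 (φ, u)) + (2 * Real.pi, 0)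
      rw [hjper, hR])
    (by
      intro φ
      show uc_R η s (jc 1 (φ, 0)) = (φ, 0)
      have h1 : ch (jc 1 (φ, 0)) = J 1 (Complex.exp (φ * Complex.I), 0) := (J_exp 1 φ 0).symm
      unfold uc_R
      rw [h1, uc_rot_core, hη.eq _ (uc_norm_exp φ), PhiF_core hη (uc_norm_exp φ)]
      refine Prod.ext ?_ ?_
      · show (φ + 2 * Real.pi * 1 * Real.sin φ - Real.cos (2 * φ) * (0 : E3) 0)
          - 2 * Real.pi * (Complex.exp (φ * Complex.I)).im = φ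
        rw [Complex.exp_ofReal_mul_I_im]
        show (φ + 2 * Real.pi * 1 * Real.sin φ - Real.cos (2 * φ) * 0)
          - 2 * Real.pi * Real.sin φ = φ
        ring
      · show s (1 : ℍ[ℝ]) = 0
        rw [← sy_zero]
        exact hs.left 0)
  refine ⟨r₀, fun q => (G q).2, ?_⟩
  refine ⟨hr₀, fun t y hy => (hGs t y hy).snd, hGp, fun t => by rw [hG0], ?_, ?_, ?_, hGi⟩
  · intro t y hy
    obtain ⟨h1, h2⟩ := hGT t y hy
    refine ⟨Complex.exp ((G (t, y)).1 * Complex.I), uc_norm_exp _, ?_⟩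
    rw [J_exp]
    have h3 := uc_PhiF_eq hη hs (hrad (G (t, y)).1 (G (t, y)).2 h1.le)
      (hre (G (t, y)).1 (G (t, y)).2 h1.le)
    have h2' : uc_R η s (jc 1 ((G (t, y)).1, (G (t, y)).2)) = (t, y) := h2
    rw [h3, h2']
  · exact ⟨ε₁, hg, fun t y hy => (hGT t y hy).1.le⟩
  · intro r hr
    filter_upwards [uc_near hη hs hr, Ioo_mem_nhdsGT hg.pos] with ε hε hε' p hp
    obtain ⟨ζ, u⟩ := p
    have hζ : ‖ζ‖ = 1 := hp.1
    have hu : ‖u‖ ≤ ε₁ := hp.2.trans hε'.2.le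
    have he : ζ = Complex.exp (Complex.arg ζ * Complex.I) := by
      have := Complex.norm_mul_exp_arg_mul_I ζ
      rw [hζ] at this
      simpa using this.symm
    set φ := Complex.arg ζ with hφ
    have h3 := uc_PhiF_eq hη hs (hrad φ u hu) (hre φ u hu)
    have h4 := (hε _ hp).2
    refine ⟨(uc_R η s (jc 1 (φ, u))).1, (uc_R η s (jc 1 (φ, u))).2, ?_, ?_⟩
    · rw [he, J_exp] at h4
      exact h4
    · rw [he, J_exp]
      exact h3

end Pool.B203
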