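import Pool.Agent.Lib.B203.FConclDefs
import Pool.Agent.Lib.B203.MFun
import Pool.Agent.Lib.B203.Star
import Pool.Agent.Lib.B203.RadDiff
import Pool.Agent.Lib.B203.UChart
import Pool.Agent.Lib.B203.Eta

/-! Row FFinal: the exterior of a thin tube is diffeomorphic to `S¹ × B³`. -/

open Set Metric Topology
open scoped ContDiff Quaternion ComplexConjugate

noncomputable section

namespace Pool.B203

private theorem ff_exp_arg {z : ℂ} (hz : ‖z‖ = 1) :
    Complex.exp ((Complex.arg z : ℂ) * Complex.I) = z := by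
  have := Complex.norm_mul_exp_arg_mul_I z
  rw [hz] at this
  simpa using this

private theorem ff_per {U : ℝ × E3 → E3} (hper : ∀ t y, U (t + 2 * Real.pi, y) = U (t, y))
    {s t : ℝ} (h : Complex.exp ((s : ℂ) * Complex.I) = Complex.exp ((t : ℂ) * Complex.I)) (y : E3) :
    U (s, y) = U (t, y) := by
  rw [Complex.exp_eq_exp_iff_exists_int] at h
  obtain ⟨n, hn⟩ := h
  have hn2 : s = t + n * (2 * Real.pi) := by
    have h3 : ((s : ℝ) : ℂ) * Complex.I = ((t + n * (2 * Real.pi) : ℝ) : ℂ) * Complex.I := by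
      rw [hn]
      push_cast
      ring
    have h4 := mul_right_cancel₀ Complex.I_ne_zero h3
    exact_mod_cast h4
  have hp : Function.Periodic (fun t : ℝ => U (t, y)) (2 * Real.pi) := fun t => hper t y
  have := hp.int_mul n t
  rw [hn2]
  exact this

/-- the key comparison of the tube with the radial coordinate -/
private theorem ff_key {η : ℍ[ℝ] → ℝ} (hη : HEta η) {r₀ : ℝ} {U : ℝ × E3 → E3}
    (hU : UData η r₀ U) {r : ℝ} (hr0 : r ≤ r₀) {m : ℝ × E3 → ℝ} {R K' : ℝ}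
    (hm : RadData m) (hr : 0 < r) (hK' : 0 < K') (hR : r⁻¹ < R)
    (hmR : ∀ t x, R ≤ ‖x‖ → m (t, x) * ‖x‖ * ‖U (t, (‖x‖ ^ 2)⁻¹ • x)‖ = K')
    {ε ε₁ C : ℝ} (hε : 0 < ε) (hεε : ε ≤ ε₁) (hg : Good 1 ε₁)
    (hg2 : ∀ t y, ‖y‖ ≤ r₀ → ‖U (t, y)‖ ≤ ε₁)
    (hcov : ∀ p ∈ tubC ε, ∃ (t : ℝ) (y : E3), ‖y‖ ≤ R⁻¹ ∧
      PhiF η (J 1 p) = (Complex.exp (t * Complex.I), sy y))
    (hC : ∀ t ∈ Icc (-Real.pi) Real.pi, ∀ x : E3, ‖x‖ ≤ R → m (t, x) * ‖x‖ ≤ C)
    (hC2 : C < K' / ε) {p : MAmb} (hp : p ∈ M) (hw : (PhiF η p).2 ≠ 1) :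
    (p ∈ J 1 '' tubO ε ↔ K' / ε < ‖(radMap m ((PhiF η p).1, st (PhiF η p).2)).2‖) ∧
    (p ∈ J 1 '' tubB ε ↔ ‖(radMap m ((PhiF η p).1, st (PhiF η p).2)).2‖ = K' / ε) := by
  have hRpos : 0 < R := lt_trans (inv_pos.2 hr) hR
  have hF := PhiF_mem hη hp
  obtain ⟨z, hz⟩ : ∃ z, z = (PhiF η p).1 := ⟨_, rfl⟩
  obtain ⟨w, hw'⟩ : ∃ w, w = (PhiF η p).2 := ⟨_, rfl⟩
  have hzn : ‖z‖ = 1 := by rw [hz]; exact hF.1
  have hwn : ‖w‖ = 1 := by rw [hw']; exact hF.2
  rw [← hz, ← hw'] 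
  rw [← hw'] at hw
  have hinj : ∀ q ∈ M, PhiF η q = PhiF η p → q = p := by
    intro q hq h
    rw [← PhiG_PhiF hη hq, ← PhiG_PhiF hη hp, h]
  obtain ⟨x, hx⟩ : ∃ x, x = st w := ⟨_, rfl⟩
  have hwx : stI x = w := by rw [hx]; exact stI_st hwn hw
  have hnorm : ‖(radMap m (z, st w)).2‖ = m (Complex.arg z, x) * ‖x‖ := by
    rw [← hx]
    simp only [radMap]
    rw [norm_smul, Real.norm_of_nonneg (hm.pos _ _).le]
  rw [hnorm]
  have hmp : 0 < m (Complex.arg z, x) := hm.pos _ _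
  -- part 1
  have part1 : ∀ q ∈ tubC ε, J 1 q = p → 0 < ‖q.2‖ ∧ m (Complex.arg z, x) * ‖x‖ = K' / ‖q.2‖ := by
    intro q hq hqp
    obtain ⟨s, y, hy, hsy⟩ := hcov q hq
    rw [hqp] at hsy
    have hz2 : z = Complex.exp (s * Complex.I) := by rw [hz, hsy]
    have hw2 : w = sy y := by rw [hw', hsy]
    have hyr : ‖y‖ ≤ r₀ := by
      refine hy.trans (le_trans ?_ hr0)
      rw [inv_le_comm₀ hRpos hr]
      exact hR.le
    obtain ⟨ζ, hζ, hζ2⟩ := hU.eq s y hyr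
    have hq' : (ζ, U (s, y)) ∈ tubC ε₁ := ⟨hζ, hg2 s y hyr⟩
    have hqq : q ∈ tubC ε₁ := ⟨hq.1, hq.2.trans hεε⟩
    have h5 : J 1 (ζ, U (s, y)) = p := hinj _ (hg.mem _ hq') (by rw [hζ2, hsy])
    have h6 : q = (ζ, U (s, y)) := hg.inj hqq hq' (by rw [h5, hqp])
    have hy0 : y ≠ 0 := by
      rintro rfl
      apply hw
      rw [hw2, sy_zero]
    have hyn : 0 < ‖y‖ := norm_pos_iff.2 hy0
    have hxy : x = (‖y‖ ^ 2)⁻¹ • y := by
      rw [hx, hw2, sy_eq_stI hy0, st_stI]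
    have hxn : ‖x‖ = ‖y‖⁻¹ := by
      rw [hxy, norm_smul, Real.norm_of_nonneg (by positivity)]
      field_simp
    have hxR : R ≤ ‖x‖ := by
      rw [hxn, le_inv_comm₀ hRpos hyn]
      exact hy
    have hyx : (‖x‖ ^ 2)⁻¹ • x = y := by
      rw [hxn, hxy, smul_smul]
      have : ((‖y‖⁻¹ ^ 2)⁻¹ * (‖y‖ ^ 2)⁻¹) = 1 := by
        field_simp
      rw [this, one_smul]
    have h7 := hmR (Complex.arg z) x hxR
    rw [hyx] at h7
    have h8 : U (Complex.arg z, y) = q.2 := by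
      rw [h6]
      apply ff_per hU.per
      rw [ff_exp_arg hzn, hz2]
    rw [h8] at h7
    have h9 : 0 < ‖q.2‖ := by
      rcases (norm_nonneg q.2).lt_or_eq with h | h
      · exact h
      · rw [← h, mul_zero] at h7
        exact absurd h7 hK'.ne
    refine ⟨h9, ?_⟩
    rw [eq_div_iff h9.ne', h7]
  -- part 2
  have part2 : K' / ε ≤ m (Complex.arg z, x) * ‖x‖ → ∃ q : Amb, ‖q.1‖ = 1 ∧ J 1 q = p ∧
      m (Complex.arg z, x) * ‖x‖ * ‖q.2‖ = K' := by
    intro hle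
    have hxR : R < ‖x‖ := by
      by_contra hcon
      have h5 := hC (Complex.arg z) ⟨(Complex.neg_pi_lt_arg z).le, Complex.arg_le_pi z⟩ x
        (not_lt.1 hcon)
      linarith
    have hxp : 0 < ‖x‖ := hRpos.trans hxR
    have hx0 : x ≠ 0 := norm_pos_iff.1 hxp
    obtain ⟨y, hy⟩ : ∃ y, y = (‖x‖ ^ 2)⁻¹ • x := ⟨_, rfl⟩
    have hyn : ‖y‖ = ‖x‖⁻¹ := by
      rw [hy, norm_smul, Real.norm_of_nonneg (by positivity)]
      field_simp
    have hy0 : y ≠ 0 := by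
      rw [← norm_pos_iff, hyn]
      positivity
    have hyr : ‖y‖ ≤ r₀ := by
      rw [hyn]
      refine le_trans ?_ hr0
      rw [inv_le_comm₀ hxp hr]
      linarith
    have hxy : (‖y‖ ^ 2)⁻¹ • y = x := by
      rw [hyn, hy, smul_smul]
      have : ((‖x‖⁻¹ ^ 2)⁻¹ * (‖x‖ ^ 2)⁻¹) = 1 := by
        field_simp
      rw [this, one_smul]
    have hsy : sy y = w := by
      rw [sy_eq_stI hy0, hxy, hwx]
    obtain ⟨ζ, hζ, hζ2⟩ := hU.eq (Complex.arg z) y hyr
    rw [ff_exp_arg hzn, hsy] at hζ2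
    have hq' : (ζ, U (Complex.arg z, y)) ∈ tubC ε₁ := ⟨hζ, hg2 _ y hyr⟩
    refine ⟨(ζ, U (Complex.arg z, y)), hζ, ?_, ?_⟩
    · apply hinj _ (hg.mem _ hq')
      rw [hζ2, hz, hw']
    · have h7 := hmR (Complex.arg z) x hxR.le
      rw [← hy] at h7
      exact h7
  constructor
  · constructor
    · rintro ⟨q, hq, hqp⟩
      obtain ⟨h5, h6⟩ := part1 q ⟨hq.1, hq.2.le⟩ hqp
      rw [h6]
      exact div_lt_div_of_pos_left hK' h5 hq.2
    · intro h
      obtain ⟨q, hq1, hq2, hq3⟩ := part2 h.le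
      refine ⟨q, ⟨hq1, ?_⟩, hq2⟩
      rw [div_lt_iff₀ hε] at h
      have hpos : 0 < m (Complex.arg z, x) * ‖x‖ := by
        rcases (mul_nonneg hmp.le (norm_nonneg x)).lt_or_eq with h' | h'
        · exact h'
        · rw [← h'] at h
          linarith
      nlinarith
  · constructor
    · rintro ⟨q, hq, hqp⟩
      obtain ⟨h5, h6⟩ := part1 q ⟨hq.1, hq.2.le⟩ hqp
      rw [h6, hq.2]
    · intro h
      obtain ⟨q, hq1, hq2, hq3⟩ := part2 h.ge
      refine ⟨q, ⟨hq1, ?_⟩, hq2⟩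
      rw [h] at hq3
      field_simp at hq3
      exact hq3

theorem F_final : ∀ᶠ ε in 𝓝[>] (0 : ℝ), FConcl ε := by
  obtain ⟨η, hη⟩ := exists_eta
  obtain ⟨r₀, U, hU⟩ := exists_U hη
  obtain ⟨r₁, K, hr1, hK, hle, hst⟩ := exists_star (U := U)
    (fun t => hU.smooth t 0 (by rw [norm_zero]; exact hU.pos.le)) hU.per hU.zero hU.imm
  obtain ⟨m, R, K', hm, hK', hR, hmR⟩ := exists_m (r₁ := min r₀ r₁) (K := K) (U := U)
    (lt_min hU.pos hr1) hK
    (fun t y hy => hU.smooth t y (hy.trans (min_le_left _ _))) hU.per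
    (fun t y hy => hle t y (hy.trans (min_le_right _ _)))
    (fun t y hy0 hy => hst t y hy0 (hy.trans (min_le_right _ _)))
  obtain ⟨G, hG1, hG2, hG3, hG4⟩ := exists_radInv hm
  obtain ⟨ε₁, hg, hg2⟩ := hU.good
  have hrpos : 0 < min r₀ r₁ := lt_min hU.pos hr1
  have hRpos : 0 < R := lt_trans (inv_pos.2 hrpos) hR
  obtain ⟨C, hC⟩ : ∃ C : ℝ, ∀ t ∈ Icc (-Real.pi) Real.pi, ∀ x : E3, ‖x‖ ≤ R →
      m (t, x) * ‖x‖ ≤ C := by
    have hcomp : IsCompact (Icc (-Real.pi) Real.pi ×ˢ closedBall (0 : E3) R) :=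
      isCompact_Icc.prod (isCompact_closedBall _ _)
    have hcont : ContinuousOn (fun q : ℝ × E3 => m q * ‖q.2‖)
        (Icc (-Real.pi) Real.pi ×ˢ closedBall (0 : E3) R) := by
      have := hm.smooth.continuous
      fun_prop
    obtain ⟨C, hC⟩ := hcomp.exists_bound_of_continuousOn hcont
    refine ⟨C, fun t ht x hx => ?_⟩
    have h5 := hC (t, x) ⟨ht, mem_closedBall_zero_iff.2 hx⟩
    exact (le_abs_self _).trans h5
  have hev1 : ∀ᶠ ε in 𝓝[>] (0 : ℝ), ε < min ε₁ (K' / (|C| + 1)) := by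
    have : (0 : ℝ) < min ε₁ (K' / (|C| + 1)) := lt_min hg.pos (by positivity)
    exact Filter.Eventually.filter_mono nhdsWithin_le_nhds (Iio_mem_nhds this)
  filter_upwards [hU.cover R⁻¹ (inv_pos.2 hRpos), hev1, self_mem_nhdsWithin] with ε hcov hlt hpos
  simp only [mem_Ioi] at hpos
  have hεε : ε ≤ ε₁ := (hlt.le).trans (min_le_left _ _)
  have hC2 : C < K' / ε := by
    have h5 : ε < K' / (|C| + 1) := lt_of_lt_of_le hlt (min_le_right _ _)
    rw [lt_div_iff₀ (by positivity)] at h5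
    rw [lt_div_iff₀ hpos]
    have := le_abs_self C
    nlinarith
  have key := fun {p : MAmb} (hp : p ∈ M) (hw : (PhiF η p).2 ≠ 1) =>
    ff_key hη hU (min_le_left _ _) hm hrpos hK' hR hmR hpos hεε hg hg2 hcov hC hC2 hp hw
  have hKε : 0 < K' / ε := by positivity
  -- the second coordinate is not `1` on the exterior
  have hne1 : ∀ q ∈ WM 1 ε, (PhiF η q).2 ≠ 1 := by
    rintro q ⟨hqM, hq⟩ h
    apply hq
    have hF := PhiF_mem hη hqM
    refine ⟨((PhiF η q).1, 0), ⟨hF.1, by simpa using hpos⟩, ?_⟩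
    have h5 : PhiF η (J 1 ((PhiF η q).1, 0)) = PhiF η q := by
      rw [PhiF_core hη hF.1]
      exact Prod.ext rfl h.symm
    have h6 : J 1 ((PhiF η q).1, 0) ∈ M := hg.mem _ ⟨hF.1, by simpa using hg.pos.le⟩
    rw [← PhiG_PhiF hη h6, h5, PhiG_PhiF hη hqM]
  set g : Amb → Amb := fun p => G (p.1, (K' / ε) • p.2) with hgdef
  have hg1 : ∀ p, (g p).1 = p.1 := fun p => hG2 _
  have hgrad : ∀ p : Amb, ‖p.1‖ = 1 → radMap m (g p) = (p.1, (K' / ε) • p.2) := fun p hp =>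
    hG3 _ hp
  have hThM : ∀ p : Amb, ‖p.1‖ = 1 → ((p.1, stI (g p).2) : MAmb) ∈ M := fun p hp =>
    ⟨hp, norm_stI _⟩
  have hPT : ∀ p : Amb, ‖p.1‖ = 1 → PhiF η (PhiG η (p.1, stI (g p).2)) = (p.1, stI (g p).2) :=
    fun p hp => PhiF_PhiG hη (hThM p hp)
  have hnorm : ∀ p : Amb, ‖p.1‖ = 1 →
      ‖(radMap m ((PhiF η (PhiG η (p.1, stI (g p).2))).1,
        st (PhiF η (PhiG η (p.1, stI (g p).2))).2)).2‖ = K' / ε * ‖p.2‖ := by
    intro p hp
    rw [hPT p hp]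
    simp only [st_stI]
    have h5 : ((p.1, (g p).2) : Amb) = g p := Prod.ext (hg1 p).symm rfl
    rw [h5, hgrad p hp, norm_smul, Real.norm_of_nonneg hKε.le]
  refine ⟨fun p => PhiG η (p.1, stI (g p).2),
    fun q => ((radMap m ((PhiF η q).1, st (PhiF η q).2)).1,
      (ε / K') • (radMap m ((PhiF η q).1, st (PhiF η q).2)).2),
    fun p => η (cc p.1 * stI (g p).2), ?_, ?_, ?_, ?_, ?_, ?_, ?_, ?_, ?_⟩
  · rintro p ⟨hp1, hp2⟩
    have hM := PhiG_mem hη (hThM p hp1)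
    refine ⟨hM, fun hmem => ?_⟩
    have hw : (PhiF η (PhiG η (p.1, stI (g p).2))).2 ≠ 1 := by
      rw [hPT p hp1]
      exact stI_ne _
    have h5 := (key hM hw).1.1 hmem
    rw [hnorm p hp1] at h5
    nlinarith
  · intro q hq
    have hF := PhiF_mem hη hq.1
    have h5 := hne1 q hq
    refine ⟨hF.1, ?_⟩
    have h6 : ¬ (K' / ε < ‖(radMap m ((PhiF η q).1, st (PhiF η q).2)).2‖) := fun h =>
      hq.2 ((key hq.1 h5).1.2 h)
    rw [not_lt, le_div_iff₀ hpos] at h6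
    rw [norm_smul, Real.norm_of_nonneg (by positivity), div_mul_eq_mul_div, div_le_one hK']
    linarith
  · rintro p ⟨hp1, hp2⟩
    simp only
    rw [hPT p hp1]
    simp only [st_stI]
    have h5 : ((p.1, (g p).2) : Amb) = g p := Prod.ext (hg1 p).symm rfl
    rw [h5, hgrad p hp1]
    refine Prod.ext rfl ?_
    simp only [smul_smul]
    have : ε / K' * (K' / ε) = 1 := by field_simp
    rw [this, one_smul]
  · intro q hq
    have hF := PhiF_mem hη hq.1
    have h5 := hne1 q hq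
    have h6 : g ((radMap m ((PhiF η q).1, st (PhiF η q).2)).1,
      (ε / K') • (radMap m ((PhiF η q).1, st (PhiF η q).2)).2) = ((PhiF η q).1, st (PhiF η q).2) := by
      simp only [hgdef, smul_smul]
      have : K' / ε * (ε / K') = 1 := by field_simp
      rw [this, one_smul]
      exact hG4 ((PhiF η q).1, st (PhiF η q).2) hF.1
    simp only
    rw [h6]
    simp only [radMap]
    rw [stI_st hF.2 h5]
    exact PhiG_PhiF hη hq.1
  · rintro p ⟨hp1, hp2⟩
    have h1 : ContDiffAt ℝ ∞ g p := by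
      have h2 : ContDiffAt ℝ ∞ (fun p : Amb => ((p.1, (K' / ε) • p.2) : Amb)) p := by fun_prop
      exact ContDiffAt.comp p (hG1 (p.1, (K' / ε) • p.2) hp1) h2
    have h2 : ContDiffAt ℝ ∞ (fun p : Amb => ((p.1, stI (g p).2) : MAmb)) p := by
      refine contDiffAt_fst.prodMk ?_
      exact contDiff_stI.contDiffAt.comp p (contDiffAt_snd.comp p h1)
    exact ContDiffAt.comp p (contDiffAt_PhiG hη (hThM p hp1)) h2
  · intro q hq
    have hF := PhiF_mem hη hq.1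
    have h5 := hne1 q hq
    have h1 := contDiffAt_PhiF hη hq.1
    have h2 : ContDiffAt ℝ ∞ (fun q : MAmb => (((PhiF η q).1, st (PhiF η q).2) : Amb)) q := by
      refine (contDiffAt_fst.comp q h1).prodMk ?_
      exact ContDiffAt.comp (g := st) (f := fun q => (PhiF η q).2) q
        (contDiffAt_st (re_ne_one hF.2 h5)) (contDiffAt_snd.comp q h1)
    have h3 : ContDiffAt ℝ ∞ (fun q : MAmb => radMap m ((PhiF η q).1, st (PhiF η q).2)) q :=
      ContDiffAt.comp (g := radMap m)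
        (f := fun q : MAmb => (((PhiF η q).1, st (PhiF η q).2) : Amb)) q
        (contDiffAt_radMap hm (p := ((PhiF η q).1, st (PhiF η q).2)) hF.1) h2
    exact (contDiffAt_fst.comp q h3).prodMk ((contDiffAt_snd.comp q h3).const_smul (ε / K'))
  · rintro p ⟨hp1, hp2⟩
    have hM := PhiG_mem hη (hThM p hp1)
    have hw : (PhiF η (PhiG η (p.1, stI (g p).2))).2 ≠ 1 := by
      rw [hPT p hp1]
      exact stI_ne _
    have h5 := (key hM hw).2
    rw [hnorm p hp1] at h5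
    unfold bdM
    rw [h5]
    constructor
    · intro h
      rw [h, mul_one]
    · intro h
      have := mul_left_cancel₀ hKε.ne' (h.trans (mul_one (K' / ε)).symm)
      exact this
  · rintro p ⟨hp1, hp2⟩
    apply ContinuousAt.continuousWithinAt
    have h1 : ContinuousAt g p := by
      have h2 : ContinuousAt (fun p : Amb => ((p.1, (K' / ε) • p.2) : Amb)) p := by fun_prop
      exact ContinuousAt.comp (f := fun p : Amb => ((p.1, (K' / ε) • p.2) : Amb)) (x := p)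
        (hG1 (p.1, (K' / ε) • p.2) hp1).continuousAt h2
    have h2 : ContinuousAt (fun p : Amb => stI (g p).2) p := by
      have h3 : ContinuousAt (fun p : Amb => (g p).2) p := h1.snd
      exact ContinuousAt.comp (f := fun p : Amb => (g p).2) (x := p)
        (contDiff_stI.continuous.continuousAt) h3
    have h3 : ContinuousAt (fun p : Amb => cc p.1) p :=
      ContinuousAt.comp (f := fun p : Amb => p.1) (x := p) (contDiffAt_cc hp1).continuousAt
        continuousAt_fst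
    exact ContinuousAt.comp (f := fun p : Amb => cc p.1 * stI (g p).2) (x := p)
      hη.smooth.continuous.continuousAt (h3.mul h2)
  · rintro p ⟨hp1, hp2⟩
    rfl

end Pool.B203
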