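import Pool.Agent.Lib.B203.DegDefs

/-! Row Fab: the function `fab`. -/

open Set Metric Topology
open scoped ContDiff Quaternion ComplexConjugate

noncomputable section

namespace Pool.B203

private lemma continuous_clamp : Continuous clamp :=
  continuous_const.max (continuous_const.min continuous_id)

private lemma clamp_nonneg (s : ℝ) : 0 ≤ clamp s := le_max_left _ _

private lemma clamp_le_one (s : ℝ) : clamp s ≤ 1 := max_le zero_le_one (min_le_left _ _)

private lemma clamp_of_nonpos {s : ℝ} (h : s ≤ 0) : clamp s = 0 :=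
  max_eq_left ((min_le_right _ _).trans h)

private lemma clamp_of_one_le {s : ℝ} (h : 1 ≤ s) : clamp s = 1 := by
  unfold clamp
  rw [min_eq_left h]
  exact max_eq_right zero_le_one

private lemma clamp_eq_half {s : ℝ} (h : clamp s = 1 / 2) : s = 1 / 2 := by
  rcases le_total s 0 with h0 | h0
  · rw [clamp_of_nonpos h0] at h
    norm_num at h
  · rcases le_total 1 s with h1 | h1
    · rw [clamp_of_one_le h1] at h
      norm_num at h
    · unfold clamp at h
      rwa [min_eq_right h1, max_eq_right h0] at h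

private lemma isClosed_W : IsClosed W :=
  (isClosed_eq (continuous_fst.norm) continuous_const).inter
    (isClosed_le (continuous_snd.norm) continuous_const)

section
variable {B : Set Amb} {E : E3 × ℝ → Amb} (hE : Collar B E) {a b : ℝ}
include hE

theorem fab_apply (hab : a < b) {x : E3} (hx : x ∈ closedBall (0 : E3) 1)
    {t : ℝ} (ht : t ∈ Icc (-1 : ℝ) 1) :
    fab E a b (E (x, t)) = Complex.exp ((2 * Real.pi * clamp ((t - a) / (b - a)) : ℝ) * Complex.I) := by
  have h : ∃ q ∈ closedBall (0 : E3) 1 ×ˢ Icc (-1 : ℝ) 1, E q = E (x, t) :=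
    ⟨(x, t), ⟨hx, ht⟩, rfl⟩
  have h1 : h.choose = (x, t) := hE.inj h.choose_spec.1 ⟨hx, ht⟩ h.choose_spec.2
  unfold fab
  rw [dif_pos h, h1]

/-- outside the open collar `fab` is `1` -/
private lemma fab_aux (hab : a < b) {p : Amb}
    (hp : p ∉ E '' (closedBall 0 1 ×ˢ Ioo a b)) : fab E a b p = 1 := by
  by_cases h : ∃ q ∈ closedBall (0 : E3) 1 ×ˢ Icc (-1 : ℝ) 1, E q = p
  · obtain ⟨⟨x, t⟩, ⟨hx, ht⟩, rfl⟩ := h
    rw [fab_apply hE hab hx ht]
    have hba : 0 < b - a := sub_pos.2 hab
    have h1 : t ≤ a ∨ b ≤ t := by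
      by_contra hcon
      push Not at hcon
      exact hp ⟨(x, t), ⟨hx, hcon.1, hcon.2⟩, rfl⟩
    rcases h1 with h1 | h1
    · rw [clamp_of_nonpos (div_nonpos_of_nonpos_of_nonneg (sub_nonpos.2 h1) hba.le)]
      simp
    · rw [clamp_of_one_le ((one_le_div hba).2 (by linarith))]
      simp [Complex.exp_two_pi_mul_I]
  · unfold fab
    rw [dif_neg h]

theorem fab_of_not_mem (ha : -1 ≤ a) (hab : a < b) (hb : b ≤ 1) {p : Amb}
    (hp : p ∉ E '' (closedBall 0 1 ×ˢ Icc a b)) : fab E a b p = 1 :=
  fab_aux hE hab fun h => hp (image_mono (prod_mono Subset.rfl Ioo_subset_Icc_self) h)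

theorem norm_fab (p : Amb) : ‖fab E a b p‖ = 1 := by
  unfold fab
  split_ifs with h
  · exact Complex.norm_exp_ofReal_mul_I _
  · exact norm_one

theorem continuousOn_fab (ha : -1 ≤ a) (hab : a < b) (hb : b ≤ 1) : ContinuousOn (fab E a b) W := by
  obtain ⟨O, hO, hOW⟩ := hE.opn a b ha hb
  set K : Set (E3 × ℝ) := closedBall (0 : E3) 1 ×ˢ Icc (-1 : ℝ) 1 with hK
  have hKc : IsCompact K := (isCompact_closedBall _ _).prod isCompact_Icc
  have hS1 : IsClosed (E '' K) := (hKc.image_of_continuousOn hE.cont).isClosed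
  have hS2 : IsClosed (W \ O) := isClosed_W.sdiff hO
  have hsub : W ⊆ E '' K ∪ (W \ O) := by
    intro p hp
    by_cases h : p ∈ O
    · left
      have h1 : p ∈ E '' (closedBall 0 1 ×ˢ Ioo a b) := by
        rw [hOW]
        exact ⟨h, hp⟩
      refine image_mono (prod_mono Subset.rfl ?_) h1
      exact fun t ht => ⟨ha.trans ht.1.le, ht.2.le.trans hb⟩
    · exact Or.inr ⟨hp, h⟩
  have hc1 : ContinuousOn (fab E a b) (E '' K) := by
    have : CompactSpace K := isCompact_iff_compactSpace.1 hKc
    have he : Continuous (fun q : K => (⟨E q, mem_image_of_mem E q.2⟩ : E '' K)) :=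
      Continuous.subtype_mk (continuousOn_iff_continuous_domRestrict.1 hE.cont) _
    have hes : Function.Surjective (fun q : K => (⟨E q, mem_image_of_mem E q.2⟩ : E '' K)) := by
      rintro ⟨_, q, hq, rfl⟩
      exact ⟨⟨q, hq⟩, rfl⟩
    have hq : IsQuotientMap (fun q : K => (⟨E q, mem_image_of_mem E q.2⟩ : E '' K)) :=
      he.isClosedMap.isQuotientMap he hes
    rw [continuousOn_iff_continuous_domRestrict, hq.continuous_iff]
    have h2 : ((E '' K).domRestrict (fab E a b)) ∘
        (fun q : K => (⟨E q, mem_image_of_mem E q.2⟩ : E '' K)) = fun q : K =>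
        Complex.exp ((2 * Real.pi * clamp ((q.1.2 - a) / (b - a)) : ℝ) * Complex.I) := by
      funext q
      obtain ⟨⟨x, t⟩, hx, ht⟩ := q
      exact fab_apply hE hab hx ht
    rw [h2]
    refine Complex.continuous_exp.comp ?_
    refine (Complex.continuous_ofReal.comp ?_).mul continuous_const
    refine continuous_const.mul (continuous_clamp.comp ?_)
    exact ((continuous_snd.comp continuous_subtype_val).sub continuous_const).div_const _
  have hc2 : ContinuousOn (fab E a b) (W \ O) := by
    refine (continuousOn_const (c := (1 : ℂ))).congr fun p hp => ?_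
    refine fab_aux hE hab fun h => ?_
    rw [hOW] at h
    exact hp.2 h.1
  exact (hc1.union_of_isClosed hc2 hS1 hS2).mono hsub

theorem fab_eq_neg_one_iff (ha : -1 ≤ a) (hab : a < b) (hb : b ≤ 1) (p : Amb) :
    fab E a b p = -1 ↔ ∃ x ∈ closedBall (0 : E3) 1, E (x, (a + b) / 2) = p := by
  have hba : 0 < b - a := sub_pos.2 hab
  constructor
  · intro h
    by_cases h1 : ∃ q ∈ closedBall (0 : E3) 1 ×ˢ Icc (-1 : ℝ) 1, E q = p
    · obtain ⟨⟨x, t⟩, ⟨hx, ht⟩, rfl⟩ := h1
      refine ⟨x, hx, ?_⟩
      rw [fab_apply hE hab hx ht] at h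
      set c := clamp ((t - a) / (b - a)) with hc
      have hc0 : 0 ≤ c := clamp_nonneg _
      have hc1 : c ≤ 1 := clamp_le_one _
      have h2 : Real.cos (2 * Real.pi * c) = -1 := by
        have := congrArg Complex.re h
        rwa [Complex.exp_ofReal_mul_I_re, Complex.neg_re, Complex.one_re] at this
      have h3 : Real.cos (2 * Real.pi * c - Real.pi) = 1 := by
        rw [Real.cos_sub_pi, h2, neg_neg]
      have hpi := Real.pi_pos
      have h4 : 2 * Real.pi * c - Real.pi = 0 := by
        refine (Real.cos_eq_one_iff_of_lt_of_lt ?_ ?_).1 h3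
        · nlinarith
        · nlinarith
      have h5 : c = 1 / 2 := by
        have : Real.pi * (2 * c - 1) = 0 := by linarith
        rcases mul_eq_zero.1 this with h6 | h6
        · exact absurd h6 hpi.ne'
        · linarith
      have h6 : (t - a) / (b - a) = 1 / 2 := clamp_eq_half (hc ▸ h5)
      have h7 : t = (a + b) / 2 := by
        rw [div_eq_iff hba.ne'] at h6
        linarith
      rw [h7]
    · exfalso
      unfold fab at h
      rw [dif_neg h1] at h
      norm_num at h
  · rintro ⟨x, hx, rfl⟩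
    rw [fab_apply hE hab hx ⟨by linarith, by linarith⟩]
    have h1 : ((a + b) / 2 - a) / (b - a) = 1 / 2 := by
      rw [div_eq_iff hba.ne']
      ring
    rw [h1]
    have h2 : clamp (1 / 2) = 1 / 2 := by
      unfold clamp
      norm_num
    rw [h2]
    have h3 : (2 * Real.pi * (1 / 2) : ℝ) = Real.pi := by ring
    rw [h3]
    exact Complex.exp_pi_mul_I

end

end Pool.B203
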