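import Pool.Agent.Lib.B203.Defs

open Set Metric Topology
open scoped ContDiff Quaternion ComplexConjugate

noncomputable section

namespace Pool.B203

/-- convexity along a ray -/
private theorem gauge_ray {V : Type*} [NormedAddCommGroup V] [NormedSpace ℝ V] {c : V → ℝ}
    (hc : ConvexOn ℝ univ c) {x₀ v : V} {r s : ℝ} (hr : 0 < r) (hrs : r < s) :
    c (x₀ + r • v) ≤ (1 - r / s) * c x₀ + (r / s) * c (x₀ + s • v) := by
  have hs : 0 < s := hr.trans hrs
  have h1 : r / s < 1 := (div_lt_one hs).2 hrs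
  have h2 : 0 < r / s := div_pos hr hs
  have h := hc.2 (mem_univ x₀) (mem_univ (x₀ + s • v)) (sub_nonneg.2 h1.le) h2.le
    (sub_add_cancel 1 (r / s))
  have h3 : (1 - r / s) • x₀ + (r / s) • (x₀ + s • v) = x₀ + r • v := by
    rw [smul_add, smul_smul, div_mul_cancel₀ _ hs.ne', ← add_assoc, ← add_smul,
      sub_add_cancel, one_smul]
  rw [h3] at h
  simpa [smul_eq_mul] using h

/-- once `c ≤ m` at `s`, it is `< m` at smaller points. -/
private theorem gauge_lt {V : Type*} [NormedAddCommGroup V] [NormedSpace ℝ V] {c : V → ℝ}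
    (hc : ConvexOn ℝ univ c) {x₀ v : V} {m : ℝ} (h0 : c x₀ < m) {r s : ℝ} (hr : 0 < r)
    (hrs : r < s) (hs : c (x₀ + s • v) ≤ m) : c (x₀ + r • v) < m := by
  have hs0 : 0 < s := hr.trans hrs
  have h1 : r / s < 1 := (div_lt_one hs0).2 hrs
  have h2 : 0 < r / s := div_pos hr hs0
  have h := gauge_ray hc (x₀ := x₀) (v := v) hr hrs
  have h3 : (1 - r / s) * c x₀ < (1 - r / s) * m := mul_lt_mul_of_pos_left h0 (sub_pos.2 h1)
  have h4 : (r / s) * c (x₀ + s • v) ≤ (r / s) * m := mul_le_mul_of_nonneg_left hs h2.le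
  have h5 : (1 - r / s) * m + (r / s) * m = m := by ring
  linarith

private theorem gauge_exists {V : Type*} [NormedAddCommGroup V] [NormedSpace ℝ V] {c : V → ℝ}
    (hcont : Continuous c) {x₀ : V} {m : ℝ} (h0 : c x₀ < m)
    (hb : Bornology.IsBounded {x | c x ≤ m}) {v : V} (hv : v ≠ 0) :
    ∃ r : ℝ, 0 < r ∧ c (x₀ + r • v) = m := by
  obtain ⟨C, hC⟩ := hb.exists_norm_le
  have hv' : 0 < ‖v‖ := norm_pos_iff.2 hv
  have hCn : 0 ≤ ‖x₀‖ := norm_nonneg _
  have hC0 : ‖x₀‖ ≤ C := hC x₀ h0.le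
  set s : ℝ := (C + ‖x₀‖ + 1) / ‖v‖ with hs
  have hs0 : 0 < s := div_pos (by linarith) hv'
  have hbig : m < c (x₀ + s • v) := by
    by_contra hcon
    have h1 := hC (x₀ + s • v) (not_lt.1 hcon)
    have h2 : ‖s • v‖ ≤ ‖x₀ + s • v‖ + ‖x₀‖ := by
      have := norm_sub_le (x₀ + s • v) x₀
      simpa using this
    rw [norm_smul, Real.norm_eq_abs, abs_of_pos hs0, hs, div_mul_cancel₀ _ hv'.ne'] at h2
    linarith
  have hf : ContinuousOn (fun r : ℝ => c (x₀ + r • v)) (Icc 0 s) :=
    (hcont.comp (continuous_const.add (continuous_id.smul continuous_const))).continuousOn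
  have hmem : m ∈ Icc ((fun r : ℝ => c (x₀ + r • v)) 0) ((fun r : ℝ => c (x₀ + r • v)) s) := by
    constructor
    · simp only [zero_smul, add_zero]; exact h0.le
    · exact hbig.le
  obtain ⟨r, hr, hrm⟩ := intermediate_value_Icc hs0.le hf hmem
  refine ⟨r, ?_, hrm⟩
  rcases eq_or_lt_of_le hr.1 with h | h
  · exfalso
    rw [← h] at hrm
    simp only [zero_smul, add_zero] at hrm
    linarith
  · exact h

/-- Row G2: the radial function of a bounded convex body `{c ≤ m}` about an interior point `x₀`. -/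
theorem exists_radial {V : Type*} [NormedAddCommGroup V] [NormedSpace ℝ V] {c : V → ℝ}
    (hc : ConvexOn ℝ univ c) (hcont : Continuous c) {x₀ : V} {m : ℝ} (h0 : c x₀ < m)
    (hb : Bornology.IsBounded {x | c x ≤ m}) :
    ∃ R : V → ℝ, ContinuousOn R {0}ᶜ ∧ (∀ v, v ≠ 0 → 0 < R v ∧ c (x₀ + R v • v) = m) ∧
      (∀ v, v ≠ 0 → ∀ r, 0 < r → c (x₀ + r • v) = m → r = R v) ∧
      (∀ v, v ≠ 0 → ∀ r, 0 < r → (c (x₀ + r • v) ≤ m ↔ r ≤ R v)) := by
  classical
  have hex : ∀ v : V, ∃ r : ℝ, v ≠ 0 → 0 < r ∧ c (x₀ + r • v) = m := by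
    intro v
    by_cases hv : v = 0
    · exact ⟨0, fun h => absurd hv h⟩
    · obtain ⟨r, hr⟩ := gauge_exists hcont h0 hb hv
      exact ⟨r, fun _ => hr⟩
  choose R hR using hex
  have hle : ∀ v, v ≠ 0 → ∀ r, 0 < r → (c (x₀ + r • v) ≤ m ↔ r ≤ R v) := by
    intro v hv r hr
    obtain ⟨hp, he⟩ := hR v hv
    constructor
    · intro h
      by_contra hcon
      have := gauge_lt hc h0 hp (not_le.1 hcon) h
      linarith
    · intro h
      rcases eq_or_lt_of_le h with h | h
      · rw [h, he]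
      · exact (gauge_lt hc h0 hr h he.le).le
  have hlt : ∀ v, v ≠ 0 → ∀ r, 0 < r → (c (x₀ + r • v) < m ↔ r < R v) := by
    intro v hv r hr
    obtain ⟨hp, he⟩ := hR v hv
    constructor
    · intro h
      rcases eq_or_lt_of_le ((hle v hv r hr).1 h.le) with h' | h'
      · rw [h', he] at h; exact absurd h (lt_irrefl _)
      · exact h'
    · intro h
      exact gauge_lt hc h0 hr h he.le
  refine ⟨R, ?_, hR, ?_, hle⟩
  · intro v hv
    have hv' : v ≠ 0 := by simpa using hv
    apply ContinuousAt.continuousWithinAt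
    obtain ⟨hp, he⟩ := hR v hv'
    have hne : ∀ᶠ w in 𝓝 v, w ≠ 0 := isOpen_ne.mem_nhds hv'
    rw [ContinuousAt, tendsto_order]
    constructor
    · intro a ha
      obtain ⟨b, hab, hb'⟩ := exists_between (max_lt ha hp)
      have hb0 : 0 < b := lt_of_le_of_lt (le_max_right _ _) hab
      have h1 : c (x₀ + b • v) < m := (hlt v hv' b hb0).2 hb'
      have hcc : Continuous (fun w : V => c (x₀ + b • w)) :=
        hcont.comp (continuous_const.add (continuous_const.smul continuous_id))
      have h2 : ∀ᶠ w in 𝓝 v, c (x₀ + b • w) < m := hcc.continuousAt.eventually_lt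
        continuousAt_const h1
      filter_upwards [hne, h2] with w hw hw2
      have := (hlt w hw b hb0).1 hw2
      exact (lt_of_le_of_lt (le_max_left _ _) hab).trans this
    · intro a ha
      obtain ⟨b, hb1, hb2⟩ := exists_between ha
      have hb0 : 0 < b := hp.trans hb1
      have h1 : m < c (x₀ + b • v) := by
        by_contra hcon
        have := (hle v hv' b hb0).1 (not_lt.1 hcon)
        linarith
      have hcc : Continuous (fun w : V => c (x₀ + b • w)) :=
        hcont.comp (continuous_const.add (continuous_const.smul continuous_id))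
      have h2 : ∀ᶠ w in 𝓝 v, m < c (x₀ + b • w) := continuousAt_const.eventually_lt
        hcc.continuousAt h1
      filter_upwards [hne, h2] with w hw hw2
      have : ¬ (b ≤ R w) := fun h => absurd ((hle w hw b hb0).2 h) (not_le.2 hw2)
      exact (not_le.1 this).trans hb2
  · intro v hv r hr h
    obtain ⟨hp, he⟩ := hR v hv
    refine le_antisymm ((hle v hv r hr).1 h.le) ?_
    by_contra hcon
    have := (hlt v hv r hr).2 (not_le.1 hcon)
    linarith

end Pool.B203
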