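import Pool.Agent.Lib.B203.QN

/-! Row C6: small meridians of `D_x` in the boundary. -/

open Set Metric Topology
open scoped ContDiff Quaternion ComplexConjugate

noncomputable section

namespace Pool.B203

/-- the planar part of the chart expression of the tube -/
private def Mer_P (σ : ℝ) (x : ℝ × ℝ) : ℝ × ℝ :=
  (x.1 + 2 * Real.pi * σ * Real.sin x.1 - Real.cos (2 * x.1) * x.2,
    Real.sin x.1 * Real.cos x.1 + (1 + 2 * Real.pi * σ * Real.cos x.1) * x.2)

private theorem Mer_P_neg (σ : ℝ) (x : ℝ × ℝ) : Mer_P σ (-x) = -Mer_P σ x := by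
  refine Prod.ext ?_ ?_
  · simp only [Mer_P, Prod.fst_neg, Prod.snd_neg, Real.sin_neg, mul_neg, Real.cos_neg]
    ring
  · simp only [Mer_P, Prod.fst_neg, Prod.snd_neg, Real.sin_neg, mul_neg, Real.cos_neg]
    ring

private theorem Mer_P_zero (σ : ℝ) : Mer_P σ 0 = 0 := by
  refine Prod.ext ?_ ?_ <;> simp [Mer_P]

private theorem Mer_contDiff (σ : ℝ) : ContDiff ℝ ∞ (Mer_P σ) := by
  unfold Mer_P
  fun_prop

private theorem Mer_kap (σ φ : ℝ) (u : E3) : (kap (J σ (Complex.exp (φ * Complex.I), u))).1 =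
    ell (Complex.exp ((Mer_P σ (φ, u 0)).1 * Complex.I)) (Mer_P σ (φ, u 0)).2 := by
  rw [J_exp]
  rfl

private theorem Mer_deriv (σ : ℝ) :
    Function.Injective (fderiv ℝ (Mer_P σ) 0) := by
  rw [injective_iff_map_eq_zero]
  rintro ⟨a, w⟩ haw
  have hF : HasFDerivAt (Mer_P σ) (fderiv ℝ (Mer_P σ) 0) 0 :=
    ((Mer_contDiff σ).differentiable (by simp)).differentiableAt.hasFDerivAt
  have hγ : HasDerivAt (fun t : ℝ => ((t * a, t * w) : ℝ × ℝ)) (a, w) 0 := by
    refine HasDerivAt.prodMk ?_ ?_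
    · simpa using (hasDerivAt_id (0 : ℝ)).mul_const a
    · simpa using (hasDerivAt_id (0 : ℝ)).mul_const w
  have hcomp : HasDerivAt (fun t : ℝ => Mer_P σ (t * a, t * w)) 0 0 := by
    have h := HasFDerivAt.comp_hasDerivAt (x := (0 : ℝ)) (f := fun t : ℝ =>
      ((t * a, t * w) : ℝ × ℝ)) (l := Mer_P σ) (l' := fderiv ℝ (Mer_P σ) 0)
      (by simp only [zero_mul]; exact hF) hγ
    rwa [haw] at h
  have hc1 : HasDerivAt (fun t : ℝ => (Mer_P σ (t * a, t * w)).1) 0 0 := by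
    have h := (hasFDerivAt_fst (𝕜 := ℝ) (E := ℝ) (F := ℝ)).comp_hasDerivAt (0 : ℝ) hcomp
    rw [map_zero] at h
    exact h
  have hc2 : HasDerivAt (fun t : ℝ => (Mer_P σ (t * a, t * w)).2) 0 0 := by
    have h := (hasFDerivAt_snd (𝕜 := ℝ) (E := ℝ) (F := ℝ)).comp_hasDerivAt (0 : ℝ) hcomp
    rw [map_zero] at h
    exact h
  have hlin : HasDerivAt (fun t : ℝ => t * a) a 0 := by
    simpa using (hasDerivAt_id (0 : ℝ)).mul_const a
  have hlinw : HasDerivAt (fun t : ℝ => t * w) w 0 := by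
    simpa using (hasDerivAt_id (0 : ℝ)).mul_const w
  have hlin2 : HasDerivAt (fun t : ℝ => 2 * (t * a)) (2 * a) 0 := hlin.const_mul 2
  have e1 : a * (1 + 2 * Real.pi * σ) - w = 0 := by
    have h2 := (hlin.add ((hlin.sin).const_mul (2 * Real.pi * σ))).sub ((hlin2.cos).mul hlinw)
    have h4 := h2.unique hc1
    simp at h4
    linarith
  have e2 : a + (1 + 2 * Real.pi * σ) * w = 0 := by
    have h2 := ((hlin.sin).mul (hlin.cos)).add
      ((((hlin.cos).const_mul (2 * Real.pi * σ)).const_add 1).mul hlinw)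
    have h4 := h2.unique hc2
    simp at h4
    linarith
  set c := 1 + 2 * Real.pi * σ
  have hc : 0 < c * c + 1 := by nlinarith [mul_self_nonneg c]
  have ha : a = 0 := by
    have h1 : (c * c + 1) * a = 0 := by linear_combination c * e1 + e2
    rcases mul_eq_zero.1 h1 with h2 | h2
    · exact absurd h2 hc.ne'
    · exact h2
  have hw : w = 0 := by
    rw [ha] at e1
    linarith
  rw [ha, hw]
  rfl

private theorem Mer_local (σ : ℝ) :
    ∃ e : OpenPartialHomeomorph (ℝ × ℝ) (ℝ × ℝ), (∀ x, e x = Mer_P σ x) ∧ (0 : ℝ × ℝ) ∈ e.source := by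
  have hs : HasStrictFDerivAt (Mer_P σ) (fderiv ℝ (Mer_P σ) 0) 0 :=
    ((Mer_contDiff σ).contDiffAt).hasStrictFDerivAt (by simp)
  let L : (ℝ × ℝ) ≃L[ℝ] (ℝ × ℝ) := (LinearEquiv.ofInjectiveEndo
    (fderiv ℝ (Mer_P σ) 0 : (ℝ × ℝ) →ₗ[ℝ] (ℝ × ℝ)) (Mer_deriv σ)).toContinuousLinearEquiv
  have he : (L : (ℝ × ℝ) →L[ℝ] (ℝ × ℝ)) = fderiv ℝ (Mer_P σ) 0 := by
    exact ContinuousLinearMap.ext fun x => rfl
  rw [← he] at hs
  refine ⟨hs.toOpenPartialHomeomorph, fun x => ?_, hs.mem_toOpenPartialHomeomorph_source⟩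
  rw [hs.toOpenPartialHomeomorph_coe]

/-- the argument is continuous on the closed upper half plane without the origin -/
private theorem Mer_arg {w : ℂ} (hw : w ≠ 0) :
    ContinuousWithinAt Complex.arg {z : ℂ | 0 ≤ z.im} w := by
  by_cases h : w ∈ Complex.slitPlane
  · exact (Complex.continuousAt_arg h).continuousWithinAt
  · rw [Complex.mem_slitPlane_iff] at h
    push Not at h
    refine Complex.continuousWithinAt_arg_of_re_neg_of_im_zero ?_ h.2
    refine lt_of_le_of_ne h.1 fun h0 => hw ?_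
    exact Complex.ext h0 h.2

/-- the choice of the argument of a small loop -/
private theorem Mer_alpha {w : ℝ → ℂ} (hw : ContinuousOn w (Icc 0 1)) (hne : ∀ t ∈ Icc (0 : ℝ) 1, w t ≠ 0)
    (h1 : ∀ t ∈ Icc (0 : ℝ) (1 / 2), 0 ≤ (w t).im) (h2 : ∀ t ∈ Icc (1 / 2 : ℝ) 1, (w t).im ≤ 0)
    (h0 : (w 0).re < 0 ∧ (w 0).im = 0) (hh : 0 < (w (1 / 2)).re ∧ (w (1 / 2)).im = 0)
    (h3 : (w 1).re < 0 ∧ (w 1).im = 0) :
    ∃ α : ℝ → ℝ, ContinuousOn α (Icc 0 1) ∧ α 1 = α 0 - 2 * Real.pi ∧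
      ∀ t ∈ Icc (0 : ℝ) 1, w t = ‖w t‖ * Complex.exp (α t * Complex.I) := by
  classical
  let f : ℝ → ℝ := fun t => Complex.arg (w t)
  let g : ℝ → ℝ := fun t => -Complex.arg (conj (w t))
  have hsub1 : Icc (0 : ℝ) (1 / 2) ⊆ Icc 0 1 := Icc_subset_Icc_right (by norm_num)
  have hsub2 : Icc (1 / 2 : ℝ) 1 ⊆ Icc 0 1 := Icc_subset_Icc_left (by norm_num)
  have hf : ContinuousOn f (Icc 0 (1 / 2)) := by
    intro t ht
    refine ContinuousWithinAt.comp (t := {z : ℂ | 0 ≤ z.im}) (Mer_arg (hne t (hsub1 ht)))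
      ((hw t (hsub1 ht)).mono hsub1) fun s hs => h1 s hs
  have hg : ContinuousOn g (Icc (1 / 2) 1) := by
    intro t ht
    have hne' : conj (w t) ≠ 0 := by
      rw [Ne, map_eq_zero]
      exact hne t (hsub2 ht)
    refine ContinuousWithinAt.neg ?_
    refine ContinuousWithinAt.comp (t := {z : ℂ | 0 ≤ z.im}) (g := Complex.arg)
      (f := fun t => conj (w t)) (Mer_arg hne') ?_ ?_
    · exact Complex.continuous_conj.continuousAt.comp_continuousWithinAt
        ((hw t (hsub2 ht)).mono hsub2)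
    · intro s hs
      have := h2 s hs
      change 0 ≤ (conj (w s)).im
      rw [Complex.conj_im]
      linarith
  have hfg : f (1 / 2) = g (1 / 2) := by
    have h5 : w (1 / 2) = (((w (1 / 2)).re : ℝ) : ℂ) := by
      refine Complex.ext ?_ ?_
      · rw [Complex.ofReal_re]
      · rw [hh.2, Complex.ofReal_im]
    simp only [f, g]
    rw [h5, Complex.conj_ofReal, Complex.arg_ofReal_of_nonneg hh.1.le, neg_zero]
  refine ⟨fun t => if t ≤ 1 / 2 then f t else g t, ?_, ?_, ?_⟩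
  · have hu : Icc (0 : ℝ) 1 = Icc 0 (1 / 2) ∪ Icc (1 / 2) 1 := by
      rw [Icc_union_Icc_eq_Icc (by norm_num) (by norm_num)]
    rw [hu]
    refine ContinuousOn.union_of_isClosed ?_ ?_ isClosed_Icc isClosed_Icc
    · refine hf.congr fun t ht => ?_
      simp only [if_pos ht.2]
    · refine hg.congr fun t ht => ?_
      rcases eq_or_lt_of_le ht.1 with h | h
      · rw [← h]
        simp only [le_refl, if_true]
        exact hfg
      · simp only [if_neg (not_le.2 h)]
  · have hn : ¬ ((1 : ℝ) ≤ 1 / 2) := by norm_num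
    have hz : ((0 : ℝ) ≤ 1 / 2) := by norm_num
    simp only [if_neg hn, if_pos hz, f, g]
    have h5 : w 1 = (((w 1).re : ℝ) : ℂ) := by
      refine Complex.ext ?_ ?_
      · rw [Complex.ofReal_re]
      · rw [h3.2, Complex.ofReal_im]
    have h6 : w 0 = (((w 0).re : ℝ) : ℂ) := by
      refine Complex.ext ?_ ?_
      · rw [Complex.ofReal_re]
      · rw [h0.2, Complex.ofReal_im]
    rw [h5, h6, Complex.conj_ofReal, Complex.arg_ofReal_of_neg h3.1, Complex.arg_ofReal_of_neg h0.1]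
    ring
  · intro t ht
    by_cases h : t ≤ 1 / 2
    · simp only [if_pos h, f]
      exact (Complex.norm_mul_exp_arg_mul_I (w t)).symm
    · simp only [if_neg h, g]
      have h5 := Complex.norm_mul_exp_arg_mul_I (conj (w t))
      have h6 := congrArg (starRingEnd ℂ) h5
      rw [map_mul, Complex.conj_conj, Complex.conj_ofReal, ← Complex.exp_conj, map_mul,
        Complex.conj_I, Complex.conj_ofReal, Complex.norm_conj] at h6
      have h7 : ((-Complex.arg (conj (w t)) : ℝ) : ℂ) * Complex.I =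
          ((Complex.arg (conj (w t)) : ℝ) : ℂ) * -Complex.I := by
        push_cast
        ring
      rw [h7]
      exact h6.symm

theorem exists_meridian {σ ε : ℝ} (hσ : σ = 1 ∨ σ = -1) (hg : Good σ ε) {U : Set Amb} (hU : IsOpen U)
    (hD : ∀ q ∈ Q σ ε, q.1 = 1 → q ∈ U) :
    ∃ (m : ℝ → Amb) (α : ℝ → ℝ), ContinuousOn m (Icc 0 1) ∧ ContinuousOn α (Icc 0 1) ∧
      (∀ t ∈ Icc (0 : ℝ) 1, m t ∈ bdQ σ ε ∧ m t ∈ U ∧ (m t).1 ≠ 1 ∧ (m t).1 ≠ -1 ∧
        (m t).1 = 1 + ‖(m t).1 - 1‖ * Complex.exp (α t * Complex.I)) ∧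
      m 0 = m 1 ∧ α 1 = α 0 - 2 * Real.pi := by
  obtain ⟨e, heP, he0⟩ := Mer_local σ
  have hε := hg.pos
  let uu : ℝ → E3 := fun s => !₂[s, √(ε ^ 2 - s ^ 2), 0]
  let Φ : ℝ × ℝ → Amb := fun x => kap (J σ (Complex.exp (x.1 * Complex.I), uu x.2))
  have huu : ∀ s, |s| ≤ ε → ‖uu s‖ = ε := by
    intro s hs
    have h1 : 0 ≤ ε ^ 2 - s ^ 2 := by
      have := sq_le_sq' (abs_le.1 hs).1 (abs_le.1 hs).2
      linarith
    rw [EuclideanSpace.norm_eq, Fin.sum_univ_three]
    simp only [uu, Real.norm_eq_abs, sq_abs]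
    have h2 : (s ^ 2 + √(ε ^ 2 - s ^ 2) ^ 2 + 0 ^ 2 : ℝ) = ε ^ 2 := by
      rw [Real.sq_sqrt h1]
      ring
    change √(s ^ 2 + √(ε ^ 2 - s ^ 2) ^ 2 + 0 ^ 2) = ε
    rw [h2, Real.sqrt_sq hε.le]
  have huc : Continuous uu := by
    refine (PiLp.continuous_toLp 2 _).comp (continuous_pi fun i => ?_)
    fin_cases i
    · exact continuous_id
    · exact (continuous_const.sub (continuous_id.pow 2)).sqrt
    · exact continuous_const
  let pre : ℝ × ℝ → Amb := fun x => (Complex.exp (x.1 * Complex.I), uu x.2)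
  have hprec : Continuous pre := by
    refine Continuous.prodMk ?_ (huc.comp continuous_snd)
    exact Complex.continuous_exp.comp
      ((Complex.continuous_ofReal.comp continuous_fst).mul continuous_const)
  have hpreC : ∀ x : ℝ × ℝ, |x.2| ≤ ε → pre x ∈ tubC ε := fun x hx =>
    ⟨Complex.norm_exp_ofReal_mul_I _, (huu _ hx).le⟩
  have hpreB : ∀ x : ℝ × ℝ, |x.2| ≤ ε → pre x ∈ tubB ε := fun x hx =>
    ⟨Complex.norm_exp_ofReal_mul_I _, huu _ hx⟩
  have hΦc : ContinuousOn Φ {x | |x.2| ≤ ε} := by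
    refine continuous_kap.comp_continuousOn ?_
    exact hg.cont.comp hprec.continuousOn fun x hx => hpreC x hx
  have hΦb : ∀ x : ℝ × ℝ, |x.2| ≤ ε → Φ x ∈ bdQ σ ε := fun x hx =>
    ⟨_, ⟨_, hpreB x hx, rfl⟩, rfl⟩
  have hΦ1 : ∀ x : ℝ × ℝ, (Φ x).1 =
      ell (Complex.exp ((Mer_P σ x).1 * Complex.I)) (Mer_P σ x).2 := fun x => Mer_kap σ x.1 (uu x.2)
  have h0ε : |(0 : ℝ × ℝ).2| ≤ ε := by
    rw [Prod.snd_zero, abs_zero]
    exact hε.le
  have hΦ0 : Φ 0 ∈ U := by
    refine hD _ (bdQ_subset_Q hg (hΦb 0 h0ε)) ?_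
    rw [hΦ1, Mer_P_zero]
    rw [Prod.fst_zero, Prod.snd_zero, Complex.ofReal_zero, zero_mul, Complex.exp_zero]
    exact (ell_eq_one_iff norm_one).2 ⟨rfl, rfl⟩
  have hεn : {x : ℝ × ℝ | |x.2| ≤ ε} ∈ 𝓝 (0 : ℝ × ℝ) := by
    have h1 : {x : ℝ × ℝ | |x.2| < ε} ∈ 𝓝 (0 : ℝ × ℝ) :=
      (isOpen_lt continuous_snd.abs continuous_const).mem_nhds
        (by change |(0 : ℝ × ℝ).2| < ε; rw [Prod.snd_zero, abs_zero]; exact hε)
    exact Filter.mem_of_superset h1 fun x (hx : |x.2| < ε) => (show |x.2| ≤ ε from hx.le)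
  have hΦU : ∀ᶠ x in 𝓝 (0 : ℝ × ℝ), Φ x ∈ U :=
    (hΦc.continuousAt hεn).eventually (hU.mem_nhds hΦ0)
  have hev1 : ∀ᶠ x in 𝓝 (0 : ℝ × ℝ), x ∈ e.source := e.open_source.mem_nhds he0
  have hev2 : ∀ᶠ x in 𝓝 (0 : ℝ × ℝ), |x.2| ≤ ε := hεn
  obtain ⟨r, hr, hr1⟩ := Metric.eventually_nhds_iff_ball.1 ((hev1.and hev2).and hΦU)
  have he00 : e 0 = 0 := by rw [heP, Mer_P_zero]
  have ht0 : (0 : ℝ × ℝ) ∈ e.target := by
    rw [← he00]
    exact e.map_source he0
  have hs0 : e.symm 0 = 0 := by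
    conv_lhs => rw [← he00]
    exact e.left_inv he0
  have hsc : ∀ᶠ y in 𝓝 (0 : ℝ × ℝ), e.symm y ∈ ball (0 : ℝ × ℝ) r := by
    have h1 := e.continuousAt_symm ht0
    refine h1.eventually (Metric.isOpen_ball.mem_nhds ?_)
    rw [hs0]
    exact mem_ball_self hr
  have hev3 : ∀ᶠ x in 𝓝 (0 : ℝ × ℝ), x ∈ e.target := e.open_target.mem_nhds ht0
  obtain ⟨δ', hδ', hδ1⟩ := Metric.eventually_nhds_iff_ball.1 (hev3.and hsc)
  set δ := min (δ' / 2) 1 with hδdef
  have hδ : 0 < δ := lt_min (by linarith) one_pos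
  have hδ2 : δ < δ' := lt_of_le_of_lt (min_le_left _ _) (by linarith)
  have hδ3 : δ ≤ 1 := min_le_right _ _
  let y : ℝ → ℝ × ℝ := fun t => (δ * Real.cos (Real.pi * t), δ * Real.sin (Real.pi * t))
  have hyb : ∀ t, y t ∈ ball (0 : ℝ × ℝ) δ' := by
    intro t
    rw [mem_ball_zero_iff, Prod.norm_def]
    refine lt_of_le_of_lt (max_le ?_ ?_) hδ2
    · simp only [y, Real.norm_eq_abs, abs_mul, abs_of_pos hδ]
      nlinarith [Real.abs_cos_le_one (Real.pi * t)]
    · simp only [y, Real.norm_eq_abs, abs_mul, abs_of_pos hδ]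
      nlinarith [Real.abs_sin_le_one (Real.pi * t)]
  have hyc : Continuous y := by
    refine Continuous.prodMk ?_ ?_
    · exact continuous_const.mul (Real.continuous_cos.comp (continuous_const.mul continuous_id))
    · exact continuous_const.mul (Real.continuous_sin.comp (continuous_const.mul continuous_id))
  let x : ℝ → ℝ × ℝ := fun t => e.symm (y t)
  have hxc : Continuous x := by
    rw [continuous_iff_continuousAt]
    intro t
    exact (e.continuousAt_symm (hδ1 _ (hyb t)).1).comp hyc.continuousAt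
  have hxr : ∀ t, x t ∈ ball (0 : ℝ × ℝ) r := fun t => (hδ1 _ (hyb t)).2
  have hxε : ∀ t, |(x t).2| ≤ ε := fun t => (hr1 _ (hxr t)).1.2
  have hPx : ∀ t, Mer_P σ (x t) = y t := by
    intro t
    rw [← heP]
    exact e.right_inv (hδ1 _ (hyb t)).1
  let m : ℝ → Amb := fun t => Φ (x t)
  have hmc : Continuous m := hΦc.comp_continuous hxc hxε
  have hm1 : ∀ t, (m t).1 = ell (Complex.exp ((δ * Real.cos (Real.pi * t) : ℝ) * Complex.I))
      (δ * Real.sin (Real.pi * t)) := by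
    intro t
    change (Φ (x t)).1 = _
    rw [hΦ1, hPx]
  have hre : ∀ t, (m t).1.re = √(1 + (δ * Real.sin (Real.pi * t)) ^ 2) *
      Real.cos (δ * Real.cos (Real.pi * t)) := by
    intro t
    rw [hm1, ell, Complex.exp_ofReal_mul_I_re]
  have him : ∀ t, (m t).1.im = (δ * Real.sin (Real.pi * t)) *
      Real.sin (δ * Real.cos (Real.pi * t)) := by
    intro t
    rw [hm1, ell, Complex.exp_ofReal_mul_I_im]
  have habs : ∀ t, |δ * Real.cos (Real.pi * t)| ≤ 1 := by
    intro t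
    rw [abs_mul, abs_of_pos hδ]
    have h1 := Real.abs_cos_le_one (Real.pi * t)
    have h2 := abs_nonneg (Real.cos (Real.pi * t))
    nlinarith
  have hpi := Real.pi_gt_d2
  have hne1 : ∀ t, (m t).1 ≠ 1 := by
    intro t h1
    have h2 : (m t).1.re = 1 := by rw [h1]; rfl
    have h3 : (m t).1.im = 0 := by rw [h1]; rfl
    rw [hre] at h2
    rw [him] at h3
    have hsum : (δ * Real.cos (Real.pi * t)) ^ 2 + (δ * Real.sin (Real.pi * t)) ^ 2 = δ ^ 2 := by
      have := Real.sin_sq_add_cos_sq (Real.pi * t)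
      linear_combination δ ^ 2 * this
    have ha := habs t
    rw [abs_le] at ha
    set a := δ * Real.cos (Real.pi * t)
    set b := δ * Real.sin (Real.pi * t)
    have hcontra : a = 0 → b = 0 → False := by
      intro ha0 hb0
      rw [ha0, hb0] at hsum
      nlinarith
    rcases mul_eq_zero.1 h3 with h4 | h4
    · refine hcontra ?_ h4
      rw [h4] at h2
      rw [zero_pow two_ne_zero, add_zero, Real.sqrt_one, one_mul] at h2
      exact (Real.cos_eq_one_iff_of_lt_of_lt (by linarith) (by linarith)).1 h2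
    · have ha0 : a = 0 := (Real.sin_eq_zero_iff_of_lt_of_lt (by linarith) (by linarith)).1 h4
      refine hcontra ha0 ?_
      rw [ha0, Real.cos_zero, mul_one] at h2
      have h5 : 1 + b ^ 2 = 1 := by
        have h6 := Real.sq_sqrt (show (0 : ℝ) ≤ 1 + b ^ 2 by positivity)
        rw [h2] at h6
        linarith
      have h7 : b ^ 2 = 0 := by linarith
      exact pow_eq_zero_iff (two_ne_zero) |>.1 h7
  have hne2 : ∀ t, (m t).1 ≠ -1 := by
    intro t h1
    have h2 : (m t).1.re = -1 := by rw [h1]; rfl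
    rw [hre] at h2
    have h3 : 0 < Real.cos (δ * Real.cos (Real.pi * t)) := Real.cos_pos_of_le_one (habs t)
    have h4 : 0 ≤ √(1 + (δ * Real.sin (Real.pi * t)) ^ 2) := Real.sqrt_nonneg _
    nlinarith
  let w : ℝ → ℂ := fun t => (m t).1 - 1
  have hwc : Continuous w := (continuous_fst.comp hmc).sub continuous_const
  have hwne : ∀ t, w t ≠ 0 := fun t => sub_ne_zero.2 (hne1 t)
  have hwre : ∀ t, (w t).re = √(1 + (δ * Real.sin (Real.pi * t)) ^ 2) *
      Real.cos (δ * Real.cos (Real.pi * t)) - 1 := by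
    intro t
    simp only [w, Complex.sub_re, Complex.one_re, hre]
  have hwim : ∀ t, (w t).im = (δ * Real.sin (Real.pi * t)) *
      Real.sin (δ * Real.cos (Real.pi * t)) := by
    intro t
    simp only [w, Complex.sub_im, Complex.one_im, sub_zero, him]
  have hcosδ : Real.cos δ < 1 := by
    have h1 : Real.cos δ ≤ 1 := Real.cos_le_one δ
    refine lt_of_le_of_ne h1 fun h2 => hδ.ne' ?_
    exact (Real.cos_eq_one_iff_of_lt_of_lt (by linarith) (by linarith)).1 h2
  have hsin0 : ∀ t ∈ Icc (0 : ℝ) 1, 0 ≤ δ * Real.sin (Real.pi * t) := by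
    intro t ht
    refine mul_nonneg hδ.le (Real.sin_nonneg_of_nonneg_of_le_pi ?_ ?_)
    · exact mul_nonneg Real.pi_pos.le ht.1
    · nlinarith [ht.2, Real.pi_pos]
  obtain ⟨α, hα1, hα2, hα3⟩ := Mer_alpha (w := w) hwc.continuousOn (fun t _ => hwne t)
    (by
      intro t ht
      rw [hwim]
      refine mul_nonneg (hsin0 t ⟨ht.1, ht.2.trans (by norm_num)⟩) ?_
      have h1 : 0 ≤ Real.cos (Real.pi * t) := Real.cos_nonneg_of_neg_pi_div_two_le_of_le
        (by nlinarith [ht.1, Real.pi_pos]) (by nlinarith [ht.2, Real.pi_pos])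
      refine Real.sin_nonneg_of_nonneg_of_le_pi (mul_nonneg hδ.le h1) ?_
      have h2 := habs t
      rw [abs_le] at h2
      linarith)
    (by
      intro t ht
      rw [hwim]
      refine mul_nonpos_of_nonneg_of_nonpos (hsin0 t ⟨le_trans (by norm_num) ht.1, ht.2⟩) ?_
      have h1 : Real.cos (Real.pi * t) ≤ 0 := Real.cos_nonpos_of_pi_div_two_le_of_le
        (by nlinarith [ht.1, Real.pi_pos]) (by nlinarith [ht.2, Real.pi_pos])
      have h2 := habs t
      rw [abs_le] at h2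
      refine Real.sin_nonpos_of_nonpos_of_neg_pi_le (mul_nonpos_of_nonneg_of_nonpos hδ.le h1) ?_
      linarith)
    (by
      rw [hwre, hwim, mul_zero, Real.sin_zero, Real.cos_zero, mul_zero, mul_one, zero_mul,
        zero_pow two_ne_zero, add_zero, Real.sqrt_one, one_mul]
      exact ⟨by linarith, rfl⟩)
    (by
      rw [hwre, hwim, show Real.pi * (1 / 2) = Real.pi / 2 by ring, Real.sin_pi_div_two,
        Real.cos_pi_div_two, mul_zero, mul_one, Real.sin_zero, Real.cos_zero, mul_zero, mul_one]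
      refine ⟨?_, rfl⟩
      have h1 : 1 < √(1 + δ ^ 2) := by
        rw [Real.lt_sqrt zero_le_one]
        nlinarith
      linarith)
    (by
      rw [hwre, hwim, mul_one, Real.sin_pi, Real.cos_pi, mul_zero, zero_mul,
        zero_pow two_ne_zero, add_zero, Real.sqrt_one, one_mul, mul_neg, mul_one, Real.cos_neg]
      exact ⟨by linarith, rfl⟩)
  refine ⟨m, α, hmc.continuousOn, hα1, fun t ht => ⟨hΦb _ (hxε t), (hr1 _ (hxr t)).2, hne1 t, hne2 t, ?_⟩,
    ?_, hα2⟩
  · have h1 := hα3 t ht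
    have h2 : (m t).1 = 1 + w t := by
      simp only [w]
      ring
    exact h2.trans (congrArg (fun z => 1 + z) h1)
  · have hy1 : y 1 = -y 0 := by
      simp only [y, mul_one, mul_zero, Real.cos_pi, Real.sin_pi, Real.cos_zero, Real.sin_zero]
      refine Prod.ext ?_ ?_ <;> simp
    have hx1 : x 1 = -x 0 := by
      have h1 : -x 0 ∈ e.source := by
        refine (hr1 _ ?_).1.1
        rw [mem_ball_zero_iff, norm_neg]
        exact mem_ball_zero_iff.1 (hxr 0)
      have h2 : e (-x 0) = y 1 := by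
        rw [heP, Mer_P_neg, hPx, hy1]
      change e.symm (y 1) = -x 0
      rw [← h2, e.left_inv h1]
    have huu1 : uu (-(x 0).2) = iot (uu (x 0).2) := by
      ext i
      fin_cases i
      · rfl
      · change √(ε ^ 2 - (-(x 0).2) ^ 2) = √(ε ^ 2 - ((x 0).2) ^ 2)
        rw [neg_sq]
      · rfl
    have hexp : Complex.exp (((-(x 0).1 : ℝ) : ℂ) * Complex.I) =
        conj (Complex.exp ((x 0).1 * Complex.I)) := by
      rw [← Complex.exp_conj, map_mul, Complex.conj_I, Complex.conj_ofReal]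
      congr 1
      push_cast
      ring
    change Φ (x 0) = Φ (x 1)
    rw [hx1]
    change kap (J σ (Complex.exp ((x 0).1 * Complex.I), uu (x 0).2)) =
      kap (J σ (Complex.exp (((-(x 0).1 : ℝ) : ℂ) * Complex.I), uu (-(x 0).2)))
    rw [huu1, hexp]
    have h3 := J_conj σ (Complex.exp ((x 0).1 * Complex.I), uu (x 0).2)
    simp only at h3
    rw [h3, kap_rho]

end Pool.B203
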