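import Pool.Agent.Lib.B203.Ell
import Pool.Agent.Lib.B203.Gauge

/-! Row C5: polar coordinates on `Σ ∖ S_x`. -/

open Set Metric Topology
open scoped ContDiff Quaternion ComplexConjugate

noncomputable section

namespace Pool.B203

theorem exists_polar : ∃ G : ℝ × E3 → Amb, Continuous G ∧
    (∀ a, G a ∈ Sig ∧ (G a).1 ≠ 1) ∧
    (∀ t y, G (t + 2 * Real.pi, y) = G (t, y)) ∧
    (∀ q ∈ Sig, ∀ t r : ℝ, 0 < r → q.1 = 1 + r * Complex.exp (t * Complex.I) →
      G (t, r⁻¹ • q.2) = q) := by
  have hcont : Continuous (fun q : ℂ × E3 => sf q.1 ^ 2 + ‖q.2‖ ^ 2) :=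
    ((continuous_sf.comp continuous_fst).pow 2).add (continuous_snd.norm.pow 2)
  have hsf1 : sf 1 = 1 := by
    unfold sf
    rw [sub_self, norm_zero, zero_add, show (1 : ℂ) + 1 = 2 by norm_num]
    norm_num
  have h0 : (fun q : ℂ × E3 => sf q.1 ^ 2 + ‖q.2‖ ^ 2) (1, 0) < 2 := by
    simp only [hsf1, norm_zero]
    norm_num
  obtain ⟨R, hR1, hR2, hR3, -⟩ := exists_radial (V := ℂ × E3) convexOn_body hcont h0
    (isBounded_body 2)
  let v : ℝ × E3 → ℂ × E3 := fun a => (Complex.exp (a.1 * Complex.I), a.2)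
  have hv0 : ∀ a, v a ≠ 0 := by
    intro a ha
    have h1 : Complex.exp (a.1 * Complex.I) = 0 := congrArg Prod.fst ha
    exact Complex.exp_ne_zero _ h1
  have hvc : Continuous v := by
    refine Continuous.prodMk ?_ continuous_snd
    exact Complex.continuous_exp.comp
      ((Complex.continuous_ofReal.comp continuous_fst).mul continuous_const)
  have hRv : Continuous (fun a => R (v a)) :=
    hR1.comp_continuous hvc fun a => hv0 a
  refine ⟨fun a => ((1, 0) : ℂ × E3) + R (v a) • v a, continuous_const.add (hRv.smul hvc), ?_, ?_, ?_⟩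
  · intro a
    obtain ⟨h1, h2⟩ := hR2 (v a) (hv0 a)
    refine ⟨h2, ?_⟩
    intro h3
    have h4 : (1 : ℂ) + R (v a) • Complex.exp (a.1 * Complex.I) = 1 := h3
    rw [add_eq_left, smul_eq_zero] at h4
    rcases h4 with h4 | h4
    · exact h1.ne' h4
    · exact Complex.exp_ne_zero _ h4
  · intro t y
    have h1 : v (t + 2 * Real.pi, y) = v (t, y) := by
      simp only [v]
      rw [show ((t + 2 * Real.pi : ℝ) : ℂ) * Complex.I = t * Complex.I + 2 * Real.pi * Complex.I by
        push_cast; ring, Complex.exp_add, Complex.exp_two_pi_mul_I, mul_one]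
    simp only [h1]
  · intro q hq t r hr hqt
    have h1 : ((1, 0) : ℂ × E3) + r • v (t, r⁻¹ • q.2) = q := by
      refine Prod.ext ?_ ?_
      · simp only [v, Prod.fst_add, Prod.smul_fst, Complex.real_smul]
        rw [hqt]
      · simp only [v, Prod.snd_add, Prod.smul_snd, zero_add]
        rw [smul_smul, mul_inv_cancel₀ hr.ne', one_smul]
    have h2 : r = R (v (t, r⁻¹ • q.2)) := by
      refine hR3 _ (hv0 _) r hr ?_
      rw [h1]
      exact hq
    change ((1, 0) : ℂ × E3) + R (v (t, r⁻¹ • q.2)) • v (t, r⁻¹ • q.2) = q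
    rw [← h2]
    exact h1

end Pool.B203
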