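import Pool.Agent.Lib.B203.Ret
import Pool.Agent.Lib.B203.Polar
import Pool.Agent.Lib.B203.Mer
import Pool.Agent.Lib.B203.Cover

/-! Row H3x: lifting over `Q ∖ D_x`. -/

open Set Metric Topology
open scoped ContDiff Quaternion ComplexConjugate

noncomputable section

namespace Pool.B203

private theorem H3x_int {Z : Type*} {F : ℝ × E3 → Z}
    (hper : ∀ t v, F (t + 2 * Real.pi, v) = F (t, v)) (t : ℝ) (v : E3) (n : ℤ) :
    F (t + n * (2 * Real.pi), v) = F (t, v) := by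
  have hf : Function.Periodic (fun t => F (t, v)) (2 * Real.pi) := fun t => hper t v
  exact hf.int_mul n t

theorem H3x {σ ε : ℝ} (hσ : σ = 1 ∨ σ = -1) (hg : Good σ ε) {U : Set Amb} (hU : IsOpen U)
    (hD : ∀ q ∈ Q σ ε, q.1 = 1 → q ∈ U) {h : Amb → ℂ}
    (hc : ContinuousOn h (Q σ ε \ {q | q.1 = 1}))
    (hne : ∀ q ∈ Q σ ε, q.1 ≠ 1 → h q ≠ 1 ∧ h q ≠ -1) {s₀ : Amb → Cov}
    (hs₀ : ContinuousOn s₀ ((bdQ σ ε ∩ U) \ LL))
    (hs : ∀ q ∈ (bdQ σ ε ∩ U) \ LL, cp (s₀ q) = h q) :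
    ∃ s : Amb → Cov, ContinuousOn s (Q σ ε \ {q | q.1 = 1}) ∧
      (∀ q ∈ Q σ ε, q.1 ≠ 1 → cp (s q) = h q) ∧ ∃ q ∈ (bdQ σ ε ∩ U) \ LL, s q = s₀ q := by
  obtain ⟨G, hGc, hGm, hGp, hGi⟩ := exists_polar
  obtain ⟨ret, hrc, hrm, hri⟩ := exists_ret hg
  obtain ⟨m, α, hmc, hαc, hm, hm01, hα01⟩ := exists_meridian hσ hg hU hD
  have hbQ := bdQ_subset_Q hg
  have hQS : Q σ ε ⊆ Sig := Q_subset_Sig
  -- the pulled back map
  let H : ℝ × E3 → ℂ := fun a => h (ret (G a))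
  have hHc : Continuous H := by
    have h1 : Continuous (fun a => ret (G a)) :=
      hrc.comp_continuous hGc (fun a => ⟨(hGm a).1, (hGm a).2⟩)
    exact hc.comp_continuous h1 (fun a => ⟨(hrm _ (hGm a).1 (hGm a).2).1, (hrm _ (hGm a).1 (hGm a).2).2⟩)
  have hHne : ∀ a, H a ≠ 1 ∧ H a ≠ -1 := fun a =>
    hne _ (hrm _ (hGm a).1 (hGm a).2).1 (hrm _ (hGm a).1 (hGm a).2).2
  have hHG : ∀ q ∈ Q σ ε, q.1 ≠ 1 → ∀ t r : ℝ, 0 < r → q.1 = 1 + r * Complex.exp (t * Complex.I) →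
      H (t, r⁻¹ • q.2) = h q := by
    intro q hq hq1 t r hr hqr
    change h (ret (G (t, r⁻¹ • q.2))) = h q
    rw [hGi q (hQS hq) t r hr hqr, hri q hq hq1]
  have hpos : ∀ q : Amb, q.1 ≠ 1 → 0 < ‖q.1 - 1‖ := fun q hq => norm_pos_iff.mpr (sub_ne_zero.mpr hq)
  -- the lifted meridian
  let P : ℝ → ℝ × E3 := fun t => (α t, ‖(m t).1 - 1‖⁻¹ • (m t).2)
  have hPc : ContinuousOn P (Icc 0 1) := by
    have e1 : ContinuousOn (fun t => ‖(m t).1 - 1‖) (Icc 0 1) :=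
      ((continuous_fst.comp_continuousOn hmc).sub continuousOn_const).norm
    have e2 : ContinuousOn (fun t => ‖(m t).1 - 1‖⁻¹) (Icc 0 1) :=
      e1.inv₀ (fun t ht => (hpos _ (hm t ht).2.2.1).ne')
    have e3 : ContinuousOn (fun t => (m t).2) (Icc 0 1) := continuous_snd.comp_continuousOn hmc
    exact hαc.prodMk (e2.smul e3)
  have hPH : ∀ t ∈ Icc (0 : ℝ) 1, H (P t) = h (m t) := fun t ht =>
    hHG _ (hbQ (hm t ht).1) (hm t ht).2.2.1 _ _ (hpos _ (hm t ht).2.2.1) (hm t ht).2.2.2.2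
  have hmU : ∀ t ∈ Icc (0 : ℝ) 1, m t ∈ (bdQ σ ε ∩ U) \ LL := by
    intro t ht
    obtain ⟨h1, h2, h3, h4, -⟩ := hm t ht
    refine ⟨⟨h1, h2⟩, ?_⟩
    rintro (h5 | h5)
    · exact h3 h5
    · exact h4 h5
  have h0 : (0 : ℝ) ∈ Icc (0 : ℝ) 1 := ⟨le_rfl, zero_le_one⟩
  have h1 : (1 : ℝ) ∈ Icc (0 : ℝ) 1 := ⟨zero_le_one, le_rfl⟩
  obtain ⟨F, hFc, hF0, hF⟩ := cov_lift hHc hHne (P 0) (s₀ (m 0)) (by rw [hs _ (hmU 0 h0), hPH 0 h0])
  have hF1 : F (P 1) = F (P 0) := by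
    have := cov_uniq (s := Icc (0 : ℝ) 1) isPreconnected_Icc (g₁ := fun t => F (P t))
      (g₂ := fun t => s₀ (m t)) (hFc.comp_continuousOn hPc) (hs₀.comp hmc hmU)
      (fun t ht => by rw [hF, hPH t ht, hs _ (hmU t ht)]) h0 hF0 h1
    simp only at this
    rw [this, hF0, ← hm01]
  have hP1 : (fun a : ℝ × E3 => (a.1 + 2 * Real.pi, a.2)) (P 1) = P 0 := by
    simp only [P, hα01, hm01, sub_add_cancel]
  have hHp : ∀ a : ℝ × E3, H (a.1 + 2 * Real.pi, a.2) = H a := by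
    intro a
    change h (ret (G (a.1 + 2 * Real.pi, a.2))) = h (ret (G a))
    rw [hGp]
  have hper : ∀ t v, F (t + 2 * Real.pi, v) = F (t, v) := by
    have hcont : Continuous (fun a : ℝ × E3 => (a.1 + 2 * Real.pi, a.2)) := by fun_prop
    have := cov_uniq (s := (univ : Set (ℝ × E3))) isPreconnected_univ
      (g₁ := fun a => F (a.1 + 2 * Real.pi, a.2)) (g₂ := F)
      (hFc.comp hcont).continuousOn hFc.continuousOn
      (fun a _ => by rw [hF, hF, hHp]) (mem_univ (P 1))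
      (by
        have := congrArg F hP1
        simp only at this ⊢
        rw [this, hF1])
    intro t v
    exact this (mem_univ (t, v))
  refine ⟨fun q => F (Complex.arg (q.1 - 1), ‖q.1 - 1‖⁻¹ • q.2), ?_, ?_, ?_⟩
  · intro q hq
    have hq1 : q.1 - 1 ≠ 0 := sub_ne_zero.mpr hq.2
    have e1 := periodic_arg_continuousAt hFc hper hq1 (‖q.1 - 1‖⁻¹ • q.2)
    have e2 : ContinuousAt (fun q : Amb => ((q.1 - 1, ‖q.1 - 1‖⁻¹ • q.2) : ℂ × E3)) q := by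
      have e3 : ContinuousAt (fun q : Amb => ‖q.1 - 1‖⁻¹) q := by
        refine ContinuousAt.inv₀ (by fun_prop) (norm_ne_zero_iff.mpr hq1)
      exact (ContinuousAt.prodMk (by fun_prop) (e3.smul continuousAt_snd))
    exact (ContinuousAt.comp (f := fun q : Amb => ((q.1 - 1, ‖q.1 - 1‖⁻¹ • q.2) : ℂ × E3)) e1 e2).continuousWithinAt
  · intro q hq hq1
    rw [hF]
    refine hHG q hq hq1 _ _ (hpos q hq1) ?_
    rw [Complex.norm_mul_exp_arg_mul_I]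
    ring
  · refine ⟨m 0, hmU 0 h0, ?_⟩
    have h2 := (hm 0 h0).2.2.2.2
    have h3 := hpos _ (hm 0 h0).2.2.1
    have h4 : Complex.exp (α 0 * Complex.I) = Complex.exp (Complex.arg ((m 0).1 - 1) * Complex.I) := by
      have h5 : ((‖(m 0).1 - 1‖ : ℝ) : ℂ) ≠ 0 := by exact_mod_cast h3.ne'
      apply mul_left_cancel₀ h5
      rw [Complex.norm_mul_exp_arg_mul_I]
      linear_combination -h2
    rw [Complex.exp_eq_exp_iff_exists_int] at h4
    obtain ⟨n, hn⟩ := h4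
    have h6 : α 0 = Complex.arg ((m 0).1 - 1) + n * (2 * Real.pi) := by
      have h7 : ((α 0 : ℝ) : ℂ) = ((Complex.arg ((m 0).1 - 1) + n * (2 * Real.pi) : ℝ) : ℂ) := by
        apply mul_right_cancel₀ Complex.I_ne_zero
        rw [hn]
        push_cast
        ring
      exact_mod_cast h7
    have h8 := H3x_int hper (Complex.arg ((m 0).1 - 1)) (‖(m 0).1 - 1‖⁻¹ • (m 0).2) n
    rw [← h6] at h8
    change F _ = _
    rw [← h8]
    exact hF0

end Pool.B203
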