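import Pool.Agent.Lib.B203.H3x

/-! Row H3y: lifting over `Q ∖ D_y` (by the symmetry `(ζ, v) ↦ (-ζ, v)`, which exchanges `σ = 1` and `σ = -1`). -/

open Set Metric Topology
open scoped ContDiff Quaternion ComplexConjugate

noncomputable section

namespace Pool.B203

/-- the symmetry downstairs -/
private def nn (q : Amb) : Amb := (-q.1, q.2)

/-- the symmetry upstairs -/
private def mm (p : MAmb) : MAmb := (-p.1, p.2)

private theorem nn_nn (q : Amb) : nn (nn q) = q := by simp [nn]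

private theorem mm_mm (p : MAmb) : mm (mm p) = p := by simp [mm]

private theorem continuous_nn : Continuous nn := by unfold nn; fun_prop

private theorem nn_fst (q : Amb) : (nn q).1 = -q.1 := rfl

private theorem nn_LL {q : Amb} : nn q ∈ LL ↔ q ∈ LL := by
  change (-q.1 = 1 ∨ -q.1 = -1) ↔ (q.1 = 1 ∨ q.1 = -1)
  rw [neg_inj, neg_eq_iff_eq_neg, or_comm]

private theorem kap_mm (p : MAmb) : kap (mm p) = nn (kap p) := by
  unfold kap mm nn ell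
  ext1
  · apply Complex.ext <;> simp
  · rfl

private theorem J_nn (σ : ℝ) (p : Amb) : J σ (nn p) = mm (J (-σ) p) := J_neg σ p

private theorem nn_image {A : Set Amb} (hA : ∀ p ∈ A, nn p ∈ A) (σ : ℝ) :
    J σ '' A = mm '' (J (-σ) '' A) := by
  ext x
  constructor
  · rintro ⟨p, hp, rfl⟩
    refine ⟨J (-σ) (nn p), ⟨nn p, hA p hp, rfl⟩, ?_⟩
    rw [← J_nn, nn_nn]
  · rintro ⟨_, ⟨p, hp, rfl⟩, rfl⟩
    exact ⟨nn p, hA p hp, J_nn σ p⟩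

private theorem mm_M {p : MAmb} : mm p ∈ M ↔ p ∈ M := by
  change (‖-p.1‖ = 1 ∧ ‖p.2‖ = 1) ↔ (‖p.1‖ = 1 ∧ ‖p.2‖ = 1)
  rw [norm_neg]

private theorem nn_tubO {ε : ℝ} : ∀ p ∈ tubO ε, nn p ∈ tubO ε := by
  intro p hp
  refine ⟨?_, hp.2⟩
  change ‖-p.1‖ = 1
  rw [norm_neg]; exact hp.1

private theorem nn_tubB {ε : ℝ} : ∀ p ∈ tubB ε, nn p ∈ tubB ε := by
  intro p hp
  refine ⟨?_, hp.2⟩
  change ‖-p.1‖ = 1
  rw [norm_neg]; exact hp.1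

private theorem kap_image {S T : Set MAmb} (h : S = mm '' T) {q : Amb} (hq : q ∈ kap '' T) :
    nn q ∈ kap '' S := by
  obtain ⟨p, hp, rfl⟩ := hq
  exact ⟨mm p, h ▸ mem_image_of_mem _ hp, kap_mm p⟩

private theorem nn_bdQ {σ ε : ℝ} {q : Amb} (hq : q ∈ bdQ (-σ) ε) : nn q ∈ bdQ σ ε :=
  kap_image (nn_image nn_tubB σ) hq

private theorem nn_WM {σ ε : ℝ} : WM σ ε = mm '' WM (-σ) ε := by
  unfold WM
  ext x
  constructor
  · rintro ⟨h1, h2⟩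
    refine ⟨mm x, ⟨mm_M.2 h1, fun h3 => h2 ?_⟩, mm_mm x⟩
    rw [nn_image nn_tubO]
    exact ⟨mm x, h3, mm_mm x⟩
  · rintro ⟨y, ⟨h1, h2⟩, rfl⟩
    refine ⟨mm_M.2 h1, fun h3 => h2 ?_⟩
    rw [nn_image nn_tubO] at h3
    obtain ⟨z, hz, hzy⟩ := h3
    have : z = y := by rw [← mm_mm z, hzy, mm_mm]
    rw [← this]
    exact hz

private theorem nn_Q {σ ε : ℝ} {q : Amb} (hq : q ∈ Q (-σ) ε) : nn q ∈ Q σ ε :=
  kap_image nn_WM hq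

theorem H3y {ε : ℝ} (hg : Good 1 ε) {U : Set Amb} (hU : IsOpen U)
    (hD : ∀ q ∈ Q 1 ε, q.1 = -1 → q ∈ U) {h : Amb → ℂ}
    (hc : ContinuousOn h (Q 1 ε \ {q | q.1 = -1}))
    (hne : ∀ q ∈ Q 1 ε, q.1 ≠ -1 → h q ≠ 1 ∧ h q ≠ -1) {s₀ : Amb → Cov}
    (hs₀ : ContinuousOn s₀ ((bdQ 1 ε ∩ U) \ LL))
    (hs : ∀ q ∈ (bdQ 1 ε ∩ U) \ LL, cp (s₀ q) = h q) :
    ∃ s : Amb → Cov, ContinuousOn s (Q 1 ε \ {q | q.1 = -1}) ∧
      (∀ q ∈ Q 1 ε, q.1 ≠ -1 → cp (s q) = h q) ∧ ∃ q ∈ (bdQ 1 ε ∩ U) \ LL, s q = s₀ q := by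
  have hgn : Good (-1) ε := good_neg hg
  have hQ : ∀ q ∈ Q (-1) ε, nn q ∈ Q 1 ε := fun q hq => nn_Q hq
  have hQ' : ∀ q ∈ Q 1 ε, nn q ∈ Q (-1) ε := fun q hq => nn_Q (by rw [neg_neg]; exact hq)
  have hb : ∀ q ∈ bdQ (-1) ε, nn q ∈ bdQ 1 ε := fun q hq => nn_bdQ hq
  have m1 : MapsTo nn (Q (-1) ε \ {q | q.1 = 1}) (Q 1 ε \ {q | q.1 = -1}) := by
    intro q hq
    refine ⟨hQ q hq.1, fun h2 => hq.2 ?_⟩
    change -q.1 = -1 at h2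
    exact neg_inj.1 h2
  have m2 : MapsTo nn (Q 1 ε \ {q | q.1 = -1}) (Q (-1) ε \ {q | q.1 = 1}) := by
    intro q hq
    refine ⟨hQ' q hq.1, fun h2 => hq.2 ?_⟩
    change -q.1 = 1 at h2
    exact neg_eq_iff_eq_neg.1 h2
  have m3 : MapsTo nn ((bdQ (-1) ε ∩ nn ⁻¹' U) \ LL) ((bdQ 1 ε ∩ U) \ LL) := by
    intro q hq
    exact ⟨⟨hb q hq.1.1, hq.1.2⟩, fun h2 => hq.2 (nn_LL.1 h2)⟩
  obtain ⟨s, h1, h2, q, hq, h3⟩ := H3x (σ := -1) (Or.inr rfl) hgn (U := nn ⁻¹' U)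
    (hU.preimage continuous_nn)
    (fun q hq h1 => hD (nn q) (hQ q hq) (by rw [nn_fst, h1]))
    (h := h ∘ nn) (hc.comp continuous_nn.continuousOn m1)
    (fun q hq h1 => hne (nn q) (hQ q hq) (fun h2 => h1 (neg_inj.1 h2)))
    (s₀ := s₀ ∘ nn) (hs₀.comp continuous_nn.continuousOn m3)
    (fun q hq => hs (nn q) (m3 hq))
  refine ⟨s ∘ nn, h1.comp continuous_nn.continuousOn m2, fun p hp h4 => ?_, nn q, m3 hq, ?_⟩
  · have h5 := h2 (nn p) (hQ' p hp) (fun h6 => h4 (neg_eq_iff_eq_neg.1 h6))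
    rw [Function.comp_apply, h5, Function.comp_apply, nn_nn]
  · rw [Function.comp_apply, nn_nn]
    exact h3

end Pool.B203
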