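import Pool.Agent.Lib.B203.LabelsDefs

/-! Row Labels: where `z` crosses the real axis on the tube. -/

open Set Metric Topology
open scoped ContDiff Quaternion ComplexConjugate

noncomputable section

namespace Pool.B203

private theorem labels_pi {θ : ℝ} (h0 : 0 < θ) (h1 : θ < 2 * Real.pi) (h : Real.sin θ = 0) :
    θ = Real.pi := by
  have h2 : Real.sin (θ - Real.pi) = 0 := by rw [Real.sin_sub_pi, h, neg_zero]
  have h3 := (Real.sin_eq_zero_iff_of_lt_of_lt (by linarith) (by linarith)).mp h2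
  linarith

private theorem labels_two_pi {θ : ℝ} (h0 : Real.pi < θ) (h1 : θ < 3 * Real.pi)
    (h : Real.sin θ = 0) : θ = 2 * Real.pi := by
  have h2 : Real.sin (θ - 2 * Real.pi) = 0 := by rw [Real.sin_sub_two_pi, h]
  have h3 := (Real.sin_eq_zero_iff_of_lt_of_lt (by linarith) (by linarith)).mp h2
  linarith

private theorem labels_pos {θ : ℝ} (h0 : 2 * Real.pi < θ) (h1 : θ < 3 * Real.pi) :
    0 < Real.sin θ := by
  have h2 : 0 < Real.sin (θ - 2 * Real.pi) :=
    Real.sin_pos_of_pos_of_lt_pi (by linarith) (by linarith)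
  rwa [Real.sin_sub_two_pi] at h2

private theorem labels_neg {θ : ℝ} (h0 : Real.pi < θ) (h1 : θ < 2 * Real.pi) :
    Real.sin θ < 0 := by
  have h2 : 0 < Real.sin (θ - Real.pi) :=
    Real.sin_pos_of_pos_of_lt_pi (by linarith) (by linarith)
  rw [Real.sin_sub_pi] at h2
  linarith

private theorem labels_sqrt {v : ℝ} (hv : v ≠ 0) : 1 < √(1 + v ^ 2) := by
  rw [show (1 : ℝ) < √(1 + v ^ 2) ↔ √1 < √(1 + v ^ 2) by rw [Real.sqrt_one]]
  exact Real.sqrt_lt_sqrt (by norm_num) (by have := sq_pos_of_ne_zero hv; linarith)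

/-- The crossing table on the core. -/
private theorem labels_core {φ : ℝ} (h0 : 0 ≤ φ) (hp : φ ≤ Real.pi) {z : ℂ}
    (hre : z.re = √(1 + (Real.cos φ * Real.sin φ) ^ 2) * Real.cos (φ + 2 * Real.pi * Real.sin φ))
    (him : z.im = Real.cos φ * Real.sin φ * Real.sin (φ + 2 * Real.pi * Real.sin φ)) :
    Labels (Real.cos φ) z := by
  have hpi : 3 < Real.pi := Real.pi_gt_three
  have hpi2 : Real.pi < 3.15 := Real.pi_lt_d2
  have hpos : 0 < Real.pi := Real.pi_pos
  set θ := φ + 2 * Real.pi * Real.sin φ with hθ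
  set v := Real.cos φ * Real.sin φ with hv
  have hs0 : 0 ≤ Real.sin φ := Real.sin_nonneg_of_nonneg_of_le_pi h0 hp
  have hs1 : Real.sin φ ≤ 1 := Real.sin_le_one φ
  -- comparison of angles
  have cle : ∀ {a : ℝ}, 0 ≤ a → a ≤ Real.pi → (Real.cos a ≤ Real.cos φ ↔ φ ≤ a) := fun ha ha' =>
    Real.strictAntiOn_cos.le_iff_ge ⟨ha, ha'⟩ ⟨h0, hp⟩
  have cle' : ∀ {a : ℝ}, 0 ≤ a → a ≤ Real.pi → (Real.cos φ ≤ Real.cos a ↔ a ≤ φ) := fun ha ha' =>
    Real.strictAntiOn_cos.le_iff_ge ⟨h0, hp⟩ ⟨ha, ha'⟩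
  have ceq : ∀ {a : ℝ}, 0 ≤ a → a ≤ Real.pi → Real.cos φ = Real.cos a → φ = a := fun ha ha' h =>
    le_antisymm ((cle ha ha').mp h.ge) ((cle' ha ha').mp h.le)
  have c6 : √3 / 2 = Real.cos (Real.pi / 6) := Real.cos_pi_div_six.symm
  have c3 : (1 : ℝ) / 2 = Real.cos (Real.pi / 3) := Real.cos_pi_div_three.symm
  have c23 : -((1 : ℝ) / 2) = Real.cos (2 * Real.pi / 3) := by
    rw [c3, ← Real.cos_pi_sub]; congr 1; ring
  have c56 : -(√3 / 2) = Real.cos (5 * Real.pi / 6) := by
    rw [c6, ← Real.cos_pi_sub]; congr 1; ring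
  -- signs
  have hsin : 0 < φ → φ < Real.pi → 0 < Real.sin φ := Real.sin_pos_of_pos_of_lt_pi
  have hvpos : 0 < φ → φ < Real.pi / 2 → 0 < v := fun h1 h2 =>
    mul_pos (Real.cos_pos_of_mem_Ioo ⟨by linarith, h2⟩) (hsin h1 (by linarith))
  have hvneg : Real.pi / 2 < φ → φ < Real.pi → v < 0 := fun h1 h2 =>
    mul_neg_of_neg_of_pos (Real.cos_neg_of_pi_div_two_lt_of_lt h1 (by linarith))
      (hsin (by linarith) h2)
  have hsle : Real.sin φ ≤ φ := Real.sin_le h0
  have hsle' : Real.sin φ ≤ Real.pi - φ := by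
    rw [← Real.sin_pi_sub]
    exact Real.sin_le (by linarith)
  have hs6 : Real.sin (Real.pi / 6) = 1 / 2 := Real.sin_pi_div_six
  have hs3 : Real.sin (Real.pi / 3) = √3 / 2 := Real.sin_pi_div_three
  have hq0 : (1.73 : ℝ) < √3 := by
    rw [Real.lt_sqrt (by norm_num)]; norm_num
  have hq1 : √3 < 1.74 := by
    rw [Real.sqrt_lt' (by norm_num)]; norm_num
  have hp3a : Real.pi * 1.73 < Real.pi * √3 := mul_lt_mul_of_pos_left hq0 hpos
  have hp3b : Real.pi * √3 < Real.pi * 1.74 := mul_lt_mul_of_pos_left hq1 hpos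
  have hpp : Real.pi * Real.pi < Real.pi * 3.15 := mul_lt_mul_of_pos_left hpi2 hpos
  -- bounds for the sine
  have m6 : φ ≤ Real.pi / 6 → Real.sin φ ≤ 1 / 2 := fun h => by
    rw [← hs6]; exact Real.sin_le_sin_of_le_of_le_pi_div_two (by linarith) (by linarith) h
  have m6' : Real.pi / 6 ≤ φ → φ ≤ Real.pi / 2 → 1 / 2 ≤ Real.sin φ := fun h h' => by
    rw [← hs6]; exact Real.sin_le_sin_of_le_of_le_pi_div_two (by linarith) h' h
  have m3 : φ ≤ Real.pi / 3 → Real.sin φ ≤ √3 / 2 := fun h => by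
    rw [← hs3]; exact Real.sin_le_sin_of_le_of_le_pi_div_two (by linarith) (by linarith) h
  have m3' : Real.pi / 3 ≤ φ → φ ≤ 2 * Real.pi / 3 → √3 / 2 ≤ Real.sin φ := fun h h' => by
    rw [← hs3]
    rcases le_total φ (Real.pi / 2) with h2 | h2
    · exact Real.sin_le_sin_of_le_of_le_pi_div_two (by linarith) h2 h
    · rw [← Real.sin_pi_sub φ]
      exact Real.sin_le_sin_of_le_of_le_pi_div_two (by linarith) (by linarith) (by linarith)
  have n3 : 2 * Real.pi / 3 ≤ φ → Real.sin φ ≤ √3 / 2 := fun h => by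
    rw [← hs3, ← Real.sin_pi_sub φ]
    exact Real.sin_le_sin_of_le_of_le_pi_div_two (by linarith) (by linarith) (by linarith)
  have n6 : Real.pi / 2 ≤ φ → φ ≤ 5 * Real.pi / 6 → 1 / 2 ≤ Real.sin φ := fun h h' => by
    rw [← hs6, ← Real.sin_pi_sub φ]
    exact Real.sin_le_sin_of_le_of_le_pi_div_two (by linarith) (by linarith) (by linarith)
  have n6' : 5 * Real.pi / 6 ≤ φ → Real.sin φ ≤ 1 / 2 := fun h => by
    rw [← hs6, ← Real.sin_pi_sub φ]
    exact Real.sin_le_sin_of_le_of_le_pi_div_two (by linarith) (by linarith) (by linarith)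
  -- the first interval
  have first : 0 < φ → φ ≤ Real.pi / 12 → 0 < z.im := by
    intro h1 h2
    rw [him]
    refine mul_pos (hvpos h1 (by linarith)) (Real.sin_pos_of_pos_of_lt_pi ?_ ?_)
    · have := mul_nonneg hpos.le hs0
      linarith
    · have h3 : Real.pi * Real.sin φ ≤ Real.pi * φ := mul_le_mul_of_nonneg_left hsle hpos.le
      have h4 : Real.pi * φ ≤ Real.pi * (Real.pi / 12) := mul_le_mul_of_nonneg_left h2 hpos.le
      linarith
  constructor
  · -- i1
    intro h1 h2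
    rw [cle (by linarith) (by linarith)] at h1
    rcases h0.eq_or_lt with h3 | h3
    · rw [hre, hθ, hv, ← h3]
      simp
    · exact absurd h2 (first h3 h1).ne'
  · -- i2
    intro h1 h2 h3
    rw [c6, cle (by linarith) (by linarith)] at h1
    rw [cle' (by linarith) (by linarith)] at h2
    have hv0 := hvpos (by linarith) (by linarith)
    have hsθ : Real.sin θ = 0 := by
      rw [him] at h3
      exact (mul_eq_zero.mp h3).resolve_left hv0.ne'
    have h4 : θ = Real.pi := by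
      refine labels_pi ?_ ?_ hsθ
      · have := mul_nonneg hpos.le hs0
        linarith
      · have := mul_le_mul_of_nonneg_left (m6 h1) hpos.le
        linarith
    rw [hre, h4, Real.cos_pi]
    have := labels_sqrt hv0.ne'
    linarith
  · -- i3
    intro h1 h2 h3
    rw [c3, cle (by linarith) (by linarith)] at h1
    rw [c6, cle' (by linarith) (by linarith)] at h2
    have hv0 := hvpos (by linarith) (by linarith)
    have hsθ : Real.sin θ = 0 := by
      rw [him] at h3
      exact (mul_eq_zero.mp h3).resolve_left hv0.ne'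
    have h4 : θ = 2 * Real.pi := by
      refine labels_two_pi ?_ ?_ hsθ
      · have := mul_le_mul_of_nonneg_left (m6' h2 (by linarith)) hpos.le
        linarith
      · have := mul_le_mul_of_nonneg_left (m3 h1) hpos.le
        linarith
    rw [hre, h4, Real.cos_two_pi]
    have := labels_sqrt hv0.ne'
    linarith
  · -- i4
    intro h1 h2 h3
    rw [c23, cle (by linarith) (by linarith)] at h1
    rw [c3, cle' (by linarith) (by linarith)] at h2
    have hsθ : 0 < Real.sin θ := by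
      refine labels_pos ?_ ?_
      · have := mul_le_mul_of_nonneg_left (m3' h2 h1) hpos.le
        linarith
      · have := mul_le_mul_of_nonneg_left hs1 hpos.le
        linarith
    have hv0 : v = 0 := by
      rw [him] at h3
      exact (mul_eq_zero.mp h3).resolve_right hsθ.ne'
    have h5 : z.re = Real.cos θ := by
      rw [hre, hv0]
      simp
    have h6 := Real.sin_sq_add_cos_sq θ
    rw [h5]
    have h7 : Real.cos θ ^ 2 < 1 := by
      have := sq_pos_of_pos hsθ
      linarith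
    exact abs_lt.mp ((sq_lt_one_iff_abs_lt_one _).mp h7)
  · -- i5
    intro h1 h2 h3
    rw [c56, cle (by linarith) (by linarith)] at h1
    rw [c23, cle' (by linarith) (by linarith)] at h2
    have hv0 := hvneg (by linarith) (by linarith)
    have hsθ : Real.sin θ = 0 := by
      rw [him] at h3
      exact (mul_eq_zero.mp h3).resolve_left hv0.ne
    have h4 : θ = 2 * Real.pi := by
      refine labels_two_pi ?_ ?_ hsθ
      · have := mul_le_mul_of_nonneg_left (n6 (by linarith) h1) hpos.le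
        linarith
      · have := mul_le_mul_of_nonneg_left (n3 h2) hpos.le
        linarith
    rw [hre, h4, Real.cos_two_pi]
    have := labels_sqrt hv0.ne
    linarith
  · -- i6
    intro h1 h3
    rw [c56, cle' (by linarith) (by linarith)] at h1
    have hlow : 0 < θ := by
      have := mul_nonneg hpos.le hs0
      linarith
    have hup : θ < 2 * Real.pi := by
      have h7 : Real.pi * Real.sin φ ≤ Real.pi * (Real.pi - φ) :=
        mul_le_mul_of_nonneg_left hsle' hpos.le
      have h8 : (2 * Real.pi - 1) * (Real.pi - φ) ≤ (2 * Real.pi - 1) * (Real.pi / 6) :=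
        mul_le_mul_of_nonneg_left (by linarith) (by linarith)
      linarith
    rw [him] at h3
    rcases mul_eq_zero.mp h3 with h4 | h4
    · have h5 : z.re = Real.cos θ := by
        rw [hre, h4]
        simp
      rw [h5]
      refine lt_of_le_of_ne (Real.cos_le_one θ) fun h6 => ?_
      have h8 := (Real.cos_eq_one_iff_of_lt_of_lt (by linarith) hup).mp h6
      linarith
    · rw [hre, labels_pi hlow hup h4, Real.cos_pi]
      have := Real.sqrt_nonneg (1 + v ^ 2)
      linarith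
  · -- t1
    intro h1
    have h2 := ceq (by linarith) (by linarith) h1
    exact first (by linarith) h2.le
  · -- t2
    intro h1
    rw [c6] at h1
    have h2 := ceq (by linarith) (by linarith) h1
    rw [him]
    refine mul_neg_of_pos_of_neg (hvpos (by linarith) (by linarith)) (labels_neg ?_ ?_)
    · rw [hθ, h2, hs6]
      linarith
    · rw [hθ, h2, hs6]
      linarith
  · -- t3
    intro h1
    rw [c3] at h1
    have h2 := ceq (by linarith) (by linarith) h1
    rw [him]
    refine mul_pos (hvpos (by linarith) (by linarith)) (labels_pos ?_ ?_)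
    · rw [hθ, h2, hs3]
      linarith
    · rw [hθ, h2, hs3]
      linarith
  · -- t4
    intro h1
    rw [c23] at h1
    have h2 := ceq (by linarith) (by linarith) h1
    rw [him]
    refine mul_neg_of_neg_of_pos (hvneg (by linarith) (by linarith)) (labels_pos ?_ ?_)
    · have := mul_le_mul_of_nonneg_left (m3' (by linarith) h2.le) hpos.le
      linarith
    · have := mul_le_mul_of_nonneg_left hs1 hpos.le
      linarith
  · -- t5
    intro h1
    rw [c56] at h1
    have h2 := ceq (by linarith) (by linarith) h1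
    rw [him]
    refine mul_pos_of_neg_of_neg (hvneg (by linarith) (by linarith)) (labels_neg ?_ ?_)
    · have := mul_le_mul_of_nonneg_left (n6 (by linarith) h2.le) hpos.le
      linarith
    · have := mul_le_mul_of_nonneg_left (n6' h2.ge) hpos.le
      linarith

/-- The crossing table on the core, upper half. -/
private theorem labels_core_up {ζ : ℂ} (h : ‖ζ‖ = 1) (hi : 0 ≤ ζ.im) :
    Labels ζ.re (kap (J 1 (ζ, 0))).1 := by
  have h1 : ζ = Complex.exp (ζ.arg * Complex.I) := by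
    have := Complex.norm_mul_exp_arg_mul_I ζ
    rw [h, Complex.ofReal_one, one_mul] at this
    exact this.symm
  have h2 : ζ.re = Real.cos ζ.arg := by
    conv_lhs => rw [h1]
    exact Complex.exp_ofReal_mul_I_re _
  have h3 : (kap (J 1 (ζ, 0))).1 = (kap (ch (jc 1 (ζ.arg, 0)))).1 := by
    rw [← J_exp, ← h1]
  rw [h3, h2]
  refine labels_core (Complex.arg_nonneg_iff.mpr hi) (Complex.arg_le_pi ζ) ?_ ?_
  · simp only [kap, ell, ch, jc, Complex.exp_ofReal_mul_I_re]
    simp [mul_comm]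
  · simp only [kap, ell, ch, jc, Complex.exp_ofReal_mul_I_im]
    simp [mul_comm]

private theorem labels_core_all {ζ : ℂ} (h : ‖ζ‖ = 1) : Labels ζ.re (kap (J 1 (ζ, 0))).1 := by
  rcases le_total 0 ζ.im with hi | hi
  · exact labels_core_up h hi
  · have h1 : ‖conj ζ‖ = 1 := by rw [Complex.norm_conj, h]
    have h2 := labels_core_up h1 (by rw [Complex.conj_im]; linarith)
    have h3 : iot (0 : E3) = 0 := by
      ext i
      fin_cases i <;> simp [iot]
    have h4 := J_conj 1 (ζ, (0 : E3))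
    simp only [h3] at h4
    rw [h4, kap_rho, Complex.conj_re] at h2
    exact h2

private theorem labels_cont : Continuous fun p : Amb => (p.1.re, (kap (J 1 p)).1) := by
  refine (Complex.continuous_re.comp continuous_fst).prodMk ?_
  have h0 : Continuous fun p : Amb => p.2 0 := by fun_prop
  refine continuous_ell.comp (Continuous.prodMk ?_ ?_)
  · simp only [J]
    refine continuous_fst.mul (Complex.continuous_exp.comp ?_)
    refine (Complex.continuous_ofReal.comp ?_).mul continuous_const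
    fun_prop
  · simp only [J]
    fun_prop

private theorem labels_closed : IsClosed {q : ℝ × ℂ | ¬ Labels q.1 q.2} := by
  have hr : Continuous fun q : ℝ × ℂ => q.2.re := by fun_prop
  have hi : Continuous fun q : ℝ × ℂ => q.2.im := by fun_prop
  have hx : Continuous fun q : ℝ × ℂ => q.1 := continuous_fst
  have hc : ∀ c : ℝ, Continuous fun _ : ℝ × ℂ => c := fun c => continuous_const
  have h : {q : ℝ × ℂ | ¬ Labels q.1 q.2} =
      {q | Real.cos (Real.pi / 12) ≤ q.1 ∧ q.2.im = 0 ∧ q.2.re ≤ -1} ∪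
      {q | √3 / 2 ≤ q.1 ∧ q.1 ≤ Real.cos (Real.pi / 12) ∧ q.2.im = 0 ∧ -1 ≤ q.2.re} ∪
      {q | 1 / 2 ≤ q.1 ∧ q.1 ≤ √3 / 2 ∧ q.2.im = 0 ∧ q.2.re ≤ 1} ∪
      {q | -(1 / 2) ≤ q.1 ∧ q.1 ≤ 1 / 2 ∧ q.2.im = 0 ∧ q.2.re ≤ -1} ∪
      {q | -(1 / 2) ≤ q.1 ∧ q.1 ≤ 1 / 2 ∧ q.2.im = 0 ∧ 1 ≤ q.2.re} ∪
      {q | -(√3 / 2) ≤ q.1 ∧ q.1 ≤ -(1 / 2) ∧ q.2.im = 0 ∧ q.2.re ≤ 1} ∪
      {q | q.1 ≤ -(√3 / 2) ∧ q.2.im = 0 ∧ 1 ≤ q.2.re} ∪
      {q | q.1 = Real.cos (Real.pi / 12) ∧ q.2.im ≤ 0} ∪
      {q | q.1 = √3 / 2 ∧ 0 ≤ q.2.im} ∪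
      {q | q.1 = 1 / 2 ∧ q.2.im ≤ 0} ∪
      {q | q.1 = -(1 / 2) ∧ 0 ≤ q.2.im} ∪
      {q | q.1 = -(√3 / 2) ∧ q.2.im ≤ 0} := by
    ext q
    constructor
    · intro hq
      by_contra hn
      simp only [mem_union, Set.mem_ofPred_eq, not_or, not_and, not_le] at hn
      obtain ⟨⟨⟨⟨⟨⟨⟨⟨⟨⟨⟨n1, n2⟩, n3⟩, n4⟩, n5⟩, n6⟩, n7⟩, n8⟩, n9⟩, n10⟩, n11⟩, n12⟩ := hn
      exact hq ⟨n1, n2, n3, fun a b c => ⟨n4 a b c, n5 a b c⟩, n6, n7, n8, n9, n10, n11, n12⟩
    · intro hq hL
      rcases hq with (((((((((((hq | hq) | hq) | hq) | hq) | hq) | hq) | hq) | hq) | hq) | hq) | hq)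
      · exact (hL.i1 hq.1 hq.2.1).not_ge hq.2.2
      · exact (hL.i2 hq.1 hq.2.1 hq.2.2.1).not_ge hq.2.2.2
      · exact (hL.i3 hq.1 hq.2.1 hq.2.2.1).not_ge hq.2.2.2
      · exact (hL.i4 hq.1 hq.2.1 hq.2.2.1).1.not_ge hq.2.2.2
      · exact (hL.i4 hq.1 hq.2.1 hq.2.2.1).2.not_ge hq.2.2.2
      · exact (hL.i5 hq.1 hq.2.1 hq.2.2.1).not_ge hq.2.2.2
      · exact (hL.i6 hq.1 hq.2.1).not_ge hq.2.2
      · exact (hL.t1 hq.1).not_ge hq.2
      · exact (hL.t2 hq.1).not_ge hq.2
      · exact (hL.t3 hq.1).not_ge hq.2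
      · exact (hL.t4 hq.1).not_ge hq.2
      · exact (hL.t5 hq.1).not_ge hq.2
  rw [h]
  refine IsClosed.union (IsClosed.union (IsClosed.union (IsClosed.union (IsClosed.union
    (IsClosed.union (IsClosed.union (IsClosed.union (IsClosed.union (IsClosed.union (IsClosed.union
      ?_ ?_) ?_) ?_) ?_) ?_) ?_) ?_) ?_) ?_) ?_) ?_
  · exact (isClosed_le (hc _) hx).inter ((isClosed_eq hi (hc _)).inter (isClosed_le hr (hc _)))
  · exact (isClosed_le (hc _) hx).inter ((isClosed_le hx (hc _)).inter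
      ((isClosed_eq hi (hc _)).inter (isClosed_le (hc _) hr)))
  · exact (isClosed_le (hc _) hx).inter ((isClosed_le hx (hc _)).inter
      ((isClosed_eq hi (hc _)).inter (isClosed_le hr (hc _))))
  · exact (isClosed_le (hc _) hx).inter ((isClosed_le hx (hc _)).inter
      ((isClosed_eq hi (hc _)).inter (isClosed_le hr (hc _))))
  · exact (isClosed_le (hc _) hx).inter ((isClosed_le hx (hc _)).inter
      ((isClosed_eq hi (hc _)).inter (isClosed_le (hc _) hr)))
  · exact (isClosed_le (hc _) hx).inter ((isClosed_le hx (hc _)).inter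
      ((isClosed_eq hi (hc _)).inter (isClosed_le hr (hc _))))
  · exact (isClosed_le hx (hc _)).inter ((isClosed_eq hi (hc _)).inter (isClosed_le (hc _) hr))
  · exact (isClosed_eq hx (hc _)).inter (isClosed_le hi (hc _))
  · exact (isClosed_eq hx (hc _)).inter (isClosed_le (hc _) hi)
  · exact (isClosed_eq hx (hc _)).inter (isClosed_le hi (hc _))
  · exact (isClosed_eq hx (hc _)).inter (isClosed_le (hc _) hi)
  · exact (isClosed_eq hx (hc _)).inter (isClosed_le hi (hc _))

theorem labels : ∀ᶠ ε in 𝓝[>] (0 : ℝ), ∀ p ∈ tubC ε, Labels p.1.re (kap (J 1 p)).1 := by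
  have hK : IsCompact (tubC 1) := by
    have h1 : tubC 1 = sphere (0 : ℂ) 1 ×ˢ closedBall (0 : E3) 1 := by
      ext p
      simp [tubC]
    rw [h1]
    exact (isCompact_sphere _ _).prod (isCompact_closedBall _ _)
  have hS : IsCompact (tubC 1 ∩ {p : Amb | ¬ Labels p.1.re (kap (J 1 p)).1}) :=
    hK.inter_right (labels_closed.preimage labels_cont)
  have hpos : ∀ p ∈ tubC 1 ∩ {p : Amb | ¬ Labels p.1.re (kap (J 1 p)).1}, 0 < ‖p.2‖ := by
    rintro ⟨ζ, u⟩ ⟨h1, h2⟩
    refine norm_pos_iff.mpr fun h3 => h2 ?_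
    simp only at h3
    subst h3
    exact labels_core_all h1.1
  obtain ⟨δ, hδ, hmin⟩ := hS.exists_forall_le' (f := fun p : Amb => ‖p.2‖)
    (by fun_prop) hpos
  have h1 : Ioo (0 : ℝ) (min δ 1) ∈ 𝓝[>] (0 : ℝ) := Ioo_mem_nhdsGT (lt_min hδ one_pos)
  filter_upwards [h1] with ε hε p hp
  by_contra hn
  have h2 : p ∈ tubC 1 := ⟨hp.1, hp.2.trans (hε.2.le.trans (min_le_right _ _))⟩
  have h3 := hmin p ⟨h2, hn⟩
  have h4 := hε.2.trans_le (min_le_left _ _)
  linarith [hp.2]

end Pool.B203
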