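import Pool.Agent.Lib.B203.QN

/-! The crossing table. -/

open Set Metric Topology
open scoped ContDiff Quaternion ComplexConjugate

noncomputable section

namespace Pool.B203

/-- The crossing table. -/
structure Labels (x : ℝ) (z : ℂ) : Prop where
  i1 : Real.cos (Real.pi / 12) ≤ x → z.im = 0 → -1 < z.re
  i2 : √3 / 2 ≤ x → x ≤ Real.cos (Real.pi / 12) → z.im = 0 → z.re < -1
  i3 : 1 / 2 ≤ x → x ≤ √3 / 2 → z.im = 0 → 1 < z.re
  i4 : -(1 / 2) ≤ x → x ≤ 1 / 2 → z.im = 0 → -1 < z.re ∧ z.re < 1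
  i5 : -(√3 / 2) ≤ x → x ≤ -(1 / 2) → z.im = 0 → 1 < z.re
  i6 : x ≤ -(√3 / 2) → z.im = 0 → z.re < 1
  t1 : x = Real.cos (Real.pi / 12) → 0 < z.im
  t2 : x = √3 / 2 → z.im < 0
  t3 : x = 1 / 2 → 0 < z.im
  t4 : x = -(1 / 2) → z.im < 0
  t5 : x = -(√3 / 2) → 0 < z.im

end Pool.B203
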