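import Pool.Agent.Lib.B203.CFinal
import Pool.Agent.Lib.B203.FFinal
import Pool.Agent.Lib.B203.Cases

/-! Final assembly (helper1). -/

open Set Metric Topology
open scoped ContDiff Quaternion ComplexConjugate

noncomputable section

namespace Pool.B203

/-- A smooth involution of `S¹ × B³`. -/
structure IsSmoothInvolution (τ : Amb → Amb) : Prop where
  maps : MapsTo τ W W
  smooth : ∀ p ∈ W, ContDiffAt ℝ ∞ τ p
  invol : ∀ p ∈ W, τ (τ p) = p

theorem main : ∃ τ : Amb → Amb, IsSmoothInvolution τ ∧ ∀ B : Set Amb, IsNeatBall B →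
    IsConnected (W \ B) → ¬ (τ '' B = B ∨ Disjoint (τ '' B) B) := by
  obtain ⟨ε, hG, hF, hC⟩ :=
    ((eventually_good (σ := 1) (Or.inl rfl)).and (F_final.and C_final)).exists
  obtain ⟨Th, Xi, η, hTm, hXm, hXT, hTX, hTs, hXs, hTb, hηc, hη⟩ := hF
  have hTW : ∀ p ∈ W, Th p ∈ M := fun p hp => (hTm hp).1
  have hRW : ∀ p ∈ W, rho (Th p) ∈ WM 1 ε := fun p hp => rho_mem_WM hG (hTm hp)
  have hTc : ContinuousOn Th W := fun p hp => (hTs p hp).continuousAt.continuousWithinAt
  have hXc : ContinuousOn Xi (WM 1 ε) := fun m hm => (hXs m hm).continuousAt.continuousWithinAt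
  have hrc : Continuous rho := contDiff_rho.continuous
  let τ : Amb → Amb := fun p => Xi (rho (Th p))
  have hτ1 : ∀ p ∈ W, Th (τ p) = rho (Th p) := fun p hp => hTX _ (hRW p hp)
  have hτW : MapsTo τ W W := fun p hp => hXm (hRW p hp)
  have hτ2 : ∀ p ∈ W, τ (τ p) = p := fun p hp => by
    change Xi (rho (Th (τ p))) = p
    rw [hτ1 p hp, rho_rho, hXT p hp]
  have hInv : IsSmoothInvolution τ :=
    { maps := hτW
      smooth := fun p hp => by
        have h1 : ContDiffAt ℝ ∞ (rho ∘ Th) p := contDiff_rho.contDiffAt.comp p (hTs p hp)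
        exact (hXs _ (hRW p hp)).comp p h1
      invol := hτ2 }
  refine ⟨τ, hInv, fun B hB hconn heq => ?_⟩
  have hdata : TauData τ (fun p => (Th p).1) η :=
    { maps := hτW
      cont := fun p hp => (hInv.smooth p hp).continuousAt.continuousWithinAt
      invol := hτ2
      ηc := hηc
      ζη := hη
      ζτ := fun p hp => by
        change (Th (τ p)).1 = _
        rw [hτ1 p hp]
        rfl }
  obtain ⟨b, g, hb, hbi, hbm, hbb, hbd, hg, hgτ, hg0, hgx, hgy⟩ := B_final hdata hB hconn heq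
  -- descend `g`
  have hgXi : ContinuousOn (fun m => g (Xi m)) (WM 1 ε) := hg.comp hXc hXm
  have hXrho : ∀ m ∈ WM 1 ε, Xi (rho m) = τ (Xi m) := fun m hm => by
    change Xi (rho m) = Xi (rho (Th (Xi m)))
    rw [hTX m hm]
  obtain ⟨g', hg'c, hg'⟩ := descend (isCompact_WM hG) (f := kap) (g := fun m => g (Xi m))
    continuous_kap.continuousOn hgXi (fun m hm m' hm' h => by
      rcases (kap_eq_iff hm.1 hm'.1).1 h with h | h
      · rw [h]
      · rw [h, hXrho m hm, hgτ _ (hXm hm)])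
  let β : E3 → Amb := fun x => kap (Th (b x))
  have hβm : MapsTo β (closedBall 0 1) (Q 1 ε) := fun x hx => ⟨_, hTm (hbm hx), rfl⟩
  have hg'β : ∀ m ∈ WM 1 ε, g' (kap m) = g (Xi m) := hg'
  refine hC β g' ?_ ?_ hβm ?_ hg'c ?_ ?_ ?_
  · exact continuous_kap.comp_continuousOn (hTc.comp hb hbm)
  · intro x hx y hy hxy
    rcases (kap_eq_iff (hTW _ (hbm hx)) (hTW _ (hbm hy))).1 hxy with h | h
    · have := congrArg Xi h
      rw [hXT _ (hbm hx), hXT _ (hbm hy)] at this
      exact hbi hx hy this.symm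
    · exfalso
      have h1 : Xi (Th (b y)) = Xi (rho (Th (b x))) := congrArg Xi h
      rw [hXT _ (hbm hy)] at h1
      exact hbd x hx y hy h1.symm
  · intro x hx
    rw [← hbb x hx, hTb _ (hbm hx)]
    exact kap_mem_bdQ_iff hG (hTW _ (hbm hx))
  · rintro _ ⟨m, hm, rfl⟩
    rw [hg'β m hm, hg0 _ (hXm hm)]
    constructor
    · rintro (⟨x, hx, h⟩ | ⟨x, hx, h⟩)
      · refine ⟨x, hx, ?_⟩
        change kap (Th (b x)) = _
        rw [h, hTX m hm]
      · refine ⟨x, hx, ?_⟩
        change kap (Th (b x)) = _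
        rw [h, hτ1 _ (hXm hm), hTX m hm, kap_rho]
    · rintro ⟨x, hx, h⟩
      rcases (kap_eq_iff (hTW _ (hbm hx)) hm.1).1 h with h | h
      · left
        refine ⟨x, hx, ?_⟩
        rw [h, hXT _ (hbm hx)]
      · right
        refine ⟨x, hx, ?_⟩
        rw [← hXrho m hm, h, rho_rho, hXT _ (hbm hx)]
  · rintro _ ⟨m, hm, rfl⟩ h1
    rw [hg'β m hm]
    obtain ⟨h2, h3⟩ := (kap_fst_eq_one_iff hm.1).1 h1
    have hfix : rho m = m := by
      refine Prod.ext ?_ ?_
      · simp [rho, h2]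
      · ext <;> simp [rho, h3]
    refine hgx _ (hXm hm) ?_ ?_
    · rw [← hXrho m hm, hfix]
    · change (Th (Xi m)).1 = 1
      rw [hTX m hm, h2]
  · rintro _ ⟨m, hm, rfl⟩ h1
    rw [hg'β m hm]
    obtain ⟨h2, h3⟩ := (kap_fst_eq_neg_one_iff hm.1).1 h1
    have hfix : rho m = m := by
      refine Prod.ext ?_ ?_
      · simp [rho, h2]
      · ext <;> simp [rho, h3]
    refine hgy _ (hXm hm) ?_ ?_
    · rw [← hXrho m hm, hfix]
    · change (Th (Xi m)).1 = -1
      rw [hTX m hm, h2]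

end Pool.B203
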