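import Pool.Agent.Lib.B203.CollarDefs

/-! Row Neat: lifting the circle coordinate. -/

open Set Metric Topology
open scoped ContDiff Quaternion ComplexConjugate

noncomputable section

namespace Pool.B203

/-- telescoping: if all `c k` are non-zero, the product of the ratios is the last over the first. -/
private theorem neat_prod_tele (c : ℕ → ℂ) (hc : ∀ k, c k ≠ 0) (N : ℕ) :
    ∏ k ∈ Finset.range N, (c (k + 1) / c k) = c N / c 0 := by
  induction N with
  | zero => simp [hc 0]
  | succ n ih =>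
    rw [Finset.prod_range_succ, ih]
    field_simp [hc 0, hc n]

private theorem neat_slit {z w : ℂ} (hz : ‖z‖ = 1) (h : ‖w - z‖ < 1) : w / z ∈ Complex.slitPlane := by
  have hz0 : z ≠ 0 := by
    intro h0
    rw [h0, norm_zero] at hz
    exact zero_ne_one hz
  have h1 : ‖w / z - 1‖ < 1 := by
    have : w / z - 1 = (w - z) / z := by field_simp
    rw [this, norm_div, hz, div_one]
    exact h
  have h2 : |(w / z - 1).re| < 1 := lt_of_le_of_lt (Complex.abs_re_le_norm _) h1
  rw [Complex.mem_slitPlane_iff]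
  left
  have h3 := (abs_lt.mp h2).1
  rw [Complex.sub_re, Complex.one_re] at h3
  linarith

private theorem neat_contDiffAt_arg {z : ℂ} (hz : z ∈ Complex.slitPlane) :
    ContDiffAt ℝ ∞ Complex.arg z := by
  have h1 : ContDiffAt ℝ ∞ Complex.log z := (Complex.contDiffAt_log hz).restrict_scalars ℝ
  have h2 : ContDiffAt ℝ ∞ (fun w => Complex.imCLM (Complex.log w)) z :=
    Complex.imCLM.contDiff.contDiffAt.comp z h1
  have h3 : (fun w => Complex.imCLM (Complex.log w)) = Complex.arg := by
    funext w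
    simp [Complex.log_im]
  rw [h3] at h2
  exact h2

private theorem neat_exp_arg {z : ℂ} (hz : ‖z‖ = 1) : Complex.exp ((Complex.arg z : ℂ) * Complex.I) = z := by
  have := Complex.norm_mul_exp_arg_mul_I z
  rw [hz] at this
  simpa using this

/-- Row B1: lifting the circle coordinate. -/
theorem exists_neatR {B : Set Amb} (hB : IsNeatBall B) : ∃ f : E3 → ℝ × E3, NeatR B f := by
  obtain ⟨e, hsm, hinj, himm, himg, hBW, hbd, htr⟩ := hB
  have hW : ∀ x ∈ closedBall (0 : E3) 1, e x ∈ W := by
    intro x hx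
    apply hBW
    rw [← himg]
    exact mem_image_of_mem e hx
  have hn : ∀ x ∈ closedBall (0 : E3) 1, ‖(e x).1‖ = 1 := fun x hx => (hW x hx).1
  have hcont : ContinuousOn (fun x => (e x).1) (closedBall (0 : E3) 1) := by
    intro x hx
    exact ((hsm x hx).continuousAt.fst).continuousWithinAt
  have huc : UniformContinuousOn (fun x => (e x).1) (closedBall (0 : E3) 1) :=
    (isCompact_closedBall (0 : E3) 1).uniformContinuousOn_of_continuous hcont
  rw [Metric.uniformContinuousOn_iff] at huc
  obtain ⟨δ, hδ, hu⟩ := huc 1 one_pos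
  obtain ⟨n, hnδ⟩ := exists_nat_gt (1 / δ)
  set N : ℕ := n + 1 with hN
  have hN0 : (0 : ℝ) < (N : ℝ) := by
    rw [hN]
    positivity
  have hN1 : 1 / (N : ℝ) < δ := by
    rw [div_lt_iff₀ hN0]
    rw [div_lt_iff₀ hδ] at hnδ
    have : (N : ℝ) = n + 1 := by rw [hN]; push_cast; ring
    rw [this]
    nlinarith
  -- points on the segment
  have hmem : ∀ x ∈ closedBall (0 : E3) 1, ∀ k : ℕ, k ≤ N → ((k : ℝ) / N) • x ∈ closedBall (0 : E3) 1 := by
    intro x hx k hk
    rw [mem_closedBall_zero_iff] at hx ⊢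
    rw [norm_smul, Real.norm_eq_abs, abs_of_nonneg (by positivity)]
    have h1 : (k : ℝ) / N ≤ 1 := by
      rw [div_le_one hN0]
      exact_mod_cast hk
    calc (k : ℝ) / N * ‖x‖ ≤ 1 * 1 := by
          apply mul_le_mul h1 hx (norm_nonneg _) zero_le_one
      _ = 1 := one_mul 1
  have hslit : ∀ x ∈ closedBall (0 : E3) 1, ∀ k : ℕ, k < N →
      (e ((((k + 1 : ℕ) : ℝ) / N) • x)).1 / (e (((k : ℝ) / N) • x)).1 ∈ Complex.slitPlane := by
    intro x hx k hk
    have m1 := hmem x hx (k + 1) hk
    have m0 := hmem x hx k hk.le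
    apply neat_slit (hn _ m0)
    have := hu _ m1 _ m0
    rw [dist_eq_norm] at this
    have h2 : dist ((((k + 1 : ℕ) : ℝ) / N) • x) (((k : ℝ) / N) • x) < δ := by
      rw [dist_eq_norm, ← sub_smul, norm_smul]
      have : (((k + 1 : ℕ) : ℝ) / N) - ((k : ℝ) / N) = 1 / N := by
        push_cast
        ring
      rw [this, Real.norm_eq_abs, abs_of_nonneg (by positivity)]
      rw [mem_closedBall_zero_iff] at hx
      calc 1 / (N : ℝ) * ‖x‖ ≤ 1 / N * 1 := by
            apply mul_le_mul_of_nonneg_left hx (by positivity)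
        _ < δ := by rw [mul_one]; exact hN1
    have h3 := this h2
    rw [dist_eq_norm] at h3
    exact h3
  -- the lift
  set a : E3 → ℝ := fun x => Complex.arg (e 0).1 + ∑ k ∈ Finset.range N,
    Complex.arg ((e ((((k + 1 : ℕ) : ℝ) / N) • x)).1 / (e (((k : ℝ) / N) • x)).1) with ha
  have ha_sm : ∀ x ∈ closedBall (0 : E3) 1, ContDiffAt ℝ ∞ a x := by
    intro x hx
    apply ContDiffAt.add contDiffAt_const
    apply ContDiffAt.sum
    intro k hk
    rw [Finset.mem_range] at hk
    have m1 := hmem x hx (k + 1) hk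
    have m0 := hmem x hx k hk.le
    have s1 : ContDiffAt ℝ ∞ (fun x : E3 => (e ((((k + 1 : ℕ) : ℝ) / N) • x)).1) x := by
      have g1 : ContDiffAt ℝ ∞ (fun x : E3 => (((k + 1 : ℕ) : ℝ) / N) • x) x :=
        (contDiff_const_smul _).contDiffAt
      have g2 : ContDiffAt ℝ ∞ (e ∘ (fun x : E3 => (((k + 1 : ℕ) : ℝ) / N) • x)) x :=
        ContDiffAt.comp x (hsm _ m1) g1
      exact g2.fst
    have s0 : ContDiffAt ℝ ∞ (fun x : E3 => (e (((k : ℝ) / N) • x)).1) x := by
      have g1 : ContDiffAt ℝ ∞ (fun x : E3 => ((k : ℝ) / N) • x) x :=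
        (contDiff_const_smul _).contDiffAt
      have g2 : ContDiffAt ℝ ∞ (e ∘ (fun x : E3 => ((k : ℝ) / N) • x)) x :=
        ContDiffAt.comp x (hsm _ m0) g1
      exact g2.fst
    have hne : (e (((k : ℝ) / N) • x)).1 ≠ 0 := by
      intro h0
      have := hn _ m0
      rw [h0, norm_zero] at this
      exact zero_ne_one this
    have s2 : ContDiffAt ℝ ∞ (fun x : E3 => (e ((((k + 1 : ℕ) : ℝ) / N) • x)).1 /
        (e (((k : ℝ) / N) • x)).1) x := by
      simp only [div_eq_mul_inv]
      exact s1.mul (s0.inv hne)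
    exact ContDiffAt.comp x (neat_contDiffAt_arg (hslit x hx k hk)) s2
  have ha_exp : ∀ x ∈ closedBall (0 : E3) 1, Complex.exp ((a x : ℂ) * Complex.I) = (e x).1 := by
    intro x hx
    have h0 : (0 : E3) ∈ closedBall (0 : E3) 1 := by simp
    have e1 : ((a x : ℝ) : ℂ) * Complex.I = (Complex.arg (e 0).1 : ℂ) * Complex.I +
        ∑ k ∈ Finset.range N, (Complex.arg ((e ((((k + 1 : ℕ) : ℝ) / N) • x)).1 /
          (e (((k : ℝ) / N) • x)).1) : ℂ) * Complex.I := by
      rw [ha]
      push_cast
      rw [add_mul, Finset.sum_mul]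
    rw [e1, Complex.exp_add, Complex.exp_sum, neat_exp_arg (hn 0 h0)]
    have e2 : ∀ k ∈ Finset.range N, Complex.exp ((Complex.arg ((e ((((k + 1 : ℕ) : ℝ) / N) • x)).1 /
          (e (((k : ℝ) / N) • x)).1) : ℂ) * Complex.I) =
          (e ((((min (k + 1) N : ℕ) : ℝ) / N) • x)).1 / (e ((((min k N : ℕ) : ℝ) / N) • x)).1 := by
      intro k hk
      rw [Finset.mem_range] at hk
      rw [min_eq_left (Nat.succ_le_of_lt hk), min_eq_left hk.le]
      apply neat_exp_arg
      rw [norm_div, hn _ (hmem x hx (k + 1) hk), hn _ (hmem x hx k hk.le), div_one]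
    rw [Finset.prod_congr rfl e2]
    have e3 := neat_prod_tele (fun k => (e ((((min k N : ℕ) : ℝ) / N) • x)).1) (by
      intro k h0
      have := hn _ (hmem x hx (min k N) (min_le_right _ _))
      rw [h0, norm_zero] at this
      exact zero_ne_one this) N
    rw [e3]
    have e4 : (((min N N : ℕ) : ℝ) / N) • x = x := by
      rw [min_self, div_self hN0.ne', one_smul]
    have e5 : (((min 0 N : ℕ) : ℝ) / N) • x = 0 := by
      rw [min_eq_left (Nat.zero_le _)]
      simp
    simp only [e4, e5]
    have h00 : (e 0).1 ≠ 0 := by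
      intro h1
      have := hn 0 h0
      rw [h1, norm_zero] at this
      exact zero_ne_one this
    field_simp
  set f : E3 → ℝ × E3 := fun x => (a x, (e x).2) with hf
  have hfe : ∀ x ∈ closedBall (0 : E3) 1,
      ((Complex.exp ((f x).1 * Complex.I), (f x).2) : Amb) = e x := by
    intro x hx
    rw [Prod.ext_iff]
    exact ⟨ha_exp x hx, rfl⟩
  have hf_sm : ∀ x ∈ closedBall (0 : E3) 1, ContDiffAt ℝ ∞ f x := by
    intro x hx
    exact (ha_sm x hx).prodMk (hsm x hx).snd
  have hone : (∞ : ℕ∞ω) ≠ 0 := by simp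
  refine ⟨f, ?_, ?_, ?_, ?_, ?_, ?_, ?_⟩
  · exact hf_sm
  · rw [← himg]
    apply image_congr
    exact hfe
  · intro x hx y hy hxy
    simp only [] at hxy
    rw [hfe x hx, hfe y hy] at hxy
    exact hinj hx hy hxy
  · intro x hx
    rw [injective_iff_map_eq_zero]
    intro v hv
    have hfd : DifferentiableAt ℝ f x := (hf_sm x hx).differentiableAt hone
    have hed : DifferentiableAt ℝ e x := (hsm x hx).differentiableAt hone
    -- the composite
    have hg : HasFDerivAt (fun q : ℝ × E3 => ((Complex.exp ((q.1 : ℂ) * Complex.I), q.2) : Amb))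
        (((Complex.exp (((f x).1 : ℂ) * Complex.I)) • (Complex.I • (Complex.ofRealCLM.comp (ContinuousLinearMap.fst ℝ ℝ E3)))).prod
          (ContinuousLinearMap.snd ℝ ℝ E3)) (f x) := by
      apply HasFDerivAt.prodMk
      · have h1 : HasFDerivAt (fun q : ℝ × E3 => ((q.1 : ℂ) * Complex.I))
            (Complex.I • (Complex.ofRealCLM.comp (ContinuousLinearMap.fst ℝ ℝ E3))) (f x) := by
          have h2 : HasFDerivAt (fun q : ℝ × E3 => ((q.1 : ℂ)))
            (Complex.ofRealCLM.comp (ContinuousLinearMap.fst ℝ ℝ E3)) (f x) :=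
            (Complex.ofRealCLM.comp (ContinuousLinearMap.fst ℝ ℝ E3)).hasFDerivAt
          have h3 := h2.const_mul Complex.I
          refine h3.congr_of_eventuallyEq ?_
          filter_upwards with q
          ring
        exact h1.cexp
      · exact hasFDerivAt_snd
    have hcomp := hg.comp x hfd.hasFDerivAt
    have hcomp' : HasFDerivWithinAt e ((((Complex.exp (((f x).1 : ℂ) * Complex.I)) • (Complex.I • (Complex.ofRealCLM.comp (ContinuousLinearMap.fst ℝ ℝ E3)))).prod
          (ContinuousLinearMap.snd ℝ ℝ E3)).comp (fderiv ℝ f x)) (closedBall 0 1) x := by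
      refine hcomp.hasFDerivWithinAt.congr ?_ ?_
      · intro y hy
        exact (hfe y hy).symm
      · exact (hfe x hx).symm
    have huniq : UniqueDiffWithinAt ℝ (closedBall (0 : E3) 1) x := by
      apply uniqueDiffOn_convex (convex_closedBall _ _) _ x hx
      rw [interior_closedBall _ one_ne_zero]
      exact ⟨0, mem_ball_self one_pos⟩
    have heq := huniq.eq hcomp' hed.hasFDerivAt.hasFDerivWithinAt
    have h0 : fderiv ℝ e x v = 0 := by
      rw [← heq]
      simp [hv]
    exact (injective_iff_map_eq_zero _).mp (himm x hx) v h0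
  · intro x hx
    exact (hW x hx).2
  · intro x hx
    exact hbd x hx
  · intro x hx
    obtain ⟨v, hv⟩ := htr x hx
    have hx' : x ∈ closedBall (0 : E3) 1 := by
      rw [mem_closedBall_zero_iff]
      exact hx.le
    refine ⟨v, ?_⟩
    have had : DifferentiableAt ℝ a x := (ha_sm x hx').differentiableAt hone
    have hed : DifferentiableAt ℝ e x := (hsm x hx').differentiableAt hone
    have h1 : HasFDerivAt f ((fderiv ℝ a x).prod ((ContinuousLinearMap.snd ℝ ℂ E3).comp (fderiv ℝ e x))) x := by
      apply HasFDerivAt.prodMk had.hasFDerivAt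
      exact hasFDerivAt_snd.comp x hed.hasFDerivAt
    rw [h1.fderiv]
    simpa using hv

end Pool.B203
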