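import Pool.Agent.Lib.B203.CollarDefs

/-! Row Normal: a smooth field transverse to the ball. -/

open Set Metric Topology
open scoped ContDiff Quaternion ComplexConjugate

noncomputable section

namespace Pool.B203

/-- coordinates on `ℝ × ℝ³` -/
private def nrmPhi : (ℝ × E3) →ₗ[ℝ] (Fin 4 → ℝ) where
  toFun w := Fin.cons w.1 (fun i => w.2 i)
  map_add' a b := by
    funext i
    refine Fin.cases ?_ (fun j => ?_) i <;> simp
  map_smul' c a := by
    funext i
    refine Fin.cases ?_ (fun j => ?_) i <;> simp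

private lemma nrmPhi_zero (w : ℝ × E3) : nrmPhi w 0 = w.1 := rfl

private lemma nrmPhi_succ (w : ℝ × E3) (j : Fin 3) : nrmPhi w j.succ = w.2 j := rfl

private lemma nrmPhi_inj : Function.Injective nrmPhi := by
  intro a b h
  have h0 := congrFun h 0
  rw [nrmPhi_zero, nrmPhi_zero] at h0
  refine Prod.ext h0 ?_
  ext j
  have h1 := congrFun h j.succ
  rwa [nrmPhi_succ, nrmPhi_succ] at h1

/-- the three derivatives -/
private def nrmRows (f : E3 → ℝ × E3) (x : E3) : Fin 3 → Fin 4 → ℝ :=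
  fun i => nrmPhi (fderiv ℝ f x (EuclideanSpace.single i 1))

/-- the coordinates of the normal -/
private def nrmC (f : E3 → ℝ × E3) (x : E3) (j : Fin 4) : ℝ :=
  (-1) ^ (j : ℕ) * ((Matrix.of (nrmRows f x)).submatrix id j.succAbove).det

private def nrmN (f : E3 → ℝ × E3) (x : E3) : ℝ × E3 :=
  (nrmC f x 0, !₂[nrmC f x 1, nrmC f x 2, nrmC f x 3])

private lemma nrm_det (f : E3 → ℝ × E3) (x : E3) (w : ℝ × E3) :
    (nrmN f x).1 * w.1 + inner ℝ (nrmN f x).2 w.2 =
      Matrix.det (Matrix.of (Fin.cons (nrmPhi w) (nrmRows f x) : Fin 4 → Fin 4 → ℝ)) := by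
  rw [Matrix.det_succ_row_zero, Fin.sum_univ_succ, Fin.sum_univ_three]
  have hs : ∀ j : Fin 4, (Matrix.of (Fin.cons (nrmPhi w) (nrmRows f x) :
      Fin 4 → Fin 4 → ℝ)).submatrix Fin.succ j.succAbove
        = (Matrix.of (nrmRows f x)).submatrix id j.succAbove := by
    intro j
    ext a b
    rfl
  have hz : ∀ j : Fin 4, (Matrix.of (Fin.cons (nrmPhi w) (nrmRows f x) :
      Fin 4 → Fin 4 → ℝ)) 0 j = nrmPhi w j := fun j => rfl
  simp only [hs, hz]
  have e0 : nrmPhi w 0 = w.1 := rfl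
  have e1 : nrmPhi w (Fin.succ 0) = w.2 0 := rfl
  have e2 : nrmPhi w (Fin.succ 1) = w.2 1 := rfl
  have e3 : nrmPhi w (Fin.succ 2) = w.2 2 := rfl
  rw [e0, e1, e2, e3]
  have hi : inner ℝ (nrmN f x).2 w.2 = nrmC f x 1 * w.2 0 + nrmC f x 2 * w.2 1
      + nrmC f x 3 * w.2 2 := by
    rw [PiLp.inner_apply, Fin.sum_univ_three]
    simp [nrmN]
    ring
  rw [hi]
  have f1 : (Fin.succ 0 : Fin 4) = 1 := rfl
  have f2 : (Fin.succ 1 : Fin 4) = 2 := rfl
  have f3 : (Fin.succ 2 : Fin 4) = 3 := rfl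
  rw [f1, f2, f3]
  simp only [nrmN, nrmC]
  ring

private lemma nrm_smooth {f : E3 → ℝ × E3} {x : E3} (hf : ContDiffAt ℝ ∞ f x) :
    ContDiffAt ℝ ∞ (nrmN f) x := by
  have h0 : ∀ i : Fin 3, ContDiffAt ℝ ∞ (fun y => fderiv ℝ f y (EuclideanSpace.single i 1)) x :=
    fun i => (hf.fderiv_right (m := ∞) (by norm_num)).clm_apply contDiffAt_const
  have h1 : ∀ (i : Fin 3) (j : Fin 4), ContDiffAt ℝ ∞ (fun y => nrmRows f y i j) x := by
    intro i j
    refine Fin.cases ?_ (fun k => ?_) j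
    · exact (h0 i).fst
    · have h2 : ContDiffAt ℝ ∞ (fun y => (fderiv ℝ f y (EuclideanSpace.single i 1)).2) x :=
        (h0 i).snd
      exact (contDiffAt_euclidean.mp h2) k
  have h2 : ∀ j : Fin 4, ContDiffAt ℝ ∞ (fun y => nrmC f y j) x := by
    intro j
    unfold nrmC
    refine contDiffAt_const.mul ?_
    simp only [Matrix.det_apply, Matrix.submatrix_apply, Matrix.of_apply]
    refine ContDiffAt.sum fun σ _ => ?_
    refine ContDiffAt.const_smul _ ?_
    exact contDiffAt_prod fun i _ => h1 _ _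
  refine (h2 0).prodMk ?_
  rw [contDiffAt_euclidean]
  intro i
  fin_cases i
  · exact h2 1
  · exact h2 2
  · exact h2 3

private lemma nrm_ne {f : E3 → ℝ × E3} {x : E3} (hi : Function.Injective (fderiv ℝ f x)) :
    nrmN f x ≠ 0 := by
  intro h0
  have hli : LinearIndependent ℝ (nrmRows f x) := by
    have h1 : LinearIndependent ℝ (fun i : Fin 3 => (EuclideanSpace.single i (1 : ℝ) : E3)) := by
      have h := (EuclideanSpace.basisFun (Fin 3) ℝ).toBasis.linearIndependent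
      have e : ⇑(EuclideanSpace.basisFun (Fin 3) ℝ).toBasis =
          (fun i : Fin 3 => (EuclideanSpace.single i (1 : ℝ) : E3)) := by
        funext i
        simp
      rwa [e] at h
    have h2 := h1.map' (nrmPhi.comp (fderiv ℝ f x : E3 →ₗ[ℝ] ℝ × E3)) (by
      rw [LinearMap.ker_eq_bot]
      exact nrmPhi_inj.comp hi)
    exact h2
  have hne : Submodule.span ℝ (Set.range (nrmRows f x)) ≠ ⊤ := by
    intro htop
    have h1 := finrank_range_le_card (R := ℝ) (nrmRows f x)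
    unfold Set.finrank at h1
    rw [htop, finrank_top, Module.finrank_fin_fun, Fintype.card_fin] at h1
    omega
  obtain ⟨w', hw'⟩ : ∃ w' : Fin 4 → ℝ, w' ∉ Submodule.span ℝ (Set.range (nrmRows f x)) := by
    by_contra hcon
    push Not at hcon
    exact hne (eq_top_iff.mpr fun w _ => hcon w)
  have hli4 : LinearIndependent ℝ (Fin.cons w' (nrmRows f x) : Fin 4 → Fin 4 → ℝ) :=
    linearIndependent_finCons.mpr ⟨hli, hw'⟩
  have hdet : Matrix.det (Matrix.of (Fin.cons w' (nrmRows f x) : Fin 4 → Fin 4 → ℝ)) ≠ 0 := by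
    have h1 : IsUnit (Matrix.of (Fin.cons w' (nrmRows f x) : Fin 4 → Fin 4 → ℝ)) :=
      Matrix.linearIndependent_rows_iff_isUnit.mp hli4
    exact ((Matrix.isUnit_iff_isUnit_det _).mp h1).ne_zero
  apply hdet
  have hw : nrmPhi (w' 0, !₂[w' 1, w' 2, w' 3]) = w' := by
    funext i
    fin_cases i <;> rfl
  rw [← hw, ← nrm_det, h0]
  simp

/-- Row B2a: a smooth field transverse to the ball. -/
theorem exists_normal {f : E3 → ℝ × E3} (hf : ∀ x ∈ closedBall (0 : E3) 1, ContDiffAt ℝ ∞ f x)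
    (hi : ∀ x ∈ closedBall (0 : E3) 1, Function.Injective (fderiv ℝ f x)) :
    ∃ (n : E3 → ℝ × E3) (d : E3 → (ℝ × E3) →L[ℝ] ℝ),
      (∀ x ∈ closedBall (0 : E3) 1, ContDiffAt ℝ ∞ n x) ∧
      (∀ x ∈ closedBall (0 : E3) 1, ContinuousAt d x) ∧
      (∀ x ∈ closedBall (0 : E3) 1, ∀ v, d x (fderiv ℝ f x v) = 0) ∧
      (∀ x ∈ closedBall (0 : E3) 1, ∀ w, d x w = (n x).1 * w.1 + inner ℝ (n x).2 w.2) ∧
      (∀ x ∈ closedBall (0 : E3) 1, n x ≠ 0) := by
  have hd : ∀ (x : E3) (w : ℝ × E3), ((nrmN f x).1 • ContinuousLinearMap.fst ℝ ℝ E3 +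
      (innerSL ℝ (nrmN f x).2).comp (ContinuousLinearMap.snd ℝ ℝ E3)) w
      = (nrmN f x).1 * w.1 + inner ℝ (nrmN f x).2 w.2 := fun x w => rfl
  refine ⟨nrmN f, fun x => (nrmN f x).1 • ContinuousLinearMap.fst ℝ ℝ E3 +
      (innerSL ℝ (nrmN f x).2).comp (ContinuousLinearMap.snd ℝ ℝ E3),
    fun x hx => nrm_smooth (hf x hx), fun x hx => ?_, fun x hx v => ?_, fun x _ w => hd x w,
    fun x hx => nrm_ne (hi x hx)⟩
  · have h1 := (nrm_smooth (hf x hx)).continuousAt
    have h2 : ContinuousAt (fun y => innerSL ℝ (nrmN f y).2) x :=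
      (innerSL ℝ (E := E3)).continuous.continuousAt.comp h1.snd
    exact (h1.fst.smul continuousAt_const).add (h2.clm_comp continuousAt_const)
  · have h1 : ∀ i : Fin 3, ((nrmN f x).1 • ContinuousLinearMap.fst ℝ ℝ E3 +
        (innerSL ℝ (nrmN f x).2).comp (ContinuousLinearMap.snd ℝ ℝ E3))
          (fderiv ℝ f x (EuclideanSpace.single i 1)) = 0 := by
      intro i
      rw [hd, nrm_det]
      refine Matrix.det_zero_of_row_eq (i := 0) (j := i.succ) (Fin.succ_ne_zero i).symm ?_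
      funext k
      rfl
    have h2 : v = ∑ i, v i • (EuclideanSpace.single i (1 : ℝ) : E3) := by
      ext j
      simp [Finset.sum_apply, Pi.single_apply]
    rw [h2]
    simp only [map_sum, map_smul]
    refine Finset.sum_eq_zero fun i _ => ?_
    show v i • _ = 0
    rw [h1 i, smul_zero]

end Pool.B203
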