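import Pool.Agent.Lib.B203.Tube
import Pool.Agent.Lib.B203.Descend

/-! Row QNa: the quotient of the exterior. -/

open Set Metric Topology
open scoped ContDiff Quaternion ComplexConjugate

noncomputable section

namespace Pool.B203

variable {σ ε : ℝ}

private theorem QNa_tubB_tubC : tubB ε ⊆ tubC ε := fun _ hp => ⟨hp.1, hp.2.le⟩

private theorem QNa_tubO_tubC : tubO ε ⊆ tubC ε := fun _ hp => ⟨hp.1, hp.2.le⟩

private theorem QNa_refl_norm {p : Amb} (hp : ‖p.1‖ = 1) :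
    ‖((conj p.1, iot p.2) : Amb).1‖ = 1 := by
  simpa using hp

private theorem QNa_refl_O {p : Amb} (hp : p ∈ tubO ε) : ((conj p.1, iot p.2) : Amb) ∈ tubO ε :=
  ⟨QNa_refl_norm hp.1, by simpa [norm_iot] using hp.2⟩

private theorem QNa_refl_C {p : Amb} (hp : p ∈ tubC ε) : ((conj p.1, iot p.2) : Amb) ∈ tubC ε :=
  ⟨QNa_refl_norm hp.1, by simpa [norm_iot] using hp.2⟩

private theorem QNa_refl_B {p : Amb} (hp : p ∈ tubB ε) : ((conj p.1, iot p.2) : Amb) ∈ tubB ε :=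
  ⟨QNa_refl_norm hp.1, by simpa [norm_iot] using hp.2⟩

theorem isCompact_WM (hg : Good σ ε) : IsCompact (WM σ ε) := by
  obtain ⟨O, hO, hJ⟩ := hg.opn ε hg.pos le_rfl
  have : WM σ ε = M ∩ Oᶜ := by
    ext m
    simp only [WM, hJ, mem_sdiff, mem_inter_iff, mem_compl_iff]
    tauto
  rw [this]
  exact isCompact_M.inter_right hO.isClosed_compl

theorem isCompact_Q (hg : Good σ ε) : IsCompact (Q σ ε) :=
  (isCompact_WM hg).image continuous_kap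

theorem isCompact_bdQ (hg : Good σ ε) : IsCompact (bdQ σ ε) :=
  ((isCompact_tubB ε).image_of_continuousOn (hg.cont.mono QNa_tubB_tubC)).image continuous_kap

theorem bdM_subset_WM (hg : Good σ ε) : bdM σ ε ⊆ WM σ ε := by
  rintro _ ⟨p, hp, rfl⟩
  refine ⟨hg.mem p (QNa_tubB_tubC hp), ?_⟩
  rintro ⟨p', hp', h⟩
  have := hg.inj (QNa_tubO_tubC hp') (QNa_tubB_tubC hp) h
  subst this
  exact absurd hp.2 hp'.2.ne

theorem bdQ_subset_Q (hg : Good σ ε) : bdQ σ ε ⊆ Q σ ε :=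
  image_mono (bdM_subset_WM hg)

theorem Q_subset_Sig : Q σ ε ⊆ Sig := by
  rintro _ ⟨m, hm, rfl⟩
  exact kap_mem_Sig hm.1

theorem rho_mem_WM (hg : Good σ ε) {m : MAmb} (hm : m ∈ WM σ ε) : rho m ∈ WM σ ε := by
  have _ := hg.pos
  refine ⟨rho_mem_M hm.1, ?_⟩
  rintro ⟨p, hp, h⟩
  refine hm.2 ⟨(conj p.1, iot p.2), QNa_refl_O hp, ?_⟩
  rw [J_conj, h, rho_rho]

theorem rho_mem_bdM (hg : Good σ ε) {m : MAmb} (hm : m ∈ bdM σ ε) : rho m ∈ bdM σ ε := by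
  have _ := hg.pos
  obtain ⟨p, hp, rfl⟩ := hm
  exact ⟨(conj p.1, iot p.2), QNa_refl_B hp, J_conj σ p⟩

theorem kap_mem_Q_iff (hg : Good σ ε) {m : MAmb} (hm : m ∈ M) : kap m ∈ Q σ ε ↔ m ∈ WM σ ε := by
  constructor
  · rintro ⟨m', hm', h⟩
    rcases (kap_eq_iff hm'.1 hm).1 h with rfl | rfl
    · exact hm'
    · exact rho_mem_WM hg hm'
  · exact fun h => ⟨m, h, rfl⟩

theorem kap_mem_bdQ_iff (hg : Good σ ε) {m : MAmb} (hm : m ∈ M) : kap m ∈ bdQ σ ε ↔ m ∈ bdM σ ε := by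
  constructor
  · rintro ⟨m', hm', h⟩
    rcases (kap_eq_iff (bdM_subset_WM hg hm').1 hm).1 h with rfl | rfl
    · exact hm'
    · exact rho_mem_bdM hg hm'
  · exact fun h => ⟨m, h, rfl⟩

theorem Sig_subset (hg : Good σ ε) : Sig ⊆ Q σ ε ∪ kap '' (J σ '' tubC ε) := by
  have _ := hg.pos
  intro q hq
  obtain ⟨p, hp, rfl⟩ := exists_kap hq
  by_cases h : p ∈ J σ '' tubO ε
  · exact Or.inr ⟨p, image_mono QNa_tubO_tubC h, rfl⟩
  · exact Or.inl ⟨p, ⟨hp, h⟩, rfl⟩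

theorem Q_inter (hg : Good σ ε) : Q σ ε ∩ kap '' (J σ '' tubC ε) = bdQ σ ε := by
  apply Subset.antisymm
  · rintro _ ⟨hq, _, ⟨p, hp, rfl⟩, rfl⟩
    have h := (kap_mem_Q_iff hg (hg.mem p hp)).1 hq
    refine ⟨_, ⟨p, ⟨hp.1, le_antisymm hp.2 (not_lt.1 fun hlt => ?_)⟩, rfl⟩, rfl⟩
    exact h.2 ⟨p, ⟨hp.1, hlt⟩, rfl⟩
  · exact subset_inter (bdQ_subset_Q hg) (image_mono (image_mono QNa_tubB_tubC))

theorem kapJ_eq_iff (hg : Good σ ε) {p p' : Amb} (hp : p ∈ tubC ε) (hp' : p' ∈ tubC ε) :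
    kap (J σ p) = kap (J σ p') ↔ kapN p = kapN p' := by
  rw [kap_eq_iff (hg.mem p hp) (hg.mem p' hp'), kapN_eq_iff hp.1 hp'.1, ← J_conj]
  constructor
  · rintro (h | h)
    · exact Or.inl (hg.inj hp' hp h)
    · exact Or.inr (hg.inj hp' (QNa_refl_C hp) h)
  · rintro (h | h)
    · exact Or.inl (by rw [h])
    · exact Or.inr (by rw [h])

end Pool.B203
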