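import Pool.Agent.Lib.B203.QNa

/-! Row QNb: the quotient of the tube. -/

open Set Metric Topology
open scoped ContDiff Quaternion ComplexConjugate

noncomputable section

namespace Pool.B203

variable {σ ε : ℝ}

private theorem QNb_reflC {p : Amb} (hp : p ∈ tubC ε) :
    ((conj p.1, iot p.2) : Amb) ∈ tubC ε := by
  refine ⟨?_, ?_⟩
  · simpa using hp.1
  · simpa [norm_iot] using hp.2

private theorem QNb_sq_eq_one {x : ℝ} (h : x ^ 2 = 1) : x = 1 ∨ x = -1 := by
  have : (x - 1) * (x + 1) = 0 := by ring_nf; linarith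
  rcases mul_eq_zero.1 this with h | h
  · left; linarith
  · right; linarith

private theorem QNb_le {a b : ℝ} (h : a ^ 2 ≤ b ^ 2) (hb : 0 ≤ b) : a ≤ b := by
  by_contra hc
  push Not at hc
  nlinarith

/-- a point of the tube whose image is fixed by `rho` is fixed by the reflection -/
private theorem QNb_fix (hg : Good σ ε) {p : Amb} (hp : p ∈ tubC ε) (h : rho (J σ p) = J σ p) :
    (p.1 = 1 ∨ p.1 = -1) ∧ p.2 0 = 0 := by
  rw [← J_conj] at h
  have h1 := hg.inj (QNb_reflC hp) hp h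
  have h2 : conj p.1 = p.1 := congrArg Prod.fst h1
  have h3 : iot p.2 = p.2 := congrArg Prod.snd h1
  have h4 : (iot p.2) 0 = p.2 0 := by rw [h3]
  have h5 : p.1.im = 0 := by
    have := congrArg Complex.im h2
    simp only [Complex.conj_im] at this
    linarith
  have h6 : -(p.2 0) = p.2 0 := by simpa [iot] using h4
  refine ⟨?_, by linarith⟩
  have h7 : p.1.re ^ 2 = 1 := by
    have h8 := hp.1
    have h9 : Complex.normSq p.1 = 1 := by rw [Complex.normSq_eq_norm_sq, h8]; norm_num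
    rw [Complex.normSq_apply, h5] at h9
    nlinarith
  rcases QNb_sq_eq_one h7 with h | h
  · exact Or.inl (Complex.ext (by simpa using h) (by simpa using h5))
  · exact Or.inr (Complex.ext (by simpa using h) (by simpa using h5))

/-- the circle coordinate of `J` at a real point -/
private theorem QNb_J_one (σ : ℝ) {p : Amb} (h : p.1 = 1) (h0 : p.2 0 = 0) :
    (J σ p).1 = 1 ∧ (J σ p).2.re = 0 := by
  simp [J, h, h0]

private theorem QNb_J_neg_one (σ : ℝ) {p : Amb} (h : p.1 = -1) (h0 : p.2 0 = 0) :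
    (J σ p).1 = -1 ∧ (J σ p).2.re = 0 := by
  simp [J, h, h0]

private theorem QNb_rho_fix {m : MAmb} (h : m.1 = 1 ∨ m.1 = -1) (h0 : m.2.re = 0) : rho m = m := by
  refine Prod.ext ?_ ?_
  · rcases h with h | h <;> simp [rho, h]
  · change (⟨-m.2.re, m.2.imI, m.2.imJ, m.2.imK⟩ : ℍ[ℝ]) = m.2
    ext
    · change -m.2.re = m.2.re
      rw [h0, neg_zero]
    · rfl
    · rfl
    · rfl

private theorem QNb_one_ne : (1 : ℂ) ≠ -1 := by
  intro h
  have := congrArg Complex.re h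
  norm_num at this

theorem kapJ_fst_eq_one_iff (hg : Good σ ε) {p : Amb} (hp : p ∈ tubC ε) :
    (kap (J σ p)).1 = 1 ↔ (kapN p).1 = 1 := by
  rw [kap_fst_eq_one_iff (hg.mem p hp)]
  have hN : (kapN p).1 = 1 ↔ p.1 = 1 ∧ p.2 0 = 0 := ell_eq_one_iff hp.1
  rw [hN]
  constructor
  · rintro ⟨h1, h2⟩
    obtain ⟨h3 | h3, h4⟩ := QNb_fix hg hp (QNb_rho_fix (Or.inl h1) h2)
    · exact ⟨h3, h4⟩
    · exact absurd ((h1.symm.trans (QNb_J_neg_one σ h3 h4).1)) QNb_one_ne
  · rintro ⟨h1, h2⟩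
    exact QNb_J_one σ h1 h2

theorem kapJ_fst_eq_neg_one_iff (hg : Good σ ε) {p : Amb} (hp : p ∈ tubC ε) :
    (kap (J σ p)).1 = -1 ↔ (kapN p).1 = -1 := by
  rw [kap_fst_eq_neg_one_iff (hg.mem p hp)]
  have hN : (kapN p).1 = -1 ↔ p.1 = -1 ∧ p.2 0 = 0 := ell_eq_neg_one_iff hp.1
  rw [hN]
  constructor
  · rintro ⟨h1, h2⟩
    obtain ⟨h3 | h3, h4⟩ := QNb_fix hg hp (QNb_rho_fix (Or.inr h1) h2)
    · exact absurd (((QNb_J_one σ h3 h4).1.symm.trans h1)) QNb_one_ne
    · exact ⟨h3, h4⟩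
  · rintro ⟨h1, h2⟩
    exact QNb_J_neg_one σ h1 h2

private theorem QNb_KN (hg : Good σ ε) : kapN '' tubC ε = KN ε := by
  apply Subset.antisymm
  · rintro _ ⟨p, hp, rfl⟩
    change sf (kapN p).1 ^ 2 + ‖(kapN p).2‖ ^ 2 ≤ 1 + ε ^ 2
    rw [kapN_body hp.1]
    have := pow_le_pow_left₀ (norm_nonneg p.2) hp.2 2
    linarith
  · intro q hq
    obtain ⟨p, hp, rfl⟩ := exists_kapN q
    refine ⟨p, ⟨hp, ?_⟩, rfl⟩
    have h : sf (kapN p).1 ^ 2 + ‖(kapN p).2‖ ^ 2 ≤ 1 + ε ^ 2 := hq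
    rw [kapN_body hp] at h
    exact QNb_le (by linarith) hg.pos.le

/-- the homeomorphism of the convex body `KN ε` with the quotient of the tube -/
theorem exists_Jq (hg : Good σ ε) : ∃ (Jq : ℂ × E2 → Amb) (Jr : Amb → ℂ × E2),
    ContinuousOn Jq (KN ε) ∧ ContinuousOn Jr (kap '' (J σ '' tubC ε)) ∧
    (∀ p ∈ tubC ε, Jq (kapN p) = kap (J σ p)) ∧ (∀ p ∈ tubC ε, Jr (kap (J σ p)) = kapN p) := by
  have hJc : ContinuousOn (fun p => kap (J σ p)) (tubC ε) :=
    continuous_kap.comp_continuousOn hg.cont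
  obtain ⟨G, hG, hG'⟩ := descend (isCompact_tubC ε) continuous_kapN.continuousOn hJc
    (fun x hx y hy h => (kapJ_eq_iff hg hx hy).2 h)
  obtain ⟨H, hH, hH'⟩ := descend (isCompact_tubC ε) hJc continuous_kapN.continuousOn
    (fun x hx y hy h => (kapJ_eq_iff hg hx hy).1 h)
  refine ⟨G, H, ?_, ?_, hG', hH'⟩
  · rwa [QNb_KN hg] at hG
  · rwa [image_image]

/-- the real part of the circle coordinate is a continuous function on the quotient of the tube -/
theorem exists_xhat (hg : Good σ ε) : ∃ x : Amb → ℝ, ContinuousOn x (kap '' (J σ '' tubC ε)) ∧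
    ∀ p ∈ tubC ε, x (kap (J σ p)) = p.1.re := by
  have hJc : ContinuousOn (fun p => kap (J σ p)) (tubC ε) :=
    continuous_kap.comp_continuousOn hg.cont
  obtain ⟨H, hH, hH'⟩ := descend (isCompact_tubC ε) hJc
    (g := fun p : Amb => p.1.re) (by fun_prop) (fun x hx y hy h => by
      have h1 := (kapN_eq_iff hx.1 hy.1).1 ((kapJ_eq_iff hg hx hy).1 h)
      rcases h1 with rfl | rfl
      · rfl
      · simp)
  refine ⟨H, ?_, hH'⟩
  rwa [image_image]

end Pool.B203
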