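import Pool.Agent.Lib.B203.Descend

/-! Radial maps. -/

open Set Metric Topology
open scoped ContDiff Quaternion ComplexConjugate

noncomputable section

namespace Pool.B203

/-- `(ζ, x) ↦ (ζ, m(arg ζ, x) x)` -/
def radMap (m : ℝ × E3 → ℝ) (p : Amb) : Amb := (p.1, m (Complex.arg p.1, p.2) • p.2)

/-- A radial factor. -/
structure RadData (m : ℝ × E3 → ℝ) : Prop where
  smooth : ContDiff ℝ ∞ m
  per : ∀ t x, m (t + 2 * Real.pi, x) = m (t, x)
  pos : ∀ t x, 0 < m (t, x)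
  mono : ∀ t x, 0 < m (t, x) + fderiv ℝ m (t, x) (0, x)
  proper : ∀ t, ∀ o : E3, ‖o‖ = 1 → Filter.Tendsto (fun r : ℝ => r * m (t, r • o)) Filter.atTop Filter.atTop

end Pool.B203
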