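import Pool.Agent.Lib.B203.QN
import Pool.Agent.Lib.B203.Gauge

/-! Row C4: `Q ∖ D_x` is a retract of `Σ ∖ S_x`. -/

open Set Metric Topology
open scoped ContDiff Quaternion ComplexConjugate

noncomputable section

namespace Pool.B203

/-- the convex function defining the body `KN` -/
private def RetC (q : ℂ × E2) : ℝ := sf q.1 ^ 2 + ‖q.2‖ ^ 2

private theorem Ret_continuous : Continuous RetC := by
  unfold RetC
  exact ((continuous_sf.comp continuous_fst).pow 2).add ((continuous_snd.norm).pow 2)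

private theorem Ret_at_one : RetC (1, 0) = 1 := by
  have h : sf 1 = 1 := by
    have h2 : ‖(1 : ℂ) + 1‖ = 2 := by
      rw [show (1 : ℂ) + 1 = 2 by norm_num]; simp
    rw [sf, h2]
    simp
  simp [RetC, h]

theorem exists_ret {σ ε : ℝ} (hg : Good σ ε) : ∃ ret : Amb → Amb,
    ContinuousOn ret (Sig ∩ {q | q.1 ≠ 1}) ∧
    (∀ q ∈ Sig, q.1 ≠ 1 → ret q ∈ Q σ ε ∧ (ret q).1 ≠ 1) ∧
    (∀ q ∈ Q σ ε, q.1 ≠ 1 → ret q = q) := by
  classical
  obtain ⟨Jq, Jr, hJq, hJr, hqN, hrN⟩ := exists_Jq hg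
  have hpos : (0 : ℝ) < ε ^ 2 := pow_pos hg.pos 2
  obtain ⟨R, hRc, hR1, hR2, -⟩ := exists_radial (c := RetC) (x₀ := ((1, 0) : ℂ × E2))
    (m := 1 + ε ^ 2) convexOn_body Ret_continuous (by rw [Ret_at_one]; linarith)
    (isBounded_body (1 + ε ^ 2))
  set x₀ : ℂ × E2 := (1, 0) with hx₀
  set T : Set Amb := kap '' (J σ '' tubC ε) with hT
  -- the boundary point
  set bp : ℂ × E2 → ℂ × E2 := fun P => x₀ + R (P - x₀) • (P - x₀) with hbp
  have hbpc : ∀ P, P ≠ x₀ → RetC (bp P) = 1 + ε ^ 2 := fun P hP => (hR1 _ (sub_ne_zero.2 hP)).2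
  have hbpid : ∀ P, P ≠ x₀ → RetC P = 1 + ε ^ 2 → bp P = P := by
    intro P hP hc
    have h1 : (1 : ℝ) = R (P - x₀) := by
      refine hR2 _ (sub_ne_zero.2 hP) 1 one_pos ?_
      rw [one_smul, add_sub_cancel, hc]
    simp only [hbp]
    rw [← h1, one_smul, add_sub_cancel]
  have hbpcont : ContinuousOn bp {P | P ≠ x₀} := by
    have h1 : ContinuousOn (fun P : ℂ × E2 => R (P - x₀)) {P | P ≠ x₀} := by
      refine hRc.comp (by fun_prop) ?_
      intro P hP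
      exact sub_ne_zero.2 hP
    exact continuousOn_const.add (h1.smul (by fun_prop))
  have hbpfst : ∀ P : ℂ × E2, P.1 ≠ 1 → (bp P).1 ≠ 1 := by
    intro P hP h
    have hne : P ≠ x₀ := fun h' => hP (by rw [h'])
    have h2 : (bp P).1 = 1 + R (P - x₀) • (P.1 - 1) := rfl
    rw [h2] at h
    have h3 : R (P - x₀) • (P.1 - 1) = 0 := by
      have := congrArg (fun z => z - 1) h
      simpa using this
    rcases smul_eq_zero.1 h3 with h4 | h4
    · exact absurd h4 (hR1 _ (sub_ne_zero.2 hne)).1.ne'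
    · exact hP (sub_eq_zero.1 h4)
  -- points of the boundary of the body
  have hbd : ∀ P, RetC P = 1 + ε ^ 2 → ∃ p ∈ tubB ε, kapN p = P := by
    intro P hP
    obtain ⟨p, hp, rfl⟩ := exists_kapN P
    refine ⟨p, ⟨hp, ?_⟩, rfl⟩
    have h : sf (kapN p).1 ^ 2 + ‖(kapN p).2‖ ^ 2 = 1 + ε ^ 2 := hP
    rw [kapN_body hp] at h
    have h2 : ‖p.2‖ ^ 2 = ε ^ 2 := by linarith
    exact (pow_left_inj₀ (norm_nonneg _) hg.pos.le two_ne_zero).1 h2
  have hBC : tubB ε ⊆ tubC ε := fun _ hp => ⟨hp.1, hp.2.le⟩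
  -- facts on `Jr`
  have hJrT : ∀ q ∈ T, q.1 ≠ 1 → (Jr q).1 ≠ 1 := by
    rintro _ ⟨_, ⟨p, hp, rfl⟩, rfl⟩ h
    rw [hrN p hp]
    exact fun h' => h ((kapJ_fst_eq_one_iff hg hp).2 h')
  have hne₀ : ∀ P : ℂ × E2, P.1 ≠ 1 → P ≠ x₀ := fun P hP h' => hP (by rw [h'])
  set g : Amb → Amb := fun q => Jq (bp (Jr q)) with hgdef
  have hgcont : ContinuousOn g (T ∩ {q | q.1 ≠ 1}) := by
    have h1 : ContinuousOn (fun q => bp (Jr q)) (T ∩ {q | q.1 ≠ 1}) := by
      refine hbpcont.comp (hJr.mono inter_subset_left) ?_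
      intro q hq
      exact hne₀ _ (hJrT q hq.1 hq.2)
    refine hJq.comp h1 ?_
    intro q hq
    have := hbpc _ (hne₀ _ (hJrT q hq.1 hq.2))
    exact this.le
  have hgQ : ∀ q ∈ T, q.1 ≠ 1 → g q ∈ Q σ ε ∧ (g q).1 ≠ 1 := by
    intro q hq hq1
    obtain ⟨p, hp, hpP⟩ := hbd _ (hbpc _ (hne₀ _ (hJrT q hq hq1)))
    have h1 : g q = kap (J σ p) := by
      rw [← hqN p (hBC hp), hpP]
    rw [h1]
    refine ⟨bdQ_subset_Q hg ⟨_, ⟨p, hp, rfl⟩, rfl⟩, ?_⟩
    rw [Ne, kapJ_fst_eq_one_iff hg (hBC hp), hpP]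
    exact hbpfst _ (hJrT q hq hq1)
  have hgid : ∀ q ∈ Q σ ε, q ∈ T → q.1 ≠ 1 → g q = q := by
    intro q hq hqT hq1
    have h1 : q ∈ bdQ σ ε := by rw [← Q_inter hg]; exact ⟨hq, hqT⟩
    obtain ⟨_, ⟨p, hp, rfl⟩, rfl⟩ := h1
    have h2 : Jr (kap (J σ p)) = kapN p := hrN p (hBC hp)
    have h3 : RetC (kapN p) = 1 + ε ^ 2 := by
      change sf (kapN p).1 ^ 2 + ‖(kapN p).2‖ ^ 2 = 1 + ε ^ 2
      rw [kapN_body hp.1, hp.2]
    have h4 : kapN p ≠ x₀ := by
      rw [← h2]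
      exact hne₀ _ (hJrT _ hqT hq1)
    simp only [hgdef]
    rw [h2, hbpid _ h4 h3, hqN p (hBC hp)]
  have hTcl : IsClosed T := by
    have : IsCompact T := ((isCompact_tubC ε).image_of_continuousOn hg.cont).image continuous_kap
    exact this.isClosed
  have hQcl : IsClosed (Q σ ε) := (isCompact_Q hg).isClosed
  set ret : Amb → Amb := fun q => if q ∈ Q σ ε then q else g q with hret
  have hretQ : ∀ q ∈ Q σ ε, ret q = q := fun q hq => if_pos hq
  have hretT : ∀ q ∈ T, q.1 ≠ 1 → ret q = g q := by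
    intro q hq hq1
    by_cases h : q ∈ Q σ ε
    · rw [hretQ q h, hgid q h hq hq1]
    · exact if_neg h
  refine ⟨ret, ?_, ?_, fun q hq _ => hretQ q hq⟩
  · intro q hq
    have hsub : Sig ∩ {q : Amb | q.1 ≠ 1} ⊆
        (Q σ ε ∩ {q | q.1 ≠ 1}) ∪ (T ∩ {q | q.1 ≠ 1}) := by
      rintro x ⟨hx, hx1⟩
      rcases Sig_subset hg hx with h | h
      · exact Or.inl ⟨h, hx1⟩
      · exact Or.inr ⟨h, hx1⟩
    refine ContinuousWithinAt.mono ?_ hsub
    refine ContinuousWithinAt.union ?_ ?_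
    · by_cases h : q ∈ Q σ ε
      · have : ContinuousOn ret (Q σ ε ∩ {q | q.1 ≠ 1}) :=
          continuousOn_id.congr fun x hx => hretQ x hx.1
        exact this q ⟨h, hq.2⟩
      · refine continuousWithinAt_of_notMem_closure fun h' => h ?_
        exact (closure_minimal inter_subset_left hQcl) h'
    · by_cases h : q ∈ T
      · have : ContinuousOn ret (T ∩ {q | q.1 ≠ 1}) :=
          hgcont.congr fun x hx => hretT x hx.1 hx.2
        exact this q ⟨h, hq.2⟩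
      · refine continuousWithinAt_of_notMem_closure fun h' => h ?_
        exact (closure_minimal inter_subset_left hTcl) h'
  · intro q hq hq1
    rcases Sig_subset hg hq with h | h
    · rw [hretQ q h]
      exact ⟨h, hq1⟩
    · rw [hretT q h hq1]
      exact hgQ q h hq1

end Pool.B203
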