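import Pool.Agent.Lib.B203.FDefs

/-! Row SterA: stereographic projection. -/

open Set Metric Topology
open scoped ContDiff Quaternion ComplexConjugate

noncomputable section

namespace Pool.B203

lemma SterA_normsq (w : ℍ[ℝ]) :
    ‖w‖ ^ 2 = w.re ^ 2 + w.imI ^ 2 + w.imJ ^ 2 + w.imK ^ 2 := by
  rw [sq, ← Quaternion.normSq_eq_norm_mul_self, Quaternion.normSq_def']

lemma SterA_norm_one {w : ℍ[ℝ]} :
    ‖w‖ = 1 ↔ w.re ^ 2 + w.imI ^ 2 + w.imJ ^ 2 + w.imK ^ 2 = 1 := by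
  rw [← SterA_normsq]
  constructor
  · intro h
    rw [h, one_pow]
  · intro h
    have h1 : (‖w‖ - 1) * (‖w‖ + 1) = 0 := by linarith [h]
    rcases mul_eq_zero.1 h1 with h2 | h2
    · linarith
    · linarith [norm_nonneg w]

lemma SterA_e3 (x : E3) : ‖x‖ ^ 2 = x 0 ^ 2 + x 1 ^ 2 + x 2 ^ 2 := by
  rw [EuclideanSpace.norm_sq_eq, Fin.sum_univ_three]
  simp only [Real.norm_eq_abs, sq_abs]

lemma SterA_mk (a b c d : ℝ) : (⟨a, b, c, d⟩ : ℍ[ℝ]) =
    a • (⟨1, 0, 0, 0⟩ : ℍ[ℝ]) + b • (⟨0, 1, 0, 0⟩ : ℍ[ℝ]) + c • (⟨0, 0, 1, 0⟩ : ℍ[ℝ]) +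
      d • (⟨0, 0, 0, 1⟩ : ℍ[ℝ]) := by
  ext <;> simp

/-- A quaternion from its components. -/
def SterA_q (a b c d : ℝ) : ℍ[ℝ] := ⟨a, b, c, d⟩

/-- Smoothness of a quaternion valued function from that of the components. -/
lemma SterA_contDiff_mk {E : Type*} [NormedAddCommGroup E] [NormedSpace ℝ E]
    {a b c d : E → ℝ} (ha : ContDiff ℝ ∞ a) (hb : ContDiff ℝ ∞ b) (hc : ContDiff ℝ ∞ c)
    (hd : ContDiff ℝ ∞ d) : ContDiff ℝ ∞ (fun x => SterA_q (a x) (b x) (c x) (d x)) := by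
  have h : (fun x => SterA_q (a x) (b x) (c x) (d x)) = fun x =>
      a x • (⟨1, 0, 0, 0⟩ : ℍ[ℝ]) + b x • (⟨0, 1, 0, 0⟩ : ℍ[ℝ]) + c x • (⟨0, 0, 1, 0⟩ : ℍ[ℝ]) +
      d x • (⟨0, 0, 0, 1⟩ : ℍ[ℝ]) := by
    funext x
    exact SterA_mk _ _ _ _
  rw [h]
  exact (((ha.smul contDiff_const).add (hb.smul contDiff_const)).add
    (hc.smul contDiff_const)).add (hd.smul contDiff_const)

lemma SterA_contDiff_coord (i : Fin 3) : ContDiff ℝ ∞ (fun x : E3 => x i) :=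
  contDiff_euclidean.1 contDiff_id i

/-- The components of a quaternion are smooth. -/
lemma SterA_contDiff_lin (f : ℍ[ℝ] →ₗ[ℝ] ℝ) : ContDiff ℝ ∞ f :=
  (LinearMap.toContinuousLinearMap f).contDiff

lemma SterA_contDiff_re : ContDiff ℝ ∞ (fun w : ℍ[ℝ] => w.re) :=
  SterA_contDiff_lin
    { toFun := fun w => w.re, map_add' := fun _ _ => rfl, map_smul' := fun _ _ => rfl }

lemma SterA_contDiff_imI : ContDiff ℝ ∞ (fun w : ℍ[ℝ] => w.imI) :=
  SterA_contDiff_lin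
    { toFun := fun w => w.imI, map_add' := fun _ _ => rfl, map_smul' := fun _ _ => rfl }

lemma SterA_contDiff_imJ : ContDiff ℝ ∞ (fun w : ℍ[ℝ] => w.imJ) :=
  SterA_contDiff_lin
    { toFun := fun w => w.imJ, map_add' := fun _ _ => rfl, map_smul' := fun _ _ => rfl }

lemma SterA_contDiff_imK : ContDiff ℝ ∞ (fun w : ℍ[ℝ] => w.imK) :=
  SterA_contDiff_lin
    { toFun := fun w => w.imK, map_add' := fun _ _ => rfl, map_smul' := fun _ _ => rfl }

lemma SterA_contDiff_im : ContDiff ℝ ∞ (fun w : ℍ[ℝ] => (!₂[w.imI, w.imJ, w.imK] : E3)) := by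
  rw [contDiff_euclidean]
  intro i
  fin_cases i
  · exact SterA_contDiff_imI
  · exact SterA_contDiff_imJ
  · exact SterA_contDiff_imK

lemma SterA_pos (x : E3) : 0 < ‖x‖ ^ 2 + 1 := by positivity

theorem norm_stI (x : E3) : ‖stI x‖ = 1 := by
  rw [SterA_norm_one]
  have h1 := SterA_e3 x
  have h2 := (SterA_pos x).ne'
  simp only [stI]
  field_simp
  nlinarith [h1]

theorem stI_ne (x : E3) : stI x ≠ 1 := by
  intro h
  have h1 : (stI x).re = 1 := by rw [h]; rfl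
  simp only [stI] at h1
  rw [div_eq_one_iff_eq (SterA_pos x).ne'] at h1
  linarith

theorem st_stI (x : E3) : st (stI x) = x := by
  have h2 := (SterA_pos x).ne'
  have h3 : (1 - (‖x‖ ^ 2 - 1) / (‖x‖ ^ 2 + 1))⁻¹ = (‖x‖ ^ 2 + 1) / 2 := by
    have h4 : 1 - (‖x‖ ^ 2 - 1) / (‖x‖ ^ 2 + 1) = 2 / (‖x‖ ^ 2 + 1) := by
      field_simp
      ring
    rw [h4, inv_div]
  ext i
  simp only [st, stI, h3]
  fin_cases i
  · simp
    field_simp
  · simp
    field_simp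
  · simp
    field_simp

theorem re_ne_one {w : ℍ[ℝ]} (h : ‖w‖ = 1) (hw : w ≠ 1) : w.re ≠ 1 := by
  intro hre
  rw [SterA_norm_one, hre] at h
  apply hw
  have h1 : w.imI = 0 := by nlinarith [sq_nonneg w.imI, sq_nonneg w.imJ, sq_nonneg w.imK]
  have h2 : w.imJ = 0 := by nlinarith [sq_nonneg w.imI, sq_nonneg w.imJ, sq_nonneg w.imK]
  have h3 : w.imK = 0 := by nlinarith [sq_nonneg w.imI, sq_nonneg w.imJ, sq_nonneg w.imK]
  ext
  · exact hre
  · exact h1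
  · exact h2
  · exact h3

lemma SterA_norm_st {w : ℍ[ℝ]} (h : ‖w‖ = 1) (hw : w.re ≠ 1) :
    ‖st w‖ ^ 2 = (1 + w.re) / (1 - w.re) := by
  have h1 : (1 - w.re) ≠ 0 := fun h2 => hw (by linarith)
  rw [SterA_norm_one] at h
  rw [SterA_e3]
  have e0 : st w 0 = (1 - w.re)⁻¹ * w.imI := by simp [st]
  have e1 : st w 1 = (1 - w.re)⁻¹ * w.imJ := by simp [st]
  have e2 : st w 2 = (1 - w.re)⁻¹ * w.imK := by simp [st]
  rw [e0, e1, e2]
  field_simp
  linarith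

theorem stI_st {w : ℍ[ℝ]} (h : ‖w‖ = 1) (hw : w ≠ 1) : stI (st w) = w := by
  have hre := re_ne_one h hw
  have h1 : (1 - w.re) ≠ 0 := fun h2 => hre (by linarith)
  have hn := SterA_norm_st h hre
  have e0 : st w 0 = (1 - w.re)⁻¹ * w.imI := by simp [st]
  have e1 : st w 1 = (1 - w.re)⁻¹ * w.imJ := by simp [st]
  have e2 : st w 2 = (1 - w.re)⁻¹ * w.imK := by simp [st]
  have hp : ‖st w‖ ^ 2 + 1 = 2 / (1 - w.re) := by
    rw [hn]
    field_simp
    ring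
  have hm : ‖st w‖ ^ 2 - 1 = 2 * w.re / (1 - w.re) := by
    rw [hn]
    field_simp
    ring
  ext
  · simp only [stI, hp, hm]
    field_simp
  · simp only [stI, hp, e0]
    field_simp
  · simp only [stI, hp, e1]
    field_simp
  · simp only [stI, hp, e2]
    field_simp

theorem contDiffAt_st {w : ℍ[ℝ]} (hw : w.re ≠ 1) : ContDiffAt ℝ ∞ st w := by
  have h1 : (1 - w.re) ≠ 0 := fun h2 => hw (by linarith)
  unfold st
  exact ((contDiffAt_const.sub SterA_contDiff_re.contDiffAt).inv h1).smul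
    SterA_contDiff_im.contDiffAt

theorem contDiff_stI : ContDiff ℝ ∞ stI := by
  have hn : ContDiff ℝ ∞ (fun x : E3 => ‖x‖ ^ 2) := contDiff_norm_sq ℝ
  have hd : ContDiff ℝ ∞ (fun x : E3 => ‖x‖ ^ 2 + 1) := hn.add contDiff_const
  have h0 : ∀ x : E3, ‖x‖ ^ 2 + 1 ≠ 0 := fun x => (SterA_pos x).ne'
  exact SterA_contDiff_mk ((hn.sub contDiff_const).div hd h0)
    ((contDiff_const.mul (SterA_contDiff_coord 0)).div hd h0)
    ((contDiff_const.mul (SterA_contDiff_coord 1)).div hd h0)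
    ((contDiff_const.mul (SterA_contDiff_coord 2)).div hd h0)

end Pool.B203
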