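import Pool.Agent.Lib.B203.SterA

/-! Row SterB: the chart `sy`. -/

open Set Metric Topology
open scoped ContDiff Quaternion ComplexConjugate

noncomputable section

namespace Pool.B203

lemma SterB_pos (x : E3) : 0 < 1 + ‖x‖ ^ 2 := by positivity

theorem contDiff_sy : ContDiff ℝ ∞ sy := by
  have hn : ContDiff ℝ ∞ (fun x : E3 => ‖x‖ ^ 2) := contDiff_norm_sq ℝ
  have hd : ContDiff ℝ ∞ (fun x : E3 => 1 + ‖x‖ ^ 2) := contDiff_const.add hn
  have h0 : ∀ x : E3, 1 + ‖x‖ ^ 2 ≠ 0 := fun x => (SterB_pos x).ne'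
  exact SterA_contDiff_mk ((contDiff_const.sub hn).div hd h0)
    ((contDiff_const.mul (SterA_contDiff_coord 0)).div hd h0)
    ((contDiff_const.mul (SterA_contDiff_coord 1)).div hd h0)
    ((contDiff_const.mul (SterA_contDiff_coord 2)).div hd h0)

theorem norm_sy (y : E3) : ‖sy y‖ = 1 := by
  rw [SterA_norm_one]
  have h1 := SterA_e3 y
  have h2 := (SterB_pos y).ne'
  simp only [sy]
  field_simp
  nlinarith [h1]

theorem sy_zero : sy 0 = 1 := by
  ext <;> simp [sy]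

theorem sy_eq_stI {y : E3} (hy : y ≠ 0) : sy y = stI ((‖y‖ ^ 2)⁻¹ • y) := by
  have hn : 0 < ‖y‖ := norm_pos_iff.2 hy
  have hn2 : ‖y‖ ≠ 0 := hn.ne'
  have h2 := (SterB_pos y).ne'
  have h1 : ‖(‖y‖ ^ 2)⁻¹ • y‖ ^ 2 = (‖y‖ ^ 2)⁻¹ := by
    rw [norm_smul, norm_inv, norm_pow, norm_norm, mul_pow]
    field_simp
  have h3 : (‖y‖ ^ 2)⁻¹ + 1 = (1 + ‖y‖ ^ 2) / ‖y‖ ^ 2 := by
    field_simp
  have h4 : (‖y‖ ^ 2)⁻¹ - 1 = (1 - ‖y‖ ^ 2) / ‖y‖ ^ 2 := by
    field_simp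
  have h5 : ∀ i, ((‖y‖ ^ 2)⁻¹ • y) i = (‖y‖ ^ 2)⁻¹ * y i := fun i => rfl
  ext
  · simp only [sy, stI, h1, h3, h4]
    field_simp
  · simp only [sy, stI, h1, h3, h5]
    field_simp
  · simp only [sy, stI, h1, h3, h5]
    field_simp
  · simp only [sy, stI, h1, h3, h5]
    field_simp

/-- The inverse of the chart. -/
def SterB_s (w : ℍ[ℝ]) : E3 := (1 + w.re)⁻¹ • !₂[w.imI, w.imJ, w.imK]

lemma SterB_left (y : E3) : SterB_s (sy y) = y := by
  have h2 := (SterB_pos y).ne'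
  have h3 : (1 + (1 - ‖y‖ ^ 2) / (1 + ‖y‖ ^ 2))⁻¹ = (1 + ‖y‖ ^ 2) / 2 := by
    have h4 : 1 + (1 - ‖y‖ ^ 2) / (1 + ‖y‖ ^ 2) = 2 / (1 + ‖y‖ ^ 2) := by
      field_simp
      ring
    rw [h4, inv_div]
  ext i
  simp only [SterB_s, sy, h3]
  fin_cases i
  · simp
    field_simp
  · simp
    field_simp
  · simp
    field_simp

theorem sy_injective : Function.Injective sy :=
  Function.LeftInverse.injective SterB_left

/-- a smooth left inverse of `sy` on unit quaternions `≠ -1` -/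
theorem exists_sy_inv : ∃ s : ℍ[ℝ] → E3, (∀ w : ℍ[ℝ], w.re ≠ -1 → ContDiffAt ℝ ∞ s w) ∧
    (∀ y, s (sy y) = y) ∧ (∀ w : ℍ[ℝ], ‖w‖ = 1 → w.re ≠ -1 → sy (s w) = w) ∧
    (∀ y, (sy y).re ≠ -1) := by
  refine ⟨SterB_s, ?_, SterB_left, ?_, ?_⟩
  · intro w hw
    have h1 : (1 + w.re) ≠ 0 := fun h2 => hw (by linarith)
    unfold SterB_s
    exact ((contDiffAt_const.add SterA_contDiff_re.contDiffAt).inv h1).smul
      SterA_contDiff_im.contDiffAt
  · intro w h hre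
    have h1 : (1 + w.re) ≠ 0 := fun h2 => hre (by linarith)
    have e0 : SterB_s w 0 = (1 + w.re)⁻¹ * w.imI := by simp [SterB_s]
    have e1 : SterB_s w 1 = (1 + w.re)⁻¹ * w.imJ := by simp [SterB_s]
    have e2 : SterB_s w 2 = (1 + w.re)⁻¹ * w.imK := by simp [SterB_s]
    have hn : ‖SterB_s w‖ ^ 2 = (1 - w.re) / (1 + w.re) := by
      rw [SterA_norm_one] at h
      rw [SterA_e3, e0, e1, e2]
      field_simp
      linarith
    have hp : 1 + ‖SterB_s w‖ ^ 2 = 2 / (1 + w.re) := by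
      rw [hn]
      field_simp
      ring
    have hm : 1 - ‖SterB_s w‖ ^ 2 = 2 * w.re / (1 + w.re) := by
      rw [hn]
      field_simp
      ring
    ext
    · simp only [sy, hp, hm]
      field_simp
    · simp only [sy, hp, e0]
      field_simp
    · simp only [sy, hp, e1]
      field_simp
    · simp only [sy, hp, e2]
      field_simp
  · intro y h
    have h2 := (SterB_pos y).ne'
    simp only [sy] at h
    rw [div_eq_iff h2] at h
    linarith

end Pool.B203
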