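import Pool.Agent.Lib.B203.Normal

/-! Row Tangential: a transverse field tangent to the boundary. -/

open Set Metric Topology
open scoped ContDiff Quaternion ComplexConjugate

noncomputable section

namespace Pool.B203

/-- Row B2b: correct the field so that it is tangent to `∂W` near the boundary. -/
theorem exists_tangential {B : Set Amb} {f : E3 → ℝ × E3} (hf : NeatR B f) :
    ∃ n : E3 → ℝ × E3, (∀ x ∈ closedBall (0 : E3) 1, ContDiffAt ℝ ∞ n x) ∧
      (∀ x ∈ closedBall (0 : E3) 1, ∀ v, n x ≠ fderiv ℝ f x v) ∧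
      (∀ x : E3, ‖x‖ = 1 → ∀ᶠ y in 𝓝 x, inner ℝ (f y).2 (n y).2 = 0) := by
  obtain ⟨n0, d, hn0, -, hd0, hd, hne⟩ := exists_normal hf.smooth hf.imm
  -- good points
  set good : E3 → Prop := fun x => (f x).2 ≠ 0 ∧
    (inner ℝ (f x).2 (n0 x).2) ^ 2 < ‖(f x).2‖ ^ 2 * ((n0 x).1 ^ 2 + ‖(n0 x).2‖ ^ 2) with hgood
  have hopen : ∀ x ∈ closedBall (0 : E3) 1, good x → ∀ᶠ y in 𝓝 x, good y := by
    intro x hx hg
    have c1 : ContinuousAt (fun y => (f y).2) x := (hf.smooth x hx).continuousAt.snd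
    have c2 : ContinuousAt (fun y => (n0 y).2) x := (hn0 x hx).continuousAt.snd
    have c3 : ContinuousAt (fun y => (n0 y).1) x := (hn0 x hx).continuousAt.fst
    have e1 : ∀ᶠ y in 𝓝 x, (f y).2 ≠ 0 := c1.eventually_ne hg.1
    have e2 : ∀ᶠ y in 𝓝 x, (inner ℝ (f y).2 (n0 y).2) ^ 2 <
        ‖(f y).2‖ ^ 2 * ((n0 y).1 ^ 2 + ‖(n0 y).2‖ ^ 2) := by
      refine ContinuousAt.eventually_lt ?_ ?_ hg.2
      · exact (ContinuousAt.inner c1 c2).pow 2
      · exact (c1.norm.pow 2).mul ((c3.pow 2).add (c2.norm.pow 2))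
    filter_upwards [e1, e2] with y h1 h2 using ⟨h1, h2⟩
  have hsph : ∀ x : E3, ‖x‖ = 1 → good x := by
    intro x hx
    have hxb : x ∈ closedBall (0 : E3) 1 := by simp [hx]
    have h1 : ‖(f x).2‖ = 1 := (hf.bd x hxb).2 hx
    refine ⟨fun h => by rw [h, norm_zero] at h1; exact zero_ne_one h1, ?_⟩
    by_contra hcon
    push Not at hcon
    rw [h1, one_pow, one_mul] at hcon
    set c := inner ℝ (f x).2 (n0 x).2 with hc
    have h2 : ‖(n0 x).2 - c • (f x).2‖ ^ 2 = ‖(n0 x).2‖ ^ 2 - c ^ 2 := by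
      rw [norm_sub_sq_real, norm_smul, h1, inner_smul_right, real_inner_comm, ← hc,
        Real.norm_eq_abs, mul_one, sq_abs]
      ring
    have h3 : 0 ≤ ‖(n0 x).2 - c • (f x).2‖ ^ 2 := sq_nonneg _
    have h4 : (n0 x).1 ^ 2 = 0 := by nlinarith [sq_nonneg (n0 x).1]
    have h5 : ‖(n0 x).2 - c • (f x).2‖ ^ 2 = 0 := by nlinarith
    have h6 : (n0 x).1 = 0 := by simpa using h4
    have h7 : (n0 x).2 = c • (f x).2 := by
      have : ‖(n0 x).2 - c • (f x).2‖ = 0 := by simpa using h5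
      exact sub_eq_zero.mp (norm_eq_zero.mp this)
    obtain ⟨v, hv⟩ := hf.trans x hx
    have h8 := hd0 x hxb v
    rw [hd x hxb, h6, zero_mul, zero_add, h7, inner_smul_left] at h8
    have h9 : c = 0 := by
      rcases mul_eq_zero.mp h8 with h | h
      · simpa using h
      · exact absurd h hv
    apply hne x hxb
    refine Prod.ext h6 ?_
    rw [h7, h9, zero_smul]
    rfl
  -- the cut-off radii
  obtain ⟨a, ha0, ha1, ha⟩ : ∃ a : ℝ, 0 ≤ a ∧ a < 1 ∧
      ∀ x ∈ closedBall (0 : E3) 1, a ≤ ‖x‖ ^ 2 → good x := by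
    set T : Set E3 := closedBall (0 : E3) 1 ∩ {x | ¬ good x} with hT
    have hTc : IsClosed T := by
      rw [← isOpen_compl_iff, isOpen_iff_mem_nhds]
      intro x hx
      by_cases hxb : x ∈ closedBall (0 : E3) 1
      · have hg : good x := by
          by_contra hg
          exact hx ⟨hxb, hg⟩
        filter_upwards [hopen x hxb hg] with y hy hyT
        exact hyT.2 hy
      · filter_upwards [isClosed_closedBall.isOpen_compl.mem_nhds hxb] with y hy hyT
        exact hy hyT.1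
    have hTk : IsCompact T := (isCompact_closedBall (0 : E3) 1).of_isClosed_subset hTc
      inter_subset_left
    rcases T.eq_empty_or_nonempty with hE | hE
    · refine ⟨0, le_rfl, one_pos, fun x hx _ => ?_⟩
      by_contra hg
      have : x ∈ T := ⟨hx, hg⟩
      rw [hE] at this
      exact this
    · obtain ⟨x0, hx0, hmax⟩ := hTk.exists_isMaxOn hE continuous_norm.continuousOn
      have h1 : ‖x0‖ ≤ 1 := by simpa using hx0.1
      have h2 : ‖x0‖ < 1 := lt_of_le_of_ne h1 fun h => hx0.2 (hsph x0 h)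
      have h3 := norm_nonneg x0
      refine ⟨(1 + ‖x0‖ ^ 2) / 2, by positivity, by nlinarith, fun x hx hax => ?_⟩
      by_contra hg
      have h4 : ‖x‖ ≤ ‖x0‖ := hmax (show x ∈ T from ⟨hx, hg⟩)
      have h5 := norm_nonneg x
      nlinarith
  set χ : E3 → ℝ := fun x => Real.smoothTransition ((‖x‖ ^ 2 - a) / ((1 - a) / 2)) with hχ
  have hχs : ContDiff ℝ ∞ χ := by
    refine Real.smoothTransition.contDiff.comp ?_
    exact ((contDiff_norm_sq ℝ).sub contDiff_const).div_const _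
  have hχ0 : ∀ x : E3, ‖x‖ ^ 2 ≤ a → χ x = 0 := fun x hx =>
    Real.smoothTransition.zero_of_nonpos
      (div_nonpos_of_nonpos_of_nonneg (by linarith) (by linarith))
  have hχ1 : ∀ x : E3, (1 + a) / 2 ≤ ‖x‖ ^ 2 → χ x = 1 := fun x hx =>
    Real.smoothTransition.one_of_one_le (by
      rw [le_div_iff₀ (by linarith)]
      linarith)
  refine ⟨fun y => ((n0 y).1, (n0 y).2 -
    (χ y * (inner ℝ (f y).2 (n0 y).2 / ‖(f y).2‖ ^ 2)) • (f y).2), ?_, ?_, ?_⟩
  · intro x hx
    rcases lt_or_ge (‖x‖ ^ 2) a with h | h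
    · refine (hn0 x hx).congr_of_eventuallyEq ?_
      have h1 : ∀ᶠ y in 𝓝 x, ‖y‖ ^ 2 < a :=
        ((continuous_norm.pow 2).continuousAt).eventually (gt_mem_nhds h)
      filter_upwards [h1] with y hy
      rw [hχ0 y hy.le, zero_mul, zero_smul, sub_zero]
    · have hg := (ha x hx h).1
      have s1 := (hf.smooth x hx).snd
      have s2 := (hn0 x hx).snd
      exact (hn0 x hx).fst.prodMk (s2.sub ((hχs.contDiffAt.mul
        ((s1.inner ℝ s2).div (s1.norm_sq ℝ) (by simpa using hg))).smul s1))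
  · intro x hx v hv
    have h1 := hd0 x hx v
    rw [← hv, hd x hx] at h1
    simp only [inner_sub_right, inner_smul_right, real_inner_self_eq_norm_sq] at h1
    rw [real_inner_comm (f x).2 (n0 x).2] at h1
    have hpos : 0 < (n0 x).1 ^ 2 + ‖(n0 x).2‖ ^ 2 := by
      by_contra hcon
      push Not at hcon
      have e1 : (n0 x).1 ^ 2 = 0 := by nlinarith [sq_nonneg (n0 x).1, sq_nonneg ‖(n0 x).2‖]
      have e2 : ‖(n0 x).2‖ ^ 2 = 0 := by nlinarith [sq_nonneg (n0 x).1, sq_nonneg ‖(n0 x).2‖]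
      apply hne x hx
      refine Prod.ext (by simpa using e1) ?_
      have : ‖(n0 x).2‖ = 0 := by simpa using e2
      simpa using norm_eq_zero.mp this
    rcases lt_or_ge (‖x‖ ^ 2) a with h | h
    · rw [hχ0 x h.le] at h1
      nlinarith
    · obtain ⟨hg1, hg2⟩ := ha x hx h
      have hfn : 0 < ‖(f x).2‖ ^ 2 := by positivity
      set s := inner ℝ (f x).2 (n0 x).2 with hs
      have h3 : s * (s / ‖(f x).2‖ ^ 2) < (n0 x).1 ^ 2 + ‖(n0 x).2‖ ^ 2 := by
        rw [← mul_div_assoc, div_lt_iff₀ hfn]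
        nlinarith
      have h4 : 0 ≤ s * (s / ‖(f x).2‖ ^ 2) := by
        rw [← mul_div_assoc]
        exact div_nonneg (mul_self_nonneg s) hfn.le
      have h5 : 0 ≤ χ x := Real.smoothTransition.nonneg _
      have h6 : χ x ≤ 1 := Real.smoothTransition.le_one _
      have h7 : χ x * (s * (s / ‖(f x).2‖ ^ 2)) ≤ 1 * (s * (s / ‖(f x).2‖ ^ 2)) :=
        mul_le_mul_of_nonneg_right h6 h4
      nlinarith
  · intro x hx
    have hxb : x ∈ closedBall (0 : E3) 1 := by simp [hx]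
    have h1 : ∀ᶠ y in 𝓝 x, (1 + a) / 2 < ‖y‖ ^ 2 :=
      ((continuous_norm.pow 2).continuousAt).eventually (lt_mem_nhds (by
        show (1 + a) / 2 < ‖x‖ ^ 2
        rw [hx]
        linarith))
    filter_upwards [h1, hopen x hxb (hsph x hx)] with y hy hg
    have hfn : ‖(f y).2‖ ^ 2 ≠ 0 := by
      have := hg.1
      positivity
    show inner ℝ (f y).2 ((n0 y).2 -
      (χ y * (inner ℝ (f y).2 (n0 y).2 / ‖(f y).2‖ ^ 2)) • (f y).2) = 0
    rw [hχ1 y hy.le, one_mul, inner_sub_right, inner_smul_right, real_inner_self_eq_norm_sq,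
      div_mul_cancel₀ _ hfn, sub_self]

end Pool.B203
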