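import Pool.Agent.Lib.B203.DegDefs

/-! Involutions reversing the circle direction. -/

open Set Metric Topology
open scoped ContDiff Quaternion ComplexConjugate

noncomputable section

namespace Pool.B203

/-- An involution of `W` reversing the circle direction. -/
structure TauData (τ : Amb → Amb) (ζh : Amb → ℂ) (η : Amb → ℝ) : Prop where
  maps : MapsTo τ W W
  cont : ContinuousOn τ W
  invol : ∀ p ∈ W, τ (τ p) = p
  ηc : ContinuousOn η W
  ζη : ∀ p ∈ W, ζh p = p.1 * Complex.exp (η p * Complex.I)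
  ζτ : ∀ p ∈ W, ζh (τ p) = conj (ζh p)

/-- The conclusion of the `B` part. -/
def BConcl (τ : Amb → Amb) (ζh : Amb → ℂ) : Prop :=
  ∃ (b : E3 → Amb) (g : Amb → ℝ), ContinuousOn b (closedBall 0 1) ∧ InjOn b (closedBall 0 1) ∧
    MapsTo b (closedBall 0 1) W ∧ (∀ x ∈ closedBall (0 : E3) 1, ‖(b x).2‖ = 1 ↔ ‖x‖ = 1) ∧
    (∀ x ∈ closedBall (0 : E3) 1, ∀ y ∈ closedBall (0 : E3) 1, τ (b x) ≠ b y) ∧
    ContinuousOn g W ∧ (∀ p ∈ W, g (τ p) = g p) ∧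
    (∀ p ∈ W, g p = 0 ↔ p ∈ b '' closedBall 0 1 ∨ τ p ∈ b '' closedBall 0 1) ∧
    (∀ p ∈ W, τ p = p → ζh p = 1 → 0 < g p) ∧ (∀ p ∈ W, τ p = p → ζh p = -1 → g p < 0)

end Pool.B203
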