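import Pool.Agent.Lib.B203.TubeDefs

/-! Row TubeA: identities for `J` and `jc`. -/

open Set Metric Topology
open scoped ContDiff Quaternion ComplexConjugate

noncomputable section

namespace Pool.B203

theorem J_exp (σ φ : ℝ) (u : E3) : J σ (Complex.exp (φ * Complex.I), u) = ch (jc σ (φ, u)) := by
  have hre : (Complex.exp (φ * Complex.I)).re = Real.cos φ := Complex.exp_ofReal_mul_I_re φ
  have him : (Complex.exp (φ * Complex.I)).im = Real.sin φ := Complex.exp_ofReal_mul_I_im φ
  unfold J ch jc
  simp only [hre, him]
  refine Prod.ext ?_ ?_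
  · simp only
    rw [← Complex.exp_add]
    congr 1
    rw [Real.cos_two_mul]
    have h : Real.cos φ ^ 2 - Real.sin φ ^ 2 = 2 * Real.cos φ ^ 2 - 1 := by
      rw [Real.sin_sq]
      ring
    rw [h]
    push_cast
    ring
  · simp only [Matrix.cons_val_zero, Matrix.cons_val_one, Matrix.cons_val]
    ext
    · simp
      ring
    · simp
      congr 1
      ring
    · simp
    · simp

theorem J_conj (σ : ℝ) (p : Amb) : J σ (conj p.1, iot p.2) = rho (J σ p) := by
  unfold J rho iot
  refine Prod.ext ?_ ?_
  · simp only [Matrix.cons_val_zero, map_mul, Complex.conj_re, Complex.conj_im]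
    congr 1
    rw [← Complex.exp_conj, map_mul, Complex.conj_I, Complex.conj_ofReal]
    congr 1
    push_cast
    ring
  · simp only [Matrix.cons_val_zero, Matrix.cons_val_one, Matrix.cons_val,
      Complex.conj_re, Complex.conj_im]
    ext
    · simp
      ring
    · simp
      congr 1
      ring
    · simp
    · simp

theorem J_neg (σ : ℝ) (p : Amb) : J σ (-p.1, p.2) = (-(J (-σ) p).1, (J (-σ) p).2) := by
  unfold J
  refine Prod.ext ?_ ?_
  · simp only [Complex.neg_re, Complex.neg_im]
    rw [neg_mul]
    congr 3
    push_cast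
    ring
  · simp only [Complex.neg_re, Complex.neg_im]
    ext
    · simp
    · simp
    · simp
    · simp

end Pool.B203
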