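import Pool.Agent.Lib.B203.TubeA

/-! Row TubeB: the core circle is immersed and embedded. -/

open Set Metric Topology
open scoped ContDiff Quaternion ComplexConjugate

noncomputable section

namespace Pool.B203

theorem TubeB_contDiff_jc (σ : ℝ) : ContDiff ℝ ∞ (jc σ) := by
  have hp : ∀ i : Fin 3, ContDiff ℝ ∞ (fun q : ℝ × E3 => q.2 i) := fun i =>
    contDiff_euclidean.1 contDiff_snd i
  have h1 : ContDiff ℝ ∞ (fun q : ℝ × E3 => q.1) := contDiff_fst
  unfold jc
  refine ContDiff.prodMk ?_ (contDiff_euclidean.2 fun i => ?_)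
  · have := hp 0
    fun_prop
  · fin_cases i
    · have := hp 0
      simp
      fun_prop
    · have := hp 1
      simp
      fun_prop
    · have := hp 2
      simp
      fun_prop

private theorem TubeB_bound {σ : ℝ} (hσ : σ = 1 ∨ σ = -1) (φ s : ℝ) (hs : |s| ≤ 1 / 100) :
    0 < (1 + 2 * Real.pi * σ * Real.cos φ + 2 * Real.sin (2 * φ) * s) *
      (1 + 2 * Real.pi * σ * Real.cos φ) +
      Real.cos (2 * φ) * (Real.cos (2 * φ) - 2 * Real.pi * σ * Real.sin φ * s) := by
  set x := σ * Real.cos φ with hx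
  have hpi1 := Real.pi_gt_d2
  have hpi2 := Real.pi_lt_d2
  have hxx : x ^ 2 = Real.cos φ ^ 2 := by
    rcases hσ with rfl | rfl <;> · rw [hx]; ring
  have hx1 : x ^ 2 ≤ 1 := by rw [hxx]; exact Real.cos_sq_le_one φ
  have hxa : -1 ≤ x ∧ x ≤ 1 := by constructor <;> nlinarith
  have hc2 : Real.cos (2 * φ) = 2 * x ^ 2 - 1 := by rw [hxx, Real.cos_two_mul]
  set T := 1 + 2 * Real.pi * σ * Real.cos φ with hT
  have hTx : T = 1 + 2 * Real.pi * x := by rw [hT, hx]; ring
  have hmain : 1 / 4 ≤ T ^ 2 + Real.cos (2 * φ) ^ 2 := by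
    rw [hc2, hTx]
    by_cases h1 : x ^ 2 ≤ 1 / 16
    · nlinarith [sq_nonneg (1 + 2 * Real.pi * x)]
    · rw [not_le] at h1
      have h2 : 1 / 4 < x ∨ x < -(1 / 4) := by
        by_contra hcon
        push Not at hcon
        nlinarith [hcon.1, hcon.2]
      rcases h2 with h2 | h2
      · have h3 : 1 ≤ 1 + 2 * Real.pi * x := by nlinarith
        nlinarith [sq_nonneg (2 * x ^ 2 - 1)]
      · have h3 : 1 + 2 * Real.pi * x ≤ -(1 / 2) := by nlinarith
        nlinarith [sq_nonneg (2 * x ^ 2 - 1)]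
  have hTabs : |T| ≤ 8 := by
    rw [abs_le, hTx]
    constructor <;> nlinarith [hxa.1, hxa.2]
  have hsin2 : |Real.sin (2 * φ)| ≤ 1 := Real.abs_sin_le_one _
  have hsin : |Real.sin φ| ≤ 1 := Real.abs_sin_le_one _
  have hcos : |Real.cos (2 * φ)| ≤ 1 := Real.abs_cos_le_one _
  have hσa : |σ| = 1 := by rcases hσ with rfl | rfl <;> norm_num
  have hp1 : |T * Real.sin (2 * φ) * s| ≤ 8 * 1 * (1 / 100) := by
    rw [abs_mul, abs_mul]
    exact mul_le_mul (mul_le_mul hTabs hsin2 (abs_nonneg _) (by norm_num)) hs (abs_nonneg _)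
      (by norm_num)
  have hp2 : |Real.pi * σ * Real.cos (2 * φ) * Real.sin φ * s| ≤ 3.15 * 1 * 1 * 1 * (1 / 100) := by
    rw [abs_mul, abs_mul, abs_mul, abs_mul, abs_of_pos Real.pi_pos]
    refine mul_le_mul (mul_le_mul (mul_le_mul (mul_le_mul hpi2.le hσa.le (abs_nonneg _)
      (by norm_num)) hcos (abs_nonneg _) (by norm_num)) hsin (abs_nonneg _) (by norm_num)) hs
      (abs_nonneg _) (by norm_num)
  have h1 := (abs_le.1 hp1).1
  have h2 := (abs_le.1 hp2).2
  nlinarith

/-- the derivative of the chart expression of the tube is invertible along the core -/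
theorem jc_deriv {σ : ℝ} (hσ : σ = 1 ∨ σ = -1) : ∀ᶠ ε in 𝓝[>] (0 : ℝ), ∀ (φ : ℝ) (u : E3), ‖u‖ ≤ ε →
    Function.Injective (fderiv ℝ (jc σ) (φ, u)) := by
  have hev : ∀ᶠ ε in 𝓝[>] (0 : ℝ), ε ≤ 1 / 100 :=
    Filter.Eventually.filter_mono nhdsWithin_le_nhds (ge_mem_nhds (by norm_num))
  filter_upwards [hev] with ε hε φ u hu
  rw [injective_iff_map_eq_zero]
  rintro ⟨a, w⟩ haw
  have hu0 : |u 0| ≤ 1 / 100 := by
    have h := (EuclideanSpace.norm_eq u)
    have h1 : ‖u 0‖ ≤ ‖u‖ := PiLp.norm_apply_le u 0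
    rw [Real.norm_eq_abs] at h1
    linarith
  have hF : HasFDerivAt (jc σ) (fderiv ℝ (jc σ) (φ, u)) (φ, u) :=
    ((TubeB_contDiff_jc σ).differentiable (by simp)).differentiableAt.hasFDerivAt
  have hγ : HasDerivAt (fun t : ℝ => ((φ + t * a, u + t • w) : ℝ × E3)) (a, w) 0 := by
    refine HasDerivAt.prodMk ?_ ?_
    · simpa using ((hasDerivAt_id (0 : ℝ)).mul_const a).const_add φ
    · simpa using ((hasDerivAt_id (0 : ℝ)).smul_const w).const_add u
  have hcomp : HasDerivAt (fun t : ℝ => jc σ (φ + t * a, u + t • w)) 0 0 := by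
    have h := HasFDerivAt.comp_hasDerivAt (x := (0 : ℝ)) (f := fun t : ℝ =>
      ((φ + t * a, u + t • w) : ℝ × E3)) (l := jc σ) (l' := fderiv ℝ (jc σ) (φ, u))
      (by simpa using hF) hγ
    rwa [haw] at h
  have hc1 : HasDerivAt (fun t : ℝ => (jc σ (φ + t * a, u + t • w)).1) 0 0 := by
    have h := (hasFDerivAt_fst (𝕜 := ℝ) (E := ℝ) (F := E3)).comp_hasDerivAt (0 : ℝ) hcomp
    rw [map_zero] at h
    exact h
  have hc2 : ∀ i : Fin 3, HasDerivAt (fun t : ℝ => (jc σ (φ + t * a, u + t • w)).2 i) 0 0 := by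
    intro i
    have h := (hasFDerivAt_snd (𝕜 := ℝ) (E := ℝ) (F := E3)).comp_hasDerivAt (0 : ℝ) hcomp
    have h' := (EuclideanSpace.proj i : E3 →L[ℝ] ℝ).hasFDerivAt.comp_hasDerivAt (0 : ℝ) h
    rw [map_zero, map_zero] at h'
    exact h'
  have hlin : HasDerivAt (fun t : ℝ => φ + t * a) a 0 := by
    simpa using ((hasDerivAt_id (0 : ℝ)).mul_const a).const_add φ
  have hui : ∀ i : Fin 3, HasDerivAt (fun t : ℝ => u i + t * w i) (w i) 0 := by
    intro i
    simpa using ((hasDerivAt_id (0 : ℝ)).mul_const (w i)).const_add (u i)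
  have hlin2 : HasDerivAt (fun t : ℝ => 2 * (φ + t * a)) (2 * a) 0 := hlin.const_mul 2
  -- first component
  have e1 : a * (1 + 2 * Real.pi * σ * Real.cos φ + 2 * Real.sin (2 * φ) * u 0) -
      Real.cos (2 * φ) * w 0 = 0 := by
    have h1 : HasDerivAt (fun t : ℝ => (jc σ (φ + t * a, u + t • w)).1)
        (a + 2 * Real.pi * σ * (Real.cos φ * a) -
          (-Real.sin (2 * φ) * (2 * a) * u 0 + Real.cos (2 * φ) * w 0)) 0 := by
      have h2 := (hlin.add ((hlin.sin).const_mul (2 * Real.pi * σ))).sub ((hlin2.cos).mul (hui 0))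
      have h3 : (fun t : ℝ => (jc σ (φ + t * a, u + t • w)).1) = ((fun t : ℝ => φ + t * a) +
          (fun t : ℝ => 2 * Real.pi * σ * Real.sin (φ + t * a)) - (fun t : ℝ =>
            Real.cos (2 * (φ + t * a))) * (fun t : ℝ => u 0 + t * w 0)) := by
        funext t
        simp [jc]
      rw [h3]
      convert! h2 using 1
      simp
    have h4 := h1.unique hc1
    linarith
  have e2 : a * (Real.cos (2 * φ) - 2 * Real.pi * σ * Real.sin φ * u 0) +
      (1 + 2 * Real.pi * σ * Real.cos φ) * w 0 = 0 := by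
    have h1 : HasDerivAt (fun t : ℝ => (jc σ (φ + t * a, u + t • w)).2 0)
        (Real.cos φ * a * Real.cos φ + Real.sin φ * (-Real.sin φ * a) +
          ((2 * Real.pi * σ * (-Real.sin φ * a)) * u 0 +
            (1 + 2 * Real.pi * σ * Real.cos φ) * w 0)) 0 := by
      have h2 := ((hlin.sin).mul (hlin.cos)).add
        ((((hlin.cos).const_mul (2 * Real.pi * σ)).const_add 1).mul (hui 0))
      have h3 : (fun t : ℝ => (jc σ (φ + t * a, u + t • w)).2 0) =
          ((fun t : ℝ => Real.sin (φ + t * a)) * (fun t : ℝ => Real.cos (φ + t * a)) +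
          (fun t : ℝ => 1 + 2 * Real.pi * σ * Real.cos (φ + t * a)) *
            (fun t : ℝ => u 0 + t * w 0)) := by
        funext t
        simp [jc]
      rw [h3]
      convert! h2 using 1
      simp
    have h4 := h1.unique (hc2 0)
    rw [Real.cos_two_mul]
    have h5 := Real.sin_sq_add_cos_sq φ
    have h6 : Real.sin φ ^ 2 = 1 - Real.cos φ ^ 2 := by linarith
    have h7 : Real.cos φ * a * Real.cos φ + Real.sin φ * (-Real.sin φ * a) =
        a * (2 * Real.cos φ ^ 2 - 1) := by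
      have : Real.cos φ * a * Real.cos φ + Real.sin φ * (-Real.sin φ * a) =
        a * (Real.cos φ ^ 2 - Real.sin φ ^ 2) := by ring
      rw [this, h6]
      ring
    rw [h7] at h4
    linarith
  have hdet := TubeB_bound hσ φ (u 0) hu0
  set A := 1 + 2 * Real.pi * σ * Real.cos φ + 2 * Real.sin (2 * φ) * u 0
  set B := Real.cos (2 * φ) - 2 * Real.pi * σ * Real.sin φ * u 0
  set T := 1 + 2 * Real.pi * σ * Real.cos φ
  set C := Real.cos (2 * φ)
  have ha : a = 0 := by
    have h1 : (A * T + C * B) * a = 0 := by linear_combination T * e1 + C * e2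
    rcases mul_eq_zero.1 h1 with h2 | h2
    · exact absurd h2 hdet.ne'
    · exact h2
  have hw0 : w 0 = 0 := by
    have h1 : (A * T + C * B) * w 0 = 0 := by linear_combination A * e2 - B * e1
    rcases mul_eq_zero.1 h1 with h2 | h2
    · exact absurd h2 hdet.ne'
    · exact h2
  subst ha
  have hw1 : w 1 = 0 := by
    have h1 : HasDerivAt (fun t : ℝ => (jc σ (φ + t * 0, u + t • w)).2 1) (w 1) 0 := by
      have h3 : (fun t : ℝ => (jc σ (φ + t * 0, u + t • w)).2 1) =
          fun t : ℝ => σ * Real.cos φ / 2 + (u 1 + t * w 1) := by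
        funext t
        simp [jc]
      rw [h3]
      exact (hui 1).const_add _
    exact h1.unique (hc2 1)
  have hw2 : w 2 = 0 := by
    have h1 : HasDerivAt (fun t : ℝ => (jc σ (φ + t * 0, u + t • w)).2 2) (w 2) 0 := by
      have h3 : (fun t : ℝ => (jc σ (φ + t * 0, u + t • w)).2 2) =
          fun t : ℝ => u 2 + t * w 2 := by
        funext t
        simp [jc]
      rw [h3]
      exact hui 2
    exact h1.unique (hc2 2)
  refine Prod.ext rfl ?_
  ext i
  fin_cases i
  · simpa using hw0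
  · simpa using hw1
  · simpa using hw2

/-- the core circle is embedded -/
theorem core_inj {σ : ℝ} (hσ : σ = 1 ∨ σ = -1) {ζ ζ' : ℂ} (h : ‖ζ‖ = 1) (h' : ‖ζ'‖ = 1)
    (he : J σ (ζ, 0) = J σ (ζ', 0)) : ζ = ζ' := by
  have hn : ζ.re ^ 2 + ζ.im ^ 2 = 1 := by
    have h1 := Complex.sq_norm ζ
    rw [h, Complex.normSq_apply] at h1
    linarith
  have hn' : ζ'.re ^ 2 + ζ'.im ^ 2 = 1 := by
    have h1 := Complex.sq_norm ζ'
    rw [h', Complex.normSq_apply] at h1
    linarith
  have e1 := congrArg Prod.fst he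
  have e2 : (J σ (ζ, 0)).2 = (J σ (ζ', 0)).2 := congrArg Prod.snd he
  have e3 : (J σ (ζ, 0)).2.re = (J σ (ζ', 0)).2.re := congrArg _ e2
  have e4 : (J σ (ζ, 0)).2.imJ = (J σ (ζ', 0)).2.imJ := congrArg _ e2
  simp only [J, PiLp.zero_apply, mul_zero, add_zero, sub_zero] at e1 e3 e4
  have hx : ζ.re = ζ'.re := by
    rcases hσ with rfl | rfl <;> linarith
  by_cases hy : ζ.im = ζ'.im
  · exact Complex.ext hx hy
  have hy2 : ζ'.im = -ζ.im := by
    have h1 : (ζ.im - ζ'.im) * (ζ.im + ζ'.im) = 0 := by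
      rw [hx] at hn
      linear_combination hn - hn'
    rcases mul_eq_zero.1 h1 with h2 | h2
    · exact absurd (sub_eq_zero.1 h2) hy
    · linarith
  have hyne : ζ.im ≠ 0 := fun h0 => hy (by rw [hy2, h0, neg_zero])
  have hx0 : ζ.re = 0 := by
    rw [← hx, hy2] at e3
    have h1 : ζ.re * ζ.im = 0 := by linarith
    rcases mul_eq_zero.1 h1 with h2 | h2
    · exact h2
    · exact absurd h2 hyne
  have hysq : ζ.im ^ 2 = 1 := by rw [hx0] at hn; linarith
  have hexp : ∀ s : ℝ, s ^ 2 = 1 → Complex.exp (((2 * Real.pi * σ * s : ℝ) : ℂ) * Complex.I) = 1 := by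
    intro s hs
    have hss : σ * s = 1 ∨ σ * s = -1 := by
      have h1 : (σ * s) ^ 2 = 1 := by
        rcases hσ with rfl | rfl <;> nlinarith
      have h2 : (σ * s - 1) * (σ * s + 1) = 0 := by linear_combination h1
      rcases mul_eq_zero.1 h2 with h3 | h3
      · exact Or.inl (by linarith)
      · exact Or.inr (by linarith)
    rcases hss with h1 | h1
    · rw [show 2 * Real.pi * σ * s = 2 * Real.pi * (σ * s) by ring, h1]
      push_cast
      simp
    · rw [show 2 * Real.pi * σ * s = 2 * Real.pi * (σ * s) by ring, h1]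
      rw [show ((2 * Real.pi * (-1) : ℝ) : ℂ) * Complex.I = -(2 * Real.pi * Complex.I) by
        push_cast; ring, Complex.exp_neg, Complex.exp_two_pi_mul_I, inv_one]
  rw [hexp _ hysq, hexp _ (by rw [hy2, neg_sq, hysq]), mul_one, mul_one] at e1
  exact e1

end Pool.B203
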