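import Pool.Agent.Lib.B203.TubeB

/-! Row TubeC: thin tubes are embedded. -/

open Set Metric Topology
open scoped ContDiff Quaternion ComplexConjugate

noncomputable section

namespace Pool.B203

private theorem TubeC_local {σ : ℝ} {q₀ : ℝ × E3} (h : Function.Injective (fderiv ℝ (jc σ) q₀)) :
    (∃ N ∈ 𝓝 q₀, InjOn (jc σ) N) ∧ Filter.map (jc σ) (𝓝 q₀) = 𝓝 (jc σ q₀) := by
  have hs : HasStrictFDerivAt (jc σ) (fderiv ℝ (jc σ) q₀) q₀ :=
    ((TubeB_contDiff_jc σ).contDiffAt).hasStrictFDerivAt (by simp)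
  let e : (ℝ × E3) ≃L[ℝ] (ℝ × E3) := (LinearEquiv.ofInjectiveEndo
    (fderiv ℝ (jc σ) q₀ : (ℝ × E3) →ₗ[ℝ] (ℝ × E3)) h).toContinuousLinearEquiv
  have he : (e : (ℝ × E3) →L[ℝ] (ℝ × E3)) = fderiv ℝ (jc σ) q₀ := by
    exact ContinuousLinearMap.ext fun x => rfl
  rw [← he] at hs
  refine ⟨⟨hs.toOpenPartialHomeomorph.source, ?_, ?_⟩, hs.map_nhds_eq_of_equiv⟩
  · exact hs.toOpenPartialHomeomorph.open_source.mem_nhds hs.mem_toOpenPartialHomeomorph_source
  · have h1 := hs.toOpenPartialHomeomorph.injOn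
    rwa [hs.toOpenPartialHomeomorph_coe] at h1

private theorem TubeC_ph_exp {z₀ z : ℂ} (h₀ : ‖z₀‖ = 1) (h : ‖z‖ = 1) {φ : ℝ}
    (hφ : Complex.exp (φ * Complex.I) = z₀) :
    Complex.exp (((φ + Complex.arg (z / z₀) : ℝ) : ℂ) * Complex.I) = z := by
  have hz₀ : z₀ ≠ 0 := by
    rw [← norm_pos_iff, h₀]
    norm_num
  have h1 : Complex.exp ((Complex.arg (z / z₀) : ℂ) * Complex.I) = z / z₀ := by
    have h2 := Complex.norm_mul_exp_arg_mul_I (z / z₀)
    rwa [norm_div, h, h₀, div_one, Complex.ofReal_one, one_mul] at h2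
  rw [Complex.ofReal_add, add_mul, Complex.exp_add, hφ, h1, mul_div_cancel₀ _ hz₀]

private theorem TubeC_ph_cont {z₀ : ℂ} (h₀ : ‖z₀‖ = 1) (φ : ℝ) :
    ContinuousAt (fun z : ℂ => φ + Complex.arg (z / z₀)) z₀ ∧ φ + Complex.arg (z₀ / z₀) = φ := by
  have hz₀ : z₀ ≠ 0 := by
    rw [← norm_pos_iff, h₀]
    norm_num
  have h1 : z₀ / z₀ = 1 := div_self hz₀
  refine ⟨?_, by rw [h1, Complex.arg_one, add_zero]⟩
  refine continuousAt_const.add ?_
  have h2 : ContinuousAt (fun z : ℂ => z / z₀) z₀ := continuousAt_id.div_const z₀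
  refine ContinuousAt.comp (g := Complex.arg) ?_ h2
  rw [h1]
  exact Complex.continuousAt_arg Complex.one_mem_slitPlane

private theorem TubeC_exists_phase {z : ℂ} (h : ‖z‖ = 1) :
    ∃ φ : ℝ, Complex.exp (φ * Complex.I) = z := by
  refine ⟨Complex.arg z, ?_⟩
  have h2 := Complex.norm_mul_exp_arg_mul_I z
  rwa [h, Complex.ofReal_one, one_mul] at h2

private theorem TubeC_mk {X : Type*} [TopologicalSpace X] {f : X → ℍ[ℝ]}
    (ha : Continuous fun x => (f x).re) (hb : Continuous fun x => (f x).imI)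
    (hc : Continuous fun x => (f x).imJ) (hd : Continuous fun x => (f x).imK) :
    Continuous f := by
  let e0 : ℍ[ℝ] := ⟨1, 0, 0, 0⟩
  let e1 : ℍ[ℝ] := ⟨0, 1, 0, 0⟩
  let e2 : ℍ[ℝ] := ⟨0, 0, 1, 0⟩
  let e3 : ℍ[ℝ] := ⟨0, 0, 0, 1⟩
  have h : f = fun x => (f x).re • e0 + (f x).imI • e1 + (f x).imJ • e2 + (f x).imK • e3 := by
    funext x
    ext <;> simp [e0, e1, e2, e3]
  rw [h]
  exact (((ha.smul continuous_const).add (hb.smul continuous_const)).add
    (hc.smul continuous_const)).add (hd.smul continuous_const)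

private theorem TubeC_cont (σ : ℝ) : Continuous (J σ) := by
  have hp : ∀ i : Fin 3, Continuous (fun q : Amb => q.2 i) := fun i =>
    (EuclideanSpace.proj i : E3 →L[ℝ] ℝ).continuous.comp continuous_snd
  have hre : Continuous (fun q : Amb => q.1.re) := Complex.continuous_re.comp continuous_fst
  have him : Continuous (fun q : Amb => q.1.im) := Complex.continuous_im.comp continuous_fst
  have h0 := hp 0
  have h1 := hp 1
  have h2 := hp 2
  have hJ1 : Continuous (fun p => (J σ p).1) := by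
    unfold J
    refine continuous_fst.mul (Complex.continuous_exp.comp (Continuous.mul ?_ continuous_const))
    refine Complex.continuous_ofReal.comp ?_
    fun_prop
  have hJ2 : Continuous (fun p => (J σ p).2) := by
    refine TubeC_mk ?_ ?_ ?_ ?_
    · simp only [J]
      fun_prop
    · simp only [J]
      fun_prop
    · simp only [J]
      fun_prop
    · simp only [J]
      fun_prop
  exact hJ1.prodMk hJ2

private theorem TubeC_normSq (q : ℍ[ℝ]) :
    ‖q‖ ^ 2 = q.re ^ 2 + q.imI ^ 2 + q.imJ ^ 2 + q.imK ^ 2 := by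
  rw [pow_two, ← Quaternion.normSq_eq_norm_mul_self, Quaternion.normSq_def']

private theorem TubeC_rad {σ : ℝ} (hσ : σ = 1 ∨ σ = -1) {p : Amb} (hp : p ∈ tubC (1 / 100)) :
    0 < 1 - (p.1.re * p.1.im + (1 + 2 * Real.pi * σ * p.1.re) * p.2 0) ^ 2
          - (σ * p.1.re / 2 + p.2 1) ^ 2 - (p.2 2) ^ 2 := by
  obtain ⟨h1, h2⟩ := hp
  set x := p.1.re
  set y := p.1.im
  have hn : x ^ 2 + y ^ 2 = 1 := by
    have h3 := Complex.sq_norm p.1
    rw [h1, Complex.normSq_apply] at h3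
    linarith
  have hui : ∀ i : Fin 3, |p.2 i| ≤ 1 / 100 := by
    intro i
    have h3 : ‖p.2 i‖ ≤ ‖p.2‖ := PiLp.norm_apply_le p.2 i
    rw [Real.norm_eq_abs] at h3
    linarith
  have hpi1 := Real.pi_gt_d2
  have hpi2 := Real.pi_lt_d2
  have hσa : |σ| = 1 := by rcases hσ with rfl | rfl <;> norm_num
  have hx1 : |x| ≤ 1 := by
    rw [abs_le]
    constructor <;> nlinarith
  have hxy : |x * y| ≤ 1 / 2 := by
    rw [abs_le]
    constructor <;> nlinarith [sq_nonneg (x + y), sq_nonneg (x - y)]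
  have hT : |1 + 2 * Real.pi * σ * x| ≤ 8 := by
    refine (abs_add_le _ _).trans ?_
    have h4 : |2 * Real.pi * σ * x| ≤ 2 * 3.15 * 1 * 1 := by
      rw [abs_mul, abs_mul, abs_mul, abs_of_pos Real.pi_pos, abs_two, hσa]
      refine mul_le_mul ?_ hx1 (abs_nonneg _) (by norm_num)
      nlinarith
    rw [abs_one]
    linarith
  have ha : |x * y + (1 + 2 * Real.pi * σ * x) * p.2 0| ≤ 0.58 := by
    refine (abs_add_le _ _).trans ?_
    have h5 : |(1 + 2 * Real.pi * σ * x) * p.2 0| ≤ 8 * (1 / 100) := by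
      rw [abs_mul]
      exact mul_le_mul hT (hui 0) (abs_nonneg _) (by norm_num)
    linarith
  have hb : |σ * x / 2 + p.2 1| ≤ 0.51 := by
    refine (abs_add_le _ _).trans ?_
    have h5 : |σ * x / 2| ≤ 1 / 2 := by
      rw [abs_div, abs_mul, hσa, abs_two]
      linarith
    linarith [hui 1]
  have ha2 := sq_le_sq' (abs_le.1 ha).1 (abs_le.1 ha).2
  have hb2 := sq_le_sq' (abs_le.1 hb).1 (abs_le.1 hb).2
  have hc2 := sq_le_sq' (abs_le.1 (hui 2)).1 (abs_le.1 (hui 2)).2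
  norm_num at ha2 hb2 hc2
  linarith

private theorem TubeC_imI {σ : ℝ} (hσ : σ = 1 ∨ σ = -1) {p : Amb} (hp : p ∈ tubC (1 / 100)) :
    0 < (J σ p).2.imI := by
  simp only [J]
  exact Real.sqrt_pos.2 (TubeC_rad hσ hp)

private theorem TubeC_mem {σ : ℝ} (hσ : σ = 1 ∨ σ = -1) {p : Amb} (hp : p ∈ tubC (1 / 100)) :
    J σ p ∈ M := by
  have hr := TubeC_rad hσ hp
  refine ⟨?_, ?_⟩
  · simp only [J]
    rw [norm_mul, Complex.norm_exp_ofReal_mul_I, mul_one]
    exact hp.1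
  · have h1 : ‖(J σ p).2‖ ^ 2 = 1 := by
      rw [TubeC_normSq]
      simp only [J]
      rw [Real.sq_sqrt hr.le]
      ring
    have h2 : 0 ≤ ‖(J σ p).2‖ := norm_nonneg _
    have h3 : (‖(J σ p).2‖ - 1) * (‖(J σ p).2‖ + 1) = 0 := by linear_combination h1
    rcases mul_eq_zero.1 h3 with h4 | h4
    · linarith
    · linarith

private theorem TubeC_ch_inj {q q' : ℝ × E3} (h : ch q = ch q') (hd : |q.1 - q'.1| < 2 * Real.pi) :
    q = q' := by
  have h1 : Complex.exp (q.1 * Complex.I) = Complex.exp (q'.1 * Complex.I) := congrArg Prod.fst h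
  have h2 : (ch q).2 = (ch q').2 := congrArg Prod.snd h
  have e0 : (ch q).2.re = (ch q').2.re := congrArg _ h2
  have e1 : (ch q).2.imJ = (ch q').2.imJ := congrArg _ h2
  have e2 : (ch q).2.imK = (ch q').2.imK := congrArg _ h2
  simp only [ch] at e0 e1 e2
  rw [Complex.exp_eq_exp_iff_exists_int] at h1
  obtain ⟨n, hn⟩ := h1
  have h3 : q.1 = q'.1 + n * (2 * Real.pi) := by
    have h4 : ((q.1 : ℂ)) * Complex.I = ((q'.1 + n * (2 * Real.pi) : ℝ) : ℂ) * Complex.I := by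
      rw [hn]
      push_cast
      ring
    have h5 := mul_right_cancel₀ Complex.I_ne_zero h4
    exact_mod_cast h5
  have hn0 : n = 0 := by
    have h4 : |(n : ℝ)| < 1 := by
      have h5 : q.1 - q'.1 = n * (2 * Real.pi) := by linarith
      rw [h5, abs_mul, abs_of_pos Real.two_pi_pos] at hd
      exact (mul_lt_iff_lt_one_left Real.two_pi_pos).1 hd
    have h6 : |n| < 1 := by exact_mod_cast h4
    exact Int.abs_lt_one_iff.1 h6
  refine Prod.ext ?_ ?_
  · rw [h3, hn0]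
    simp
  · ext i
    fin_cases i
    · exact e0
    · exact e1
    · exact e2

private theorem TubeC_inj {σ : ℝ} (hσ : σ = 1 ∨ σ = -1) : ∃ ε : ℝ, 0 < ε ∧ InjOn (J σ) (tubC ε) := by
  obtain ⟨ε₁, hε₁, hε₁p⟩ := ((jc_deriv hσ).and self_mem_nhdsWithin).exists
  let f : Circle × E3 → MAmb := fun p => J σ ((p.1 : ℂ), p.2)
  have hf : Continuous f := (TubeC_cont σ).comp
    ((continuous_subtype_val.comp continuous_fst).prodMk continuous_snd)
  have hinj : InjOn f (univ ×ˢ {0}) := by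
    rintro ⟨z, u⟩ ⟨-, hu⟩ ⟨z', u'⟩ ⟨-, hu'⟩ hzz
    rw [mem_singleton_iff] at hu hu'
    subst hu
    subst hu'
    have h1 : (z : ℂ) = z' := core_inj hσ (Circle.norm_coe z) (Circle.norm_coe z') hzz
    exact Prod.ext (Subtype.ext h1) rfl
  obtain ⟨t, ht, htinj⟩ := hinj.exists_mem_nhdsSet (isCompact_univ.prod isCompact_singleton)
    (fun x _ => hf.continuousAt) (by
    rintro ⟨z₀, u₀⟩ ⟨-, hu₀⟩
    rw [mem_singleton_iff] at hu₀
    subst hu₀
    obtain ⟨φ, hφ⟩ := TubeC_exists_phase (Circle.norm_coe z₀)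
    obtain ⟨⟨N, hN, hNinj⟩, -⟩ := TubeC_local (σ := σ) (q₀ := (φ, 0))
      (hε₁ φ 0 (by rw [norm_zero]; exact hε₁p.le))
    obtain ⟨hc, hv⟩ := TubeC_ph_cont (Circle.norm_coe z₀) φ
    let g : Circle × E3 → ℝ × E3 := fun p => (φ + Complex.arg ((p.1 : ℂ) / z₀), p.2)
    have hg : ContinuousAt g (z₀, 0) := by
      refine ContinuousAt.prodMk ?_ continuousAt_snd
      exact ContinuousAt.comp (g := fun z : ℂ => φ + Complex.arg (z / z₀))
        (f := fun p : Circle × E3 => (p.1 : ℂ)) hc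
        (continuous_subtype_val.comp continuous_fst).continuousAt
    have hg0 : g (z₀, 0) = (φ, 0) := Prod.ext hv rfl
    have h1 : ∀ᶠ p in 𝓝 ((z₀, 0) : Circle × E3), g p ∈ N := by
      apply hg
      rw [hg0]
      exact hN
    have h2 : ∀ᶠ p in 𝓝 ((z₀, 0) : Circle × E3), |(jc σ (g p)).1 - (jc σ (φ, 0)).1| < Real.pi := by
      have h3 : ContinuousAt (fun p => |(jc σ (g p)).1 - (jc σ (φ, 0)).1|) ((z₀, 0) : Circle × E3) := by
        have h4 : ContinuousAt (fun p => jc σ (g p)) ((z₀, 0) : Circle × E3) :=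
          ContinuousAt.comp (g := jc σ) (TubeB_contDiff_jc σ).continuous.continuousAt hg
        exact ((continuousAt_fst.comp h4).sub continuousAt_const).abs
      refine h3.eventually (gt_mem_nhds ?_)
      simp only [hg0, sub_self, abs_zero]
      exact Real.pi_pos
    refine ⟨_, h1.and h2, ?_⟩
    rintro ⟨z, u⟩ ⟨ha1, ha2⟩ ⟨z', u'⟩ ⟨hb1, hb2⟩ heq
    have k1 : f (z, u) = ch (jc σ (g (z, u))) := by
      rw [← J_exp]
      simp only [f]
      rw [TubeC_ph_exp (Circle.norm_coe z₀) (Circle.norm_coe z) hφ]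
    have k2 : f (z', u') = ch (jc σ (g (z', u'))) := by
      rw [← J_exp]
      simp only [f]
      rw [TubeC_ph_exp (Circle.norm_coe z₀) (Circle.norm_coe z') hφ]
    rw [k1, k2] at heq
    have k3 : jc σ (g (z, u)) = jc σ (g (z', u')) := by
      refine TubeC_ch_inj heq ?_
      rw [abs_lt] at ha2 hb2 ⊢
      constructor <;> linarith [ha2.1, ha2.2, hb2.1, hb2.2]
    have k4 : g (z, u) = g (z', u') := hNinj ha1 hb1 k3
    have k5 : φ + Complex.arg ((z : ℂ) / z₀) = φ + Complex.arg ((z' : ℂ) / z₀) :=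
      congrArg Prod.fst k4
    have k6 : u = u' := congrArg Prod.snd k4
    have k7 : (z : ℂ) = z' := by
      rw [← TubeC_ph_exp (Circle.norm_coe z₀) (Circle.norm_coe z) hφ,
        ← TubeC_ph_exp (Circle.norm_coe z₀) (Circle.norm_coe z') hφ, k5]
    exact Prod.ext (Subtype.ext k7) k6)
  obtain ⟨o, ho, hso, hot⟩ := mem_nhdsSet_iff_exists.1 ht
  obtain ⟨a, b, -, hb, ha', hb', hab⟩ := generalized_tube_lemma isCompact_univ isCompact_singleton
    ho hso
  obtain ⟨r, hr, hrb⟩ := Metric.isOpen_iff.1 hb 0 (hb' rfl)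
  refine ⟨r / 2, by linarith, ?_⟩
  have hmem : ∀ p ∈ tubC (r / 2), ∃ z : Circle, (z : ℂ) = p.1 ∧ (z, p.2) ∈ t := by
    intro p hp
    refine ⟨⟨p.1, mem_sphere_zero_iff_norm.2 hp.1⟩, rfl, ?_⟩
    refine hot (hab ⟨ha' trivial, hrb ?_⟩)
    rw [mem_ball_zero_iff]
    have := hp.2
    linarith
  intro p hp p' hp' hpp
  obtain ⟨z, hz, hzt⟩ := hmem p hp
  obtain ⟨z', hz', hzt'⟩ := hmem p' hp'
  have h1 : f (z, p.2) = f (z', p'.2) := by
    simp only [f, hz, hz']
    exact hpp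
  have h2 := htinj hzt hzt' h1
  rw [Prod.mk.injEq] at h2
  obtain ⟨h3, h4⟩ := h2
  exact Prod.ext (by rw [← hz, ← hz', h3]) h4

private theorem TubeC_opn {σ : ℝ} (hσ : σ = 1 ∨ σ = -1) {δ : ℝ} (hδ : δ ≤ 1 / 100)
    (hd : ∀ (φ : ℝ) (u : E3), ‖u‖ ≤ δ → Function.Injective (fderiv ℝ (jc σ) (φ, u))) :
    ∃ O : Set MAmb, IsOpen O ∧ J σ '' tubO δ = O ∩ M := by
  have hsub : ∀ p ∈ tubO δ, p ∈ tubC (1 / 100) := fun p hp => ⟨hp.1, hp.2.le.trans hδ⟩
  have key : ∀ m ∈ J σ '' tubO δ, ∀ᶠ y in 𝓝 m, y ∈ M → y ∈ J σ '' tubO δ := by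
    rintro _ ⟨⟨ζ, u⟩, hp, rfl⟩
    obtain ⟨φ, hφ⟩ := TubeC_exists_phase hp.1
    simp only at hφ
    have hmM := TubeC_mem hσ (hsub _ hp)
    have hmI := TubeC_imI hσ (hsub _ hp)
    have hmch : J σ (ζ, u) = ch (jc σ (φ, u)) := by rw [← J_exp, hφ]
    obtain ⟨-, hmap⟩ := TubeC_local (hd φ u hp.2.le)
    have hN : {q : ℝ × E3 | ‖q.2‖ < δ} ∈ 𝓝 ((φ, u) : ℝ × E3) :=
      (isOpen_lt (continuous_norm.comp continuous_snd) continuous_const).mem_nhds hp.2
    have hN' : jc σ '' {q : ℝ × E3 | ‖q.2‖ < δ} ∈ 𝓝 (jc σ (φ, u)) := by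
      rw [← hmap]
      exact Filter.image_mem_map hN
    set m := J σ (ζ, u) with hm
    have hm1 : Complex.exp ((jc σ (φ, u)).1 * Complex.I) = m.1 := by
      rw [hmch]
      rfl
    obtain ⟨hc, hv⟩ := TubeC_ph_cont hmM.1 (jc σ (φ, u)).1
    let κ : MAmb → ℝ × E3 := fun y =>
      ((jc σ (φ, u)).1 + Complex.arg (y.1 / m.1), !₂[y.2.re, y.2.imJ, y.2.imK])
    have hκ : ContinuousAt κ m := by
      refine ContinuousAt.prodMk ?_ ?_
      · exact ContinuousAt.comp (g := fun z : ℂ => (jc σ (φ, u)).1 + Complex.arg (z / m.1))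
          (f := fun p : MAmb => p.1) hc continuousAt_fst
      · refine Continuous.continuousAt ?_
        have a0 : Continuous fun y : MAmb => y.2.re := Quaternion.continuous_re.comp continuous_snd
        have a1 : Continuous fun y : MAmb => y.2.imJ := Quaternion.continuous_imJ.comp continuous_snd
        have a2 : Continuous fun y : MAmb => y.2.imK := Quaternion.continuous_imK.comp continuous_snd
        refine (PiLp.continuous_toLp 2 _).comp (continuous_pi fun i => ?_)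
        fin_cases i
        · exact a0
        · exact a1
        · exact a2
    have hκm : κ m = jc σ (φ, u) := by
      refine Prod.ext hv ?_
      simp only [κ]
      rw [hmch]
      ext i
      fin_cases i <;> rfl
    have h1 : ∀ᶠ y in 𝓝 m, κ y ∈ jc σ '' {q : ℝ × E3 | ‖q.2‖ < δ} := by
      apply hκ
      rw [hκm]
      exact hN'
    have h2 : ∀ᶠ y in 𝓝 m, 0 < y.2.imI :=
      (isOpen_lt continuous_const (Quaternion.continuous_imI.comp continuous_snd)).mem_nhds hmI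
    filter_upwards [h1, h2] with y hy1 hy2 hyM
    obtain ⟨q, hq, hqy⟩ := hy1
    refine ⟨(Complex.exp (q.1 * Complex.I), q.2), ⟨?_, hq⟩, ?_⟩
    · exact Complex.norm_exp_ofReal_mul_I _
    · rw [J_exp, show ((q.1, q.2) : ℝ × E3) = q from rfl, hqy]
      refine Prod.ext ?_ ?_
      · simp only [ch, κ]
        exact TubeC_ph_exp hmM.1 hyM.1 hm1
      · have h3 := TubeC_normSq y.2
        rw [hyM.2] at h3
        have h4 : √(1 - y.2.re ^ 2 - y.2.imJ ^ 2 - y.2.imK ^ 2) = y.2.imI := by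
          rw [show 1 - y.2.re ^ 2 - y.2.imJ ^ 2 - y.2.imK ^ 2 = y.2.imI ^ 2 by linarith]
          exact Real.sqrt_sq hy2.le
        ext
        · rfl
        · exact h4
        · rfl
        · rfl
  refine ⟨{m | ∀ᶠ y in 𝓝 m, y ∈ M → y ∈ J σ '' tubO δ}, isOpen_setOfPred_eventually_nhds, ?_⟩
  ext m
  constructor
  · intro hm
    refine ⟨key m hm, ?_⟩
    obtain ⟨p, hp, rfl⟩ := hm
    exact TubeC_mem hσ (hsub p hp)
  · rintro ⟨h1, h2⟩
    exact h1.self_of_nhds h2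

theorem eventually_good {σ : ℝ} (hσ : σ = 1 ∨ σ = -1) : ∀ᶠ ε in 𝓝[>] (0 : ℝ), Good σ ε := by
  obtain ⟨ε₀, hε₀, hinj⟩ := TubeC_inj hσ
  obtain ⟨ε₁, hε₁, hε₁p⟩ := ((jc_deriv hσ).and self_mem_nhdsWithin).exists
  have hev : ∀ᶠ ε in 𝓝[>] (0 : ℝ), ε ≤ min (min ε₀ ε₁) (1 / 100) :=
    Filter.Eventually.filter_mono nhdsWithin_le_nhds
      (ge_mem_nhds (lt_min (lt_min hε₀ hε₁p) (by norm_num)))
  filter_upwards [hev, self_mem_nhdsWithin] with ε hε hεp
  rw [mem_Ioi] at hεp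
  have h1 : ε ≤ ε₀ := hε.trans ((min_le_left _ _).trans (min_le_left _ _))
  have h2 : ε ≤ ε₁ := hε.trans ((min_le_left _ _).trans (min_le_right _ _))
  have h3 : ε ≤ 1 / 100 := hε.trans (min_le_right _ _)
  have hsub : ∀ p ∈ tubC ε, p ∈ tubC (1 / 100) := fun p hp => ⟨hp.1, hp.2.trans h3⟩
  exact
    { pos := hεp
      imI_pos := fun p hp => TubeC_imI hσ (hsub p hp)
      mem := fun p hp => TubeC_mem hσ (hsub p hp)
      inj := hinj.mono (show tubC ε ⊆ tubC ε₀ from fun p hp => ⟨hp.1, hp.2.trans h1⟩)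
      cont := (TubeC_cont σ).continuousOn
      opn := fun δ hδ hδε => TubeC_opn hσ (hδε.trans h3)
        (fun φ u hu => hε₁ φ u (hu.trans (hδε.trans h2))) }

theorem good_neg {σ ε : ℝ} (h : Good σ ε) : Good (-σ) ε := by
  have hJ : ∀ p : Amb, J (-σ) p = (-(J σ (-p.1, p.2)).1, (J σ (-p.1, p.2)).2) := by
    intro p
    have h1 := J_neg (-σ) (-p.1, p.2)
    simp only [neg_neg] at h1
    exact h1
  have hn : ∀ {δ : ℝ} {p : Amb}, p ∈ tubC δ → ((-p.1, p.2) : Amb) ∈ tubC δ := by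
    intro δ p hp
    exact ⟨by rw [norm_neg]; exact hp.1, hp.2⟩
  have hnc : Continuous (fun p : Amb => ((-p.1, p.2) : Amb)) :=
    continuous_fst.neg.prodMk continuous_snd
  have hnm : Continuous (fun p : MAmb => ((-p.1, p.2) : MAmb)) :=
    continuous_fst.neg.prodMk continuous_snd
  refine
    { pos := h.pos
      imI_pos := fun p hp => ?_
      mem := fun p hp => ?_
      inj := fun p hp p' hp' hpp => ?_
      cont := ?_
      opn := fun δ hδ hδε => ?_ }
  · rw [hJ]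
    exact h.imI_pos _ (hn hp)
  · rw [hJ]
    have h1 := h.mem _ (hn hp)
    exact ⟨by rw [norm_neg]; exact h1.1, h1.2⟩
  · rw [hJ, hJ] at hpp
    rw [Prod.mk.injEq] at hpp
    have h1 : J σ (-p.1, p.2) = J σ (-p'.1, p'.2) := Prod.ext (neg_injective hpp.1) hpp.2
    have h2 := h.inj (hn hp) (hn hp') h1
    rw [Prod.mk.injEq] at h2
    exact Prod.ext (neg_injective h2.1) h2.2
  · have h1 : ContinuousOn (fun p : Amb => J σ (-p.1, p.2)) (tubC ε) :=
      h.cont.comp hnc.continuousOn fun p hp => hn hp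
    have h2 : ContinuousOn (fun p : Amb => ((-(J σ (-p.1, p.2)).1, (J σ (-p.1, p.2)).2) : MAmb))
        (tubC ε) := hnm.comp_continuousOn h1
    exact h2.congr fun p _ => hJ p
  · obtain ⟨O, hO, hOM⟩ := h.opn δ hδ hδε
    refine ⟨(fun p : MAmb => ((-p.1, p.2) : MAmb)) ⁻¹' O, hO.preimage hnm, ?_⟩
    ext m
    constructor
    · rintro ⟨p, hp, rfl⟩
      have h1 : J σ (-p.1, p.2) ∈ O ∩ M := by
        rw [← hOM]
        exact ⟨(-p.1, p.2), ⟨by rw [norm_neg]; exact hp.1, hp.2⟩, rfl⟩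
      rw [hJ]
      refine ⟨?_, ?_⟩
      · simp only [mem_preimage, neg_neg]
        exact h1.1
      · exact ⟨by rw [norm_neg]; exact h1.2.1, h1.2.2⟩
    · rintro ⟨h1, h2⟩
      have h3 : ((-m.1, m.2) : MAmb) ∈ O ∩ M := ⟨h1, by rw [norm_neg]; exact h2.1, h2.2⟩
      rw [← hOM] at h3
      obtain ⟨p, hp, hpm⟩ := h3
      refine ⟨(-p.1, p.2), ⟨by rw [norm_neg]; exact hp.1, hp.2⟩, ?_⟩
      rw [hJ]
      simp only [neg_neg]
      rw [show ((p.1, p.2) : Amb) = p from rfl, hpm]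
      simp

theorem Good.mono {σ ε δ : ℝ} (h : Good σ ε) (hδ : 0 < δ) (hδε : δ ≤ ε) : Good σ δ := by
  have hsub : tubC δ ⊆ tubC ε := fun p hp => ⟨hp.1, hp.2.trans hδε⟩
  exact
    { pos := hδ
      imI_pos := fun p hp => h.imI_pos p (hsub hp)
      mem := fun p hp => h.mem p (hsub hp)
      inj := h.inj.mono hsub
      cont := h.cont.mono hsub
      opn := fun δ' hδ' hδ'δ => h.opn δ' hδ' (hδ'δ.trans hδε) }

end Pool.B203
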