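import Pool.Agent.Lib.B203.Ell

/-! The structure `Good`. -/

open Set Metric Topology
open scoped ContDiff Quaternion ComplexConjugate

noncomputable section

namespace Pool.B203

/-- The tube of radius `ε` is embedded. -/
structure Good (σ ε : ℝ) : Prop where
  pos : 0 < ε
  imI_pos : ∀ p ∈ tubC ε, 0 < (J σ p).2.imI
  mem : ∀ p ∈ tubC ε, J σ p ∈ M
  inj : InjOn (J σ) (tubC ε)
  cont : ContinuousOn (J σ) (tubC ε)
  opn : ∀ δ, 0 < δ → δ ≤ ε → ∃ O : Set MAmb, IsOpen O ∧ J σ '' tubO δ = O ∩ M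

end Pool.B203
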