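import Pool.Agent.Lib.B203.FDefs

/-! The tube coordinate as a function of `(t, y)`. -/

open Set Metric Topology
open scoped ContDiff Quaternion ComplexConjugate

noncomputable section

namespace Pool.B203

/-- The fibre coordinate of the tube as a function of the coordinates `(t, y)` around `S¹ × {1}`. -/
structure UData (η : ℍ[ℝ] → ℝ) (r₀ : ℝ) (U : ℝ × E3 → E3) : Prop where
  pos : 0 < r₀
  smooth : ∀ t y, ‖y‖ ≤ r₀ → ContDiffAt ℝ ∞ U (t, y)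
  per : ∀ t y, U (t + 2 * Real.pi, y) = U (t, y)
  zero : ∀ t, U (t, 0) = 0
  /-- `(e^{it}, sy y)` is the image of the tube point with fibre coordinate `U (t, y)` -/
  eq : ∀ t y, ‖y‖ ≤ r₀ → ∃ ζ : ℂ, ‖ζ‖ = 1 ∧
    PhiF η (J 1 (ζ, U (t, y))) = (Complex.exp (t * Complex.I), sy y)
  good : ∃ ε₁, Good 1 ε₁ ∧ ∀ t y, ‖y‖ ≤ r₀ → ‖U (t, y)‖ ≤ ε₁
  /-- thin tubes are covered by the chart -/
  cover : ∀ r, 0 < r → ∀ᶠ ε in 𝓝[>] (0 : ℝ), ∀ p ∈ tubC ε, ∃ (t : ℝ) (y : E3), ‖y‖ ≤ r ∧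
    PhiF η (J 1 p) = (Complex.exp (t * Complex.I), sy y)
  /-- the derivative in the `y` direction is injective at `y = 0` -/
  imm : ∀ t, ∀ y : E3, fderiv ℝ U (t, 0) (0, y) = 0 → y = 0

end Pool.B203
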